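import Mathlib

/-! LEAF V17 (medium+, MATHLIB ONLY).  Theorem of the alternative (Motzkin, Carver), by Fourier-Motzkin elimination.

PROOF.  `alt`: induction on `d`, for all finite `ι`.  `d = 0`: take `u` the empty vector: some `b i ≤ 0`, `t` = `1` at `i`, `0` elsewhere.  `d + 1`: let `α i = v i (Fin.last d)`, `v' i` = the other coordinates (`Fin.castSucc`), `g_i(u') = ∑ v'_ij u'_j + b_i`.  New index type: `{i // α i = 0} ⊕ {p // 0 < α p} × {q // α q < 0}` with the functions
`g_i` and `g_p / α_p + g_q / (- α_q)`.  If all of these were `> 0` at some `u'`: then `- g_p(u') / α_p < g_q(u') / (- α_q)` for all `p`, `q`, so there is a number `z` which is larger than all `- g_p(u') / α_p` and smaller than all `g_q(u') / (- α_q)` (finitely many; `exists_between` of the maximum and the minimum if both sets are not empty, otherwise easy: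
e.g. `Finset.exists_le`, `Order.exists_between_finsets` : `Set.Finite`, nonempty, or `Finset.sup'`), and `u = (u', z)` has all `f_i(u) > 0`: for `α_i > 0`: `α_i z + g_i > 0`, the same for `α_i < 0`.  So by the induction hypothesis there are `s ≥ 0`, not all `0`, for the new functions.  `t i = s (inl i)` for `α i = 0`, `t p = (∑_q s (inr (p,q))) / α_p` for `α_p > 0`, `t q = (∑_p s (inr (p,q))) / (- α_q)` for `α_q < 0`:
`∑ t_i v_i = 0`, also in the last coordinate (`∑_p ∑_q s - ∑_q ∑_p s = 0`), `∑ t_i b_i ≤ 0`, `t ≥ 0`, not all `0`.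
`alt_int`: apply `alt` over `ℚ` (a solution `u ∈ ℚ^d` of all `f_i(u) > 0` times a common denominator `N` would contradict `hb`), and multiply `t` by a common denominator: `e i : ℕ`. -/

set_option autoImplicit false

namespace Pool.Agent.Lib.MP_1e3e9c_agV

private theorem V17_den {ι : Type} [Fintype ι] (x : ι → ℚ) :
    ∃ N : ℕ, 0 < N ∧ ∀ i, ∃ z : ℤ, (N : ℚ) * x i = z := by
  classical
  refine ⟨∏ i, (x i).den, Finset.prod_pos fun i _ => (x i).pos, fun i => ?_⟩
  obtain ⟨c, hc⟩ := Finset.dvd_prod_of_mem (fun i => (x i).den) (Finset.mem_univ i)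
  refine ⟨c * (x i).num, ?_⟩
  rw [hc]
  push_cast
  have h := Rat.den_mul_eq_num (x i)
  calc ((x i).den : ℚ) * c * x i = c * (((x i).den : ℚ) * x i) := by ring
    _ = c * (x i).num := by rw [h]

theorem alt {F : Type} [Field F] [LinearOrder F] [IsStrictOrderedRing F] {ι : Type} [Fintype ι]
    {d : ℕ} (v : ι → Fin d → F) (b : ι → F)
    (hb : ∀ u : Fin d → F, ∃ i, ∑ j, u j * v i j + b i ≤ 0) :
    ∃ t : ι → F, (∀ i, 0 ≤ t i) ∧ t ≠ 0 ∧ (∀ j, ∑ i, t i * v i j = 0) ∧ ∑ i, t i * b i ≤ 0 := by
  classical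
  induction d generalizing ι with
  | zero =>
    obtain ⟨i, hi⟩ := hb (fun j => j.elim0)
    refine ⟨fun k => if k = i then 1 else 0, fun k => ?_, ?_, fun j => j.elim0, ?_⟩
    · show (0 : F) ≤ if k = i then 1 else 0
      split_ifs
      · exact zero_le_one
      · exact le_rfl
    · intro h
      have := congrFun h i
      simp at this
    · simpa using hi
  | succ d ih =>
    let α : ι → F := fun i => v i (Fin.last d)
    let c : ({i // α i = 0} ⊕ ({p // 0 < α p} × {q // α q < 0})) → ι → F := fun k => Sum.elim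
      (fun i0 i => if i = i0.1 then 1 else 0)
      (fun pq i => (if i = pq.1.1 then (α pq.1.1)⁻¹ else 0)
        + (if i = pq.2.1 then (-α pq.2.1)⁻¹ else 0)) k
    have hcl : ∀ (i0 : {i // α i = 0}) (G : ι → F), ∑ i, c (Sum.inl i0) i * G i = G i0.1 := by
      intro i0 G
      simp [c]
    have hcr : ∀ (p : {p // 0 < α p}) (q : {q // α q < 0}) (G : ι → F),
        ∑ i, c (Sum.inr (p, q)) i * G i = (α p.1)⁻¹ * G p.1 + (-α q.1)⁻¹ * G q.1 := by
      intro p q G
      simp [c, add_mul, Finset.sum_add_distrib]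
    have hc0 : ∀ k i, 0 ≤ c k i := by
      rintro (i0 | ⟨p, q⟩) i
      · show (0 : F) ≤ if i = i0.1 then 1 else 0
        split_ifs
        · exact zero_le_one
        · exact le_rfl
      · have h1 : 0 < (α p.1)⁻¹ := inv_pos.mpr p.2
        have h2 : 0 < (-α q.1)⁻¹ := inv_pos.mpr (neg_pos.mpr q.2)
        show (0 : F) ≤ (if i = p.1 then (α p.1)⁻¹ else 0) + (if i = q.1 then (-α q.1)⁻¹ else 0)
        split_ifs
        · exact (add_pos h1 h2).le
        · simpa using h1.le
        · simpa using h2.le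
        · simp
    have hc1 : ∀ k, ∃ i, 0 < c k i := by
      rintro (i0 | ⟨p, q⟩)
      · refine ⟨i0.1, ?_⟩
        show (0 : F) < if i0.1 = i0.1 then 1 else 0
        rw [if_pos rfl]
        exact zero_lt_one
      · refine ⟨p.1, ?_⟩
        have h1 : 0 < (α p.1)⁻¹ := inv_pos.mpr p.2
        have h2 : 0 < (-α q.1)⁻¹ := inv_pos.mpr (neg_pos.mpr q.2)
        show (0 : F) < (if p.1 = p.1 then (α p.1)⁻¹ else 0)
          + (if p.1 = q.1 then (-α q.1)⁻¹ else 0)
        rw [if_pos rfl]
        split_ifs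
        · exact add_pos h1 h2
        · simpa using h1
    have hcα : ∀ k, ∑ i, c k i * α i = 0 := by
      rintro (i0 | ⟨p, q⟩)
      · rw [hcl]
        exact i0.2
      · rw [hcr, inv_mul_cancel₀ p.2.ne']
        have hq : -α q.1 ≠ 0 := (neg_pos.mpr q.2).ne'
        have h := inv_mul_cancel₀ hq
        have h3 : (-α q.1)⁻¹ * α q.1 = -1 := by
          have : (-α q.1)⁻¹ * α q.1 = -((-α q.1)⁻¹ * -α q.1) := by ring
          rw [this, h]
        rw [h3]
        ring
    have hlin : ∀ (k : ({i // α i = 0} ⊕ ({p // 0 < α p} × {q // α q < 0}))) (u : Fin d → F),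
        ∑ j, u j * (∑ i, c k i * v i (Fin.castSucc j)) + ∑ i, c k i * b i
          = ∑ i, c k i * (∑ j, u j * v i (Fin.castSucc j) + b i) := by
      intro k u
      simp_rw [mul_add, Finset.sum_add_distrib, Finset.mul_sum]
      rw [Finset.sum_comm]
      congr 1
      refine Finset.sum_congr rfl fun i _ => Finset.sum_congr rfl fun j _ => ?_
      ring
    have hb' : ∀ u : Fin d → F, ∃ k, ∑ j, u j * (∑ i, c k i * v i (Fin.castSucc j))
        + ∑ i, c k i * b i ≤ 0 := by
      intro u
      by_contra hcon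
      push Not at hcon
      let g : ι → F := fun i => ∑ j, u j * v i (Fin.castSucc j) + b i
      have hk : ∀ k, 0 < ∑ i, c k i * g i := fun k => by
        have := hcon k
        rw [hlin k u] at this
        exact this
      obtain ⟨z, hz1, hz2⟩ := Order.exists_between_finsets
        ((Finset.univ : Finset {p // 0 < α p}).image fun p => -((α p.1)⁻¹ * g p.1))
        ((Finset.univ : Finset {q // α q < 0}).image fun q => (-α q.1)⁻¹ * g q.1)
        (by
          intro x hx y hy
          obtain ⟨p, _, rfl⟩ := Finset.mem_image.mp hx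
          obtain ⟨q, _, rfl⟩ := Finset.mem_image.mp hy
          have := hk (Sum.inr (p, q))
          rw [hcr] at this
          linarith)
      obtain ⟨i, hi⟩ := hb (Fin.snoc u z)
      rw [Fin.sum_univ_castSucc] at hi
      simp only [Fin.snoc_castSucc, Fin.snoc_last] at hi
      have hi' : g i + z * α i ≤ 0 := by
        have : g i + z * α i = ∑ x : Fin d, u x * v i x.castSucc + z * v i (Fin.last d) + b i := by
          show ∑ j, u j * v i (Fin.castSucc j) + b i + z * v i (Fin.last d) = _
          ring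
        rw [this]
        exact hi
      rcases lt_trichotomy (α i) 0 with h | h | h
      · have h1 := hz2 ((-α i)⁻¹ * g i) (Finset.mem_image.mpr ⟨⟨i, h⟩, Finset.mem_univ _, rfl⟩)
        have h2 : 0 < -α i := neg_pos.mpr h
        have h3 : z * (-α i) < g i := by
          have h4 := mul_lt_mul_of_pos_right h1 h2
          have h5 : (-α i)⁻¹ * g i * -α i = g i := by
            rw [mul_right_comm, inv_mul_cancel₀ h2.ne', one_mul]
          rwa [h5] at h4
        linarith [mul_neg z (α i)]
      · have h1 := hk (Sum.inl ⟨i, h⟩)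
        rw [hcl] at h1
        rw [h, mul_zero, add_zero] at hi'
        exact absurd hi' (not_le.mpr h1)
      · have h1 := hz1 (-((α i)⁻¹ * g i)) (Finset.mem_image.mpr ⟨⟨i, h⟩, Finset.mem_univ _, rfl⟩)
        have h4 := mul_lt_mul_of_pos_right h1 h
        have h5 : -((α i)⁻¹ * g i) * α i = -g i := by
          rw [neg_mul, mul_right_comm, inv_mul_cancel₀ h.ne', one_mul]
        rw [h5] at h4
        linarith
    obtain ⟨s, hs0, hs1, hs2, hs3⟩ := ih (fun k j => ∑ i, c k i * v i (Fin.castSucc j))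
      (fun k => ∑ i, c k i * b i) hb'
    have hsw : ∀ G : ι → F, ∑ i, (∑ k, s k * c k i) * G i = ∑ k, s k * ∑ i, c k i * G i := by
      intro G
      simp_rw [Finset.sum_mul, Finset.mul_sum]
      rw [Finset.sum_comm]
      refine Finset.sum_congr rfl fun k _ => Finset.sum_congr rfl fun i _ => ?_
      ring
    refine ⟨fun i => ∑ k, s k * c k i, fun i => Finset.sum_nonneg fun k _ =>
      mul_nonneg (hs0 k) (hc0 k i), ?_, fun j => ?_, ?_⟩
    · obtain ⟨k, hk⟩ := Function.ne_iff.mp hs1
      have hk' : 0 < s k := lt_of_le_of_ne (hs0 k) (Ne.symm hk)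
      obtain ⟨i, hi⟩ := hc1 k
      intro h
      have h1 := congrFun h i
      have h2 : s k * c k i ≤ ∑ k, s k * c k i := Finset.single_le_sum
        (f := fun k => s k * c k i) (fun k _ => mul_nonneg (hs0 k) (hc0 k i)) (Finset.mem_univ k)
      have h3 : 0 < s k * c k i := mul_pos hk' hi
      have h4 : ∑ k, s k * c k i = 0 := h1
      linarith
    · rw [hsw]
      refine Fin.lastCases ?_ (fun j => ?_) j
      · refine Finset.sum_eq_zero fun k _ => ?_
        have := hcα k
        show s k * ∑ i, c k i * v i (Fin.last d) = 0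
        rw [show ∑ i, c k i * v i (Fin.last d) = 0 from this, mul_zero]
      · exact hs2 j
    · rw [hsw]
      exact hs3

theorem alt_int {d r : ℕ} (v : Fin r → Fin d → ℤ) (b : Fin r → ℤ)
    (hb : ∀ (N : ℕ) (u : Fin d → ℤ), 0 < N → ∃ i, ∑ j, u j * v i j + N * b i ≤ 0) :
    ∃ e : Fin r → ℕ, e ≠ 0 ∧ (∀ j, ∑ i, (e i : ℤ) * v i j = 0) ∧ ∑ i, (e i : ℤ) * b i ≤ 0 := by
  classical
  obtain ⟨t, ht0, ht1, ht2, ht3⟩ := alt (F := ℚ) (fun i j => (v i j : ℚ)) (fun i => (b i : ℚ)) (by
    intro u
    obtain ⟨N, hN, hu⟩ := V17_den u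
    choose U hU using hu
    obtain ⟨i, hi⟩ := hb N U hN
    refine ⟨i, ?_⟩
    have hN' : (0 : ℚ) < N := by exact_mod_cast hN
    have h1 : ((∑ j, U j * v i j + N * b i : ℤ) : ℚ) ≤ 0 := by exact_mod_cast hi
    push_cast at h1
    have h2 : (∑ j, (U j : ℚ) * v i j) = N * ∑ j, u j * (v i j : ℚ) := by
      rw [Finset.mul_sum]
      refine Finset.sum_congr rfl fun j _ => ?_
      rw [← hU j]
      ring
    rw [h2, ← mul_add] at h1
    exact nonpos_of_mul_nonpos_right h1 hN')
  obtain ⟨D, hD, hd⟩ := V17_den t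
  choose z hz using hd
  have hD' : (0 : ℚ) < D := by exact_mod_cast hD
  have hz0 : ∀ i, 0 ≤ z i := fun i => by
    have : (0 : ℚ) ≤ z i := by
      rw [← hz i]
      exact mul_nonneg hD'.le (ht0 i)
    exact_mod_cast this
  have hzc : ∀ i, (((z i).toNat : ℤ) : ℚ) = D * t i := fun i => by
    rw [Int.toNat_of_nonneg (hz0 i), hz i]
  refine ⟨fun i => (z i).toNat, ?_, fun j => ?_, ?_⟩
  · intro h
    apply ht1
    funext i
    have h1 : (z i).toNat = 0 := congrFun h i
    have h2 := hzc i
    rw [h1] at h2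
    simp only [Nat.cast_zero, Int.cast_zero] at h2
    rcases mul_eq_zero.mp h2.symm with h3 | h3
    · exact absurd h3 hD'.ne'
    · exact h3
  · have h1 : ((∑ i, ((z i).toNat : ℤ) * v i j : ℤ) : ℚ) = 0 := by
      rw [Int.cast_sum]
      calc ∑ i, ((((z i).toNat : ℤ) * v i j : ℤ) : ℚ) = ∑ i, D * (t i * v i j) := by
            refine Finset.sum_congr rfl fun i _ => ?_
            rw [Int.cast_mul, hzc i]
            ring
        _ = 0 := by rw [← Finset.mul_sum, ht2 j, mul_zero]
    exact_mod_cast h1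
  · have h1 : ((∑ i, ((z i).toNat : ℤ) * b i : ℤ) : ℚ) ≤ 0 := by
      rw [Int.cast_sum]
      calc ∑ i, ((((z i).toNat : ℤ) * b i : ℤ) : ℚ) = ∑ i, D * (t i * b i) := by
            refine Finset.sum_congr rfl fun i _ => ?_
            rw [Int.cast_mul, hzc i]
            ring
        _ = D * ∑ i, t i * b i := by rw [← Finset.mul_sum]
        _ ≤ 0 := mul_nonpos_of_nonneg_of_nonpos hD'.le ht3
    exact_mod_cast h1

end Pool.Agent.Lib.MP_1e3e9c_agV
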