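import Pool.Agent.Lib.MP_1e3e9c_agV.VDefs
import Pool.Agent.Lib.MP_1e3e9c_agV.V17

/-! LEAF V18 (easy+).  If `K_V + X` is not big there is a relation.

PROOF.  `alt_int` (V17) for `b i = h i - 1` (`hb N u`: `∑ u_j v_ij + N (h i - 1) ≤ 0`): `e ≠ 0`, `∑ e_i v_i = 0`, `∑ e_i h_i ≤ ∑ e_i`.  Restrict to the support of `e`: `Finset.equivFin` or `Fintype.equivFin {i // 0 < e i}`: `r'` = its cardinality `> 0`, `v' = v ∘ σ`, `a' = e ∘ σ`, `h' = h ∘ σ`; the sums over `Fin r` are the sums over the support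
(`Finset.sum_subtype`, `Equiv.sum_comp`, or `Finset.sum_subset`). -/

set_option autoImplicit false

namespace Pool.Agent.Lib.MP_1e3e9c_agV

theorem rel_of_not_big {d r : ℕ} {A : Finset (Fin d → ℤ)} {v : Fin r → Fin d → ℤ} {h : Fin r → ℤ}
    (hv : ∀ i, v i ≠ 0 ∧ (∀ m ∈ A, 0 ≤ pr m (v i) + h i) ∧
      ∃ m ∈ A, ∃ m' ∈ A, m ≠ m' ∧ pr m (v i) + h i = 0 ∧ pr m' (v i) + h i = 0)
    (hb : ∀ (N : ℕ) (u : Fin d → ℤ), 0 < N → ∃ i, pr u (v i) + N * h i ≤ N) :
    ∃ (r' : ℕ) (v' : Fin r' → Fin d → ℤ) (a' : Fin r' → ℕ) (h' : Fin r' → ℤ),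
      Rel A v' a' h' ∧ 0 < r' := by
  classical
  obtain ⟨e, he, hrel, hle⟩ := alt_int v (fun i => h i - 1) (fun N u hN => by
    obtain ⟨i, hi⟩ := hb N u hN
    refine ⟨i, ?_⟩
    have h1 : pr u (v i) = ∑ j, u j * v i j := rfl
    rw [← h1]
    have h2 : (N : ℤ) * (h i - 1) = N * h i - N := by ring
    linarith)
  let σ : {i : Fin r // 0 < e i} ≃ Fin (Fintype.card {i : Fin r // 0 < e i}) :=
    Fintype.equivFin {i : Fin r // 0 < e i}
  have key : ∀ f : Fin r → ℤ, ∑ i, (e (σ.symm i).1 : ℤ) * f (σ.symm i).1 =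
      ∑ i, (e i : ℤ) * f i := by
    intro f
    rw [Equiv.sum_comp σ.symm (fun x : {i : Fin r // 0 < e i} => (e x.1 : ℤ) * f x.1)]
    rw [← Finset.sum_subtype (Finset.univ.filter (fun i => 0 < e i)) (by simp)
      (fun i => (e i : ℤ) * f i)]
    apply Finset.sum_filter_of_ne
    intro i _ hne
    rcases Nat.eq_zero_or_pos (e i) with h0 | h0
    · exact absurd (by rw [h0]; simp) hne
    · exact h0
  refine ⟨Fintype.card {i : Fin r // 0 < e i}, fun i => v (σ.symm i).1, fun i => e (σ.symm i).1,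
    fun i => h (σ.symm i).1, ?_, ?_⟩
  · refine ⟨⟨fun i => (σ.symm i).2, fun j => ?_, fun m hm i => (hv _).2.1 m hm⟩, fun i => (hv _).1,
      fun i => (hv _).2.2, ?_⟩
    · exact (key (fun i => v i j)).trans (hrel j)
    · have h1 := key h
      have h2 := key (fun _ => 1)
      simp only [mul_one] at h2
      rw [h1, h2]
      have h3 : ∑ i, (e i : ℤ) * (h i - 1) = ∑ i, (e i : ℤ) * h i - ∑ i, (e i : ℤ) := by
        rw [← Finset.sum_sub_distrib]
        exact Finset.sum_congr rfl (fun i _ => by ring)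
      linarith
  · by_contra hcon
    apply he
    funext i
    by_contra hi
    have : 0 < Fintype.card {i : Fin r // 0 < e i} :=
      Fintype.card_pos_iff.mpr ⟨⟨i, Nat.pos_of_ne_zero hi⟩⟩
    exact hcon this

end Pool.Agent.Lib.MP_1e3e9c_agV
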