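import Pool.Agent.Lib.MP_1e3e9c_agV.Main
import Pool.Agent.Lib.MP_1e3e9c_agV.V18

/-! # MP_1e3e9c_ag, project V: the final statement -/

set_option autoImplicit false

namespace Pool.Agent.Lib.MP_1e3e9c_agV

theorem final {k : Type} [Field k] [IsAlgClosed k] [CharZero k] {d r : ℕ} (hd : 4 ≤ d)
    {A : Finset (Fin d → ℤ)} {v : Fin r → Fin d → ℤ} {h : Fin r → ℤ} (hA : Full A)
    (hv : ∀ i, v i ≠ 0 ∧ (∀ m ∈ A, 0 ≤ pr m (v i) + h i) ∧
      ∃ m ∈ A, ∃ m' ∈ A, m ≠ m' ∧ pr m (v i) + h i = 0 ∧ pr m' (v i) + h i = 0)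
    (hb : ∀ (N : ℕ) (u : Fin d → ℤ), 0 < N → ∃ i, pr u (v i) + N * h i ≤ N)
    (c : (Fin d → ℤ) → k) : ∃ z, IsCurve A c z := by
  obtain ⟨r', v', a', h', hR, hr⟩ := rel_of_not_big hv hb
  exact main hd hA hR hr c

/-- the case `K_V + X ≤ 0`: `A` is the set of the points of the lattice in the polytope -/
theorem final_le {k : Type} [Field k] [IsAlgClosed k] [CharZero k] {d r : ℕ} (hd : 4 ≤ d)
    {A : Finset (Fin d → ℤ)} {v : Fin r → Fin d → ℤ} {h : Fin r → ℤ} (hA : Full A)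
    (hP : ∀ m, m ∈ A ↔ ∀ i, 0 ≤ pr m (v i) + h i) (hv : ∀ i, v i ≠ 0 ∧ h i ≤ 1 ∧
      ∃ m ∈ A, ∃ m' ∈ A, m ≠ m' ∧ pr m (v i) + h i = 0 ∧ pr m' (v i) + h i = 0)
    (c : (Fin d → ℤ) → k) : ∃ z, IsCurve A c z := by
  classical
  refine final hd (v := v) (h := h) hA (fun i => ⟨(hv i).1, fun m hm => (hP m).1 hm i, (hv i).2.2⟩)
    ?_ c
  intro N u hN
  by_contra hcon
  push Not at hcon
  have hu : ∀ i, 0 ≤ pr u (v i) := by
    intro i
    have h1 := hcon i
    have h2 := (hv i).2.1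
    have h3 : (N : ℤ) * h i ≤ N := by
      have : (0 : ℤ) ≤ N := Int.natCast_nonneg N
      nlinarith
    linarith
  -- `A` is not empty
  have hAne : A.Nonempty := by
    have h1 : (fun _ => 1 : Fin d → ℤ) ≠ 0 := by
      intro h0
      have := congrFun h0 ⟨0, by omega⟩
      simp at this
    obtain ⟨m, hm, _⟩ := hA _ h1
    exact ⟨m, hm⟩
  obtain ⟨m, hm⟩ := hAne
  have hmem : ∀ t : ℕ, m + (t : ℤ) • u ∈ A := by
    intro t
    rw [hP]
    intro i
    have h1 : pr (m + (t : ℤ) • u) (v i) = pr m (v i) + t * pr u (v i) := by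
      unfold pr
      rw [Finset.mul_sum, ← Finset.sum_add_distrib]
      refine Finset.sum_congr rfl fun j _ => ?_
      simp only [Pi.add_apply, Pi.smul_apply, smul_eq_mul]
      ring
    rw [h1]
    have h2 := (hP m).1 hm i
    have h3 : (0 : ℤ) ≤ t * pr u (v i) := mul_nonneg (Int.natCast_nonneg t) (hu i)
    linarith
  -- so `u = 0`
  have hu0 : u = 0 := by
    by_contra hu0
    have hinj : Function.Injective fun t : ℕ => m + (t : ℤ) • u := by
      intro t t' htt
      have h1 : (t : ℤ) • u = (t' : ℤ) • u := add_left_cancel htt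
      obtain ⟨j, hj⟩ : ∃ j, u j ≠ 0 := by
        by_contra hall
        push Not at hall
        exact hu0 (funext hall)
      have h2 := congrFun h1 j
      simp only [Pi.smul_apply, smul_eq_mul] at h2
      exact_mod_cast mul_right_cancel₀ hj h2
    exact Set.infinite_of_injective_forall_mem (s := (A : Set (Fin d → ℤ))) hinj hmem
      A.finite_toSet
  -- `r > 0`, and the inequality fails
  rcases Nat.eq_zero_or_pos r with hr | hr
  · subst hr
    obtain ⟨j⟩ : Nonempty (Fin d) := ⟨⟨0, by omega⟩⟩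
    have hall : ∀ m : Fin d → ℤ, m ∈ A := fun m => (hP m).2 fun i => i.elim0
    have hinj : Function.Injective fun t : ℕ => (fun _ => (t : ℤ) : Fin d → ℤ) := by
      intro t t' htt
      have h1 : (t : ℤ) = (t' : ℤ) := congrFun htt j
      exact_mod_cast h1
    exact Set.infinite_of_injective_forall_mem (s := (A : Set (Fin d → ℤ))) hinj
      (fun t => hall _) A.finite_toSet
  · have h1 := hcon ⟨0, hr⟩
    have h2 := (hv ⟨0, hr⟩).2.1
    rw [hu0] at h1
    have h3 : pr (0 : Fin d → ℤ) (v ⟨0, hr⟩) = 0 := by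
      unfold pr
      simp
    rw [h3] at h1
    have : (0 : ℤ) ≤ N := Int.natCast_nonneg N
    nlinarith

end Pool.Agent.Lib.MP_1e3e9c_agV
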