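import Pool.Agent.Lib.MP_1e3e9c_agV.MDefs

/-! LEAF M1 (medium).  The row vector `(Ga, Psi)` times the matrix.

PROOF.  Let `E_m = cd v h x p m 1`, `ε = ex v h m 1 i`, so `(ε : ℤ) = pr m (v i) + h i` for `m ∈ A` (`hR.ge`).  For a derivation `∂` of `K[X]` with `∂ (C z) = C (z') ` (`z' = δ_j z`, or `0` for `derivative`): `∂ E_m = C (mn x m ∑_l m_l x_l' / x_l) ∏ p_i^ε + C (mn x m) ∑_i ε p_i^(ε-1) ∂ p_i ∏_(i' ≠ i) p_i'^ε` (`Derivation.leibniz`, `Derivation.leibniz_pow`; `(mn x m)' = mn x m ∑_l m_l x_l' / x_l`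
for `x_l ≠ 0`: `Derivation.leibniz_zpow`, or `Derivation.leibniz_inv`).  Sum over `m` with the constants `C (c_m)`, which are killed by `δ j` (`Derivation.map_algebraMap`).  So `∂ Phi = ∑_l Ga_l C (x_l' / x_l) + ∑_i Psi_i ∂ p_i`: the entries `inl 0` (`derivative`: `x_l' = 0`) and `inl j.succ` (`Δ j`; `Δ j (C z) = C (δ j z)` and `Δ j X = 0` by `hΔ`).
Entry `inr i`: `- ∑_l Ga_l v_il + Psi_i p_i = - ∑_m c_m pr m (v i) E_m + ∑_m c_m ε E_m = h_i Phi` (`p^(ε-1) p = p^ε` if `ε > 0`, and the coefficient is `0` if `ε = 0`).  `Matrix.vecMul`, `Fintype.sum_sum_type`, `Matrix.fromBlocks_apply₁₁` etc. -/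

set_option autoImplicit false

namespace Pool.Agent.Lib.MP_1e3e9c_agV

open Polynomial Matrix

private theorem M1_prod {k R ι : Type} [CommRing k] [CommRing R] [Algebra k R] [DecidableEq ι]
    (D : Derivation k R R) (s : Finset ι) (f : ι → R) :
    D (∏ i ∈ s, f i) = ∑ i ∈ s, (∏ j ∈ s.erase i, f j) * D (f i) := by
  induction s using Finset.induction_on with
  | empty => simp
  | insert a s ha ih =>
    rw [Finset.prod_insert ha, Derivation.leibniz, ih, Finset.sum_insert ha,
      Finset.erase_insert ha, smul_eq_mul, smul_eq_mul, Finset.mul_sum, add_comm]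
    congr 1
    refine Finset.sum_congr rfl fun i hi => ?_
    have hne : a ≠ i := fun h => ha (h ▸ hi)
    rw [Finset.erase_insert_of_ne hne, Finset.prod_insert
      (fun h => ha (Finset.mem_of_mem_erase h))]
    ring

private theorem M1_mn {k K : Type} [Field k] [Field K] [Algebra k K] {d : ℕ}
    (δ : Derivation k K K) {x : Fin d → K} (hx : ∀ j, x j ≠ 0) (m : Fin d → ℤ) :
    δ (mn x m) = mn x m * ∑ l, (m l : K) * (δ (x l) / x l) := by
  unfold mn
  rw [M1_prod, Finset.mul_sum]
  refine Finset.sum_congr rfl fun l _ => ?_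
  rw [Derivation.leibniz_zpow, ← Finset.prod_erase_mul _ _ (Finset.mem_univ l),
    zpow_sub_one₀ (hx l), zsmul_eq_mul, smul_eq_mul]
  have h := hx l
  field_simp

/-- the derivative of a coordinate -/
private theorem M1_cd {k K : Type} [Field k] [Field K] [Algebra k K] {d r : ℕ}
    (D : Derivation k K[X] K[X]) (δ : Derivation k K K) (hD : ∀ z : K, D (C z) = C (δ z))
    {x : Fin d → K} (hx : ∀ j, x j ≠ 0) (v : Fin r → Fin d → ℤ) (h : Fin r → ℤ)
    (p : Fin r → K[X]) (m : Fin d → ℤ) :
    D (cd v h x p m 1) = (∑ l, C ((m l : K) * (δ (x l) / x l))) * cd v h x p m 1 +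
      ∑ i, C (mn x m * ((ex v h m 1 i : ℕ) : K)) *
        (p i ^ (ex v h m 1 i - 1) * ∏ i' ∈ Finset.univ.erase i, p i' ^ ex v h m 1 i') * D (p i) := by
  unfold cd
  rw [Derivation.leibniz, hD, M1_mn δ hx, M1_prod, smul_eq_mul, smul_eq_mul, add_comm]
  congr 1
  · rw [C_mul, map_sum]
    ring
  · rw [Finset.mul_sum]
    refine Finset.sum_congr rfl fun i _ => ?_
    rw [Derivation.leibniz_pow, nsmul_eq_mul, smul_eq_mul, C_mul]
    have h1 : C ((ex v h m 1 i : ℕ) : K) = ((ex v h m 1 i : ℕ) : K[X]) := C_eq_natCast _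
    rw [h1]
    ring

private theorem M1_Phi {k K : Type} [Field k] [Field K] [Algebra k K] {d r : ℕ}
    (D : Derivation k K[X] K[X]) (δ : Derivation k K K) (hD : ∀ z : K, D (C z) = C (δ z))
    (A : Finset (Fin d → ℤ)) (c : (Fin d → ℤ) → k)
    {x : Fin d → K} (hx : ∀ j, x j ≠ 0) (v : Fin r → Fin d → ℤ) (h : Fin r → ℤ)
    (p : Fin r → K[X]) :
    D (Phi A c v h x p) = ∑ l, Ga A c v h x p l * C (δ (x l) / x l) +
      ∑ i, Psi A c v h x p i * D (p i) := by
  unfold Phi Ga Psi
  rw [map_sum]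
  have h1 : ∀ m ∈ A, D (C (algebraMap k K (c m)) * cd v h x p m 1) =
      ∑ l, C (algebraMap k K (c m) * (m l : K)) * cd v h x p m 1 * C (δ (x l) / x l) +
      ∑ i, C (algebraMap k K (c m) * mn x m * ((ex v h m 1 i : ℕ) : K)) *
        (p i ^ (ex v h m 1 i - 1) * ∏ i' ∈ Finset.univ.erase i, p i' ^ ex v h m 1 i') *
          D (p i) := by
    intro m _
    rw [Derivation.leibniz, hD, Derivation.map_algebraMap, C_0, smul_zero, add_zero,
      smul_eq_mul, M1_cd D δ hD hx, mul_add, Finset.mul_sum, Finset.sum_mul, Finset.mul_sum]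
    congr 1
    · refine Finset.sum_congr rfl fun l _ => ?_
      rw [C_mul, C_mul]
      ring
    · refine Finset.sum_congr rfl fun i _ => ?_
      rw [C_mul, C_mul, C_mul]
      ring
  rw [Finset.sum_congr rfl h1, Finset.sum_add_distrib, Finset.sum_comm]
  congr 1
  · exact Finset.sum_congr rfl fun l _ => (Finset.sum_mul _ _ _).symm
  · rw [Finset.sum_comm]
    exact Finset.sum_congr rfl fun i _ => (Finset.sum_mul _ _ _).symm

theorem vecMul_BM {k K : Type} [Field k] [Field K] [Algebra k K] {n r : ℕ}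
    {A : Finset (Fin (n + 1) → ℤ)} {c : (Fin (n + 1) → ℤ) → k} {v : Fin r → Fin (n + 1) → ℤ}
    {a : Fin r → ℕ} {h : Fin r → ℤ} (hR : Rel0 A v a h) (δ : Fin n → Derivation k K K)
    (Δ : Fin n → Derivation k K[X] K[X]) (hΔ : ∀ j (q : K[X]) i, (Δ j q).coeff i = δ j (q.coeff i))
    {x : Fin (n + 1) → K} (hx : ∀ j, x j ≠ 0) (p : Fin r → K[X]) :
    Matrix.vecMul (Sum.elim (Ga A c v h x p) (Psi A c v h x p)) (BM v δ Δ x p) =
      Sum.elim (Fin.cons (derivative (Phi A c v h x p)) fun j => Δ j (Phi A c v h x p))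
        (fun i => C ((h i : ℤ) : K) * Phi A c v h x p) := by
  unfold BM
  rw [Matrix.vecMul_fromBlocks]
  have e1 : (Sum.elim (Ga A c v h x p) (Psi A c v h x p)) ∘ Sum.inl = Ga A c v h x p := rfl
  have e2 : (Sum.elim (Ga A c v h x p) (Psi A c v h x p)) ∘ Sum.inr = Psi A c v h x p := rfl
  rw [e1, e2]
  congr 1
  · funext j
    simp only [Pi.add_apply, Matrix.vecMul, dotProduct, Matrix.of_apply]
    refine Fin.cases ?_ (fun j => ?_) j
    · have h1 := M1_Phi ((derivative' : Derivation K K[X] K[X]).restrictScalars k)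
        (0 : Derivation k K K) (fun z => by
          show derivative (C z) = C ((0 : Derivation k K K) z)
          rw [derivative_C, Derivation.zero_apply, C_0]) A c hx v h p
      have h2 : ∀ q : K[X], ((derivative' : Derivation K K[X] K[X]).restrictScalars k) q =
          derivative q := fun _ => rfl
      simp only [h2] at h1
      rw [Fin.cons_zero, h1]
      simp only [Fin.cons_zero, Derivation.zero_apply, zero_div, C_0]
    · have h1 := M1_Phi (Δ j) (δ j) (fun z => by
        ext i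
        rw [hΔ, coeff_C, coeff_C]
        split_ifs
        · rfl
        · exact map_zero _) A c hx v h p
      rw [Fin.cons_succ, h1]
      simp only [Fin.cons_succ]
  · funext i
    simp only [Pi.add_apply, Matrix.vecMul, dotProduct, Matrix.of_apply]
    have h1 : ∑ i', Psi A c v h x p i' * Matrix.diagonal p i' i = Psi A c v h x p i * p i := by
      rw [Finset.sum_eq_single i, Matrix.diagonal_apply_eq]
      · intro i' _ hne
        rw [Matrix.diagonal_apply_ne _ hne, mul_zero]
      · intro hi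
        exact absurd (Finset.mem_univ i) hi
    rw [h1]
    unfold Ga Psi Phi
    have h2 : ∀ l, (∑ m ∈ A, C (algebraMap k K (c m) * (m l : K)) * cd v h x p m 1) *
        (- C ((v i l : ℤ) : K)) =
        ∑ m ∈ A, - (C (algebraMap k K (c m) * ((m l : K) * ((v i l : ℤ) : K))) *
          cd v h x p m 1) := by
      intro l
      rw [Finset.sum_mul]
      refine Finset.sum_congr rfl fun m _ => ?_
      rw [C_mul, C_mul, C_mul]
      ring
    rw [Finset.sum_congr rfl fun l _ => h2 l, Finset.sum_comm, Finset.sum_mul, Finset.mul_sum,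
      ← Finset.sum_add_distrib]
    refine Finset.sum_congr rfl fun m hm => ?_
    have h3 : ∑ l, - (C (algebraMap k K (c m) * ((m l : K) * ((v i l : ℤ) : K))) *
        cd v h x p m 1) = - (C (algebraMap k K (c m) * ((pr m (v i) : ℤ) : K)) *
          cd v h x p m 1) := by
      rw [Finset.sum_neg_distrib, ← Finset.sum_mul, ← map_sum, ← Finset.mul_sum]
      unfold pr
      push_cast
      rfl
    rw [h3]
    have h4 : C (algebraMap k K (c m) * mn x m * ((ex v h m 1 i : ℕ) : K)) *
        (p i ^ (ex v h m 1 i - 1) * ∏ i' ∈ Finset.univ.erase i, p i' ^ ex v h m 1 i') * p i =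
        C (algebraMap k K (c m) * ((ex v h m 1 i : ℕ) : K)) * cd v h x p m 1 := by
      unfold cd
      rcases Nat.eq_zero_or_pos (ex v h m 1 i) with h0 | h0
      · rw [h0]
        simp
      · rw [← Finset.mul_prod_erase _ _ (Finset.mem_univ i)]
        have h5 : p i ^ ex v h m 1 i = p i ^ (ex v h m 1 i - 1) * p i := by
          rw [← pow_succ]
          congr 1
          omega
        rw [h5, C_mul, C_mul, C_mul]
        ring
    rw [h4]
    have h6 : ((ex v h m 1 i : ℕ) : K) = ((pr m (v i) : ℤ) : K) + ((h i : ℤ) : K) := by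
      have h7 : ((ex v h m 1 i : ℕ) : ℤ) = pr m (v i) + h i := by
        unfold ex
        have h8 := hR.ge m hm i
        have h9 : pr m (v i) + ((1 : ℕ) : ℤ) * h i = pr m (v i) + h i := by
          rw [Nat.cast_one, one_mul]
        rw [h9]
        exact Int.toNat_of_nonneg h8
      have h8 : (((ex v h m 1 i : ℕ) : ℤ) : K) = ((pr m (v i) + h i : ℤ) : K) := by rw [h7]
      push_cast at h8
      exact h8
    rw [h6, mul_add, C_add, C_mul, C_mul]
    ring

end Pool.Agent.Lib.MP_1e3e9c_agV
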