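import Pool.Agent.Lib.MP_1e3e9c_agV.M1

/-! LEAF M2 (medium).  The determinant is divisible by a power of `X`, and it is not `0`.

PROOF.  Let `w = Sum.elim Ga Psi`, `B = BM ..`.  `dvd_det`: `X^(N-1) ∣ Phi` gives `X^(N-2) ∣ derivative Phi` and `X^(N-1) ∣ Δ j Phi` (the coefficients: `hΔ`, `δ j 0 = 0`), so all entries of `w ᵥ* B` (M1) are divisible by `X^(N-2)`.  `w * det B = (w ᵥ* B) ᵥ* adjugate B`, so `X^(N-2) ∣ Ga_l * det B` for all `l`.  `(Ga_l).coeff 0 = ∑ c_m m_l mn x m` (`coeff_cd`) is not `0` for some `l`: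
`X ∤ Ga_l`, so `X^(N-2) ∣ det B` (`Prime X`; `Prime.pow_dvd_of_dvd_mul_left`).
`det_ne`: suppose `det B = 0`.  Then there is `ξ ≠ 0` in `K[X]^(..)` with `B *ᵥ ξ = 0` (`Matrix.exists_mulVec_eq_zero_iff`, an integral domain).  Divide `ξ` by the largest power of `X` which divides all its entries: not all `ξ_c(0)` are `0`.  `0 = w · (B ξ) = ξ_∂ derivative Phi + ∑ ξ_j Δ_j Phi + ∑ ξ_i h_i Phi` (M1).  Let `Phi = X^μ u`, `u(0) ≠ 0`, `μ ≥ 1` (`hdvd`, `hN`, `Phi ≠ 0`).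
`X^μ` divides `Phi` and `Δ_j Phi`, so `ξ_∂ derivative Phi`; but `derivative Phi = μ X^(μ-1) u + X^μ u'` is not divisible by `X^μ` (characteristic `0`), so `X ∣ ξ_∂`.  At `X = 0`: `∑_j ξ_j(0) (δ_j x_l / x_l)_l - ∑_i ξ_i(0) v_i = 0` and, in the rows `inr i`: `∑_j ξ_j(0) δ_j(p_i(0)) + ξ_i(0) p_i(0) = ξ_i(0) = 0` (`p_i(0) = 1`, `δ_j 1 = 0`).  So
`ξ_i(0) = 0` for all `i`, and by `hind` `ξ_j(0) = 0` for all `j`: contradiction. -/

set_option autoImplicit false

namespace Pool.Agent.Lib.MP_1e3e9c_agV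

open Polynomial Matrix

variable {k K : Type} [Field k] [Field K] [Algebra k K] {n r : ℕ}
  {A : Finset (Fin (n + 1) → ℤ)} {c : (Fin (n + 1) → ℤ) → k} {v : Fin r → Fin (n + 1) → ℤ}
  {a : Fin r → ℕ} {h : Fin r → ℤ} {δ : Fin n → Derivation k K K}
  {Δ : Fin n → Derivation k K[X] K[X]} {x : Fin (n + 1) → K} {p : Fin r → K[X]}

private theorem M2_div {ι : Type} (ξ : ι → K[X]) (hξ : ξ ≠ 0) :
    ∃ (m : ℕ) (ξ' : ι → K[X]), (∀ c, ξ c = X ^ m * ξ' c) ∧ ∃ c, (ξ' c).coeff 0 ≠ 0 := by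
  classical
  obtain ⟨c₀, hc₀⟩ : ∃ c, ξ c ≠ 0 := by
    by_contra hcon
    push Not at hcon
    exact hξ (funext hcon)
  have hex : ∃ m : ℕ, ¬ ∀ c, X ^ m ∣ ξ c := by
    refine ⟨(ξ c₀).natDegree + 1, fun hall => ?_⟩
    have h1 := Polynomial.natDegree_le_of_dvd (hall c₀) hc₀
    rw [Polynomial.natDegree_X_pow] at h1
    omega
  have hsp := Nat.find_spec hex
  have hm0 : Nat.find hex ≠ 0 := by
    intro h0
    rw [h0] at hsp
    exact hsp fun c => by simp
  obtain ⟨m, hm⟩ := Nat.exists_eq_succ_of_ne_zero hm0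
  have hP : ∀ c, X ^ m ∣ ξ c := by
    by_contra hcon
    exact Nat.find_min hex (m := m) (by omega) hcon
  choose ξ' hξ' using hP
  refine ⟨m, ξ', hξ', ?_⟩
  by_contra hcon
  push Not at hcon
  refine hsp fun c => ?_
  obtain ⟨q, hq⟩ := Polynomial.X_dvd_iff.mpr (hcon c)
  exact ⟨q, by rw [hm, Nat.succ_eq_add_one, pow_succ, hξ' c, hq]; ring⟩

private theorem M2_dvdΔ {δj : Derivation k K K} {Δj : Derivation k K[X] K[X]}
    (hΔ : ∀ (q : K[X]) i, (Δj q).coeff i = δj (q.coeff i)) {N : ℕ} {q : K[X]} (hq : X ^ N ∣ q) :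
    X ^ N ∣ Δj q := by
  rw [Polynomial.X_pow_dvd_iff] at hq ⊢
  intro d hd
  rw [hΔ, hq d hd, map_zero]

theorem dvd_det (hR : Rel0 A v a h)
    (hΔ : ∀ j (q : K[X]) i, (Δ j q).coeff i = δ j (q.coeff i)) (hx : ∀ j, x j ≠ 0)
    (hp0 : ∀ i, (p i).coeff 0 = 1) {M : ℕ} (hdvd : X ^ (M + 1) ∣ Phi A c v h x p)
    (hG : ∃ l, ∑ m ∈ A, algebraMap k K (c m) * mn x m * (m l : K) ≠ 0) :
    X ^ M ∣ (BM v δ Δ x p).det := by
  classical
  set B := BM v δ Δ x p with hB
  have hder : X ^ M ∣ derivative (Phi A c v h x p) := by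
    obtain ⟨q, hq⟩ := hdvd
    refine ⟨C ((M : K) + 1) * q + X * derivative q, ?_⟩
    rw [hq, derivative_mul, derivative_X_pow]
    push_cast
    rw [pow_succ]
    ring
  have hcol : ∀ t, X ^ M ∣ Matrix.vecMul (Sum.elim (Ga A c v h x p) (Psi A c v h x p)) B t := by
    intro t
    rw [hB, vecMul_BM hR δ Δ hΔ hx p]
    rcases t with t | t
    · refine Fin.cases ?_ (fun j => ?_) t
      · exact hder
      · exact (pow_dvd_pow X (Nat.le_succ M)).trans (M2_dvdΔ (hΔ j) hdvd)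
    · exact ((pow_dvd_pow X (Nat.le_succ M)).trans hdvd).mul_left _
  obtain ⟨l, hl⟩ := hG
  have h1 : Matrix.vecMul (Matrix.vecMul (Sum.elim (Ga A c v h x p) (Psi A c v h x p)) B) B.adjugate (Sum.inl l) =
      Ga A c v h x p l * B.det := by
    rw [Matrix.vecMul_vecMul, Matrix.mul_adjugate, Matrix.vecMul_smul, Matrix.vecMul_one, Pi.smul_apply,
      smul_eq_mul, Sum.elim_inl, mul_comm]
  have h2 : X ^ M ∣ Ga A c v h x p l * B.det := by
    rw [← h1]
    change X ^ M ∣ ∑ t, Matrix.vecMul (Sum.elim (Ga A c v h x p) (Psi A c v h x p)) B t * B.adjugate t (Sum.inl l)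
    exact Finset.dvd_sum fun t _ => (hcol t).mul_right _
  have h3 : ¬ X ∣ Ga A c v h x p l := by
    rw [Polynomial.X_dvd_iff]
    have h4 : (Ga A c v h x p l).coeff 0 = ∑ m ∈ A, algebraMap k K (c m) * mn x m * (m l : K) := by
      rw [Ga, Polynomial.finsetSum_coeff]
      refine Finset.sum_congr rfl fun m _ => ?_
      rw [Polynomial.coeff_C_mul, coeff_cd x hp0]
      ring
    rw [h4]
    exact hl
  exact Polynomial.prime_X.pow_dvd_of_dvd_mul_left M h3 h2

theorem det_ne [CharZero K] (hR : Rel0 A v a h)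
    (hΔ : ∀ j (q : K[X]) i, (Δ j q).coeff i = δ j (q.coeff i)) (hx : ∀ j, x j ≠ 0)
    (hp0 : ∀ i, (p i).coeff 0 = 1) (hdvd : X ∣ Phi A c v h x p) (hne : Phi A c v h x p ≠ 0)
    (hind : LinearIndependent K fun (j : Fin n) (l : Fin (n + 1)) => δ j (x l) / x l) :
    (BM v δ Δ x p).det ≠ 0 := by
  classical
  set B := BM v δ Δ x p with hB
  intro hdet
  obtain ⟨ξ₀, hξ₀, hB0⟩ := Matrix.exists_mulVec_eq_zero_iff.mpr hdet
  obtain ⟨m, ξ, hξ, c₀, hc₀⟩ := M2_div ξ₀ hξ₀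
  have hBξ : B *ᵥ ξ = 0 := by
    have h1 : ξ₀ = (X ^ m : K[X]) • ξ := by
      funext t
      rw [hξ t, Pi.smul_apply, smul_eq_mul]
    rw [h1, Matrix.mulVec_smul] at hB0
    exact (smul_eq_zero.mp hB0).resolve_left (pow_ne_zero _ Polynomial.X_ne_zero)
  -- the relation for the logarithmic derivatives of `Phi`
  have h2 : derivative (Phi A c v h x p) * ξ (Sum.inl 0) + ∑ j, Δ j (Phi A c v h x p) * ξ (Sum.inl j.succ) +
      ∑ i, C ((h i : ℤ) : K) * Phi A c v h x p * ξ (Sum.inr i) = 0 := by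
    have h3 := Matrix.dotProduct_mulVec (Sum.elim (Ga A c v h x p) (Psi A c v h x p)) B ξ
    rw [hBξ, dotProduct_zero, hB, vecMul_BM hR δ Δ hΔ hx p] at h3
    rw [dotProduct, Fintype.sum_sum_type, Fin.sum_univ_succ] at h3
    simp only [Sum.elim_inl, Sum.elim_inr, Fin.cons_zero, Fin.cons_succ] at h3
    exact h3.symm
  obtain ⟨μ, U, hU, _, hu⟩ := M2_div (fun _ : Unit => Phi A c v h x p) (fun h0 => hne (congrFun h0 ()))
  have hu0 := hU ()
  set u := U () with hudef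
  have hμ : μ ≠ 0 := by
    intro h0
    rw [h0, pow_zero, one_mul] at hu0
    rw [hu0] at hdvd
    exact hu (Polynomial.X_dvd_iff.mp hdvd)
  obtain ⟨N, rfl⟩ := Nat.exists_eq_succ_of_ne_zero hμ
  have hX : X ^ (N + 1) ∣ Phi A c v h x p := ⟨u, hu0⟩
  have h4 : X ^ (N + 1) ∣ derivative (Phi A c v h x p) * ξ (Sum.inl 0) := by
    have h5 : derivative (Phi A c v h x p) * ξ (Sum.inl 0) =
        -(∑ j, Δ j (Phi A c v h x p) * ξ (Sum.inl j.succ) + ∑ i, C ((h i : ℤ) : K) * Phi A c v h x p * ξ (Sum.inr i)) := by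
      rw [eq_neg_iff_add_eq_zero, ← add_assoc]
      exact h2
    rw [h5, dvd_neg]
    refine dvd_add (Finset.dvd_sum fun j _ => (M2_dvdΔ (hΔ j) hX).mul_right _)
      (Finset.dvd_sum fun i _ => (hX.mul_left _).mul_right _)
  have h6 : derivative (Phi A c v h x p) = X ^ N * (C ((N : K) + 1) * u + X * derivative u) := by
    rw [hu0, derivative_mul, derivative_X_pow]
    push_cast
    rw [Nat.succ_eq_add_one, pow_succ]
    ring
  have h7 : (ξ (Sum.inl 0)).coeff 0 = 0 := by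
    rw [h6, pow_succ, mul_assoc] at h4
    have h8 := (mul_dvd_mul_iff_left (pow_ne_zero N (Polynomial.X_ne_zero (R := K)))).mp h4
    rw [Polynomial.X_dvd_iff, Polynomial.mul_coeff_zero, Polynomial.coeff_add, Polynomial.coeff_C_mul,
      Polynomial.mul_coeff_zero, Polynomial.coeff_X_zero, zero_mul, add_zero] at h8
    have h9 : ((N : K) + 1) * u.coeff 0 ≠ 0 := mul_ne_zero (Nat.cast_add_one_ne_zero N) hu
    exact (mul_eq_zero.mp h8).resolve_left h9
  have h10 : ∀ i, (ξ (Sum.inr i)).coeff 0 = 0 := by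
    intro i
    have h11 := congrArg (fun q : K[X] => q.coeff 0) (congrFun hBξ (Sum.inr i))
    rw [hB] at h11
    simp only [BM, Matrix.mulVec, dotProduct, Fintype.sum_sum_type, Fin.sum_univ_succ, Matrix.fromBlocks_apply₂₁,
      Matrix.fromBlocks_apply₂₂, Matrix.of_apply, Fin.cons_zero, Fin.cons_succ, Polynomial.coeff_add,
      Polynomial.finsetSum_coeff, Polynomial.mul_coeff_zero, h7, mul_zero, zero_add, hΔ, hp0,
      Derivation.map_one_eq_zero, zero_mul, Finset.sum_const_zero, Pi.zero_apply, Polynomial.coeff_zero] at h11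
    rw [Finset.sum_eq_single i (fun b _ hb => by rw [Matrix.diagonal_apply_ne' _ hb, Polynomial.coeff_zero, zero_mul])
      (fun hb => absurd (Finset.mem_univ i) hb), Matrix.diagonal_apply_eq, hp0, one_mul] at h11
    exact h11
  have h12 : ∀ j : Fin n, (ξ (Sum.inl j.succ)).coeff 0 = 0 := by
    refine Fintype.linearIndependent_iff.mp hind (fun j => (ξ (Sum.inl j.succ)).coeff 0) ?_
    funext l
    have h13 := congrArg (fun q : K[X] => q.coeff 0) (congrFun hBξ (Sum.inl l))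
    rw [hB] at h13
    simp only [BM, Matrix.mulVec, dotProduct, Fintype.sum_sum_type, Fin.sum_univ_succ, Matrix.fromBlocks_apply₁₁,
      Matrix.fromBlocks_apply₁₂, Matrix.of_apply, Fin.cons_zero, Fin.cons_succ, Polynomial.coeff_add,
      Polynomial.finsetSum_coeff, Polynomial.mul_coeff_zero, zero_mul, zero_add, h10, mul_zero,
      Finset.sum_const_zero, add_zero, Polynomial.coeff_C_zero, Pi.zero_apply, Polynomial.coeff_zero] at h13
    rw [Finset.sum_apply]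
    simp only [Pi.smul_apply, smul_eq_mul, Pi.zero_apply]
    rw [← h13]
    exact Finset.sum_congr rfl fun j _ => mul_comm _ _
  rcases c₀ with t | i
  · revert hc₀
    refine Fin.cases (fun h0 => h0 h7) (fun j h0 => h0 (h12 j)) t
  · exact hc₀ (h10 i)

end Pool.Agent.Lib.MP_1e3e9c_agV
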