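import Mathlib

/-! LEAF M3 (easy+, MATHLIB ONLY).  Degree and leading coefficient of a determinant with rows of bounded degree.

PROOF.  `det M = ∑_σ sign σ ∏ M (σ i) i` (`Matrix.det_apply`); `∏_i M (σ i) i` has degree `≤ ∑_i ρ (σ i) = ∑ ρ i` and its coefficient of degree `∑ ρ i` is `∏ (M (σ i) i).coeff (ρ (σ i))` (`Polynomial.coeff_prod_of_natDegree_le` or induction; there is a version in Mathlib for products with a bound of the degrees of all factors; for
different bounds use induction over the finite set with `Polynomial.coeff_mul_of_natDegree_le`). -/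

set_option autoImplicit false

namespace Pool.Agent.Lib.MP_1e3e9c_agV

open Polynomial

private theorem M3_prod {K ι : Type} [CommRing K] [DecidableEq ι] (s : Finset ι) (f : ι → K[X])
    (ρ : ι → ℕ) (h : ∀ i, (f i).natDegree ≤ ρ i) : (∏ i ∈ s, f i).natDegree ≤ ∑ i ∈ s, ρ i ∧
      (∏ i ∈ s, f i).coeff (∑ i ∈ s, ρ i) = ∏ i ∈ s, (f i).coeff (ρ i) := by
  induction s using Finset.induction_on with
  | empty =>
    refine ⟨?_, ?_⟩
    · rw [Finset.prod_empty, natDegree_one]
      exact Nat.zero_le _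
    · rw [Finset.prod_empty, Finset.sum_empty, Finset.prod_empty, coeff_one_zero]
  | insert a s ha ih =>
    rw [Finset.prod_insert ha, Finset.sum_insert ha, Finset.prod_insert ha]
    refine ⟨natDegree_mul_le.trans (Nat.add_le_add (h a) ih.1), ?_⟩
    rw [Polynomial.coeff_mul_add_eq_of_natDegree_le (h a) ih.1, ih.2]

theorem det_coeff {K ι : Type} [CommRing K] [Fintype ι] [DecidableEq ι] (M : Matrix ι ι K[X])
    (ρ : ι → ℕ) (h : ∀ i j, (M i j).natDegree ≤ ρ i) : M.det.natDegree ≤ ∑ i, ρ i ∧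
      M.det.coeff (∑ i, ρ i) = (Matrix.of fun i j => (M i j).coeff (ρ i)).det := by
  have key : ∀ σ : Equiv.Perm ι, (∏ i, M (σ i) i).natDegree ≤ ∑ i, ρ i ∧
      (∏ i, M (σ i) i).coeff (∑ i, ρ i) = ∏ i, (M (σ i) i).coeff (ρ (σ i)) := by
    intro σ
    have h1 := M3_prod Finset.univ (fun i => M (σ i) i) (fun i => ρ (σ i)) fun i => h _ _
    rwa [Equiv.sum_comp σ ρ] at h1
  rw [Matrix.det_apply, Matrix.det_apply]
  refine ⟨?_, ?_⟩
  · refine natDegree_sum_le_of_forall_le _ _ fun σ _ => ?_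
    refine le_trans ?_ (key σ).1
    rcases Int.units_eq_one_or (Equiv.Perm.sign σ) with hs | hs
    · rw [hs, one_smul]
    · rw [hs, Units.neg_smul, one_smul, natDegree_neg]
  · rw [finsetSum_coeff]
    refine Finset.sum_congr rfl fun σ _ => ?_
    have h2 : ∏ i, (Matrix.of fun i j => (M i j).coeff (ρ i)) (σ i) i =
        (∏ i, M (σ i) i).coeff (∑ i, ρ i) := (key σ).2.symm
    rw [h2]
    rcases Int.units_eq_one_or (Equiv.Perm.sign σ) with hs | hs
    · rw [hs, one_smul, one_smul]
    · rw [hs, Units.neg_smul, one_smul, Units.neg_smul, one_smul, coeff_neg]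

end Pool.Agent.Lib.MP_1e3e9c_agV
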