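import Pool.Agent.Lib.MP_1e3e9c_agV.MDefs

/-! LEAF M4 (medium+).  The matrix of the leading coefficients is singular (linear algebra over a field).

PROOF.  By `Matrix.exists_vecMul_eq_zero_iff` it is enough to find a row vector `(μ, ψ) ≠ 0`, `μ ∈ K^(n+1)`, `ψ ∈ K^r`, with product `0`; the product has the entries: column `inl 0`: `- ∑_i ψ_i ϖ_i`; column `inl j.succ`: `∑_l μ_l D_jl + ∑_i ψ_i E_ji`; column `inr i`: `- ∑_l μ_l v_il + ψ_i L_i`.
(1) There are `i ≠ i'` with `L_i = L_i' = 0`: `μ = 0`, `ψ = ϖ_i' δ_i - ϖ_i δ_i'` if `(ϖ_i, ϖ_i') ≠ 0`, and `ψ = δ_i` if both are `0` (`hE`: the entries `E_ji`, `E_ji'` are `0`).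
(2) Exactly one `i₀` with `L_(i₀) = 0`: `hR.two i₀` gives `m ≠ m' ∈ A` with `pr m (v i₀) + h i₀ = 0 = pr m' (v i₀) + h i₀`.  `μ_l = m_l - m'_l` (in `K`; `≠ 0`, characteristic `0`), `ψ_i = (pr m (v i) - pr m' (v i)) / L_i` for `i ≠ i₀`: the columns `inr i`, `i ≠ i₀`, are `0`, column `inr i₀`: `- (pr m (v i₀) - pr m' (v i₀)) = 0`; the columns `inl j.succ`: `hrat` (for `i₀`: `E = 0`).
If `ϖ_(i₀) ≠ 0` choose `ψ_(i₀)` such that column `inl 0` is `0`.  If `ϖ_(i₀) = 0` take instead `μ = 0`, `ψ = δ_(i₀)`.
(3) All `L_i ≠ 0`: for every pair `m, m' ∈ A` let `μ_l = m_l - m'_l`, `ψ_i = (pr m (v i) - pr m' (v i)) / L_i`: all columns but `inl 0` are `0` (`hrat`; no `i` with `L_i = 0`), column `inl 0` is a number `θ`.  By `Full` (`n + 1 ≥ 2`) there are two pairs with `ℤ`-independent differences `μ₁, μ₂` (if all differences were multiples of one vector there would be `u ≠ 0` with `pr · u`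
constant on `A`; a pair with difference `≠ 0` exists, and then one with `pr` different for a `u ≠ 0` orthogonal to it); they are independent over `K` (characteristic `0`).  If `θ₁ = 0` take the first, otherwise `θ₂ (first) - θ₁ (second)`, which is `≠ 0`. -/

set_option autoImplicit false

namespace Pool.Agent.Lib.MP_1e3e9c_agV

private theorem M4_two {K : Type} [Field K] (a b : K) : ∃ x y : K, (x ≠ 0 ∨ y ≠ 0) ∧ x * a + y * b = 0 := by
  by_cases ha : a = 0
  · exact ⟨1, 0, Or.inl one_ne_zero, by rw [ha]; ring⟩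
  · exact ⟨b, -a, Or.inr (neg_ne_zero.2 ha), by ring⟩

private theorem M4_key {K : Type} [Field K] {n r : ℕ} (v : Fin r → Fin (n + 1) → ℤ) (D : Fin n → Fin (n + 1) → K)
    (L ϖ : Fin r → K) (E : Fin n → Fin r → K) (μ : Fin (n + 1) → K) (ψ : Fin r → K) (hne : μ ≠ 0 ∨ ψ ≠ 0)
    (h0 : ∑ i, ψ i * ϖ i = 0) (hj : ∀ j, ∑ l, μ l * D j l + ∑ i, ψ i * E j i = 0)
    (hi : ∀ i, ψ i * L i = ∑ l, μ l * ((v i l : ℤ) : K)) :
    (Matrix.fromBlocks
      (Matrix.of fun l j => (Fin.cons 0 (fun j => D j l) : Fin (n + 1) → K) j)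
      (Matrix.of fun l i => - ((v i l : ℤ) : K))
      (Matrix.of fun i j => (Fin.cons (- ϖ i) (fun j => E j i) : Fin (n + 1) → K) j)
      (Matrix.diagonal L)).det = 0 := by
  refine Matrix.exists_vecMul_eq_zero_iff.1 ⟨Sum.elim μ ψ, ?_, ?_⟩
  · intro h
    rcases hne with h1 | h1
    · exact h1 (by funext l; exact congrFun h (Sum.inl l))
    · exact h1 (by funext l; exact congrFun h (Sum.inr l))
  · rw [Matrix.vecMul_fromBlocks, Sum.elim_comp_inl, Sum.elim_comp_inr]
    funext c
    rcases c with c | i
    · refine Fin.cases ?_ (fun j => ?_) c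
      · simp only [Sum.elim_inl, Pi.add_apply, Matrix.vecMul, dotProduct, Matrix.of_apply, Fin.cons_zero, mul_zero,
          Finset.sum_const_zero, zero_add, mul_neg, Finset.sum_neg_distrib, h0, neg_zero, Pi.zero_apply]
      · simp only [Sum.elim_inl, Pi.add_apply, Matrix.vecMul, dotProduct, Matrix.of_apply, Fin.cons_succ, hj,
          Pi.zero_apply]
    · simp only [Sum.elim_inr, Pi.add_apply, Matrix.vecMul, dotProduct, Matrix.of_apply, Matrix.diagonal_apply,
        mul_neg, Finset.sum_neg_distrib, mul_ite, mul_zero, Finset.sum_ite_eq', Finset.mem_univ, if_true, Pi.zero_apply]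
      rw [hi i]
      ring

private theorem M4_full {K : Type} [Field K] [CharZero K] {n : ℕ} {A : Finset (Fin (n + 1) → ℤ)} (hA : Full A)
    (c : Fin (n + 1) → K) (hc : ∀ m ∈ A, ∀ m' ∈ A, ∑ l, ((m l - m' l : ℤ) : K) * c l = 0) : c = 0 := by
  by_contra hne
  obtain ⟨l₀, hl₀⟩ := Function.ne_iff.1 hne
  obtain ⟨φ, hφ⟩ : ∃ φ : Module.Dual ℚ K, φ (c l₀) ≠ 0 := by
    by_contra hall
    push Not at hall
    exact hl₀ ((Module.forall_dual_apply_eq_zero_iff ℚ (c l₀)).1 hall)
  set N : ℕ := ∏ l, (φ (c l)).den with hN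
  have hN0 : (N : ℚ) ≠ 0 := by
    rw [hN, Nat.cast_ne_zero]
    exact Finset.prod_ne_zero_iff.2 fun l _ => (φ (c l)).den_nz
  set u : Fin (n + 1) → ℤ := fun l => (φ (c l)).num * ∏ l' ∈ Finset.univ.erase l, ((φ (c l')).den : ℤ) with hu
  have hu1 : ∀ l, ((u l : ℤ) : ℚ) = φ (c l) * N := by
    intro l
    have h1 := Finset.mul_prod_erase Finset.univ (fun l' => (φ (c l')).den) (Finset.mem_univ l)
    have h2 : (N : ℚ) = ((φ (c l)).den : ℚ) * ∏ l' ∈ Finset.univ.erase l, ((φ (c l')).den : ℚ) := by
      rw [hN, ← h1]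
      push_cast
      rfl
    rw [h2, ← mul_assoc, Rat.mul_den_eq_num]
    simp only [hu]
    push_cast
    rfl
  have hu0 : u ≠ 0 := by
    intro h
    have h1 := hu1 l₀
    rw [h, Pi.zero_apply, Int.cast_zero] at h1
    exact mul_ne_zero hφ hN0 h1.symm
  obtain ⟨m, hm, m', hm', hne'⟩ := hA u hu0
  apply hne'
  have h3 := congrArg φ (hc m hm m' hm')
  rw [map_sum, map_zero] at h3
  have h4 : ∀ l, φ (((m l - m' l : ℤ) : K) * c l) = ((m l - m' l : ℤ) : ℚ) * φ (c l) := by
    intro l
    rw [← zsmul_eq_mul, map_zsmul, zsmul_eq_mul]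
  rw [Finset.sum_congr rfl fun l _ => h4 l] at h3
  have h5 : ((pr m u - pr m' u : ℤ) : ℚ) = 0 := by
    unfold pr
    rw [← Finset.sum_sub_distrib]
    push_cast
    calc ∑ l, ((m l : ℚ) * (u l : ℚ) - (m' l : ℚ) * (u l : ℚ))
        = (∑ l, ((m l - m' l : ℤ) : ℚ) * φ (c l)) * N := by
          rw [Finset.sum_mul]
          refine Finset.sum_congr rfl fun l _ => ?_
          rw [hu1 l]
          push_cast
          ring
      _ = 0 := by rw [h3, zero_mul]
  have h6 : pr m u - pr m' u = 0 := by exact_mod_cast h5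
  exact sub_eq_zero.1 h6

theorem det_inf {K : Type} [Field K] [CharZero K] {n r : ℕ} (hn : 1 ≤ n)
    {A : Finset (Fin (n + 1) → ℤ)} {v : Fin r → Fin (n + 1) → ℤ} {a : Fin r → ℕ} {h : Fin r → ℤ}
    (hA : Full A) (hR : Rel A v a h) (D : Fin n → Fin (n + 1) → K) (L ϖ : Fin r → K)
    (E : Fin n → Fin r → K) (hE : ∀ j i, L i = 0 → E j i = 0)
    (hrat : ∀ m ∈ A, ∀ m' ∈ A, (∀ i, L i = 0 → pr m (v i) + h i = 0 ∧ pr m' (v i) + h i = 0) →
      ∀ j, ∑ l, ((m l - m' l : ℤ) : K) * D j l +
        ∑ i, ((pr m (v i) - pr m' (v i) : ℤ) : K) * (E j i / L i) = 0) :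
    (Matrix.fromBlocks
      (Matrix.of fun l j => (Fin.cons 0 (fun j => D j l) : Fin (n + 1) → K) j)
      (Matrix.of fun l i => - ((v i l : ℤ) : K))
      (Matrix.of fun i j => (Fin.cons (- ϖ i) (fun j => E j i) : Fin (n + 1) → K) j)
      (Matrix.diagonal L)).det = 0 := by
  have hpr : ∀ (m m' : Fin (n + 1) → ℤ) (i : Fin r), ∑ l, ((m l - m' l : ℤ) : K) * ((v i l : ℤ) : K) =
      ((pr m (v i) - pr m' (v i) : ℤ) : K) := by
    intro m m' i
    unfold pr
    rw [← Finset.sum_sub_distrib]
    push_cast
    refine Finset.sum_congr rfl fun l _ => ?_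
    ring
  by_cases h1 : ∃ i i', i ≠ i' ∧ L i = 0 ∧ L i' = 0
  · -- two zeros
    obtain ⟨i, i', hii, hi, hi'⟩ := h1
    obtain ⟨x, y, hxy, he⟩ := M4_two (ϖ i) (ϖ i')
    have hz : ∀ k, k ≠ i → k ≠ i' → (Pi.single i x + Pi.single i' y : Fin r → K) k = 0 := by
      intro k h2 h3
      rw [Pi.add_apply, Pi.single_eq_of_ne h2, Pi.single_eq_of_ne h3, add_zero]
    have hv1 : (Pi.single i x + Pi.single i' y : Fin r → K) i = x := by
      rw [Pi.add_apply, Pi.single_eq_same, Pi.single_eq_of_ne hii, add_zero]
    have hv2 : (Pi.single i x + Pi.single i' y : Fin r → K) i' = y := by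
      rw [Pi.add_apply, Pi.single_eq_same, Pi.single_eq_of_ne hii.symm, zero_add]
    have hsum : ∀ f : Fin r → K, ∑ k, (Pi.single i x + Pi.single i' y : Fin r → K) k * f k = x * f i + y * f i' := by
      intro f
      have : ∀ k, (Pi.single i x + Pi.single i' y : Fin r → K) k * f k =
          (Pi.single i (x * f i) : Fin r → K) k + (Pi.single i' (y * f i') : Fin r → K) k := by
        intro k
        rw [Pi.add_apply, add_mul]
        congr 1
        · by_cases h : k = i
          · subst h
            rw [Pi.single_eq_same, Pi.single_eq_same]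
          · rw [Pi.single_eq_of_ne h, Pi.single_eq_of_ne h, zero_mul]
        · by_cases h : k = i'
          · subst h
            rw [Pi.single_eq_same, Pi.single_eq_same]
          · rw [Pi.single_eq_of_ne h, Pi.single_eq_of_ne h, zero_mul]
      rw [Finset.sum_congr rfl fun k _ => this k, Finset.sum_add_distrib, Finset.sum_pi_single', Finset.sum_pi_single',
        if_pos (Finset.mem_univ _), if_pos (Finset.mem_univ _)]
    refine M4_key v D L ϖ E 0 (Pi.single i x + Pi.single i' y) (Or.inr ?_) ?_ (fun j => ?_) fun k => ?_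
    · intro h
      rcases hxy with h2 | h2
      · exact h2 (by rw [← hv1, h]; rfl)
      · exact h2 (by rw [← hv2, h]; rfl)
    · rw [hsum, he]
    · rw [hsum, hE j i hi, hE j i' hi']
      simp
    · have h3 : (Pi.single i x + Pi.single i' y : Fin r → K) k * L k = 0 := by
        by_cases h : k = i
        · rw [h, hi, mul_zero]
        · by_cases h' : k = i'
          · rw [h', hi', mul_zero]
          · rw [hz k h h', zero_mul]
      rw [h3]
      simp
  · by_cases h2 : ∃ i₀, L i₀ = 0
    · -- one zero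
      obtain ⟨i₀, hi₀⟩ := h2
      have huniq : ∀ i, i ≠ i₀ → L i ≠ 0 := fun i hne h => h1 ⟨i, i₀, hne, h, hi₀⟩
      by_cases hϖ : ϖ i₀ = 0
      · refine M4_key v D L ϖ E 0 (Pi.single i₀ 1) (Or.inr ?_) ?_ (fun j => ?_) fun k => ?_
        · intro h
          have := congrFun h i₀
          rw [Pi.single_eq_same] at this
          exact one_ne_zero this
        · refine Finset.sum_eq_zero fun k _ => ?_
          by_cases h : k = i₀
          · rw [h, hϖ, mul_zero]
          · rw [Pi.single_eq_of_ne h, zero_mul]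
        · have : ∑ i, (Pi.single i₀ 1 : Fin r → K) i * E j i = 0 := by
            refine Finset.sum_eq_zero fun k _ => ?_
            by_cases h : k = i₀
            · rw [h, hE j i₀ hi₀, mul_zero]
            · rw [Pi.single_eq_of_ne h, zero_mul]
          rw [this]
          simp
        · have : (Pi.single i₀ 1 : Fin r → K) k * L k = 0 := by
            by_cases h : k = i₀
            · rw [h, hi₀, mul_zero]
            · rw [Pi.single_eq_of_ne h, zero_mul]
          rw [this]
          simp
      · obtain ⟨m, hm, m', hm', hmm, he1, he2⟩ := hR.two i₀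
        set ψ' : Fin r → K := fun i => ((pr m (v i) - pr m' (v i) : ℤ) : K) / L i with hψ'
        set s : K := ∑ i ∈ Finset.univ.erase i₀, ψ' i * ϖ i with hs
        have hup : ∀ f : Fin r → K, ∑ i, (Function.update ψ' i₀ (-s / ϖ i₀)) i * f i =
            -s / ϖ i₀ * f i₀ + ∑ i ∈ Finset.univ.erase i₀, ψ' i * f i := by
          intro f
          rw [← Finset.add_sum_erase _ _ (Finset.mem_univ i₀), Function.update_self]
          congr 1
          refine Finset.sum_congr rfl fun i hi => ?_
          rw [Function.update_of_ne (Finset.ne_of_mem_erase hi)]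
        refine M4_key v D L ϖ E (fun l => ((m l - m' l : ℤ) : K)) (Function.update ψ' i₀ (-s / ϖ i₀)) (Or.inl ?_) ?_
          (fun j => ?_) fun i => ?_
        · intro h
          apply hmm
          funext l
          have h3 : ((m l - m' l : ℤ) : K) = 0 := congrFun h l
          have h4 : m l - m' l = 0 := by exact_mod_cast h3
          exact sub_eq_zero.1 h4
        · rw [hup, div_mul_cancel₀ _ hϖ, ← hs]
          ring
        · have h3 := hrat m hm m' hm' (fun i hi => by
            by_cases h : i = i₀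
            · rw [h]
              exact ⟨he1, he2⟩
            · exact absurd hi (huniq i h)) j
          rw [hup, hE j i₀ hi₀, mul_zero, zero_add]
          have h4 : ∑ i ∈ Finset.univ.erase i₀, ψ' i * E j i =
              ∑ i, ((pr m (v i) - pr m' (v i) : ℤ) : K) * (E j i / L i) := by
            rw [← Finset.add_sum_erase _ _ (Finset.mem_univ i₀), hi₀, div_zero, mul_zero, zero_add]
            refine Finset.sum_congr rfl fun i _ => ?_
            simp only [hψ']
            ring
          rw [h4]
          exact h3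
        · rw [hpr]
          by_cases h : i = i₀
          · rw [h, hi₀, mul_zero]
            have : pr m (v i₀) - pr m' (v i₀) = 0 := by omega
            rw [this, Int.cast_zero]
          · rw [Function.update_of_ne h]
            simp only [hψ']
            rw [div_mul_cancel₀ _ (huniq i h)]
    · -- no zeros
      have hL : ∀ i, L i ≠ 0 := fun i h => h2 ⟨i, h⟩
      have hT : ∀ j, (fun l => D j l + ∑ i, ((v i l : ℤ) : K) * (E j i / L i)) = 0 := by
        intro j
        refine M4_full hA _ fun m hm m' hm' => ?_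
        have h3 := hrat m hm m' hm' (fun i hi => absurd hi (hL i)) j
        rw [← h3]
        simp only [mul_add, Finset.sum_add_distrib]
        congr 1
        simp only [Finset.mul_sum]
        rw [Finset.sum_comm]
        refine Finset.sum_congr rfl fun i _ => ?_
        rw [← hpr, Finset.sum_mul]
        refine Finset.sum_congr rfl fun l _ => ?_
        ring
      have h01 : (0 : Fin (n + 1)) ≠ Fin.last n := by
        intro h
        have := congrArg Fin.val h
        simp at this
        omega
      obtain ⟨x, y, hxy, he⟩ := M4_two (∑ i, ((v i 0 : ℤ) : K) * (ϖ i / L i)) (∑ i, ((v i (Fin.last n) : ℤ) : K) * (ϖ i / L i))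
      set μ : Fin (n + 1) → K := Pi.single 0 x + Pi.single (Fin.last n) y with hμ
      have hsum : ∀ f : Fin (n + 1) → K, ∑ k, μ k * f k = x * f 0 + y * f (Fin.last n) := by
        intro f
        have : ∀ k, μ k * f k = (Pi.single 0 (x * f 0) : Fin (n + 1) → K) k +
            (Pi.single (Fin.last n) (y * f (Fin.last n)) : Fin (n + 1) → K) k := by
          intro k
          rw [hμ, Pi.add_apply, add_mul]
          congr 1
          · by_cases h : k = 0
            · subst h
              rw [Pi.single_eq_same, Pi.single_eq_same]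
            · rw [Pi.single_eq_of_ne h, Pi.single_eq_of_ne h, zero_mul]
          · by_cases h : k = Fin.last n
            · subst h
              rw [Pi.single_eq_same, Pi.single_eq_same]
            · rw [Pi.single_eq_of_ne h, Pi.single_eq_of_ne h, zero_mul]
        rw [Finset.sum_congr rfl fun k _ => this k, Finset.sum_add_distrib, Finset.sum_pi_single', Finset.sum_pi_single',
          if_pos (Finset.mem_univ _), if_pos (Finset.mem_univ _)]
      refine M4_key v D L ϖ E μ (fun i => (∑ l, μ l * ((v i l : ℤ) : K)) / L i) (Or.inl ?_) ?_ (fun j => ?_) fun i => ?_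
      · intro h
        rcases hxy with h3 | h3
        · apply h3
          have := congrFun h 0
          rw [hμ, Pi.add_apply, Pi.single_eq_same, Pi.single_eq_of_ne h01, add_zero] at this
          exact this
        · apply h3
          have := congrFun h (Fin.last n)
          rw [hμ, Pi.add_apply, Pi.single_eq_same, Pi.single_eq_of_ne h01.symm, zero_add] at this
          exact this
      · have h3 : ∀ i, (∑ l, μ l * ((v i l : ℤ) : K)) / L i * ϖ i = ∑ l, μ l * (((v i l : ℤ) : K) * (ϖ i / L i)) := by
          intro i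
          rw [Finset.sum_div, Finset.sum_mul]
          exact Finset.sum_congr rfl fun l _ => by ring
        rw [Finset.sum_congr rfl fun i _ => h3 i, Finset.sum_comm]
        simp only [← Finset.mul_sum]
        rw [hsum, he]
      · have h3 : ∀ i, (∑ l, μ l * ((v i l : ℤ) : K)) / L i * E j i = ∑ l, μ l * (((v i l : ℤ) : K) * (E j i / L i)) := by
          intro i
          rw [Finset.sum_div, Finset.sum_mul]
          exact Finset.sum_congr rfl fun l _ => by ring
        rw [Finset.sum_congr rfl fun i _ => h3 i, Finset.sum_comm]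
        simp only [← Finset.mul_sum]
        rw [← Finset.sum_add_distrib]
        refine Finset.sum_eq_zero fun l _ => ?_
        rw [← mul_add]
        have := congrFun (hT j) l
        simp only [Pi.zero_apply] at this
        rw [this, mul_zero]
      · rw [div_mul_cancel₀ _ (hL i)]

end Pool.Agent.Lib.MP_1e3e9c_agV
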