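import Pool.Agent.Lib.MP_1e3e9c_agV.V03a

/-! LEAF M5 (medium).  The ratios of the end coordinates are constant.

PROOF.  Let `L_i = (p i).coeff (a i)`, and let `m, m' ∈ A` be as in the statement: `ld .. m = mn x m ∏ L_i^(ex m 1 i)` is not `0` (`x_j ≠ 0`; if `L_i = 0` the exponent is `0`), the same for `m'`.  Choose `m₀ ∈ A` with `y m₀ ≠ 0`: `hG.rat m m₀` and `m' m₀`: `ld m * y m₀ = ld m₀ * y m`, so `y m ≠ 0`; in the same way `y m' ≠ 0`; `ld m * y m' = ld m' * y m`: so `ld m / ld m' = y m / y m'` (images in `K` of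
elements of `k`), which is killed by `δ`.  Logarithmic derivative of `ld m`: `δ (ld m) / ld m = ∑_l m_l δ(x_l)/x_l + ∑_i (pr m (v i) + h i) δ(L_i)/L_i` (for `L_i = 0` the exponent is `0` and `δ(L_i)/L_i = 0`), and the difference for `m` and `m'` is `0`. -/

set_option autoImplicit false

namespace Pool.Agent.Lib.MP_1e3e9c_agV

open Polynomial

private theorem M5_mul {k K : Type} [Field k] [Field K] [Algebra k K] (δ : Derivation k K K) {z w : K} (hz : z ≠ 0)
    (hw : w ≠ 0) : δ (z * w) / (z * w) = δ z / z + δ w / w := by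
  rw [Derivation.leibniz, smul_eq_mul, smul_eq_mul]
  field_simp
  ring

private theorem M5_one {k K : Type} [Field k] [Field K] [Algebra k K] (δ : Derivation k K K) : δ (1 : K) / 1 = 0 := by
  rw [Derivation.map_one_eq_zero, zero_div]

private theorem M5_pow {k K : Type} [Field k] [Field K] [Algebra k K] (δ : Derivation k K K) (z : K) (n : ℕ)
    (h : z = 0 → n = 0) : δ (z ^ n) / z ^ n = (n : K) * (δ z / z) := by
  by_cases hz : z = 0
  · rw [h hz, pow_zero, M5_one, Nat.cast_zero, zero_mul]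
  · clear h
    induction n with
    | zero => rw [pow_zero, M5_one, Nat.cast_zero, zero_mul]
    | succ n ih =>
      rw [pow_succ, M5_mul δ (pow_ne_zero n hz) hz, ih]
      push_cast
      ring

private theorem M5_zpow {k K : Type} [Field k] [Field K] [Algebra k K] (δ : Derivation k K K) {z : K} (hz : z ≠ 0)
    (n : ℤ) : δ (z ^ n) / z ^ n = (n : K) * (δ z / z) := by
  cases n with
  | ofNat n =>
    rw [Int.ofNat_eq_natCast, zpow_natCast, Int.cast_natCast]
    exact M5_pow δ z n fun h => absurd h hz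
  | negSucc n =>
    have h1 : z ^ (n + 1) ≠ 0 := pow_ne_zero _ hz
    have h2 := M5_mul δ h1 (inv_ne_zero h1)
    rw [mul_inv_cancel₀ h1, M5_one, M5_pow δ z (n + 1) fun h => absurd h hz] at h2
    rw [zpow_negSucc, Int.cast_negSucc]
    linear_combination -h2

private theorem M5_prod {k K ι : Type} [Field k] [Field K] [Algebra k K] (δ : Derivation k K K) (S : Finset ι)
    (f : ι → K) (hf : ∀ i, f i ≠ 0) : δ (∏ i ∈ S, f i) / (∏ i ∈ S, f i) = ∑ i ∈ S, δ (f i) / f i := by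
  classical
  induction S using Finset.induction_on with
  | empty => rw [Finset.prod_empty, Finset.sum_empty, M5_one]
  | insert i S hi ih =>
    rw [Finset.prod_insert hi, Finset.sum_insert hi, M5_mul δ (hf i) (Finset.prod_ne_zero_iff.mpr fun j _ => hf j), ih]

private theorem M5_ld {k K : Type} [Field k] [Field K] [Algebra k K] {d r : ℕ} {A : Finset (Fin d → ℤ)}
    {v : Fin r → Fin d → ℤ} {a : Fin r → ℕ} {h : Fin r → ℤ} (hR : Rel0 A v a h) {x : Fin d → K} {p : Fin r → K[X]}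
    (hx : ∀ j, x j ≠ 0) (δ : Derivation k K K) {m : Fin d → ℤ} (hm : m ∈ A)
    (h0 : ∀ i, (p i).coeff (a i) = 0 → pr m (v i) + h i = 0) :
    ld v a h x p m ≠ 0 ∧ δ (ld v a h x p m) / ld v a h x p m =
      ∑ l, ((m l : ℤ) : K) * (δ (x l) / x l) +
        ∑ i, ((pr m (v i) + h i : ℤ) : K) * (δ ((p i).coeff (a i)) / (p i).coeff (a i)) := by
  have hex : ∀ i, ((ex v h m 1 i : ℕ) : ℤ) = pr m (v i) + h i := by
    intro i
    have h1 : (pr m (v i) + ((1 : ℕ) : ℤ) * h i) = pr m (v i) + h i := by rw [Nat.cast_one, one_mul]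
    unfold ex
    rw [h1]
    exact Int.toNat_of_nonneg (hR.ge m hm i)
  have hex0 : ∀ i, (p i).coeff (a i) = 0 → ex v h m 1 i = 0 := by
    intro i hi
    have h1 := hex i
    rw [h0 i hi] at h1
    exact_mod_cast h1
  have h1 : mn x m ≠ 0 := mn_ne hx m
  have h2 : ∀ i, (p i).coeff (a i) ^ ex v h m 1 i ≠ 0 := by
    intro i
    by_cases hi : (p i).coeff (a i) = 0
    · rw [hex0 i hi, pow_zero]
      exact one_ne_zero
    · exact pow_ne_zero _ hi
  have h3 : ∏ i, (p i).coeff (a i) ^ ex v h m 1 i ≠ 0 := Finset.prod_ne_zero_iff.mpr fun i _ => h2 i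
  refine ⟨mul_ne_zero h1 h3, ?_⟩
  unfold ld
  rw [M5_mul δ h1 h3, M5_prod δ _ _ h2]
  have h4 : δ (mn x m) / mn x m = ∑ l, ((m l : ℤ) : K) * (δ (x l) / x l) := by
    unfold mn
    rw [M5_prod δ _ _ fun j => zpow_ne_zero (m j) (hx j)]
    exact Finset.sum_congr rfl fun j _ => M5_zpow δ (hx j) (m j)
  rw [h4]
  congr 1
  refine Finset.sum_congr rfl fun i _ => ?_
  rw [M5_pow δ _ _ (hex0 i), ← hex i, Int.cast_natCast]

theorem dlog_rat {k K : Type} [Field k] [Field K] [Algebra k K] {d r : ℕ}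
    {A : Finset (Fin d → ℤ)} {c : (Fin d → ℤ) → k} {v : Fin r → Fin d → ℤ}
    {a : Fin r → ℕ} {h : Fin r → ℤ} (hR : Rel0 A v a h) {y : (Fin d → ℤ) → k} (hy : ∃ m ∈ A, y m ≠ 0)
    {x : Fin d → K} {p : Fin r → K[X]} (hG : GC A c v a h y x p) (δ : Derivation k K K)
    {m m' : Fin d → ℤ} (hm : m ∈ A) (hm' : m' ∈ A)
    (h0 : ∀ i, (p i).coeff (a i) = 0 → pr m (v i) + h i = 0 ∧ pr m' (v i) + h i = 0) :
    ∑ l, ((m l - m' l : ℤ) : K) * (δ (x l) / x l) +
      ∑ i, ((pr m (v i) - pr m' (v i) : ℤ) : K) * (δ ((p i).coeff (a i)) / (p i).coeff (a i)) = 0 := by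
  obtain ⟨hl, hd⟩ := M5_ld hR hG.ne δ hm fun i hi => (h0 i hi).1
  obtain ⟨hl', hd'⟩ := M5_ld hR hG.ne δ hm' fun i hi => (h0 i hi).2
  obtain ⟨m₀, hm₀, hy₀⟩ := hy
  have hinj : ∀ z : k, z ≠ 0 → algebraMap k K z ≠ 0 := fun z hz =>
    (map_ne_zero (algebraMap k K)).mpr hz
  have hym : algebraMap k K (y m) ≠ 0 := by
    intro h1
    have h2 := hG.rat m hm m₀ hm₀
    rw [h1, mul_zero] at h2
    exact mul_ne_zero hl (hinj _ hy₀) h2
  have hym' : algebraMap k K (y m') ≠ 0 := by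
    intro h1
    have h2 := hG.rat m' hm' m₀ hm₀
    rw [h1, mul_zero] at h2
    exact mul_ne_zero hl' (hinj _ hy₀) h2
  have h1 := hG.rat m hm m' hm'
  have h2 := M5_mul δ hl hym'
  have h3 := M5_mul δ hl' hym
  rw [h1] at h2
  rw [Derivation.map_algebraMap, zero_div, add_zero] at h2 h3
  have h4 : δ (ld v a h x p m) / ld v a h x p m = δ (ld v a h x p m') / ld v a h x p m' := h2.symm.trans h3
  rw [hd, hd'] at h4
  have h5 : ∑ l, ((m l - m' l : ℤ) : K) * (δ (x l) / x l) =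
      ∑ l, ((m l : ℤ) : K) * (δ (x l) / x l) - ∑ l, ((m' l : ℤ) : K) * (δ (x l) / x l) := by
    rw [← Finset.sum_sub_distrib]
    refine Finset.sum_congr rfl fun l _ => ?_
    push_cast
    ring
  have h6 : ∑ i, ((pr m (v i) - pr m' (v i) : ℤ) : K) * (δ ((p i).coeff (a i)) / (p i).coeff (a i)) =
      ∑ i, ((pr m (v i) + h i : ℤ) : K) * (δ ((p i).coeff (a i)) / (p i).coeff (a i)) -
        ∑ i, ((pr m' (v i) + h i : ℤ) : K) * (δ ((p i).coeff (a i)) / (p i).coeff (a i)) := by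
    rw [← Finset.sum_sub_distrib]
    refine Finset.sum_congr rfl fun i _ => ?_
    push_cast
    ring
  rw [h5, h6]
  linear_combination h4

end Pool.Agent.Lib.MP_1e3e9c_agV
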