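import Pool.Agent.Lib.MP_1e3e9c_agV.M2
import Pool.Agent.Lib.MP_1e3e9c_agV.M3
import Pool.Agent.Lib.MP_1e3e9c_agV.M4
import Pool.Agent.Lib.MP_1e3e9c_agV.M5
import Pool.Agent.Lib.MP_1e3e9c_agR.X4

/-! LEAF M6 (medium).  The degree of the determinant; there is no generic contact curve.

PROOF.  `natDegree_det`: `B = BM v δ Δ x p`.  Let `C'` be `B` with the column `inl 0` replaced by: `0` in the rows `inl l`, `X * (X * derivative (p i) - C (a i) * p i)` in the rows `inr i`.  `det C' = X^2 det B`: the new column is `X^2 * (column inl 0) - ∑_i C (a_i) X * (column inr i)` (rows `inl l`: `∑_i a_i v_il = 0`, `hR.rel`; rows `inr i`: clear), `Matrix.det_updateCol_..` (multilinear: `det_updateCol_add`,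
`det_updateCol_smul`, and a column equal to another one gives `0`; `BM = updateCol BM (inl 0) (its column)`).  `M3` for `C'`, `ρ (inl l) = 0`, `ρ (inr i) = a i`: all entries have such degrees (`deg (X p' - a p) ≤ a - 1`: the coefficient of degree `a` is `a p_a - a p_a = 0`; `deg Δ_j p_i ≤ a_i`).  The matrix of the coefficients is the one of `det_inf` (M4) with `D j l = δ_j x_l / x_l`, `L i = (p i).coeff (a i)`,
`ϖ i = (p i).coeff (a i - 1)` (`(a - 1) p_(a-1) - a p_(a-1) = - p_(a-1)`), `E j i = δ_j (L i)`, `hrat`: M5.  So the coefficient of degree `N = ∑ a_i` of `X^2 det B` is `0`, its degree is `< N` if `N > 0`: `2 + deg det B ≤ N - 1`.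
`no_generic`: `N = M + 2`.  M2: `det B ≠ 0`, `X^M ∣ det B`, so `M ≤ deg det B ≤ N - 3 = M - 1`: contradiction (`exists_mapD` of X4 gives `Δ`). -/

set_option autoImplicit false

namespace Pool.Agent.Lib.MP_1e3e9c_agV

open Polynomial Matrix

private theorem M6_coeff {K : Type} [Field K] (q : K[X]) (a m : ℕ) :
    (X * (X * derivative q - C (a : K) * q)).coeff (m + 1) = ((m : K) - a) * q.coeff m := by
  rw [coeff_X_mul, coeff_sub, coeff_C_mul]
  rcases m with _ | m
  · rw [coeff_X_mul_zero]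
    push_cast
    ring
  · rw [coeff_X_mul, coeff_derivative]
    push_cast
    ring

private theorem M6_deg {K : Type} [Field K] (q : K[X]) {a : ℕ} (hq : q.natDegree ≤ a) :
    (X * (X * derivative q - C (a : K) * q)).natDegree ≤ a := by
  rw [natDegree_le_iff_coeff_eq_zero]
  intro N hN
  obtain ⟨m, rfl⟩ : ∃ m, N = m + 1 := ⟨N - 1, by omega⟩
  rw [M6_coeff]
  rcases Nat.lt_or_ge a m with h | h
  · rw [coeff_eq_zero_of_natDegree_lt (by omega), mul_zero]
  · have h1 : m = a := by omega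
    rw [h1, sub_self, zero_mul]

private theorem M6_top {K : Type} [Field K] (q : K[X]) {a : ℕ} (ha : 0 < a) :
    (X * (X * derivative q - C (a : K) * q)).coeff a = - q.coeff (a - 1) := by
  obtain ⟨m, rfl⟩ : ∃ m, a = m + 1 := ⟨a - 1, by omega⟩
  rw [M6_coeff, Nat.add_sub_cancel]
  push_cast
  ring

private theorem M6_Δ {K : Type} [Field K] {k : Type} [Field k] [Algebra k K]
    (δ : Derivation k K K) (Δ : Derivation k K[X] K[X])
    (hΔ : ∀ (q : K[X]) i, (Δ q).coeff i = δ (q.coeff i)) (q : K[X]) {a : ℕ} (hq : q.natDegree ≤ a) :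
    (Δ q).natDegree ≤ a := by
  rw [natDegree_le_iff_coeff_eq_zero]
  intro N hN
  rw [hΔ, coeff_eq_zero_of_natDegree_lt (by omega), map_zero]

/-- The matrix with the new first column. -/
private noncomputable def M6_C {k K : Type} [Field k] [Field K] [Algebra k K] {n r : ℕ}
    (v : Fin r → Fin (n + 1) → ℤ) (a : Fin r → ℕ) (δ : Fin n → Derivation k K K)
    (Δ : Fin n → Derivation k K[X] K[X]) (x : Fin (n + 1) → K) (p : Fin r → K[X]) :
    Matrix (Fin (n + 1) ⊕ Fin r) (Fin (n + 1) ⊕ Fin r) K[X] :=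
  (BM v δ Δ x p).updateCol (Sum.inl 0) (Sum.elim (fun _ => 0)
    (fun i => X * (X * derivative (p i) - C (a i : K) * p i)))

private theorem M6_det {k K : Type} [Field k] [Field K] [Algebra k K] {n r : ℕ}
    {v : Fin r → Fin (n + 1) → ℤ} {a : Fin r → ℕ}
    (hrel : ∀ j, ∑ i, (a i : ℤ) * v i j = 0) (δ : Fin n → Derivation k K K)
    (Δ : Fin n → Derivation k K[X] K[X]) (x : Fin (n + 1) → K) (p : Fin r → K[X]) :
    (M6_C v a δ Δ x p).det = X ^ 2 * (BM v δ Δ x p).det := by
  have h1 := det_updateCol_sum (BM v δ Δ x p) (Sum.inl 0)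
    (Sum.elim (Fin.cons (X ^ 2) (fun _ => 0) : Fin (n + 1) → K[X]) (fun i => -(C (a i : K) * X)))
  rw [Sum.elim_inl, Fin.cons_zero, smul_eq_mul] at h1
  rw [← h1, M6_C]
  congr 2
  funext c
  rw [Fintype.sum_sum_type, Fin.sum_univ_succ]
  simp only [Sum.elim_inl, Sum.elim_inr, Fin.cons_zero, Fin.cons_succ, smul_eq_mul, zero_mul,
    Finset.sum_const_zero, add_zero]
  rcases c with l | i
  · simp only [Sum.elim_inl, BM, fromBlocks_apply₁₁, fromBlocks_apply₁₂, of_apply, Fin.cons_zero,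
      mul_zero, zero_add]
    have h2 : ∀ i : Fin r, -(C (a i : K) * X) * -C ((v i l : ℤ) : K) =
        C ((((a i : ℤ) * v i l : ℤ)) : K) * X := by
      intro i
      rw [Int.cast_mul, Int.cast_natCast, C_mul]
      ring
    rw [Finset.sum_congr rfl fun i _ => h2 i, ← Finset.sum_mul, ← map_sum, ← Int.cast_sum, hrel l,
      Int.cast_zero, C_0, zero_mul]
  · simp only [Sum.elim_inr, BM, fromBlocks_apply₂₁, fromBlocks_apply₂₂, of_apply, Fin.cons_zero]
    rw [Finset.sum_eq_single i]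
    · rw [diagonal_apply_eq]
      ring
    · intro i' _ hi'
      rw [diagonal_apply_ne _ (Ne.symm hi'), mul_zero]
    · intro h
      exact absurd (Finset.mem_univ i) h

theorem natDegree_det {k K : Type} [Field k] [Field K] [CharZero K] [Algebra k K] {n r : ℕ}
    (hn : 1 ≤ n) {A : Finset (Fin (n + 1) → ℤ)} {c : (Fin (n + 1) → ℤ) → k}
    {v : Fin r → Fin (n + 1) → ℤ} {a : Fin r → ℕ} {h : Fin r → ℤ} (hA : Full A) (hR : Rel A v a h)
    (hr : 0 < r) {y : (Fin (n + 1) → ℤ) → k} (hy : ∃ m ∈ A, y m ≠ 0) {x : Fin (n + 1) → K}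
    {p : Fin r → K[X]} (hG : GC A c v a h y x p) (δ : Fin n → Derivation k K K)
    (Δ : Fin n → Derivation k K[X] K[X]) (hΔ : ∀ j (q : K[X]) i, (Δ j q).coeff i = δ j (q.coeff i))
    (hd : (BM v δ Δ x p).det ≠ 0) : (BM v δ Δ x p).det.natDegree + 3 ≤ ∑ i, a i := by
  classical
  obtain ⟨ρ, hρ⟩ : ∃ ρ : Fin (n + 1) ⊕ Fin r → ℕ, ρ = Sum.elim (fun _ => 0) a := ⟨_, rfl⟩
  have hC00 : ∀ l, M6_C v a δ Δ x p (Sum.inl l) (Sum.inl 0) = 0 := by
    intro l
    rw [M6_C, updateCol_self, Sum.elim_inl]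
  have hC01 : ∀ l (j : Fin n), M6_C v a δ Δ x p (Sum.inl l) (Sum.inl j.succ) =
      C (δ j (x l) / x l) := by
    intro l j
    rw [M6_C, updateCol_ne (by simp [Fin.succ_ne_zero])]
    simp only [BM, fromBlocks_apply₁₁, of_apply, Fin.cons_succ]
  have hC02 : ∀ l i, M6_C v a δ Δ x p (Sum.inl l) (Sum.inr i) = - C ((v i l : ℤ) : K) := by
    intro l i
    rw [M6_C, updateCol_ne (by simp)]
    simp only [BM, fromBlocks_apply₁₂, of_apply]
  have hC10 : ∀ i, M6_C v a δ Δ x p (Sum.inr i) (Sum.inl 0) =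
      X * (X * derivative (p i) - C (a i : K) * p i) := by
    intro i
    rw [M6_C, updateCol_self, Sum.elim_inr]
  have hC11 : ∀ i (j : Fin n), M6_C v a δ Δ x p (Sum.inr i) (Sum.inl j.succ) = Δ j (p i) := by
    intro i j
    rw [M6_C, updateCol_ne (by simp [Fin.succ_ne_zero])]
    simp only [BM, fromBlocks_apply₂₁, of_apply, Fin.cons_succ]
  have hC12 : ∀ i i', M6_C v a δ Δ x p (Sum.inr i) (Sum.inr i') = diagonal p i i' := by
    intro i i'
    rw [M6_C, updateCol_ne (by simp)]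
    simp only [BM, fromBlocks_apply₂₂]
  have hdeg : ∀ b c, (M6_C v a δ Δ x p b c).natDegree ≤ ρ b := by
    intro b c
    rw [hρ]
    rcases b with l | i
    · rw [Sum.elim_inl]
      rcases c with j | i
      · refine Fin.cases ?_ (fun j => ?_) j
        · rw [hC00, natDegree_zero]
        · rw [hC01, natDegree_C]
      · rw [hC02, natDegree_neg, natDegree_C]
    · rw [Sum.elim_inr]
      rcases c with j | i'
      · refine Fin.cases ?_ (fun j => ?_) j
        · rw [hC10]
          exact M6_deg (p i) (hG.deg i)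
        · rw [hC11]
          exact M6_Δ (δ j) (Δ j) (hΔ j) (p i) (hG.deg i)
      · rw [hC12, diagonal_apply]
        split_ifs
        · exact hG.deg i
        · rw [natDegree_zero]
          exact Nat.zero_le _
  obtain ⟨h1, h2⟩ := det_coeff (M6_C v a δ Δ x p) ρ hdeg
  have hsum : ∑ b, ρ b = ∑ i, a i := by
    rw [hρ, Fintype.sum_sum_type]
    simp
  have h3 : (Matrix.of fun b c => (M6_C v a δ Δ x p b c).coeff (ρ b)) =
      Matrix.fromBlocks
        (Matrix.of fun l j => (Fin.cons 0 (fun j => δ j (x l) / x l) : Fin (n + 1) → K) j)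
        (Matrix.of fun l i => - ((v i l : ℤ) : K))
        (Matrix.of fun i j => (Fin.cons (- (p i).coeff (a i - 1))
          (fun j => δ j ((p i).coeff (a i))) : Fin (n + 1) → K) j)
        (Matrix.diagonal fun i => (p i).coeff (a i)) := by
    ext b c
    rw [hρ, of_apply]
    rcases b with l | i
    · rw [Sum.elim_inl]
      rcases c with j | i
      · rw [fromBlocks_apply₁₁, of_apply]
        refine Fin.cases ?_ (fun j => ?_) j
        · rw [hC00, coeff_zero, Fin.cons_zero]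
        · rw [hC01, coeff_C_zero, Fin.cons_succ]
      · rw [fromBlocks_apply₁₂, of_apply, hC02, coeff_neg, coeff_C_zero]
    · rw [Sum.elim_inr]
      rcases c with j | i'
      · rw [fromBlocks_apply₂₁, of_apply]
        refine Fin.cases ?_ (fun j => ?_) j
        · rw [hC10, Fin.cons_zero]
          exact M6_top (p i) (hR.pos i)
        · rw [hC11, Fin.cons_succ, hΔ]
      · rw [fromBlocks_apply₂₂, hC12, diagonal_apply, diagonal_apply]
        split_ifs
        · rfl
        · rw [coeff_zero]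
  rw [h3, det_inf hn hA hR (fun j l => δ j (x l) / x l) (fun i => (p i).coeff (a i))
    (fun i => (p i).coeff (a i - 1)) (fun j i => δ j ((p i).coeff (a i)))
    (fun j i hi => by rw [hi, map_zero])
    (fun m hm m' hm' h0 j => dlog_rat hR.toRel0 hy hG (δ j) hm hm' h0), hsum, M6_det hR.rel] at h2
  rw [hsum, M6_det hR.rel] at h1
  have h4 : (X ^ 2 * (BM v δ Δ x p).det).natDegree = (BM v δ Δ x p).det.natDegree + 2 := by
    rw [natDegree_mul (pow_ne_zero _ X_ne_zero) hd, natDegree_X_pow, Nat.add_comm]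
  have h5 : X ^ 2 * (BM v δ Δ x p).det ≠ 0 := mul_ne_zero (pow_ne_zero _ X_ne_zero) hd
  have h6 : (X ^ 2 * (BM v δ Δ x p).det).natDegree ≠ ∑ i, a i := by
    intro h7
    rw [← h7, coeff_natDegree, leadingCoeff_eq_zero] at h2
    exact h5 h2
  omega

theorem no_generic {k K : Type} [Field k] [CharZero k] [Field K] [Algebra k K] {n r : ℕ}
    (hn : 1 ≤ n) {A : Finset (Fin (n + 1) → ℤ)} {c : (Fin (n + 1) → ℤ) → k}
    {v : Fin r → Fin (n + 1) → ℤ} {a : Fin r → ℕ} {h : Fin r → ℤ} (hA : Full A) (hR : Rel A v a h)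
    (hr : 0 < r) {y : (Fin (n + 1) → ℤ) → k} (hy : ∃ m ∈ A, y m ≠ 0) {x : Fin (n + 1) → K}
    {p : Fin r → K[X]} (hG : GC A c v a h y x p) (δ : Fin n → Derivation k K K)
    (hind : LinearIndependent K fun (j : Fin n) (l : Fin (n + 1)) => δ j (x l) / x l)
    (hl : ∃ l, ∑ m ∈ A, algebraMap k K (c m) * mn x m * (m l : K) ≠ 0) : False := by
  have : CharZero K := charZero_of_injective_algebraMap (algebraMap k K).injective
  have hΔ : ∀ j : Fin n, ∃ d : Derivation k K[X] K[X], ∀ (q : K[X]) i, (d q).coeff i = δ j (q.coeff i) :=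
    fun j => MP_1e3e9c_agR.exists_mapD (δ j)
  choose Δ hΔ using hΔ
  have h2 := two_le hR hr
  obtain ⟨M, hM⟩ : ∃ M, ∑ i, a i = M + 2 := ⟨∑ i, a i - 2, by omega⟩
  have h3 : X ^ (M + 1) ∣ Phi A c v h x p := by
    have h4 := hG.dvd
    rw [hM] at h4
    exact h4
  have h4 : X ∣ Phi A c v h x p := (dvd_pow_self X (Nat.succ_ne_zero M)).trans h3
  have h5 := dvd_det (δ := δ) (Δ := Δ) hR.toRel0 hΔ hG.ne hG.zero h3 hl
  have h6 := det_ne (δ := δ) (Δ := Δ) hR.toRel0 hΔ hG.ne hG.zero h4 hG.phi hind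
  have h7 := natDegree_det hn hA hR hr hy hG δ Δ hΔ h6
  have h8 := natDegree_le_of_dvd h5 h6
  rw [natDegree_X_pow] at h8
  omega

end Pool.Agent.Lib.MP_1e3e9c_agV
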