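import Pool.Agent.Lib.MP_1e3e9c_agV.V03a

/-! # MP_1e3e9c_ag, project V: the matrix of the logarithmic derivatives -/

set_option autoImplicit false

namespace Pool.Agent.Lib.MP_1e3e9c_agV

open Polynomial

/-- The square matrix with the columns `∂_t`, `δ_1, .., δ_n` (logarithmic derivatives of `x`, derivatives of `p_i`) and the
`r` columns `(- v_i, p_i)`. `Δ j` is the coefficientwise extension of `δ j`. -/
noncomputable def BM {k K : Type} [Field k] [Field K] [Algebra k K] {n r : ℕ}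
    (v : Fin r → Fin (n + 1) → ℤ) (δ : Fin n → Derivation k K K)
    (Δ : Fin n → Derivation k K[X] K[X]) (x : Fin (n + 1) → K) (p : Fin r → K[X]) :
    Matrix (Fin (n + 1) ⊕ Fin r) (Fin (n + 1) ⊕ Fin r) K[X] :=
  Matrix.fromBlocks
    (Matrix.of fun l j => (Fin.cons 0 (fun j => C (δ j (x l) / x l)) : Fin (n + 1) → K[X]) j)
    (Matrix.of fun l i => - C ((v i l : ℤ) : K))
    (Matrix.of fun i j => (Fin.cons (derivative (p i)) (fun j => Δ j (p i)) : Fin (n + 1) → K[X]) j)
    (Matrix.diagonal p)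

/-- `∑ c_m m_l x^m ∏ p_i^(..)`, the logarithmic gradient of the equation on the curve. -/
noncomputable def Ga {k K : Type} [Field k] [Field K] [Algebra k K] {d r : ℕ}
    (A : Finset (Fin d → ℤ)) (c : (Fin d → ℤ) → k) (v : Fin r → Fin d → ℤ) (h : Fin r → ℤ)
    (x : Fin d → K) (p : Fin r → K[X]) (l : Fin d) : K[X] :=
  ∑ m ∈ A, C (algebraMap k K (c m) * (m l : K)) * cd v h x p m 1

/-- The derivative of `∑ c_m x^m ∏ p_i^(..)` with respect to `p_i`. -/
noncomputable def Psi {k K : Type} [Field k] [Field K] [Algebra k K] {d r : ℕ}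
    (A : Finset (Fin d → ℤ)) (c : (Fin d → ℤ) → k) (v : Fin r → Fin d → ℤ) (h : Fin r → ℤ)
    (x : Fin d → K) (p : Fin r → K[X]) (i : Fin r) : K[X] :=
  ∑ m ∈ A, C (algebraMap k K (c m) * mn x m * ((ex v h m 1 i : ℕ) : K)) *
    (p i ^ (ex v h m 1 i - 1) * ∏ i' ∈ Finset.univ.erase i, p i' ^ ex v h m 1 i')

end Pool.Agent.Lib.MP_1e3e9c_agV
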