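import Mathlib

/-! LEAF V07 (medium, MATHLIB ONLY).  The dimension is at least the transcendence degree.

PROOF.  Noether normalisation (`exists_integral_inj_algHom_of_fg`): `g : MvPolynomial (Fin s) k →ₐ[k] B` injective and integral.  `B` is algebraic over the image, so the transcendence degree of `B` is `s` (`Algebra.trdeg`; `IsTranscendenceBasis`: the `g (X i)` are algebraically independent and `B` is integral over the algebra they
generate): `N ≤ s`.  A chain of primes of `MvPolynomial (Fin s) k` of length `s` (`MvPolynomial.ringKrullDim_of_isNoetherianRing`: the dimension is `s`) lifts to `B` (lying over `⊥` and going up: `Ideal.exists_ideal_over_prime_of_isIntegral`), so `s ≤ ringKrullDim B` (induction on the length of the `LTSeries`, lifting the primes one after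
the other).  (The case of an infinite supremum does not occur; only: for every `LTSeries` of primes of the base there is one of the same length in `B`, so `Order.krullDim` of the base is `≤` that of `B`.) -/

set_option autoImplicit false

namespace Pool.Agent.Lib.MP_1e3e9c_agV

theorem dim_ge {k B : Type} [Field k] [CommRing B] [IsDomain B] [Algebra k B]
    [Algebra.FiniteType k B] {N : ℕ} (hN : (N : Cardinal) ≤ Algebra.trdeg k B) :
    ((N : ℕ) : WithBot ℕ∞) ≤ ringKrullDim B := by
  obtain ⟨s, g, hinj, hint⟩ := exists_integral_inj_algHom_of_fg k B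
  let _ : Algebra (MvPolynomial (Fin s) k) B := g.toRingHom.toAlgebra
  have htow : IsScalarTower k (MvPolynomial (Fin s) k) B :=
    IsScalarTower.of_algebraMap_eq fun x => (g.commutes x).symm
  have hI : Algebra.IsIntegral (MvPolynomial (Fin s) k) B := ⟨hint⟩
  have hF : FaithfulSMul (MvPolynomial (Fin s) k) B :=
    (faithfulSMul_iff_algebraMap_injective _ _).2 hinj
  have hNs : N ≤ s := by
    have h1 := trdeg_add_eq k (MvPolynomial (Fin s) k) (A := B)
    have h2 : Algebra.trdeg (MvPolynomial (Fin s) k) B = 0 := trdeg_eq_zero
    rw [h2, add_zero, MvPolynomial.trdeg_of_isDomain, Cardinal.mk_fin, Cardinal.lift_natCast] at h1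
    rw [← h1] at hN
    exact_mod_cast hN
  have hdim : ringKrullDim (MvPolynomial (Fin s) k) = (s : WithBot ℕ∞) := by
    rw [MvPolynomial.ringKrullDim_of_isNoetherianRing, ringKrullDim_eq_zero_of_field, zero_add,
      Nat.card_eq_fintype_card, Fintype.card_fin]
  have hle : ringKrullDim (MvPolynomial (Fin s) k) ≤ ringKrullDim B := by
    refine iSup_le fun l => ?_
    obtain ⟨P, hP, hP2⟩ := Ideal.exists_ideal_over_prime_of_isIntegral_of_isDomain (S := B)
      (RelSeries.head l).asIdeal (by
        rw [(RingHom.injective_iff_ker_eq_bot (algebraMap (MvPolynomial (Fin s) k) B)).1 hinj]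
        exact bot_le)
    have : P.IsPrime := hP
    have : P.LiesOver (RelSeries.head l).asIdeal := ⟨hP2.symm⟩
    obtain ⟨L, hL, -, -⟩ := Ideal.exists_ltSeries_of_hasGoingUp l P
    rw [← hL]
    exact le_iSup (fun L : LTSeries (PrimeSpectrum B) => ((L.length : ℕ) : WithBot ℕ∞)) L
  rw [hdim] at hle
  refine le_trans ?_ hle
  exact_mod_cast hNs

end Pool.Agent.Lib.MP_1e3e9c_agV
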