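import Pool.Agent.Lib.MP_1e3e9c_agV.V03a
import Pool.Agent.Lib.MP_1e3e9c_agV.V07

/-! LEAF V08 (medium+).  The image in `P(w)` of a dense subset of the hypersurface of the torus has dimension `d - 1`.

PROOF.  `K₀` = the field of fractions of `k[X_1..X_d] / (H)`, `ξ_j ∈ K₀` the images of the `X_j`: `ξ_j ≠ 0`, `P(ξ) = 0` iff `H ∣ P`.  `f : MvPolynomial (Fin (n+1)) k →ₐ[k] K₀[X]` (`Polynomial`), `z_j ↦ C (mn ξ (e j)) * X^(w j)`; `B` = the range of `f` (a subalgebra of finite type, a domain).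
(1) The vanishing ideal `I` of the set in `wdm` is contained in the kernel of `f`: let `Q ∈ I`, `Q = ∑ Q_μ` the weighted homogeneous components; for `x ∈ W`: `0 = Q(a^(w_j) mn x (e j)) = ∑ a^μ Q_μ(mn x (e j))` for all `a ≠ 0` (`k` infinite), so `Q_μ(mn x (e j)) = 0` for all `x ∈ W`; multiplied by a monomial `x^s` (`s` large) this is a polynomial
in `x` which vanishes on `W`, so it is divisible by `H` (`hD`), so `Q_μ(mn ξ (e j)) = 0` and `f Q = 0`.  So `k[z]/I → B` is surjective and `ringKrullDim B ≤ ringKrullDim (k[z]/I) = wdm ..` (`ringKrullDim_le_of_surjective`).  (2) `trdeg_k B ≥ d`, and then `dim_ge` (V07).  The fraction field of `B` contains `mn ξ m T`, `m ∈ A` (`hg.one`), so all `mn ξ (m - m')`, `m, m' ∈ A`.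
By `Full A` the differences `m - m'` span `ℚ^d`, so for some `M > 0` all `ξ_j^M` are products of integral powers of these: `K₀` is algebraic over `k(mn ξ (m - m'))`, whose transcendence degree is so that of `K₀`: at least `d - 1` (`H` contains a variable `X_(j₀)`, the other `ξ_j` are algebraically independent: a polynomial `P ≠ 0` in the other
variables is not divisible by `H`, `MvPolynomial.degreeOf`), and `T` is transcendental over `K₀`: together `d` (for instance: `K₀(T)` is algebraic over the fraction field of `B`, and has transcendence degree `≥ d`: `Algebra.IsAlgebraic`, `trdeg`). -/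

set_option autoImplicit false

namespace Pool.Agent.Lib.MP_1e3e9c_agV

open Pool.Agent.Lib.MP_1e3e9c_agR

private lemma V08_ev {k : Type} [Field k] {d n : ℕ} (e : Fin (n + 1) → Fin d → ℤ)
    (w : Fin (n + 1) → ℕ) (Q : MvPolynomial (Fin (n + 1)) k) :
    ∃ (P : Polynomial (MvPolynomial (Fin d) k)) (s : ℕ),
      ∀ (F : Type) [Field F] [Algebra k F] (x : Fin d → F) (a : F), (∀ i, x i ≠ 0) →
      Polynomial.eval₂ (MvPolynomial.aeval x : MvPolynomial (Fin d) k →ₐ[k] F).toRingHom a P =
        (∏ i, x i ^ s) * MvPolynomial.aeval (fun j => mn x (e j) * a ^ (w j)) Q := by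
  induction Q using MvPolynomial.induction_on with
  | C c =>
    refine ⟨Polynomial.C (MvPolynomial.C c), 0, fun F _ _ x a hx => ?_⟩
    simp
  | add p q hp hq =>
    obtain ⟨P1, s1, h1⟩ := hp
    obtain ⟨P2, s2, h2⟩ := hq
    refine ⟨Polynomial.C (∏ i, MvPolynomial.X i ^ s2) * P1 +
      Polynomial.C (∏ i, MvPolynomial.X i ^ s1) * P2, s1 + s2, fun F _ _ x a hx => ?_⟩
    rw [Polynomial.eval₂_add, Polynomial.eval₂_mul, Polynomial.eval₂_mul, h1 F x a hx,
      h2 F x a hx, Polynomial.eval₂_C, Polynomial.eval₂_C, map_add]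
    have hs : ∀ s : ℕ, (MvPolynomial.aeval x : MvPolynomial (Fin d) k →ₐ[k] F).toRingHom
        (∏ i, MvPolynomial.X i ^ s) = ∏ i, x i ^ s := by
      intro s
      simp
    rw [hs, hs]
    simp only [pow_add, Finset.prod_mul_distrib]
    ring
  | mul_X p j hp =>
    obtain ⟨P, s, h⟩ := hp
    have ht : ∀ i, 0 ≤ e j i + (∑ i, (e j i).natAbs : ℕ) := by
      intro i
      have h1 : (e j i).natAbs ≤ ∑ i, (e j i).natAbs :=
        Finset.single_le_sum (f := fun i => (e j i).natAbs) (fun _ _ => Nat.zero_le _)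
          (Finset.mem_univ i)
      omega
    obtain ⟨t, ht'⟩ : ∃ t : ℕ, ∀ i, 0 ≤ e j i + t := ⟨_, ht⟩
    refine ⟨P * (Polynomial.C (∏ i, MvPolynomial.X i ^ (e j i + t).toNat) *
      Polynomial.X ^ (w j)), s + t, fun F _ _ x a hx => ?_⟩
    rw [Polynomial.eval₂_mul, Polynomial.eval₂_mul, h F x a hx, Polynomial.eval₂_C,
      Polynomial.eval₂_X_pow, map_mul, MvPolynomial.aeval_X]
    have h1 : (MvPolynomial.aeval x : MvPolynomial (Fin d) k →ₐ[k] F).toRingHom
        (∏ i, MvPolynomial.X i ^ (e j i + t).toNat) = (∏ i, x i ^ t) * mn x (e j) := by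
      have h2 : (MvPolynomial.aeval x : MvPolynomial (Fin d) k →ₐ[k] F).toRingHom
        (∏ i, MvPolynomial.X i ^ (e j i + t).toNat) = ∏ i, x i ^ (e j i + t).toNat := by
        simp
      rw [h2, mn, ← Finset.prod_mul_distrib]
      apply Finset.prod_congr rfl
      intro i _
      rw [← zpow_natCast, Int.toNat_of_nonneg (ht' i), zpow_add₀ (hx i), zpow_natCast, mul_comm]
    rw [h1]
    simp only [pow_add, Finset.prod_mul_distrib]
    ring

private lemma V08_indep {k : Type} [Field k] {d : ℕ} {H : MvPolynomial (Fin d) k} (hH : Prime H) :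
    ∃ j : Fin d, MvPolynomial.degreeOf j H ≠ 0 := by
  by_contra hcon
  push Not at hcon
  have h1 : H = MvPolynomial.C (MvPolynomial.coeff 0 H) := by
    apply MvPolynomial.totalDegree_eq_zero_iff_eq_C.mp
    have h2 : ∀ m ∈ H.support, m = 0 := by
      intro m hm
      ext i
      have h3 : m i ≤ MvPolynomial.degreeOf i H := MvPolynomial.monomial_le_degreeOf i hm
      rw [hcon i] at h3
      simpa using h3
    rw [MvPolynomial.totalDegree_eq_zero_iff]
    intro m hm i
    rw [h2 m hm]
    rfl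
  have h4 : MvPolynomial.coeff 0 H ≠ 0 := by
    intro h0
    rw [h0, map_zero] at h1
    exact hH.ne_zero h1
  apply hH.not_isUnit
  rw [h1]
  exact (isUnit_iff_ne_zero.mpr h4).map MvPolynomial.C

private lemma V08_trdeg0 {k : Type} [Field k] {d : ℕ} {H : MvPolynomial (Fin d) k} (hH : Prime H) :
    ((d - 1 : ℕ) : Cardinal) ≤ Algebra.trdeg k (MvPolynomial (Fin d) k ⧸ Ideal.span {H}) := by
  classical
  obtain ⟨j, hj⟩ := V08_indep hH
  have h1 : AlgebraicIndependent k (fun i : {i : Fin d // i ≠ j} =>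
      (Ideal.Quotient.mkₐ k (Ideal.span {H})) (MvPolynomial.X i.1)) := by
    rw [algebraicIndependent_iff]
    intro p hp
    have h2 : MvPolynomial.aeval (fun i : {i : Fin d // i ≠ j} =>
      (Ideal.Quotient.mkₐ k (Ideal.span {H})) (MvPolynomial.X i.1)) p =
      (Ideal.Quotient.mkₐ k (Ideal.span {H})) (MvPolynomial.rename (fun i => i.1) p) := by
      rw [← AlgHom.comp_apply]
      have h0 : MvPolynomial.aeval (fun i : {i : Fin d // i ≠ j} =>
        (Ideal.Quotient.mkₐ k (Ideal.span {H})) (MvPolynomial.X i.1)) =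
        (Ideal.Quotient.mkₐ k (Ideal.span {H})).comp
          (MvPolynomial.rename (fun i : {i : Fin d // i ≠ j} => i.1)) := by
        apply MvPolynomial.algHom_ext
        intro i
        simp
      rw [h0]
    rw [h2] at hp
    have h3 : H ∣ MvPolynomial.rename (fun i : {i : Fin d // i ≠ j} => i.1) p := by
      rw [← Ideal.mem_span_singleton]
      exact Ideal.Quotient.eq_zero_iff_mem.mp hp
    obtain ⟨q, hq⟩ := h3
    by_contra hp0
    have h4 : MvPolynomial.rename (fun i : {i : Fin d // i ≠ j} => i.1) p ≠ 0 := by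
      intro h0
      apply hp0
      apply MvPolynomial.rename_injective _ Subtype.val_injective
      rw [h0, map_zero]
    have hq0 : q ≠ 0 := by
      rintro rfl
      rw [mul_zero] at hq
      exact h4 hq
    have h5 : MvPolynomial.degreeOf j (MvPolynomial.rename
        (fun i : {i : Fin d // i ≠ j} => i.1) p) = 0 := by
      by_contra hne
      replace hne := MvPolynomial.mem_vars_iff_degreeOf_ne_zero.mpr hne
      have h6 := MvPolynomial.vars_rename (fun i : {i : Fin d // i ≠ j} => i.1) p hne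
      rw [Finset.mem_image] at h6
      obtain ⟨i, _, hi⟩ := h6
      exact i.2 hi
    rw [hq, MvPolynomial.degreeOf_mul_eq hH.ne_zero hq0] at h5
    omega
  have h7 := h1.cardinalMk_le_trdeg
  have h8 : Cardinal.mk {i : Fin d // i ≠ j} = ((d - 1 : ℕ) : Cardinal) := by
    rw [Cardinal.mk_fintype, Fintype.card_subtype_compl]
    simp
  rw [h8] at h7
  exact h7

private lemma V08_trdeg {k : Type} [Field k] {d : ℕ} {H : MvPolynomial (Fin d) k} (hH : Prime H) :
    (d : Cardinal) ≤
      Algebra.trdeg k (Polynomial (MvPolynomial (Fin d) k ⧸ Ideal.span {H})) := by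
  have : (Ideal.span {H}).IsPrime := (Ideal.span_singleton_prime hH.ne_zero).mpr hH
  have h1 := V08_trdeg0 hH
  have h2 := trdeg_add_eq k (MvPolynomial (Fin d) k ⧸ Ideal.span {H}) (A :=
    Polynomial (MvPolynomial (Fin d) k ⧸ Ideal.span {H}))
  rw [Polynomial.trdeg_of_isDomain] at h2
  rw [← h2]
  obtain ⟨j, hj⟩ := V08_indep hH
  have h3 : (d : Cardinal) = ((d - 1 : ℕ) : Cardinal) + 1 := by
    have : d = (d - 1) + 1 := by
      have := j.2
      omega
    conv_lhs => rw [this]
    push_cast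
    rfl
  rw [h3]
  exact add_le_add_left h1 1

private lemma V08_den {ι : Type} [Fintype ι] (q : ι → ℚ) :
    ∃ (D : ℕ) (z : ι → ℤ), 0 < D ∧ ∀ i, (D : ℚ) * q i = z i := by
  classical
  have h1 : ∀ i, ∃ t : ℕ, ∏ i, (q i).den = (q i).den * t := fun i =>
    Finset.dvd_prod_of_mem (fun i => (q i).den) (Finset.mem_univ i)
  choose t ht using h1
  refine ⟨∏ i, (q i).den, fun i => (t i : ℤ) * (q i).num,
    Finset.prod_pos (fun i _ => (q i).den_pos), fun i => ?_⟩
  rw [ht i]
  push_cast
  have h2 : ((q i).den : ℚ) * q i = (q i).num := Rat.den_mul_eq_num (q i)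
  rw [← h2]
  ring

private lemma V08_span {d : ℕ} {A : Finset (Fin d → ℤ)} (hA : Full A) (m₀ : Fin d → ℤ)
    (j : Fin d) :
    ∃ (M : ℕ) (c : (Fin d → ℤ) → ℤ), 0 < M ∧
      ∀ i, ∑ m ∈ A, c m * (m i - m₀ i) = if i = j then (M : ℤ) else 0 := by
  classical
  let F : A → (Fin d → ℚ) := fun m i => ((m.1 i - m₀ i : ℤ) : ℚ)
  have htop : Submodule.span ℚ (Set.range F) = ⊤ := by
    by_contra hne
    obtain ⟨φ, hφ, hle⟩ := Submodule.exists_le_ker_of_lt_top _ (lt_top_iff_ne_top.mpr hne)
    obtain ⟨D, u, hD, hu⟩ := V08_den (fun i : Fin d => φ (fun j => if i = j then 1 else 0))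
    have hφu : ∀ x : Fin d → ℚ, (D : ℚ) * φ x = ∑ i, x i * u i := by
      intro x
      rw [LinearMap.pi_apply_eq_sum_univ φ x, Finset.mul_sum]
      apply Finset.sum_congr rfl
      intro i _
      rw [← hu i, smul_eq_mul]
      ring
    have hu0 : u ≠ 0 := by
      intro h0
      apply hφ
      ext x
      have h1 := hφu (Pi.single x 1)
      rw [h0] at h1
      simp only [Pi.zero_apply, Int.cast_zero, mul_zero, Finset.sum_const_zero, mul_eq_zero,
        Nat.cast_eq_zero] at h1
      rcases h1 with h1 | h1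
      · omega
      · simpa using h1
    obtain ⟨m, hm, m', hm', hne'⟩ := hA u hu0
    have h2 : ∀ m ∈ A, pr m u = pr m₀ u := by
      intro m hm
      have h3 : φ (F ⟨m, hm⟩) = 0 := hle (Submodule.subset_span ⟨⟨m, hm⟩, rfl⟩)
      have h4 := hφu (F ⟨m, hm⟩)
      rw [h3, mul_zero] at h4
      have h5 : ((pr m u - pr m₀ u : ℤ) : ℚ) = ∑ i, F ⟨m, hm⟩ i * u i := by
        rw [pr, pr, ← Finset.sum_sub_distrib]
        push_cast
        apply Finset.sum_congr rfl
        intro i _
        simp only [F]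
        push_cast
        ring
      rw [← h4] at h5
      have h6 : pr m u - pr m₀ u = 0 := by exact_mod_cast h5
      linarith
    exact hne' ((h2 m hm).trans (h2 m' hm').symm)
  have hmem : (fun i => if i = j then (1 : ℚ) else 0) ∈ Submodule.span ℚ (Set.range F) := by
    rw [htop]
    trivial
  rw [Submodule.mem_span_range_iff_exists_fun] at hmem
  obtain ⟨c, hc⟩ := hmem
  obtain ⟨M, z, hM, hz⟩ := V08_den c
  refine ⟨M, fun m => if hm : m ∈ A then z ⟨m, hm⟩ else 0, hM, fun i => ?_⟩
  have h1 := congrFun hc i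
  rw [Finset.sum_apply] at h1
  have h2 : ((∑ m ∈ A, (if hm : m ∈ A then z ⟨m, hm⟩ else 0) * (m i - m₀ i) : ℤ) : ℚ) =
      (M : ℚ) * ∑ m : A, (c m • F m) i := by
    rw [← Finset.sum_coe_sort, Finset.mul_sum]
    push_cast
    apply Finset.sum_congr rfl
    intro m _
    have h3 : (m : Fin d → ℤ) ∈ A := m.2
    rw [dif_pos h3, ← hz, Pi.smul_apply, smul_eq_mul]
    simp only [F]
    push_cast
    ring
  rw [h1] at h2
  have h4 : (M : ℚ) * (if i = j then (1 : ℚ) else 0) = ((if i = j then (M : ℤ) else 0 : ℤ) : ℚ) := by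
    split_ifs <;> simp
  rw [h4] at h2
  exact_mod_cast h2

private lemma V08_zpow {B L : Type} [CommRing B] [IsDomain B] [Field L] [Algebra B L] {y : L}
    (hy : IsAlgebraic B y) (z : ℤ) : IsAlgebraic B (y ^ z) := by
  cases z with
  | ofNat n =>
    rw [Int.ofNat_eq_natCast, zpow_natCast]
    exact hy.pow n
  | negSucc n =>
    rw [zpow_negSucc]
    exact (hy.pow _).inv

private lemma V08_prod {B L ι : Type} [CommRing B] [IsDomain B] [Field L] [Algebra B L]
    [FaithfulSMul B L]
    (s : Finset ι) (f : ι → L) (hf : ∀ i ∈ s, IsAlgebraic B (f i)) :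
    IsAlgebraic B (∏ i ∈ s, f i) := by
  apply Finset.prod_induction f (fun y => IsAlgebraic B y) (fun a b ha hb => ha.mul hb) _ hf
  exact isAlgebraic_one

private lemma V08_mnsum {L : Type} [Field L] {d : ℕ} {x : Fin d → L} (hx : ∀ i, x i ≠ 0)
    {ι : Type} (s : Finset ι) (c : ι → ℤ) (f : ι → Fin d → ℤ) :
    mn x (fun i => ∑ m ∈ s, c m * f m i) = ∏ m ∈ s, (mn x (f m)) ^ (c m) := by
  classical
  induction s using Finset.induction_on with
  | empty => simp [mn]
  | insert a s ha ih =>
    rw [Finset.prod_insert ha, ← ih]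
    have h1 : mn x (f a) ^ c a = mn x (fun i => c a * f a i) := by
      rw [mn, mn, ← Finset.prod_zpow]
      apply Finset.prod_congr rfl
      intro i _
      rw [mul_comm, zpow_mul]
    rw [h1, ← mn_add hx]
    apply congrArg
    funext i
    rw [Finset.sum_insert ha]
    rfl

private lemma V08_alg {k : Type} [Field k] {d n : ℕ}
    {A : Finset (Fin d → ℤ)} {e : Fin (n + 1) → Fin d → ℤ} {w : Fin (n + 1) → ℕ}
    {o : (Fin d → ℤ) → Fin (n + 1)} (hA : Full A) (hg : Gens A e w o) (hd : 0 < d)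
    {L : Type} [Field L] [Algebra k L] (x : Fin d → L) (hx : ∀ i, x i ≠ 0) (T : L) (hT : T ≠ 0)
    (B : Subalgebra k L)
    (hB : ∀ j, mn x (e j) * T ^ (w j) ∈ B) :
    (∀ i, IsAlgebraic B (x i)) ∧ IsAlgebraic B T := by
  classical
  have hB1 : ∀ m ∈ A, IsAlgebraic B (mn x m * T) := by
    intro m hm
    have h1 := hB (o m)
    rw [(hg.one m hm).1, (hg.one m hm).2, pow_one] at h1
    exact isAlgebraic_algebraMap (⟨_, h1⟩ : B)
  obtain ⟨m₀, hm₀⟩ : ∃ m₀, m₀ ∈ A := by
    obtain ⟨m, hm, _⟩ := hA (fun _ => 1) (fun h0 => by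
      have := congrFun h0 ⟨0, hd⟩
      simp at this)
    exact ⟨m, hm⟩
  have hdiff : ∀ m ∈ A, IsAlgebraic B (mn x (fun i => m i - m₀ i)) := by
    intro m hm
    have h1 : mn x (fun i => m i - m₀ i) = (mn x m * T) * (mn x m₀ * T)⁻¹ := by
      have h2 : mn x (fun i => m i - m₀ i) * mn x m₀ = mn x m := by
        rw [← mn_add hx]
        apply congrArg
        funext i
        simp
      have h3 := mn_ne hx m₀
      field_simp
      exact h2
    rw [h1]
    exact (hB1 m hm).mul (hB1 m₀ hm₀).inv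
  have hxi : ∀ i, IsAlgebraic B (x i) := by
    intro j
    obtain ⟨M, c, hM, hc⟩ := V08_span hA m₀ j
    apply IsAlgebraic.of_pow hM
    have h1 : x j ^ M = ∏ m ∈ A, (mn x (fun i => m i - m₀ i)) ^ (c m) := by
      rw [← V08_mnsum hx A c (fun m i => m i - m₀ i)]
      have h2 : (fun i => ∑ m ∈ A, c m * (m i - m₀ i)) = fun i => if i = j then (M : ℤ) else 0 :=
        funext hc
      rw [h2, mn, Finset.prod_eq_single j]
      · simp
      · intro i _ hij
        simp [hij]
      · intro h
        exact absurd (Finset.mem_univ j) h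
    rw [h1]
    exact V08_prod A _ (fun m hm => V08_zpow (hdiff m hm) _)
  refine ⟨hxi, ?_⟩
  have h1 : T = (mn x m₀ * T) * (mn x m₀)⁻¹ := by
    have h3 := mn_ne hx m₀
    field_simp
  rw [h1]
  exact (hB1 m₀ hm₀).mul (V08_prod _ _ (fun i _ => V08_zpow (hxi i) _)).inv

private lemma V08_all {k : Type} [Field k] {d : ℕ} {R₀ : Type} [CommRing R₀] [IsDomain R₀]
    [Algebra k R₀] (π : MvPolynomial (Fin d) k →ₐ[k] R₀) (hπ : Function.Surjective π)
    {L : Type} [Field L] [Algebra k L] [Algebra (Polynomial R₀) L]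
    [IsScalarTower k (Polynomial R₀) L] [IsFractionRing (Polynomial R₀) L]
    (B : Subalgebra k L)
    (hx : ∀ i : Fin d, IsAlgebraic B (algebraMap (Polynomial R₀) L
      (Polynomial.C (π (MvPolynomial.X i)))))
    (hT : IsAlgebraic B (algebraMap (Polynomial R₀) L (Polynomial.X : Polynomial R₀)))
    (y : L) : IsAlgebraic B y := by
  have h1 : ∀ p : MvPolynomial (Fin d) k,
      IsAlgebraic B (algebraMap (Polynomial R₀) L (Polynomial.C (π p))) := by
    intro p
    induction p using MvPolynomial.induction_on with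
    | C c =>
      have h2 : algebraMap (Polynomial R₀) L
          (Polynomial.C (π (MvPolynomial.C c))) = algebraMap k L c := by
        rw [IsScalarTower.algebraMap_apply k (Polynomial R₀) L]
        have h3 : π (MvPolynomial.C c) = algebraMap k R₀ c := π.commutes c
        rw [h3]
        rfl
      rw [h2]
      exact isAlgebraic_algebraMap (algebraMap k B c)
    | add p q hp hq =>
      rw [map_add, map_add, map_add]
      exact hp.add hq
    | mul_X p i hp =>
      rw [map_mul, map_mul, map_mul]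
      exact hp.mul (hx i)
  have h3 : ∀ p : Polynomial R₀, IsAlgebraic B (algebraMap (Polynomial R₀) L p) := by
    intro p
    induction p using Polynomial.induction_on' with
    | add p q hp hq =>
      rw [map_add]
      exact hp.add hq
    | monomial n a =>
      obtain ⟨P, rfl⟩ := hπ a
      rw [← Polynomial.C_mul_X_pow_eq_monomial, map_mul, map_pow]
      exact (h1 P).mul (hT.pow n)
  obtain ⟨p, q, _, rfl⟩ := IsFractionRing.div_surjective (A := Polynomial R₀) y
  rw [div_eq_mul_inv]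
  exact (h3 p).mul (h3 q).inv

private lemma V08_ker {k : Type} [Field k] [IsAlgClosed k] {d n : ℕ}
    {e : Fin (n + 1) → Fin d → ℤ} {w : Fin (n + 1) → ℕ}
    {H : MvPolynomial (Fin d) k} {W : Set (Fin d → k)} (hW : ∀ x ∈ W, ∀ i, x i ≠ 0)
    (hD : Dn H W) {L : Type} [Field L] [Algebra k L] (ξ : Fin d → L) (hξ : ∀ i, ξ i ≠ 0) (T : L)
    (hH : MvPolynomial.aeval ξ H = 0) {Q : MvPolynomial (Fin (n + 1)) k}
    (hQ : ∀ x ∈ W, ∀ a : k, a ≠ 0 → MvPolynomial.eval (fun j => a ^ (w j) * mn x (e j)) Q = 0) :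
    MvPolynomial.aeval (fun j => mn ξ (e j) * T ^ (w j)) Q = 0 := by
  obtain ⟨P, s, hP⟩ := V08_ev e w Q
  have h1 : ∀ l, H ∣ P.coeff l := by
    intro l
    apply hD
    intro x hx
    have h2 : ∀ a : k, a ≠ 0 → (P.map (MvPolynomial.aeval x :
        MvPolynomial (Fin d) k →ₐ[k] k).toRingHom).eval a = 0 := by
      intro a ha
      rw [Polynomial.eval_map, hP k x a (hW x hx)]
      have h3 : MvPolynomial.aeval (fun j => mn x (e j) * a ^ (w j)) Q =
          MvPolynomial.eval (fun j => a ^ (w j) * mn x (e j)) Q := by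
        have h31 : (fun j => mn x (e j) * a ^ (w j)) = fun j => a ^ (w j) * mn x (e j) :=
          funext (fun j => mul_comm _ _)
        rw [h31]
        rfl
      rw [h3, hQ x hx a ha, mul_zero]
    have h4 : Polynomial.X * P.map (MvPolynomial.aeval x :
        MvPolynomial (Fin d) k →ₐ[k] k).toRingHom = 0 := by
      have : Infinite k := IsAlgClosed.instInfinite
      apply Polynomial.funext
      intro a
      rw [Polynomial.eval_mul, Polynomial.eval_X, Polynomial.eval_zero]
      rcases eq_or_ne a 0 with rfl | ha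
      · rw [zero_mul]
      · rw [h2 a ha, mul_zero]
    have h5 : P.map (MvPolynomial.aeval x : MvPolynomial (Fin d) k →ₐ[k] k).toRingHom = 0 :=
      (mul_eq_zero.mp h4).resolve_left Polynomial.X_ne_zero
    have h6 := congrArg (fun p => p.coeff l) h5
    simp only [Polynomial.coeff_map, Polynomial.coeff_zero] at h6
    exact h6
  have h7 := hP L ξ T hξ
  have h8 : Polynomial.eval₂ (MvPolynomial.aeval ξ : MvPolynomial (Fin d) k →ₐ[k] L).toRingHom T P
      = 0 := by
    rw [Polynomial.eval₂_eq_sum_range]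
    apply Finset.sum_eq_zero
    intro l _
    obtain ⟨q, hq⟩ := h1 l
    rw [hq]
    have h9 : (MvPolynomial.aeval ξ : MvPolynomial (Fin d) k →ₐ[k] L).toRingHom (H * q) =
        MvPolynomial.aeval ξ (H * q) := rfl
    rw [h9, map_mul, hH, zero_mul, zero_mul]
  rw [h8] at h7
  exact (mul_eq_zero.mp h7.symm).resolve_left
    (Finset.prod_ne_zero_iff.mpr (fun i _ => pow_ne_zero _ (hξ i)))

private lemma V08_main {k : Type} [Field k] [IsAlgClosed k] {d n : ℕ}
    {A : Finset (Fin d → ℤ)} {e : Fin (n + 1) → Fin d → ℤ} {w : Fin (n + 1) → ℕ}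
    {o : (Fin d → ℤ) → Fin (n + 1)} (hA : Full A) (hg : Gens A e w o)
    {H : MvPolynomial (Fin d) k} (hd : 0 < d)
    {W : Set (Fin d → k)} (hW : ∀ x ∈ W, ∀ i, x i ≠ 0) (hD : Dn H W)
    {R₀ : Type} [CommRing R₀] [IsDomain R₀]
    [Algebra k R₀] (π : MvPolynomial (Fin d) k →ₐ[k] R₀) (hπ : Function.Surjective π)
    (hπH : π H = 0) (hπX : ∀ i, π (MvPolynomial.X i) ≠ 0)
    (htr0 : (d : Cardinal) ≤ Algebra.trdeg k (Polynomial R₀))
    {L : Type} [Field L] [Algebra k L] [Algebra (Polynomial R₀) L]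
    [IsScalarTower k (Polynomial R₀) L] [IsFractionRing (Polynomial R₀) L] :
    ((d : ℕ) : WithBot ℕ∞) ≤ wdm w ((fun (x : Fin d → k) (j : Fin (n + 1)) => mn x (e j)) '' W) := by
  classical
  have hinj : Function.Injective (algebraMap (Polynomial R₀) L) := IsFractionRing.injective _ L
  obtain ⟨ξ, hξdef⟩ : ∃ ξ : Fin d → L, ∀ i, ξ i =
      algebraMap (Polynomial R₀) L (Polynomial.C (π (MvPolynomial.X i))) := ⟨_, fun _ => rfl⟩
  obtain ⟨T, hTdef⟩ : ∃ T : L, T = algebraMap (Polynomial R₀) L (Polynomial.X : Polynomial R₀) :=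
    ⟨_, rfl⟩
  have hξ : ∀ i, ξ i ≠ 0 := by
    intro i h0
    rw [hξdef] at h0
    have h1 : (Polynomial.C (π (MvPolynomial.X i)) : Polynomial R₀) = 0 :=
      hinj (h0.trans (map_zero _).symm)
    rw [Polynomial.C_eq_zero] at h1
    exact hπX i h1
  have hT : T ≠ 0 := by
    intro h0
    rw [hTdef] at h0
    have h1 : (Polynomial.X : Polynomial R₀) = 0 := hinj (h0.trans (map_zero _).symm)
    exact Polynomial.X_ne_zero h1
  have hξP : ∀ P : MvPolynomial (Fin d) k, MvPolynomial.aeval ξ P =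
      algebraMap (Polynomial R₀) L (Polynomial.C (π P)) := by
    intro P
    induction P using MvPolynomial.induction_on with
    | C c =>
      rw [MvPolynomial.aeval_C, IsScalarTower.algebraMap_apply k (Polynomial R₀) L]
      have h3 : π (MvPolynomial.C c) = algebraMap k R₀ c := π.commutes c
      rw [h3]
      rfl
    | add p q hp hq => rw [map_add, hp, hq, map_add, map_add, map_add]
    | mul_X p i hp =>
      rw [map_mul, hp, MvPolynomial.aeval_X, map_mul, map_mul, map_mul, hξdef]
  have hHξ : MvPolynomial.aeval ξ H = 0 := by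
    rw [hξP, hπH, map_zero, map_zero]
  obtain ⟨f, hf⟩ : ∃ f : MvPolynomial (Fin (n + 1)) k →ₐ[k] L,
      f = MvPolynomial.aeval (fun j => mn ξ (e j) * T ^ (w j)) := ⟨_, rfl⟩
  obtain ⟨hax, haT⟩ := V08_alg hA hg hd ξ hξ T hT f.range
    (fun j => ⟨MvPolynomial.X j, by rw [hf]; exact MvPolynomial.aeval_X _ _⟩)
  have hall : ∀ y : L, IsAlgebraic f.range y := by
    apply V08_all π hπ f.range
    · intro i
      rw [← hξdef]
      exact hax i
    · rw [← hTdef]
      exact haT
  have halg : Algebra.IsAlgebraic f.range L := ⟨hall⟩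
  have htr : (d : Cardinal) ≤ Algebra.trdeg k f.range := by
    have h1 := trdeg_add_eq k f.range (A := L)
    have h2 : Algebra.trdeg f.range L = 0 := trdeg_eq_zero
    rw [h2, add_zero] at h1
    rw [h1]
    exact htr0.trans (trdeg_le_of_injective (IsScalarTower.toAlgHom k (Polynomial R₀) L)
      hinj)
  have hft : Algebra.FiniteType k f.range :=
    Algebra.FiniteType.of_surjective f.rangeRestrict f.rangeRestrict_surjective
  have hdim : ((d : ℕ) : WithBot ℕ∞) ≤ ringKrullDim f.range := dim_ge htr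
  refine hdim.trans ?_
  unfold wdm dm
  have hker : ∀ Q ∈ MvPolynomial.vanishingIdeal k {x : Fin (n + 1) → k | ∃ a : k, a ≠ 0 ∧
      ∃ v ∈ ((fun (x : Fin d → k) (j : Fin (n + 1)) => mn x (e j)) '' W),
        x = fun i => a ^ w i * v i}, f.rangeRestrict Q = 0 := by
    intro Q hQ
    rw [MvPolynomial.mem_vanishingIdeal_iff] at hQ
    apply Subtype.ext
    have h2 : f Q = 0 := by
      rw [hf]
      apply V08_ker (e := e) (w := w) hW hD ξ hξ T hHξ (Q := Q)
      intro x hx a ha
      exact hQ (fun j => a ^ w j * mn x (e j)) ⟨a, ha, _, ⟨x, hx, rfl⟩, rfl⟩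
    exact h2
  exact ringKrullDim_le_of_surjective (Ideal.Quotient.lift _ f.rangeRestrict.toRingHom hker)
    (Ideal.Quotient.lift_surjective_of_surjective _ _ f.rangeRestrict_surjective)

theorem dim_dense {k : Type} [Field k] [IsAlgClosed k] [CharZero k] {d n : ℕ}
    {A : Finset (Fin d → ℤ)} {e : Fin (n + 1) → Fin d → ℤ} {w : Fin (n + 1) → ℕ}
    {o : (Fin d → ℤ) → Fin (n + 1)} (hA : Full A) (hg : Gens A e w o)
    {H : MvPolynomial (Fin d) k} (hH : Prime H) (hX : ∀ i, ¬ H ∣ MvPolynomial.X i)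
    {W : Set (Fin d → k)} (hW : ∀ x ∈ W, ∀ i, x i ≠ 0) (hWH : ∀ x ∈ W, MvPolynomial.eval x H = 0)
    (hD : Dn H W) :
    ((d : ℕ) : WithBot ℕ∞) ≤ wdm w ((fun (x : Fin d → k) (j : Fin (n + 1)) => mn x (e j)) '' W) := by
  have hd : 0 < d := by
    obtain ⟨j, _⟩ := V08_indep hH
    have := j.2
    omega
  have hI : (Ideal.span {H}).IsPrime := (Ideal.span_singleton_prime hH.ne_zero).mpr hH
  apply V08_main hA hg hd hW hD (Ideal.Quotient.mkₐ k (Ideal.span {H}))
    (Ideal.Quotient.mkₐ_surjective _ _) _ _ (V08_trdeg hH)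
    (L := FractionRing (Polynomial (MvPolynomial (Fin d) k ⧸ Ideal.span {H})))
  · exact Ideal.Quotient.eq_zero_iff_mem.mpr (Ideal.mem_span_singleton_self H)
  · intro i h0
    have h1 : MvPolynomial.X i ∈ Ideal.span {H} := Ideal.Quotient.eq_zero_iff_mem.mp h0
    exact hX i (Ideal.mem_span_singleton.mp h1)

end Pool.Agent.Lib.MP_1e3e9c_agV
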