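import Pool.Agent.Lib.MP_1e3e9c_agV.VDefs

/-! LEAF V09 (easy+).  Dense subsets of the zero set of a prime polynomial.

PROOF.  `dn_mono`: clear.  `dn_union`: if `P` vanishes on `S`, `H ∤ P`, and `Q` on `T`, `H ∤ Q`, then `P Q` vanishes on `S ∪ T`, so `H ∣ P Q`.  `dn_biUnion`: induction over the finite set with `dn_union` (`Dn H ∅` is false: `H ∣ 1`).  `dn_torus`: let `P` vanish on the set, `R = ∏ X_i`.  `P R` vanishes on the zero set of `H`, so
`P R` is in the radical of `(H)`, a prime ideal (`MvPolynomial.vanishingIdeal_zeroLocus_eq_radical`): `H ∣ P R`, so `H ∣ P` or `H ∣ X_i` for some `i`.  `exists_prime`: `P ≠ 0` is a unit times a product of primes (`UniqueFactorizationMonoid`; induction `UniqueFactorizationMonoid.induction_on_prime`), one of them vanishes at `x`; it does not divide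
`X_i` as `x_i ≠ 0`. -/

set_option autoImplicit false

namespace Pool.Agent.Lib.MP_1e3e9c_agV

variable {k : Type} [Field k] {d : ℕ} {H : MvPolynomial (Fin d) k}

theorem dn_mono {S T : Set (Fin d → k)} (h : S ⊆ T) (hS : Dn H S) : Dn H T := by
  exact fun P hP => hS P fun x hx => hP x (h hx)

theorem dn_union (hH : Prime H) {S T : Set (Fin d → k)} (h : Dn H (S ∪ T)) : Dn H S ∨ Dn H T := by
  by_contra hcon
  rw [not_or] at hcon
  obtain ⟨h1, h2⟩ := hcon
  unfold Dn at h1 h2
  push Not at h1 h2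
  obtain ⟨P, hP, hHP⟩ := h1
  obtain ⟨Q, hQ, hHQ⟩ := h2
  have h3 : H ∣ P * Q := by
    refine h (P * Q) fun x hx => ?_
    rw [map_mul]
    rcases hx with hx | hx
    · rw [hP x hx, zero_mul]
    · rw [hQ x hx, mul_zero]
  rcases hH.dvd_or_dvd h3 with h4 | h4
  · exact hHP h4
  · exact hHQ h4

theorem dn_biUnion (hH : Prime H) {ι : Type} (Y : Finset ι) (T : ι → Set (Fin d → k))
    (h : Dn H (⋃ y ∈ Y, T y)) : ∃ y ∈ Y, Dn H (T y) := by
  classical
  induction Y using Finset.induction_on with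
  | empty =>
    exfalso
    have h1 : H ∣ 1 := by
      refine h 1 fun x hx => ?_
      simp at hx
    exact hH.not_isUnit (isUnit_of_dvd_one h1)
  | insert a Y _ IH =>
    rw [Finset.set_biUnion_insert] at h
    rcases dn_union hH h with h1 | h1
    · exact ⟨a, Finset.mem_insert_self _ _, h1⟩
    · obtain ⟨y, hy, h2⟩ := IH h1
      exact ⟨y, Finset.mem_insert_of_mem hy, h2⟩

theorem dn_torus [IsAlgClosed k] (hH : Prime H) (hX : ∀ i, ¬ H ∣ MvPolynomial.X i) :
    Dn H {x | (∀ i, x i ≠ 0) ∧ MvPolynomial.eval x H = 0} := by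
  intro P hP
  have h1 : P * ∏ i, MvPolynomial.X i ∈
      MvPolynomial.vanishingIdeal k (MvPolynomial.zeroLocus k (Ideal.span {H})) := by
    rw [MvPolynomial.mem_vanishingIdeal_iff]
    intro x hx
    rw [MvPolynomial.mem_zeroLocus_iff] at hx
    have h2 := hx H (Ideal.mem_span_singleton_self H)
    rw [MvPolynomial.aeval_eq_eval] at h2 ⊢
    rw [map_mul, map_prod]
    by_cases h3 : ∀ i, x i ≠ 0
    · rw [hP x ⟨h3, h2⟩, zero_mul]
    · push Not at h3
      obtain ⟨i, hi⟩ := h3
      rw [Finset.prod_eq_zero (Finset.mem_univ i) (by rw [MvPolynomial.eval_X, hi]), mul_zero]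
  have hp : (Ideal.span {H}).IsPrime := (Ideal.span_singleton_prime hH.ne_zero).2 hH
  rw [MvPolynomial.vanishingIdeal_zeroLocus_eq_radical, hp.radical, Ideal.mem_span_singleton] at h1
  rcases hH.dvd_or_dvd h1 with h2 | h2
  · exact h2
  · rw [hH.dvd_finsetProd_iff] at h2
    obtain ⟨i, _, hi⟩ := h2
    exact absurd hi (hX i)

theorem exists_prime {P : MvPolynomial (Fin d) k} (hP : P ≠ 0) {x : Fin d → k} (hx : ∀ i, x i ≠ 0)
    (h : MvPolynomial.eval x P = 0) :
    ∃ H : MvPolynomial (Fin d) k, Prime H ∧ H ∣ P ∧ ∀ i, ¬ H ∣ MvPolynomial.X i := by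
  induction P using UniqueFactorizationMonoid.induction_on_prime with
  | h₁ => exact absurd rfl hP
  | h₂ u hu =>
    exfalso
    obtain ⟨v, hv⟩ := hu.exists_right_inv
    have h1 := congrArg (MvPolynomial.eval x) hv
    rw [map_mul, h, zero_mul, map_one] at h1
    exact zero_ne_one h1
  | h₃ a p ha hp IH =>
    rw [map_mul, mul_eq_zero] at h
    rcases h with h | h
    · refine ⟨p, hp, dvd_mul_right p a, fun i hi => ?_⟩
      obtain ⟨q, hq⟩ := hi
      have h1 := congrArg (MvPolynomial.eval x) hq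
      rw [map_mul, h, zero_mul, MvPolynomial.eval_X] at h1
      exact hx i h1
    · obtain ⟨H, h1, h2, h3⟩ := IH ha h
      exact ⟨H, h1, h2.trans (dvd_mul_left a p), h3⟩

end Pool.Agent.Lib.MP_1e3e9c_agV
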