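import Pool.Agent.Lib.MP_1e3e9c_agV.VDefs

/-! LEAF V10 (medium+).  The generic contact curve.

PROOF.  Unknowns `U = Fin d ⊕ Σ i : Fin r, Fin (a i + 1)`; a point `u : U → k` gives `x_u` and `p_u i = ∑_l C (u (i,l)) X^l`; the same over a `k`-algebra.  Let `s` be so large that `m + s ≥ 0` for all `m ∈ A`: `x^s Phi` has coefficients (in `t`) which are polynomials `Φ_l ∈ k[U]`, `l ≤ L` (`L` a bound of the degree), and `x^s ld m = λ_m ∈ k[U]`.
`Z` = the set of the `u` with `H(x_u) = 0` and `GC A c v a h y x_u p_u`; `J` = the vanishing ideal of `Z`; it has finitely many minimal primes `Q` (`J` radical, noetherian) and every `u ∈ Z` is a zero of one of them (proof of `comp_family`, R7.lean, or X2.lean of `MP_1e3e9c_agR`).  For a minimal prime `Q` and `l ≤ L` let `T_(Q,l)` = the set of the `x ∈ T` for which there is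
`u ∈ Z`, a zero of `Q`, `x_u = x`, `Φ_l(u) ≠ 0`.  `T ⊆ ⋃ T_(Q,l)` (`hTG`, `hTH`; `phi`: some coefficient of `Phi` is not `0`), a finite union, so one `T_(Q,l)` is dense (`Dn`; if not, multiply the polynomials `P_(Q,l)`, not divisible by `H`, which vanish on them: the product vanishes on `T`, `hH` prime).  `K` = the fraction field of `k[U]/Q`, `x`, `p` the images of the
unknowns.  `aeval x P = 0` iff `P` (as a polynomial in `k[U]`) is in `Q`: if `H ∣ P` then `P ∈ J ⊆ Q`; if `P ∈ Q` then `P` vanishes on `T_(Q,l)`, so `H ∣ P`.  `ne`: `X_j ∉ Q`: `T_(Q,l)` is not empty (`H ∤ 1`), `x_j ≠ 0` there.  `zero`: `X_(i,0) - 1 ∈ J`.  `dvd`: `Φ_l' ∈ J` for `l' < N - 1`, so the coefficients of `x^s Phi` vanish over `K`, and `x^s ≠ 0`.  `phi`: `Φ_l ∉ Q` (a point of `T_(Q,l)`).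
`rat`: `λ_m y_m' - λ_m' y_m ∈ J`. -/

set_option autoImplicit false

namespace Pool.Agent.Lib.MP_1e3e9c_agV

open Polynomial

/-- The unknowns. -/
private abbrev V10_U (d : ℕ) {r : ℕ} (a : Fin r → ℕ) : Type := Fin d ⊕ (Σ i : Fin r, Fin (a i + 1))

private def V10_x {d r : ℕ} {K : Type} (a : Fin r → ℕ) (u : V10_U d a → K) : Fin d → K :=
  fun j => u (Sum.inl j)

private noncomputable def V10_p {d r : ℕ} {R : Type} [CommRing R] (a : Fin r → ℕ) (u : V10_U d a → R)
    (i : Fin r) : R[X] :=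
  ∑ l : Fin (a i + 1), C (u (Sum.inr ⟨i, l⟩)) * X ^ (l : ℕ)

private lemma V10_p_map {d r : ℕ} {R S : Type} [CommRing R] [CommRing S] (a : Fin r → ℕ) (f : R →+* S)
    (u : V10_U d a → R) (i : Fin r) :
    (V10_p a u i).map f = V10_p a (fun w => f (u w)) i := by
  unfold V10_p
  rw [Polynomial.map_sum]
  refine Finset.sum_congr rfl fun l _ => ?_
  rw [Polynomial.map_mul, Polynomial.map_C, Polynomial.map_pow, Polynomial.map_X]

private lemma V10_p_coeff {d r : ℕ} {R : Type} [CommRing R] (a : Fin r → ℕ)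
    (u : V10_U d a → R) (i : Fin r) (l : Fin (a i + 1)) :
    (V10_p a u i).coeff (l : ℕ) = u (Sum.inr ⟨i, l⟩) := by
  unfold V10_p
  rw [Polynomial.finsetSum_coeff, Finset.sum_eq_single l]
  · rw [Polynomial.coeff_C_mul, Polynomial.coeff_X_pow, if_pos rfl, mul_one]
  · intro b _ hb
    rw [Polynomial.coeff_C_mul, Polynomial.coeff_X_pow, if_neg, mul_zero]
    intro hc
    exact hb (Fin.ext hc.symm)
  · intro hc
    exact absurd (Finset.mem_univ _) hc

private lemma V10_p_deg {d r : ℕ} {R : Type} [CommRing R] (a : Fin r → ℕ)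
    (u : V10_U d a → R) (i : Fin r) : (V10_p a u i).natDegree ≤ a i := by
  unfold V10_p
  refine Polynomial.natDegree_sum_le_of_forall_le _ _ fun l _ => ?_
  exact le_trans (Polynomial.natDegree_C_mul_X_pow_le _ _) (Fin.is_le l)

private lemma V10_p_eq {d r : ℕ} {R : Type} [CommRing R] (a : Fin r → ℕ) (x : Fin d → R) (p : Fin r → R[X])
    (hp : ∀ i, (p i).natDegree ≤ a i) :
    ∃ u : V10_U d a → R, V10_x a u = x ∧ V10_p a u = p := by
  refine ⟨fun w => Sum.elim x (fun q => (p q.1).coeff (q.2 : ℕ)) w, rfl, ?_⟩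
  funext i
  unfold V10_p
  ext n
  by_cases hn : n < a i + 1
  · have h1 := V10_p_coeff a (fun w => Sum.elim x (fun q : (Σ i : Fin r, Fin (a i + 1)) => (p q.1).coeff (q.2 : ℕ)) w)
      i ⟨n, hn⟩
    unfold V10_p at h1
    exact h1
  · have h1 := V10_p_deg a (fun w => Sum.elim x (fun q : (Σ i : Fin r, Fin (a i + 1)) => (p q.1).coeff (q.2 : ℕ)) w) i
    unfold V10_p at h1
    rw [Polynomial.coeff_eq_zero_of_natDegree_lt (lt_of_le_of_lt h1 (by omega)),
      Polynomial.coeff_eq_zero_of_natDegree_lt (lt_of_le_of_lt (hp i) (by omega))]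

private lemma V10_mn {K : Type} [Field K] {d : ℕ} {x : Fin d → K} (hx : ∀ j, x j ≠ 0) (m s : Fin d → ℤ)
    (hs : ∀ j, 0 ≤ m j + s j) :
    ∏ j, x j ^ (m j + s j).toNat = mn x s * mn x m := by
  unfold mn
  rw [← Finset.prod_mul_distrib]
  refine Finset.prod_congr rfl fun j _ => ?_
  rw [← zpow_natCast, Int.toNat_of_nonneg (hs j), zpow_add₀ (hx j), mul_comm]

/-- `x^s Phi` with unknown coefficients. -/
private noncomputable def V10_F {k : Type} [Field k] {d r : ℕ} (A : Finset (Fin d → ℤ))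
    (c : (Fin d → ℤ) → k) (v : Fin r → Fin d → ℤ) (a : Fin r → ℕ) (h : Fin r → ℤ) (s : Fin d → ℤ) :
    (MvPolynomial (V10_U d a) k)[X] :=
  ∑ m ∈ A, C (MvPolynomial.C (c m)) * (C (∏ j, MvPolynomial.X (Sum.inl j) ^ (m j + s j).toNat) *
    ∏ i, V10_p a (MvPolynomial.X : V10_U d a → MvPolynomial (V10_U d a) k) i ^ ex v h m 1 i)

private lemma V10_F_map {k K : Type} [Field k] [Field K] [Algebra k K] {d r : ℕ} (A : Finset (Fin d → ℤ))
    (c : (Fin d → ℤ) → k) (v : Fin r → Fin d → ℤ) (a : Fin r → ℕ) (h : Fin r → ℤ) (s : Fin d → ℤ)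
    (hs : ∀ m ∈ A, ∀ j, 0 ≤ m j + s j) (u : V10_U d a → K) (hu : ∀ j, V10_x a u j ≠ 0) :
    (V10_F A c v a h s).map ((MvPolynomial.aeval u : MvPolynomial (V10_U d a) k →ₐ[k] K) :
      MvPolynomial (V10_U d a) k →+* K) = C (mn (V10_x a u) s) * Phi A c v h (V10_x a u) (V10_p a u) := by
  unfold V10_F Phi
  rw [Polynomial.map_sum, Finset.mul_sum]
  refine Finset.sum_congr rfl fun m hm => ?_
  unfold cd
  rw [Polynomial.map_mul, Polynomial.map_mul, Polynomial.map_C, Polynomial.map_C, Polynomial.map_prod]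
  have h1 : ((MvPolynomial.aeval u : MvPolynomial (V10_U d a) k →ₐ[k] K) :
      MvPolynomial (V10_U d a) k →+* K) (∏ j, MvPolynomial.X (Sum.inl j) ^ (m j + s j).toNat) =
      mn (V10_x a u) s * mn (V10_x a u) m := by
    rw [← V10_mn hu m s (hs m hm), map_prod]
    refine Finset.prod_congr rfl fun j _ => ?_
    rw [map_pow]
    congr 1
    exact MvPolynomial.aeval_X u (Sum.inl j)
  have h2 : ∀ i, Polynomial.map ((MvPolynomial.aeval u : MvPolynomial (V10_U d a) k →ₐ[k] K) :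
      MvPolynomial (V10_U d a) k →+* K) (V10_p a (MvPolynomial.X : V10_U d a → MvPolynomial (V10_U d a) k) i ^ ex v h m 1 i) =
      V10_p a u i ^ ex v h m 1 i := by
    intro i
    rw [Polynomial.map_pow, V10_p_map]
    congr 2
    funext w
    exact MvPolynomial.aeval_X u w
  have h3 : ((MvPolynomial.aeval u : MvPolynomial (V10_U d a) k →ₐ[k] K) :
      MvPolynomial (V10_U d a) k →+* K) (MvPolynomial.C (c m)) = algebraMap k K (c m) :=
    MvPolynomial.aeval_C u (c m)
  rw [h1, h3, Finset.prod_congr rfl fun i _ => h2 i, C_mul]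
  ring

private lemma V10_F_coeff {k K : Type} [Field k] [Field K] [Algebra k K] {d r : ℕ} (A : Finset (Fin d → ℤ))
    (c : (Fin d → ℤ) → k) (v : Fin r → Fin d → ℤ) (a : Fin r → ℕ) (h : Fin r → ℤ) (s : Fin d → ℤ)
    (hs : ∀ m ∈ A, ∀ j, 0 ≤ m j + s j) (u : V10_U d a → K) (hu : ∀ j, V10_x a u j ≠ 0) (l : ℕ) :
    MvPolynomial.aeval u ((V10_F A c v a h s).coeff l) =
      mn (V10_x a u) s * (Phi A c v h (V10_x a u) (V10_p a u)).coeff l := by
  rw [← Polynomial.coeff_C_mul, ← V10_F_map A c v a h s hs u hu, Polynomial.coeff_map]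
  rfl

/-- `x^s ld m` with unknown coefficients. -/
private noncomputable def V10_L (k : Type) [Field k] {d r : ℕ} (v : Fin r → Fin d → ℤ) (a : Fin r → ℕ)
    (h : Fin r → ℤ) (s : Fin d → ℤ) (m : Fin d → ℤ) : MvPolynomial (V10_U d a) k :=
  (∏ j, MvPolynomial.X (Sum.inl j) ^ (m j + s j).toNat) *
    ∏ i, MvPolynomial.X (Sum.inr ⟨i, Fin.last (a i)⟩) ^ ex v h m 1 i

private lemma V10_L_aeval {k K : Type} [Field k] [Field K] [Algebra k K] {d r : ℕ}
    (v : Fin r → Fin d → ℤ) (a : Fin r → ℕ) (h : Fin r → ℤ) (s : Fin d → ℤ) (m : Fin d → ℤ)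
    (hs : ∀ j, 0 ≤ m j + s j) (u : V10_U d a → K) (hu : ∀ j, V10_x a u j ≠ 0) :
    MvPolynomial.aeval u (V10_L k v a h s m) = mn (V10_x a u) s * ld v a h (V10_x a u) (V10_p a u) m := by
  unfold V10_L ld
  rw [map_mul, map_prod, map_prod, ← mul_assoc, ← V10_mn hu m s hs]
  congr 1
  · refine Finset.prod_congr rfl fun j _ => ?_
    rw [map_pow, MvPolynomial.aeval_X]
    rfl
  · refine Finset.prod_congr rfl fun i _ => ?_
    rw [map_pow, MvPolynomial.aeval_X, ← V10_p_coeff a u i (Fin.last (a i))]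
    rfl

private lemma V10_mn_ne {K : Type} [Field K] {d : ℕ} {x : Fin d → K} (hx : ∀ j, x j ≠ 0) (s : Fin d → ℤ) :
    mn x s ≠ 0 := by
  unfold mn
  exact Finset.prod_ne_zero_iff.2 fun j _ => zpow_ne_zero _ (hx j)

theorem exists_generic {k : Type} [Field k] {d r : ℕ} {A : Finset (Fin d → ℤ)}
    {c : (Fin d → ℤ) → k} {v : Fin r → Fin d → ℤ} {a : Fin r → ℕ} {h : Fin r → ℤ}
    {H : MvPolynomial (Fin d) k} (hH : Prime H) {y : (Fin d → ℤ) → k} {T : Set (Fin d → k)}
    (hT : Dn H T) (hTH : ∀ x ∈ T, MvPolynomial.eval x H = 0)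
    (hTG : ∀ x ∈ T, ∃ p : Fin r → k[X], GC A c v a h y x p) :
    ∃ (K : Type) (_ : Field K) (_ : Algebra k K) (x : Fin d → K) (p : Fin r → K[X]),
      GC A c v a h y x p ∧ ∀ P : MvPolynomial (Fin d) k, MvPolynomial.aeval x P = 0 ↔ H ∣ P := by
  classical
  -- the shift
  obtain ⟨s, hs⟩ : ∃ s : Fin d → ℤ, ∀ m ∈ A, ∀ j, 0 ≤ m j + s j := by
    refine ⟨fun j => ∑ m ∈ A, |m j|, fun m hm j => ?_⟩
    have h1 : |m j| ≤ ∑ m ∈ A, |m j| :=
      Finset.single_le_sum (f := fun m : Fin d → ℤ => |m j|) (fun _ _ => abs_nonneg _) hm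
    have h2 := neg_abs_le (m j)
    simp only
    linarith
  set F : (MvPolynomial (V10_U d a) k)[X] := V10_F A c v a h s with hF
  set Z : Set (V10_U d a → k) := {u | V10_x a u ∈ T ∧ GC A c v a h y (V10_x a u) (V10_p a u)} with hZ
  set J : Ideal (MvPolynomial (V10_U d a) k) := MvPolynomial.vanishingIdeal k Z with hJ
  have hmemJ : ∀ q : MvPolynomial (V10_U d a) k, (∀ u ∈ Z, MvPolynomial.aeval u q = 0) → q ∈ J := by
    intro q hq
    rw [hJ, MvPolynomial.mem_vanishingIdeal_iff]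
    exact hq
  have hfin : J.minimalPrimes.Finite := J.finite_minimalPrimes_of_isNoetherianRing
  set TQ : Ideal (MvPolynomial (V10_U d a) k) × ℕ → Set (Fin d → k) := fun q =>
    {x | ∃ u ∈ Z, (∀ p ∈ q.1, MvPolynomial.aeval u p = 0) ∧ V10_x a u = x ∧
      MvPolynomial.aeval u (F.coeff q.2) ≠ 0} with hTQ
  have hcov : ∀ x ∈ T, ∃ q ∈ hfin.toFinset ×ˢ F.support, x ∈ TQ q := by
    intro x hx
    obtain ⟨p, hp⟩ := hTG x hx
    obtain ⟨u, hux, hup⟩ := V10_p_eq a x p hp.deg
    have huZ : u ∈ Z := by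
      refine ⟨?_, ?_⟩
      · rw [hux]; exact hx
      · rw [hux, hup]; exact hp
    have hker : J ≤ RingHom.ker (MvPolynomial.aeval (R := k) u).toRingHom := by
      intro q hq
      rw [RingHom.mem_ker]
      rw [hJ, MvPolynomial.mem_vanishingIdeal_iff] at hq
      exact hq _ huZ
    have : (RingHom.ker (MvPolynomial.aeval (R := k) u).toRingHom).IsPrime := RingHom.ker_isPrime _
    obtain ⟨Q, hQ, hQle⟩ := Ideal.exists_minimalPrimes_le hker
    obtain ⟨l, hl⟩ : ∃ l, (Phi A c v h (V10_x a u) (V10_p a u)).coeff l ≠ 0 := by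
      by_contra hcon
      push Not at hcon
      exact huZ.2.phi (Polynomial.ext fun l => by rw [hcon l, Polynomial.coeff_zero])
    have hl2 : MvPolynomial.aeval u (F.coeff l) ≠ 0 := by
      rw [hF, V10_F_coeff A c v a h s hs u huZ.2.ne l]
      exact mul_ne_zero (V10_mn_ne huZ.2.ne s) hl
    refine ⟨(Q, l), ?_, u, huZ, ?_, hux, hl2⟩
    · rw [Finset.mem_product]
      refine ⟨hfin.mem_toFinset.2 hQ, ?_⟩
      rw [Polynomial.mem_support_iff]
      intro h0
      apply hl2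
      rw [h0, map_zero]
    · intro q hq
      have h1 := hQle hq
      rw [RingHom.mem_ker] at h1
      exact h1
  obtain ⟨⟨Q, l⟩, hQl, hdn⟩ : ∃ q ∈ hfin.toFinset ×ˢ F.support, Dn H (TQ q) := by
    by_contra hcon
    push Not at hcon
    have h1 : ∀ q, ∃ P : MvPolynomial (Fin d) k, q ∈ hfin.toFinset ×ˢ F.support →
        (∀ x ∈ TQ q, MvPolynomial.eval x P = 0) ∧ ¬ H ∣ P := by
      intro q
      by_cases hq : q ∈ hfin.toFinset ×ˢ F.support
      · have h2 := hcon q hq
        unfold Dn at h2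
        push Not at h2
        obtain ⟨P, hP1, hP2⟩ := h2
        exact ⟨P, fun _ => ⟨hP1, hP2⟩⟩
      · exact ⟨0, fun h3 => absurd h3 hq⟩
    choose P hP using h1
    have h2 : H ∣ ∏ q ∈ hfin.toFinset ×ˢ F.support, P q := by
      apply hT
      intro x hx
      obtain ⟨q, hq, hxq⟩ := hcov x hx
      rw [map_prod]
      exact Finset.prod_eq_zero hq ((hP q hq).1 x hxq)
    obtain ⟨q, hq, hq2⟩ := (Prime.dvd_finsetProd_iff hH _).1 h2
    exact (hP q hq).2 hq2
  have hQ : Q ∈ J.minimalPrimes := hfin.mem_toFinset.1 (Finset.mem_product.1 hQl).1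
  have hQp : Q.IsPrime := hQ.1.1
  have hJQ : J ≤ Q := hQ.1.2
  -- a point
  obtain ⟨x₀, u₀, hu₀, hu₀Q, -, hu₀l⟩ : (TQ (Q, l)).Nonempty := by
    by_contra hcon
    rw [Set.not_nonempty_iff_eq_empty] at hcon
    apply hH.not_isUnit
    apply isUnit_of_dvd_one
    apply hdn
    intro x hx
    rw [hcon] at hx
    exact absurd hx (Set.notMem_empty x)
  have hdomain : IsDomain (MvPolynomial (V10_U d a) k ⧸ Q) := inferInstance
  let K : Type := FractionRing (MvPolynomial (V10_U d a) k ⧸ Q)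
  let u : V10_U d a → K := fun w => algebraMap (MvPolynomial (V10_U d a) k ⧸ Q) K
    (Ideal.Quotient.mk Q (MvPolynomial.X w))
  have hu : ∀ q : MvPolynomial (V10_U d a) k, MvPolynomial.aeval u q =
      algebraMap (MvPolynomial (V10_U d a) k ⧸ Q) K (Ideal.Quotient.mk Q q) := by
    intro q
    have h1 : (MvPolynomial.aeval u : MvPolynomial (V10_U d a) k →ₐ[k] K) =
        (IsScalarTower.toAlgHom k (MvPolynomial (V10_U d a) k ⧸ Q) K).comp (Ideal.Quotient.mkₐ k Q) := by
      apply MvPolynomial.algHom_ext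
      intro w
      rw [MvPolynomial.aeval_X]
      rfl
    rw [h1]
    rfl
  have hu0 : ∀ q : MvPolynomial (V10_U d a) k, MvPolynomial.aeval u q = 0 ↔ q ∈ Q := by
    intro q
    rw [hu, ← Ideal.Quotient.eq_zero_iff_mem]
    constructor
    · intro h1
      exact (IsFractionRing.injective (MvPolynomial (V10_U d a) k ⧸ Q) K) (by rw [h1, map_zero])
    · intro h1
      rw [h1, map_zero]
  have hne : ∀ j, V10_x a u j ≠ 0 := by
    intro j h1
    have h2 : MvPolynomial.aeval u (MvPolynomial.X (Sum.inl j) : MvPolynomial (V10_U d a) k) = 0 := by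
      rw [MvPolynomial.aeval_X]
      exact h1
    have h3 := hu₀Q _ ((hu0 _).1 h2)
    rw [MvPolynomial.aeval_X] at h3
    exact hu₀.2.ne j h3
  have hsn := V10_mn_ne hne s
  refine ⟨K, inferInstance, inferInstance, V10_x a u, V10_p a u, ?_, ?_⟩
  · refine ⟨hne, V10_p_deg a u, ?_, ?_, ?_, ?_⟩
    · intro i
      have h1 : MvPolynomial.X (Sum.inr ⟨i, 0⟩) - 1 ∈ J := by
        apply hmemJ
        intro u' hu'
        rw [map_sub, MvPolynomial.aeval_X, map_one, ← V10_p_coeff a u' i 0]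
        have h2 := hu'.2.zero i
        rw [sub_eq_zero]
        exact h2
      have h2 := (hu0 _).2 (hJQ h1)
      rw [map_sub, MvPolynomial.aeval_X, map_one, sub_eq_zero, ← V10_p_coeff a u i 0] at h2
      exact h2
    · rw [Polynomial.X_pow_dvd_iff]
      intro n hn
      have h1 : F.coeff n ∈ J := by
        apply hmemJ
        intro u' hu'
        rw [hF, V10_F_coeff A c v a h s hs u' hu'.2.ne n, Polynomial.X_pow_dvd_iff.1 hu'.2.dvd n hn, mul_zero]
      have h2 := (hu0 _).2 (hJQ h1)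
      rw [hF, V10_F_coeff A c v a h s hs u hne n] at h2
      exact (mul_eq_zero.1 h2).resolve_left hsn
    · intro h1
      apply hu₀l
      apply hu₀Q
      apply (hu0 _).1
      change MvPolynomial.aeval u (F.coeff l) = 0
      rw [hF, V10_F_coeff A c v a h s hs u hne l, h1, Polynomial.coeff_zero, mul_zero]
    · intro m hm m' hm'
      have h1 : V10_L k v a h s m * MvPolynomial.C (y m') - V10_L k v a h s m' * MvPolynomial.C (y m) ∈ J := by
        apply hmemJ
        intro u' hu'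
        rw [map_sub, map_mul, map_mul, MvPolynomial.aeval_C, MvPolynomial.aeval_C,
          V10_L_aeval v a h s m (hs m hm) u' hu'.2.ne, V10_L_aeval v a h s m' (hs m' hm') u' hu'.2.ne,
          mul_assoc, mul_assoc, hu'.2.rat m hm m' hm', sub_self]
      have h2 := (hu0 _).2 (hJQ h1)
      rw [map_sub, map_mul, map_mul, MvPolynomial.aeval_C, MvPolynomial.aeval_C,
          V10_L_aeval v a h s m (hs m hm) u hne, V10_L_aeval v a h s m' (hs m' hm') u hne,
          mul_assoc, mul_assoc, ← mul_sub] at h2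
      exact sub_eq_zero.1 ((mul_eq_zero.1 h2).resolve_left hsn)
  · intro P
    have hren : ∀ {K' : Type} [Field K'] [Algebra k K'] (w : V10_U d a → K') (P : MvPolynomial (Fin d) k),
        MvPolynomial.aeval w (MvPolynomial.rename Sum.inl P) = MvPolynomial.aeval (V10_x a w) P := by
      intro K' _ _ w P
      rw [MvPolynomial.aeval_rename]
      rfl
    have h1 : MvPolynomial.aeval (V10_x a u) P = 0 ↔ MvPolynomial.rename Sum.inl P ∈ Q := by
      rw [← hren u P]
      exact hu0 _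
    constructor
    · intro h2
      apply hdn
      rintro x ⟨u', hu', hu'Q, rfl, -⟩
      have h3 := hu'Q _ (h1.1 h2)
      rw [hren u' P, MvPolynomial.aeval_eq_eval] at h3
      exact h3
    · rintro ⟨P', rfl⟩
      apply h1.2
      rw [map_mul]
      apply Ideal.mul_mem_right
      apply hJQ
      apply hmemJ
      intro u' hu'
      rw [hren u' H, MvPolynomial.aeval_eq_eval]
      exact hTH _ hu'.1

end Pool.Agent.Lib.MP_1e3e9c_agV
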