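import Pool.Agent.Lib.MP_1e3e9c_agV.VDefs
import Pool.Agent.Lib.MP_1e3e9c_agR.X4

/-! LEAF V11 (medium).  Derivations at the generic point of the hypersurface; the generic point is smooth.

PROOF.  `exists_dlog`: `H` is not constant (prime), let `X_(l₀)` occur in `H` (`MvPolynomial.degreeOf l₀ H > 0`).  The `x_l`, `l ≠ l₀`, are algebraically independent: let `P ≠ 0` be a polynomial in `n` variables with `P(x ∘ l₀.succAbove) = 0`; then `rename l₀.succAbove P` is divisible by `H` and has degree `0` in `X_(l₀)`: contradiction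
(`degreeOf_mul_eq` or `degreeOf` of a product in a domain).  `exists_ders` (X4) for `z j = x (l₀.succAbove j)`: `δ j (z l) = if j = l then 1 else 0`.  The vectors are independent: their coordinates at `l₀.succAbove l` form the diagonal matrix `1 / z_l`.
`grad_ne`: `FP = H H'`, `H ∤ H'` (else `H² ∣ FP`).  Suppose all sums are `0`.  `aeval x FP = mn x s ∑ c_m mn x m` (`hs`; `x_j ≠ 0`) is `0`, and `aeval x (X_l ∂_l FP) = mn x s ∑ c_m (m_l + s_l) mn x m = 0`.  So `H ∣ X_l ∂_l FP`, `H ∣ ∂_l FP = ∂_l H H' + H ∂_l H'`, `H ∣ ∂_l H H'`, `H ∣ ∂_l H`: so `∂_l H = 0` (its degree in `X_l` is smaller than that of `H`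
unless it is `0`; or total degree) for all `l`, `H` is constant (characteristic `0`: look at a monomial of `H` which contains `X_l`): contradiction (`H` is prime). -/

set_option autoImplicit false

namespace Pool.Agent.Lib.MP_1e3e9c_agV

private theorem V11_occ {k : Type} [Field k] {σ : Type} {H : MvPolynomial σ k} (hH : Prime H) :
    ∃ (l : σ) (m : σ →₀ ℕ), MvPolynomial.coeff m H ≠ 0 ∧ m l ≠ 0 := by
  by_contra hcon
  push Not at hcon
  have h1 : H = MvPolynomial.C (MvPolynomial.coeff 0 H) := by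
    classical
    ext m
    rw [MvPolynomial.coeff_C]
    split_ifs with h
    · rw [h]
    · by_contra h2
      exact h (Finsupp.ext fun l => (hcon l m h2).symm)
  have h0 : MvPolynomial.coeff 0 H ≠ 0 := by
    intro h
    rw [h, map_zero] at h1
    exact hH.ne_zero h1
  apply hH.not_isUnit
  rw [h1]
  exact (IsUnit.mk0 _ h0).map MvPolynomial.C

private theorem V11_le {k : Type} [Field k] {σ : Type} {H : MvPolynomial σ k} {l : σ} {m : σ →₀ ℕ}
    (hm : MvPolynomial.coeff m H ≠ 0) : m l ≤ MvPolynomial.degreeOf l H :=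
  MvPolynomial.degreeOf_le_iff.mp le_rfl m (MvPolynomial.mem_support_iff.mpr hm)

private theorem V11_indep {k K : Type} [Field k] [Field K] [Algebra k K] {n : ℕ}
    {H : MvPolynomial (Fin (n + 1)) k} (hH : Prime H) {x : Fin (n + 1) → K}
    (hg : ∀ P : MvPolynomial (Fin (n + 1)) k, MvPolynomial.aeval x P = 0 ↔ H ∣ P) {l₀ : Fin (n + 1)}
    (hl : MvPolynomial.degreeOf l₀ H ≠ 0) : AlgebraicIndependent k fun j : Fin n => x (l₀.succAbove j) := by
  rw [algebraicIndependent_iff]
  intro P hP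
  by_contra hP0
  have h1 : MvPolynomial.aeval x (MvPolynomial.rename l₀.succAbove P) = 0 := by
    rw [MvPolynomial.aeval_rename]
    exact hP
  obtain ⟨Q, hQ⟩ := (hg _).mp h1
  have h2 : MvPolynomial.rename l₀.succAbove P ≠ 0 := by
    intro h
    apply hP0
    apply MvPolynomial.rename_injective _ (Fin.succAbove_right_injective (p := l₀))
    rw [h, map_zero]
  have hQ0 : Q ≠ 0 := by
    rintro rfl
    exact h2 (by rw [hQ, mul_zero])
  have h3 := MvPolynomial.degreeOf_mul_eq (n := l₀) hH.ne_zero hQ0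
  rw [← hQ] at h3
  have h4 : MvPolynomial.degreeOf l₀ (MvPolynomial.rename l₀.succAbove P) ≤ 0 := by
    rw [MvPolynomial.degreeOf_le_iff]
    intro m hm
    obtain ⟨u, hu, -⟩ := MvPolynomial.coeff_rename_ne_zero _ _ _ (MvPolynomial.mem_support_iff.mp hm)
    rw [← hu, Finsupp.mapDomain_of_notMem_range]
    rintro ⟨j, hj⟩
    exact Fin.succAbove_ne l₀ j hj
  omega

theorem exists_dlog {k K : Type} [Field k] [CharZero k] [Field K] [Algebra k K] {n : ℕ}
    {H : MvPolynomial (Fin (n + 1)) k} (hH : Prime H) {x : Fin (n + 1) → K} (hx : ∀ j, x j ≠ 0)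
    (hg : ∀ P : MvPolynomial (Fin (n + 1)) k, MvPolynomial.aeval x P = 0 ↔ H ∣ P) :
    ∃ δ : Fin n → Derivation k K K,
      LinearIndependent K fun (j : Fin n) (l : Fin (n + 1)) => δ j (x l) / x l := by
  obtain ⟨l₀, m, hm, hml⟩ := V11_occ hH
  have hl : MvPolynomial.degreeOf l₀ H ≠ 0 := by
    have := V11_le (l := l₀) hm
    omega
  obtain ⟨δ, hδ⟩ := Pool.Agent.Lib.MP_1e3e9c_agR.exists_ders _ (V11_indep hH hg hl)
  refine ⟨δ, ?_⟩
  rw [Fintype.linearIndependent_iff]
  intro g hg1 i
  have h1 := congrFun hg1 (l₀.succAbove i)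
  rw [Finset.sum_apply, Finset.sum_eq_single i] at h1
  · rw [Pi.smul_apply, hδ, if_pos rfl, smul_eq_mul, Pi.zero_apply] at h1
    rcases mul_eq_zero.mp h1 with h2 | h2
    · exact h2
    · exact absurd h2 (div_ne_zero one_ne_zero (hx _))
  · intro j _ hj
    rw [Pi.smul_apply, hδ, if_neg hj, zero_div, smul_zero]
  · intro h
    exact absurd (Finset.mem_univ i) h

private theorem V11_prod {k : Type} [Field k] {d : ℕ} (e : Fin d → ℕ) (a : k) :
    MvPolynomial.C a * ∏ j, MvPolynomial.X j ^ e j = MvPolynomial.monomial (Finsupp.equivFunOnFinite.symm e) a := by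
  rw [MvPolynomial.monomial_eq, Finsupp.prod_fintype _ _ fun i => pow_zero _]
  rfl

private theorem V11_eval {K : Type} [Field K] {d : ℕ} {s m : Fin d → ℤ}
    (hs : ∀ j, 0 ≤ m j + s j) {x : Fin d → K} (hx : ∀ j, x j ≠ 0) :
    ∏ j, x j ^ (m j + s j).toNat = mn x s * mn x m := by
  rw [mn, mn, ← Finset.prod_mul_distrib]
  refine Finset.prod_congr rfl fun j _ => ?_
  rw [← zpow_natCast, Int.toNat_of_nonneg (hs j), add_comm, zpow_add₀ (hx j)]

private theorem V11_pd {k : Type} [Field k] [CharZero k] {d : ℕ} {H : MvPolynomial (Fin d) k} {l : Fin d}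
    (h : H ∣ MvPolynomial.pderiv l H) : MvPolynomial.pderiv l H = 0 := by
  by_contra h0
  obtain ⟨Q, hQ⟩ := h
  have hQ0 : Q ≠ 0 := by
    rintro rfl
    exact h0 (by rw [hQ, mul_zero])
  have hH0 : H ≠ 0 := by
    rintro rfl
    exact h0 (by rw [map_zero])
  have h3 := MvPolynomial.degreeOf_mul_eq (n := l) hH0 hQ0
  rw [← hQ] at h3
  have key : ∀ m ∈ (MvPolynomial.pderiv l H).support, m l < MvPolynomial.degreeOf l H := by
    intro m hm
    have h4 := MvPolynomial.mem_support_iff.mp hm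
    rw [MvPolynomial.coeff_pderiv] at h4
    have h5 := V11_le (l := l) (left_ne_zero_of_mul h4)
    rw [Finsupp.add_apply, Finsupp.single_eq_same] at h5
    omega
  obtain ⟨m, hm⟩ : (MvPolynomial.pderiv l H).support.Nonempty := MvPolynomial.support_nonempty.mpr h0
  have hpos : 0 < MvPolynomial.degreeOf l H := lt_of_le_of_lt (Nat.zero_le _) (key m hm)
  have h6 := (MvPolynomial.degreeOf_lt_iff hpos).mpr key
  omega

private theorem V11_const {k : Type} [Field k] [CharZero k] {d : ℕ} {H : MvPolynomial (Fin d) k} (hH : Prime H)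
    (h : ∀ l, MvPolynomial.pderiv l H = 0) : False := by
  obtain ⟨l, m, hm, hml⟩ := V11_occ hH
  have h1 := congrArg (MvPolynomial.coeff (m - Finsupp.single l 1)) (h l)
  have h2 : m - Finsupp.single l 1 + Finsupp.single l 1 = m := by
    apply tsub_add_cancel_of_le
    rw [Finsupp.single_le_iff]
    omega
  rw [MvPolynomial.coeff_pderiv, h2, MvPolynomial.coeff_zero] at h1
  rcases mul_eq_zero.mp h1 with h3 | h3
  · exact hm h3
  · exact Nat.cast_add_one_ne_zero _ h3

theorem grad_ne {k K : Type} [Field k] [CharZero k] [Field K] [Algebra k K] {d : ℕ}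
    {A : Finset (Fin d → ℤ)} {c : (Fin d → ℤ) → k} {s : Fin d → ℤ}
    (hs : ∀ m ∈ A, ∀ j, 0 ≤ m j + s j) {H : MvPolynomial (Fin d) k} (hH : Prime H)
    (hX : ∀ i, ¬ H ∣ MvPolynomial.X i) (h1 : H ∣ FP A c s) (h2 : ¬ H ^ 2 ∣ FP A c s)
    {x : Fin d → K} (hx : ∀ j, x j ≠ 0)
    (hg : ∀ P : MvPolynomial (Fin d) k, MvPolynomial.aeval x P = 0 ↔ H ∣ P) :
    ∃ l, ∑ m ∈ A, algebraMap k K (c m) * mn x m * (m l : K) ≠ 0 := by
  by_contra hcon
  push Not at hcon
  have hmn : mn x s ≠ 0 := Finset.prod_ne_zero_iff.mpr fun j _ => zpow_ne_zero _ (hx j)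
  have hS : ∑ m ∈ A, algebraMap k K (c m) * mn x m = 0 := by
    have h3 := (hg _).mpr h1
    rw [FP, map_sum] at h3
    have h4 : ∀ m ∈ A, MvPolynomial.aeval x (MvPolynomial.C (c m) * ∏ j, MvPolynomial.X j ^ (m j + s j).toNat) =
        mn x s * (algebraMap k K (c m) * mn x m) := by
      intro m hm
      rw [map_mul, MvPolynomial.aeval_C, map_prod]
      simp only [map_pow, MvPolynomial.aeval_X]
      rw [V11_eval (hs m hm) hx]
      ring
    rw [Finset.sum_congr rfl h4, ← Finset.mul_sum] at h3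
    exact (mul_eq_zero.mp h3).resolve_left hmn
  have hd : ∀ l, H ∣ MvPolynomial.pderiv l (FP A c s) := by
    intro l
    have h3 : MvPolynomial.aeval x (MvPolynomial.X l * MvPolynomial.pderiv l (FP A c s)) = 0 := by
      rw [FP, map_sum, Finset.mul_sum, map_sum]
      have h4 : ∀ m ∈ A, MvPolynomial.aeval x (MvPolynomial.X l *
          MvPolynomial.pderiv l (MvPolynomial.C (c m) * ∏ j, MvPolynomial.X j ^ (m j + s j).toNat)) =
          mn x s * (algebraMap k K (c m) * mn x m * (m l : K) + (s l : K) * (algebraMap k K (c m) * mn x m)) := by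
        intro m hm
        rw [V11_prod, MvPolynomial.X_mul_pderiv_monomial, ← V11_prod, nsmul_eq_mul, map_mul, map_mul, map_natCast,
          MvPolynomial.aeval_C, map_prod]
        simp only [map_pow, MvPolynomial.aeval_X]
        rw [V11_eval (hs m hm) hx]
        have h5 : (((Finsupp.equivFunOnFinite.symm fun j => (m j + s j).toNat : Fin d →₀ ℕ) l : ℕ) : K) =
            (m l : K) + (s l : K) := by
          have h6 : (((m l + s l).toNat : ℤ) : K) = ((m l + s l : ℤ) : K) := by
            rw [Int.toNat_of_nonneg (hs m hm l)]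
          rw [Int.cast_add, Int.cast_natCast] at h6
          exact h6
        rw [h5]
        ring
      rw [Finset.sum_congr rfl h4, ← Finset.mul_sum, Finset.sum_add_distrib, hcon l, ← Finset.mul_sum, hS]
      simp
    rcases hH.dvd_or_dvd ((hg _).mp h3) with h4 | h4
    · exact absurd h4 (hX l)
    · exact h4
  obtain ⟨H', hH'⟩ := h1
  have hn : ¬ H ∣ H' := by
    rintro ⟨Q, rfl⟩
    exact h2 ⟨Q, by rw [hH']; ring⟩
  refine V11_const hH fun l => V11_pd ?_
  have h3 := hd l
  rw [hH', MvPolynomial.pderiv_mul] at h3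
  have h4 : H ∣ MvPolynomial.pderiv l H * H' := by
    have h5 := dvd_sub h3 (Dvd.intro (MvPolynomial.pderiv l H') rfl : H ∣ H * MvPolynomial.pderiv l H')
    rwa [add_sub_cancel_right] at h5
  exact (hH.dvd_or_dvd h4).resolve_right hn

end Pool.Agent.Lib.MP_1e3e9c_agV
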