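import Pool.Agent.Lib.MP_1e3e9c_agV.V03a

/-! LEAF V03 (medium).  The curve `x ∏ p_i^(v_i)` in `P(w)`: it is in the toric variety and meets the hypersurface in at most two points.

PROOF.  `deg`: `natDegree_cd`, the degree of the coordinate `j` is `≤ w_j g`.  `zero`: `coeff_cd` (`val p 0` is the value at `0`).  `ne`, `two`: `aeval_GV`, `i + j = 1 * g`.  `base`: let `P ∈ SV e w`, weighted homogeneous of weight `μ`; the polynomial `Q = aeval (..) P` (`eval_val` of B5: its value at `t` is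
`P(val .. t)`) is `0`: it vanishes at all `t` with all `p_i(t) ≠ 0`, and these are all but finitely many `t` (`p_i ≠ 0` as `p_i(0) = 1`; `k` is infinite).  For such `t`: let `λ = ∏ p_i(t)^(h_i)` (`zpow`), `y_j = x_j ∏ p_i(t)^(v_ij) ≠ 0`: the coordinate `j` is
`mn x (e j) ∏ p_i(t)^(pr (e j) (v i) + w_j h_i) = λ^(w_j) mn y (e j)` (`cone_nonneg`: the exponent is `≥ 0`), so `P(..) = λ^μ P(mn y (e j)) = 0` (weighted homogeneous: e.g. `eval_smul_w` in `MP_1e3e9c_agR`, or `MvPolynomial.eval₂` and `prod_pow`). -/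

set_option autoImplicit false

namespace Pool.Agent.Lib.MP_1e3e9c_agV

open Polynomial Pool.Agent.Lib.MP_1e3e9c_agR

private theorem V03_mn {k : Type} [Field k] {d r : ℕ} (v : Fin r → Fin d → ℤ) (x : Fin d → k) {q : Fin r → k}
    (hq : ∀ i, q i ≠ 0) (m : Fin d → ℤ) :
    mn (fun j => x j * ∏ i, q i ^ v i j) m = mn x m * ∏ i, q i ^ pr m (v i) := by
  unfold mn pr
  have h1 : ∀ j, (x j * ∏ i, q i ^ v i j) ^ m j = x j ^ m j * ∏ i, q i ^ (m j * v i j) := by
    intro j
    rw [mul_zpow, ← Finset.prod_zpow]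
    refine congrArg (fun z => x j ^ m j * z) (Finset.prod_congr rfl fun i _ => ?_)
    rw [← zpow_mul, mul_comm]
  rw [Finset.prod_congr rfl fun j _ => h1 j, Finset.prod_mul_distrib, Finset.prod_comm]
  refine congrArg (fun z => (∏ j, x j ^ m j) * z) (Finset.prod_congr rfl fun i _ => ?_)
  have h2 : ∀ s : Finset (Fin d), ∏ j ∈ s, q i ^ (m j * v i j) = q i ^ ∑ j ∈ s, m j * v i j := by
    intro s
    classical
    induction s using Finset.induction_on with
    | empty => rw [Finset.prod_empty, Finset.sum_empty, zpow_zero]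
    | insert b s hb ih => rw [Finset.prod_insert hb, Finset.sum_insert hb, ih, zpow_add₀ (hq i)]
  exact h2 _

private theorem V03_eval {k : Type} [Field k] {d r : ℕ} {v : Fin r → Fin d → ℤ} {h : Fin r → ℤ} (x : Fin d → k)
    (p : Fin r → k[X]) {t : k} (hq : ∀ i, (p i).eval t ≠ 0) (m : Fin d → ℤ) (l : ℕ)
    (hm : ∀ i, 0 ≤ pr m (v i) + l * h i) :
    (cd v h x p m l).eval t = (∏ i, (p i).eval t ^ h i) ^ l *
      mn (fun j => x j * ∏ i, (p i).eval t ^ v i j) m := by
  rw [V03_mn v x hq]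
  unfold cd
  rw [eval_mul, eval_C, eval_prod]
  have h1 : ∀ i, (p i ^ ex v h m l i).eval t = (p i).eval t ^ pr m (v i) * ((p i).eval t ^ h i) ^ l := by
    intro i
    rw [eval_pow, ← zpow_natCast ((p i).eval t) (ex v h m l i)]
    have h2 : ((ex v h m l i : ℕ) : ℤ) = pr m (v i) + l * h i := Int.toNat_of_nonneg (hm i)
    rw [h2, zpow_add₀ (hq i), mul_comm (l : ℤ), zpow_mul, zpow_natCast]
  rw [Finset.prod_congr rfl fun i _ => h1 i, Finset.prod_mul_distrib, Finset.prod_pow]
  ring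

theorem two_c {k : Type} [Field k] [IsAlgClosed k] {d r n : ℕ} {A : Finset (Fin d → ℤ)}
    {c : (Fin d → ℤ) → k} {v : Fin r → Fin d → ℤ} {a : Fin r → ℕ} {h : Fin r → ℤ}
    {e : Fin (n + 1) → Fin d → ℤ} {w : Fin (n + 1) → ℕ} {o : (Fin d → ℤ) → Fin (n + 1)}
    (hR : Rel0 A v a h) (hg : Gens A e w o) {g : ℕ} (hgg : (g : ℤ) = ∑ i, (a i : ℤ) * h i)
    {x : Fin d → k} (hx : ∀ j, x j ≠ 0) {p : Fin r → k[X]} (hp : ∀ i, (p i).natDegree ≤ a i)
    (hp0 : ∀ i, (p i).coeff 0 = 1) (hne : Phi A c v h x p ≠ 0) {i j : ℕ} {α β : k}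
    (hij : i + j = g) (hPhi : Phi A c v h x p = X ^ i * (C α + C β * X) ^ j) :
    TwoC w (SV e w) (GV A c o) 1 g (fun j => mn x (e j)) (fun j => cd v h x p (e j) (w j)) := by
  classical
  have hinf : Infinite k := IsAlgClosed.instInfinite
  have haev : MvPolynomial.aeval (fun j => cd v h x p (e j) (w j)) (GV A c o) = Phi A c v h x p :=
    aeval_GV hg c x p
  refine ⟨fun i => natDegree_cd hR hgg x hp (hg.cone i), ?_, ?_, ?_, ⟨i, j, α, β, ?_, ?_⟩⟩
  · funext l
    show (cd v h x p (e l) (w l)).eval 0 = _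
    rw [← coeff_zero_eq_eval_zero, coeff_cd x hp0]
  · intro t P hP
    obtain ⟨⟨μ, hμ⟩, hP⟩ := hP
    rw [eval_val]
    have hQ : MvPolynomial.aeval (fun j => cd v h x p (e j) (w j)) P = 0 := by
      have h1 : (∏ i, p i) * MvPolynomial.aeval (fun j => cd v h x p (e j) (w j)) P = 0 := by
        refine Polynomial.funext fun s => ?_
        rw [eval_mul, eval_zero, eval_prod]
        by_cases hs : ∀ i, (p i).eval s ≠ 0
        · refine mul_eq_zero_of_right _ ?_
          rw [← eval_val]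
          have h2 : val (fun j => cd v h x p (e j) (w j)) s = fun j => (∏ i, (p i).eval s ^ h i) ^ w j *
              mn (fun l => x l * ∏ i, (p i).eval s ^ v i l) (e j) := by
            funext l
            exact V03_eval x p hs (e l) (w l) fun i => cone_nonneg hR (hg.cone l) i
          rw [h2, eval_smul_w hμ, hP _ fun l => ?_, mul_zero]
          exact mul_ne_zero (hx l) (Finset.prod_ne_zero_iff.2 fun i _ => zpow_ne_zero _ (hs i))
        · push Not at hs
          obtain ⟨i, hi⟩ := hs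
          exact mul_eq_zero_of_left (Finset.prod_eq_zero (Finset.mem_univ i) hi) _
      refine (mul_eq_zero.1 h1).resolve_left (Finset.prod_ne_zero_iff.2 fun i _ h0 => ?_)
      have h2 := hp0 i
      rw [h0, coeff_zero] at h2
      exact zero_ne_one h2
    rw [hQ, eval_zero]
  · rw [haev]
    exact hne
  · rw [one_mul]
    exact hij
  · rw [haev]
    exact hPhi

end Pool.Agent.Lib.MP_1e3e9c_agV
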