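import Pool.Agent.Lib.MP_1e3e9c_agV.V03a
import Pool.Agent.Lib.MP_1e3e9c_agR.R2

/-! LEAF V04 (medium+).  Contact curves exist.

PROOF.  `N = ∑ a_i ≥ M + 2`, so `r > 0`; let `i₀ : Fin r`.  Unknowns: `U = Σ i : Fin r, Fin (a i)`, `p_i = 1 + ∑_l c_(i,l) t^(l+1)` (over `k`, and over `k[U]`: `P_i`).  Equations: for `l = 1, .., M` the coefficient `f_l ∈ k[U]` of `t^l` in
`∑_m c_m x^m ∏ P_i^(ex m 1 i)`, and `f_0 = X_(i₀, 0)` (the coefficient of `t` in `p_(i₀)`, `a i₀ > 0`): `M + 1 < N` polynomials without constant term (at `c = 0` all `p_i = 1`, so `Phi` is the constant `∑ c_m x^m`).  `common_zero` (R1) with `A = ⊥` and `N ≤ dimAt ⊥` (the height of the ideal of the origin in the polynomial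
ring in `N` unknowns; R2.lean, C2 and the library of TwoSheeted know it; Mathlib: `ringKrullDim` of `MvPolynomial`, or `Ideal.height` of a maximal ideal) gives `c ≠ 0` with all `f_l(c) = 0`.  `X^(M+1)` divides `Phi`: the coefficients `1 .. M` vanish, and the coefficient `0` is `∑ c_m x^m = 0` (`hF`; `coeff_cd`).
Not `Tri`: if `p_i = (1 + b t)^(a_i)` for all `i` then the coefficient of `t` in `p_(i₀)` is `a_(i₀) b = 0`, so `b = 0` (characteristic `0`), all `p_i = 1` and `c = 0`. -/

set_option autoImplicit false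

namespace Pool.Agent.Lib.MP_1e3e9c_agV

open Polynomial Pool.Agent.Lib.MP_1e3e9c_agR

private theorem V04_coeff0 {B : Type} [CommRing B] (n : ℕ) (f : MvPolynomial (Fin (n + 1)) B) :
    (MvPolynomial.constantCoeff : MvPolynomial (Fin n) B →+* B)
      (Polynomial.constantCoeff (MvPolynomial.finSuccEquiv B n f)) = MvPolynomial.constantCoeff f := by
  have h := MvPolynomial.finSuccEquiv_coeff_coeff (0 : Fin n →₀ ℕ) f 0
  rw [Finsupp.cons_zero_zero] at h
  exact h

private theorem V04_fin {B : Type} [CommRing B] [IsNoetherianRing B] (M : Ideal B) [M.IsMaximal]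
    (n : ℕ) : (Ideal.comap (MvPolynomial.constantCoeff : MvPolynomial (Fin n) B →+* B) M).height =
      M.height + (n : ℕ∞) := by
  induction n with
  | zero =>
    have h1 : Ideal.comap (MvPolynomial.constantCoeff : MvPolynomial (Fin 0) B →+* B) M =
        Ideal.comap (MvPolynomial.isEmptyRingEquiv B (Fin 0)) M := by
      ext x
      rw [Ideal.mem_comap, Ideal.mem_comap]
      rfl
    rw [h1, RingEquiv.height_comap, Nat.cast_zero, add_zero]
  | succ n ih =>
    have hs : Function.Surjective (MvPolynomial.constantCoeff : MvPolynomial (Fin n) B →+* B) := fun b =>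
      ⟨MvPolynomial.C b, MvPolynomial.constantCoeff_C _ b⟩
    have hp : (Ideal.comap (MvPolynomial.constantCoeff : MvPolynomial (Fin n) B →+* B) M).IsMaximal :=
      Ideal.comap_isMaximal_of_surjective _ hs
    have hP : (Ideal.comap (Polynomial.constantCoeff :
        Polynomial (MvPolynomial (Fin n) B) →+* MvPolynomial (Fin n) B)
        (Ideal.comap (MvPolynomial.constantCoeff : MvPolynomial (Fin n) B →+* B) M)).IsMaximal :=
      Ideal.comap_isMaximal_of_surjective _ Polynomial.constantCoeff_surjective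
    have hl : (Ideal.comap (Polynomial.constantCoeff :
        Polynomial (MvPolynomial (Fin n) B) →+* MvPolynomial (Fin n) B)
        (Ideal.comap (MvPolynomial.constantCoeff : MvPolynomial (Fin n) B →+* B) M)).LiesOver
        (Ideal.comap (MvPolynomial.constantCoeff : MvPolynomial (Fin n) B →+* B) M) := by
      refine ⟨?_⟩
      ext x
      rw [Ideal.mem_comap]
      show _ ↔ MvPolynomial.constantCoeff (Polynomial.constantCoeff (Polynomial.C x)) ∈ M
      rw [Polynomial.constantCoeff_apply, Polynomial.coeff_C_zero]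
    have h2 := Polynomial.height_eq_height_add_one
      (Ideal.comap (MvPolynomial.constantCoeff : MvPolynomial (Fin n) B →+* B) M)
      (Ideal.comap (Polynomial.constantCoeff :
        Polynomial (MvPolynomial (Fin n) B) →+* MvPolynomial (Fin n) B)
        (Ideal.comap (MvPolynomial.constantCoeff : MvPolynomial (Fin n) B →+* B) M))
    have h3 : Ideal.comap (MvPolynomial.constantCoeff : MvPolynomial (Fin (n + 1)) B →+* B) M =
        Ideal.comap (MvPolynomial.finSuccEquiv B n).toRingEquiv (Ideal.comap (Polynomial.constantCoeff :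
        Polynomial (MvPolynomial (Fin n) B) →+* MvPolynomial (Fin n) B)
        (Ideal.comap (MvPolynomial.constantCoeff : MvPolynomial (Fin n) B →+* B) M)) := by
      ext x
      rw [Ideal.mem_comap, Ideal.mem_comap, Ideal.mem_comap, Ideal.mem_comap]
      show _ ↔ MvPolynomial.constantCoeff (Polynomial.constantCoeff (MvPolynomial.finSuccEquiv B n x)) ∈ M
      rw [V04_coeff0]
    rw [h3, RingEquiv.height_comap, h2, ih, Nat.cast_add, Nat.cast_one, add_assoc]

private theorem V04_height {B : Type} [CommRing B] [IsNoetherianRing B] (M : Ideal B) [M.IsMaximal]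
    (ι : Type) [Fintype ι] :
    (Ideal.comap (MvPolynomial.constantCoeff : MvPolynomial ι B →+* B) M).height =
      M.height + (Fintype.card ι : ℕ∞) := by
  have h3 : Ideal.comap (MvPolynomial.constantCoeff : MvPolynomial ι B →+* B) M =
      Ideal.comap (MvPolynomial.renameEquiv B (Fintype.equivFin ι)).toRingEquiv
        (Ideal.comap (MvPolynomial.constantCoeff : MvPolynomial (Fin (Fintype.card ι)) B →+* B) M) := by
    ext x
    rw [Ideal.mem_comap, Ideal.mem_comap, Ideal.mem_comap]
    show _ ↔ MvPolynomial.constantCoeff (MvPolynomial.rename (Fintype.equivFin ι) x) ∈ M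
    rw [MvPolynomial.constantCoeff_rename]
  rw [h3, RingEquiv.height_comap, V04_fin]

private theorem V04_dimAt {k U : Type} [Field k] [Fintype U] :
    dimAt (⊥ : Ideal (MvPolynomial U k)) = (Fintype.card U : ℕ∞) := by
  unfold dimAt
  have hM : (⊥ : Ideal k).IsMaximal := Ideal.bot_isMaximal
  have h1 : Ideal.map (Ideal.Quotient.mk (⊥ : Ideal (MvPolynomial U k)))
      (RingHom.ker (MvPolynomial.constantCoeff : MvPolynomial U k →+* k)) =
      Ideal.comap (RingEquiv.quotientBot (MvPolynomial U k))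
        (Ideal.comap (MvPolynomial.constantCoeff : MvPolynomial U k →+* k) ⊥) := by
    ext z
    obtain ⟨y, rfl⟩ := Ideal.Quotient.mk_surjective z
    rw [← Ideal.mem_comap, Ideal.comap_map_quotientMk, bot_sup_eq, Ideal.mem_comap]
    rfl
  rw [h1, RingEquiv.height_comap, V04_height, Ideal.height_bot, zero_add]

private noncomputable def V04_p {k : Type} [Field k] {r : ℕ} (a : Fin r → ℕ) (b : (Σ i : Fin r, Fin (a i)) → k)
    (i : Fin r) : k[X] :=
  1 + ∑ l : Fin (a i), C (b ⟨i, l⟩) * X ^ ((l : ℕ) + 1)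

private noncomputable def V04_g (k : Type) [Field k] {r : ℕ} (a : Fin r → ℕ)
    (i : Fin r) : (MvPolynomial (Σ i : Fin r, Fin (a i)) k)[X] :=
  1 + ∑ l : Fin (a i), C (MvPolynomial.X (⟨i, l⟩ : Σ i : Fin r, Fin (a i))) * X ^ ((l : ℕ) + 1)

private theorem V04_p_coeff0 {k : Type} [Field k] {r : ℕ} (a : Fin r → ℕ) (b : (Σ i : Fin r, Fin (a i)) → k)
    (i : Fin r) : (V04_p a b i).coeff 0 = 1 := by
  unfold V04_p
  rw [Polynomial.coeff_add, Polynomial.coeff_one_zero, Polynomial.finsetSum_coeff, Finset.sum_eq_zero, add_zero]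
  intro l _
  rw [Polynomial.coeff_C_mul, Polynomial.coeff_X_pow, if_neg (by omega), mul_zero]

private theorem V04_p_coeff {k : Type} [Field k] {r : ℕ} (a : Fin r → ℕ) (b : (Σ i : Fin r, Fin (a i)) → k)
    (i : Fin r) (l : Fin (a i)) : (V04_p a b i).coeff ((l : ℕ) + 1) = b ⟨i, l⟩ := by
  unfold V04_p
  rw [Polynomial.coeff_add, Polynomial.coeff_one, if_neg (by omega), zero_add, Polynomial.finsetSum_coeff,
    Finset.sum_eq_single l]
  · rw [Polynomial.coeff_C_mul, Polynomial.coeff_X_pow, if_pos rfl, mul_one]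
  · intro m _ hm
    rw [Polynomial.coeff_C_mul, Polynomial.coeff_X_pow, if_neg, mul_zero]
    intro h
    exact hm (Fin.ext (by omega))
  · intro h
    exact absurd (Finset.mem_univ _) h

private theorem V04_p_deg {k : Type} [Field k] {r : ℕ} (a : Fin r → ℕ) (b : (Σ i : Fin r, Fin (a i)) → k)
    (i : Fin r) : (V04_p a b i).natDegree ≤ a i := by
  unfold V04_p
  refine Polynomial.natDegree_add_le_of_degree_le ?_ ?_
  · rw [Polynomial.natDegree_one]
    exact Nat.zero_le _
  · refine Polynomial.natDegree_sum_le_of_forall_le _ _ fun l _ => ?_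
    exact (Polynomial.natDegree_C_mul_X_pow_le _ _).trans (by have := l.2; omega)

private noncomputable def V04_G {k : Type} [Field k] {d r : ℕ} (a : Fin r → ℕ)
    (A : Finset (Fin d → ℤ)) (c : (Fin d → ℤ) → k) (v : Fin r → Fin d → ℤ) (h : Fin r → ℤ) (x : Fin d → k) :
    (MvPolynomial (Σ i : Fin r, Fin (a i)) k)[X] :=
  ∑ m ∈ A, C (MvPolynomial.C (c m)) * (C (MvPolynomial.C (mn x m)) * ∏ i, V04_g k a i ^ ex v h m 1 i)

private theorem V04_map {k : Type} [Field k] {d r : ℕ} (a : Fin r → ℕ)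
    (A : Finset (Fin d → ℤ)) (c : (Fin d → ℤ) → k) (v : Fin r → Fin d → ℤ) (h : Fin r → ℤ) (x : Fin d → k)
    (b : (Σ i : Fin r, Fin (a i)) → k) :
    Polynomial.map (MvPolynomial.eval b) (V04_G a A c v h x) = Phi A c v h x (V04_p a b) := by
  have hg : ∀ i, Polynomial.map (MvPolynomial.eval b) (V04_g k a i) = V04_p a b i := by
    intro i
    unfold V04_g V04_p
    simp only [Polynomial.map_add, Polynomial.map_one, Polynomial.map_sum, Polynomial.map_mul,
      Polynomial.map_pow, Polynomial.map_C, Polynomial.map_X, MvPolynomial.eval_X]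
  unfold V04_G Phi cd
  simp only [Polynomial.map_sum, Polynomial.map_mul, Polynomial.map_prod,
    Polynomial.map_pow, Polynomial.map_C, MvPolynomial.eval_C, hg, Algebra.algebraMap_self, RingHom.id_apply]

private theorem V04_map_coeff {k : Type} [Field k] {d r : ℕ} (a : Fin r → ℕ)
    (A : Finset (Fin d → ℤ)) (c : (Fin d → ℤ) → k) (v : Fin r → Fin d → ℤ) (h : Fin r → ℤ) (x : Fin d → k)
    (b : (Σ i : Fin r, Fin (a i)) → k) (j : ℕ) :
    MvPolynomial.eval b ((V04_G a A c v h x).coeff j) = (Phi A c v h x (V04_p a b)).coeff j := by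
  rw [← V04_map, Polynomial.coeff_map]

private theorem V04_const {k : Type} [Field k] {d r : ℕ} (a : Fin r → ℕ)
    (A : Finset (Fin d → ℤ)) (c : (Fin d → ℤ) → k) (v : Fin r → Fin d → ℤ) (h : Fin r → ℤ) (x : Fin d → k)
    (j : ℕ) : (Phi A c v h x (V04_p a (0 : (Σ i : Fin r, Fin (a i)) → k))).coeff (j + 1) = 0 := by
  have h1 : V04_p a (0 : (Σ i : Fin r, Fin (a i)) → k) = fun _ => 1 := by
    funext i
    unfold V04_p
    rw [Finset.sum_eq_zero, add_zero]
    intro l _
    rw [Pi.zero_apply, map_zero, zero_mul]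
  rw [h1]
  unfold Phi cd
  rw [Polynomial.finsetSum_coeff]
  refine Finset.sum_eq_zero fun m _ => ?_
  simp only [one_pow, Finset.prod_const_one, mul_one]
  rw [← map_mul, Polynomial.coeff_C_succ]

private theorem V04_lin {k : Type} [Field k] (b : k) (N : ℕ) :
    ((1 + C b * X : k[X]) ^ N).coeff 1 = N * b := by
  have h := Polynomial.coeff_derivative ((1 + Polynomial.C b * Polynomial.X : Polynomial k) ^ N) 0
  rw [zero_add, Nat.cast_zero, zero_add, mul_one] at h
  rw [← h, Polynomial.coeff_zero_eq_eval_zero, Polynomial.derivative_pow]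
  simp

theorem exists_contact {k : Type} [Field k] [IsAlgClosed k] [CharZero k] {d r : ℕ}
    {A : Finset (Fin d → ℤ)} {c : (Fin d → ℤ) → k} {v : Fin r → Fin d → ℤ} {a : Fin r → ℕ}
    {h : Fin r → ℤ} (ha : ∀ i, 0 < a i) {M : ℕ} (hM : M + 2 ≤ ∑ i, a i) {x : Fin d → k}
    (hF : ∑ m ∈ A, c m * mn x m = 0) :
    ∃ p : Fin r → k[X], (∀ i, (p i).natDegree ≤ a i) ∧ (∀ i, (p i).coeff 0 = 1) ∧
      X ^ (M + 1) ∣ Phi A c v h x p ∧ ¬ Tri a p := by
  classical
  obtain ⟨i₀⟩ : Nonempty (Fin r) := by
    rcases Nat.eq_zero_or_pos r with h0 | h0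
    · subst h0
      rw [Finset.univ_eq_empty, Finset.sum_empty] at hM
      omega
    · exact ⟨⟨0, h0⟩⟩
  obtain ⟨b, hb0, -, hbf⟩ := common_zero (κ := Option (Fin M)) (⊥ : Ideal (MvPolynomial (Σ i : Fin r, Fin (a i)) k))
    (fun q hq => by rw [(Ideal.mem_bot.1 hq), map_zero])
    (fun o => o.elim (MvPolynomial.X (⟨i₀, ⟨0, ha i₀⟩⟩ : Σ i : Fin r, Fin (a i))) fun j =>
      (V04_G a A c v h x).coeff ((j : ℕ) + 1))
    (by
      rintro (_ | j)
      · simp only [Option.elim_none, MvPolynomial.constantCoeff_X]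
      · have h1 := V04_map_coeff a A c v h x (0 : (Σ i : Fin r, Fin (a i)) → k) ((j : ℕ) + 1)
        rw [V04_const, MvPolynomial.eval_zero] at h1
        exact h1)
    (by
      rw [V04_dimAt, Nat.cast_lt, Fintype.card_option, Fintype.card_fin, Fintype.card_sigma]
      simp only [Fintype.card_fin]
      omega)
  have hb1 : b ⟨i₀, ⟨0, ha i₀⟩⟩ = 0 := by
    have h1 := hbf none
    simpa only [Option.elim_none, MvPolynomial.eval_X] using h1
  refine ⟨V04_p a b, V04_p_deg a b, V04_p_coeff0 a b, ?_, ?_⟩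
  · rw [Polynomial.X_pow_dvd_iff]
    intro j hj
    rcases j with _ | j
    · unfold Phi
      rw [Polynomial.finsetSum_coeff, ← hF]
      refine Finset.sum_congr rfl fun m _ => ?_
      rw [Polynomial.coeff_C_mul, coeff_cd x (V04_p_coeff0 a b) m 1]
      rfl
    · rw [← V04_map_coeff]
      exact hbf (some ⟨j, by omega⟩)
  · rintro ⟨e, he⟩
    have h1 : ((a i₀ : ℕ) : k) * e = 0 := by
      rw [← V04_lin, ← he i₀]
      have h2 := V04_p_coeff a b i₀ ⟨0, ha i₀⟩
      rw [hb1] at h2
      exact h2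
    have he0 : e = 0 := by
      rcases mul_eq_zero.1 h1 with h2 | h2
      · exact absurd (Nat.cast_eq_zero.1 h2) (ha i₀).ne'
      · exact h2
    apply hb0
    funext z
    obtain ⟨i, l⟩ := z
    rw [← V04_p_coeff a b i l, he i, he0, map_zero, zero_mul, add_zero, one_pow, Polynomial.coeff_one,
      if_neg (by omega), Pi.zero_apply]

end Pool.Agent.Lib.MP_1e3e9c_agV
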