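import Pool.Agent.Lib.MP_1e3e9c_agV.VDefs

/-! LEAF V05 (medium).  A curve whose coordinates are proportional is constant.

PROOF.  All `p_i ≠ 0`.  Let `ρ ∈ k` and `e_i = (p i).rootMultiplicity ρ ≤ a_i`.  For `m, m' ∈ A` the hypothesis `hc` (with `b ≠ 0`, as the left side is not `0`) gives `∑ e_i ex m 1 i = ∑ e_i ex m' 1 i`, that is (`hR.ge`: the exponents are `pr m (v i) + h i`) `pr m u = pr m' u` for `u = ∑ e_i v_i`.  By `Full` `u = 0`, and by
`Mini` `e = 0` or `e = a`.  If for some `ρ` `e = a`: `(X - ρ)^(a_i) ∣ p_i`, `deg p_i ≤ a_i`, `p_i(0) = 1`: `ρ ≠ 0` (if `r > 0`; for `r = 0` there is nothing to show) and `p_i = (1 - t / ρ)^(a_i)`: `b = - 1 / ρ`.  Otherwise no `p_i` has a root (`a_i > 0`: a root of one `p_i` gives `e ≠ 0`, so `e = a`), so all `p_i` are constant `= 1`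
(`IsAlgClosed`): `b = 0`. -/

set_option autoImplicit false

namespace Pool.Agent.Lib.MP_1e3e9c_agV

open Polynomial

private theorem V05_pow {k : Type} [Field k] (ρ : k) {p : k[X]} (hp : p ≠ 0) (n : ℕ) :
    (p ^ n).rootMultiplicity ρ = n * p.rootMultiplicity ρ := by
  induction n with
  | zero => rw [pow_zero, zero_mul, ← C_1, rootMultiplicity_C]
  | succ n ih =>
    rw [pow_succ, rootMultiplicity_mul (mul_ne_zero (pow_ne_zero n hp) hp), ih]
    ring

private theorem V05_prod {k : Type} [Field k] (ρ : k) {r : ℕ} {p : Fin r → k[X]} (hp : ∀ i, p i ≠ 0)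
    (n : Fin r → ℕ) (s : Finset (Fin r)) :
    (∏ i ∈ s, p i ^ n i).rootMultiplicity ρ = ∑ i ∈ s, n i * (p i).rootMultiplicity ρ := by
  classical
  induction s using Finset.induction_on with
  | empty => rw [Finset.prod_empty, Finset.sum_empty, ← C_1, rootMultiplicity_C]
  | insert i s hi ih =>
    rw [Finset.prod_insert hi, Finset.sum_insert hi, rootMultiplicity_mul (mul_ne_zero (pow_ne_zero _ (hp i))
      (Finset.prod_ne_zero_iff.2 fun j _ => pow_ne_zero _ (hp j))), V05_pow ρ (hp i), ih]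

theorem tri_of_const {k : Type} [Field k] [IsAlgClosed k] {d r : ℕ}
    {A : Finset (Fin d → ℤ)} {v : Fin r → Fin d → ℤ} {a : Fin r → ℕ}
    {h : Fin r → ℤ} (hA : Full A) (hR : Rel0 A v a h) (hM : Mini v a) {p : Fin r → k[X]}
    (hp : ∀ i, (p i).natDegree ≤ a i) (hp0 : ∀ i, (p i).coeff 0 = 1)
    (hc : ∀ m ∈ A, ∀ m' ∈ A, ∃ b : k, ∏ i, p i ^ ex v h m 1 i = C b * ∏ i, p i ^ ex v h m' 1 i) :
    Tri a p := by
  classical
  have hne : ∀ i, p i ≠ 0 := by
    intro i h0
    have h1 := hp0 i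
    rw [h0, coeff_zero] at h1
    exact zero_ne_one h1
  have hle : ∀ (ρ : k) i, (p i).rootMultiplicity ρ ≤ (p i).natDegree := by
    intro ρ i
    rw [← count_roots]
    exact (Multiset.count_le_card _ _).trans (card_roots' _)
  have key : ∀ ρ : k, (fun i => (p i).rootMultiplicity ρ) = 0 ∨ (fun i => (p i).rootMultiplicity ρ) = a := by
    intro ρ
    refine hM _ (fun i => (hle ρ i).trans (hp i)) ?_
    by_contra hu
    have hu' : (fun j => ∑ i, (((p i).rootMultiplicity ρ : ℕ) : ℤ) * v i j) ≠ 0 := fun h0 => hu fun j => congrFun h0 j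
    obtain ⟨m, hm, m', hm', hmm⟩ := hA _ hu'
    apply hmm
    obtain ⟨b, hb⟩ := hc m hm m' hm'
    have hP : ∀ m, ∏ i, p i ^ ex v h m 1 i ≠ 0 := fun m => Finset.prod_ne_zero_iff.2 fun i _ => pow_ne_zero _ (hne i)
    have hb0 : b ≠ 0 := by
      rintro rfl
      rw [C_0, zero_mul] at hb
      exact hP m hb
    have h1 := congrArg (rootMultiplicity ρ) hb
    rw [rootMultiplicity_mul (mul_ne_zero (C_ne_zero.2 hb0) (hP m')), rootMultiplicity_C, zero_add,
      V05_prod ρ hne, V05_prod ρ hne] at h1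
    have h2 : ∀ m ∈ A, ((∑ i, ex v h m 1 i * (p i).rootMultiplicity ρ : ℕ) : ℤ) =
        pr m (fun j => ∑ i, (((p i).rootMultiplicity ρ : ℕ) : ℤ) * v i j) +
          ∑ i, h i * (((p i).rootMultiplicity ρ : ℕ) : ℤ) := by
      intro m hm
      have e1 : pr m (fun j => ∑ i, (((p i).rootMultiplicity ρ : ℕ) : ℤ) * v i j) =
          ∑ i, pr m (v i) * (((p i).rootMultiplicity ρ : ℕ) : ℤ) := by
        unfold pr
        simp only [Finset.mul_sum, Finset.sum_mul]
        rw [Finset.sum_comm]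
        exact Finset.sum_congr rfl fun i _ => Finset.sum_congr rfl fun j _ => by ring
      rw [e1, ← Finset.sum_add_distrib, Nat.cast_sum]
      refine Finset.sum_congr rfl fun i _ => ?_
      have e2 : ((ex v h m 1 i : ℕ) : ℤ) = pr m (v i) + h i := by
        unfold ex
        rw [Nat.cast_one, one_mul]
        exact Int.toNat_of_nonneg (hR.ge m hm i)
      rw [Nat.cast_mul, e2, add_mul]
    have h3 := h2 m hm
    rw [h1, h2 m' hm'] at h3
    linarith
  by_cases hex : ∃ (ρ : k) (i : Fin r), (p i).rootMultiplicity ρ ≠ 0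
  · obtain ⟨ρ, i₀, hi₀⟩ := hex
    have hea : ∀ i, (p i).rootMultiplicity ρ = a i := by
      rcases key ρ with h0 | h0
      · exact absurd (congrFun h0 i₀) hi₀
      · exact fun i => congrFun h0 i
    have hform : ∀ i, ∃ c : k, p i = C c * (X - C ρ) ^ a i := by
      intro i
      have hd := pow_rootMultiplicity_dvd (p i) ρ
      rw [hea i] at hd
      obtain ⟨q, hq⟩ := hd
      have hq0 : q ≠ 0 := by
        rintro rfl
        rw [mul_zero] at hq
        exact hne i hq
      have hdeg := hp i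
      rw [hq, natDegree_mul (pow_ne_zero _ (X_sub_C_ne_zero ρ)) hq0, natDegree_pow, natDegree_X_sub_C, mul_one] at hdeg
      have hq1 : q.natDegree = 0 := by omega
      rw [natDegree_eq_zero] at hq1
      obtain ⟨c, rfl⟩ := hq1
      exact ⟨c, by rw [hq, mul_comm]⟩
    choose c hcf using hform
    have hval : ∀ i, c i * (-ρ) ^ a i = 1 := by
      intro i
      have h0 := hp0 i
      rw [coeff_zero_eq_eval_zero, hcf i, eval_mul, eval_pow, eval_C, eval_sub, eval_X, eval_C, zero_sub] at h0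
      exact h0
    have hρ : ρ ≠ 0 := by
      rintro rfl
      have h0 := hval i₀
      rw [neg_zero, zero_pow (hR.pos i₀).ne', mul_zero] at h0
      exact zero_ne_one h0
    refine ⟨-ρ⁻¹, fun i => ?_⟩
    have e1 : (1 + C (-ρ⁻¹) * X : k[X]) = C (-ρ⁻¹) * (X - C ρ) := by
      rw [mul_sub, ← C_mul, neg_mul, inv_mul_cancel₀ hρ, C_neg, C_neg, C_1]
      ring
    rw [e1, mul_pow, ← C_pow, hcf i]
    have e2 : c i = (-ρ⁻¹) ^ a i := by
      have h0 := hval i
      have h1 : (-ρ) ^ a i * (-ρ⁻¹) ^ a i = 1 := by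
        rw [← mul_pow, neg_mul_neg, mul_inv_cancel₀ hρ, one_pow]
      calc c i = c i * ((-ρ) ^ a i * (-ρ⁻¹) ^ a i) := by rw [h1, mul_one]
        _ = (c i * (-ρ) ^ a i) * (-ρ⁻¹) ^ a i := by rw [mul_assoc]
        _ = (-ρ⁻¹) ^ a i := by rw [h0, one_mul]
    rw [e2]
  · refine ⟨0, fun i => ?_⟩
    have hroot : (p i).roots = 0 := by
      rw [Multiset.eq_zero_iff_forall_notMem]
      intro x hx
      apply hex
      refine ⟨x, i, ?_⟩
      rw [← count_roots]
      exact (Multiset.count_pos.2 hx).ne'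
    rw [IsAlgClosed.roots_eq_zero_iff_natDegree_eq_zero] at hroot
    rw [natDegree_eq_zero] at hroot
    obtain ⟨c, hc'⟩ := hroot
    have h0 := hp0 i
    rw [← hc', coeff_C_zero] at h0
    rw [← hc', h0, C_1, C_0, zero_mul, add_zero, one_pow]

end Pool.Agent.Lib.MP_1e3e9c_agV
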