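import Pool.Agent.Lib.MP_1e3e9c_agV.V03a
import Pool.Agent.Lib.MP_1e3e9c_agV.V05

/-! LEAF V06 (easy+).  A curve of the family in the torus which is in the hypersurface.

PROOF.  `z m l = algebraMap k[X] (RatFunc k) (cd v h x p m l)`.  `one`: `mn x 0 = 1`, `ex v h 0 0 i = 0`.  `mul`: `mn_add`, `ex_add`.  `eq`: the image of `Phi = 0` (`RatFunc.algebraMap_C`).  `nonconst`: by `tri_of_const` (contraposition) there are `m, m' ∈ A` with `∏ p_i^(ex m 1 i) ≠ C b ∏ p_i^(ex m' 1 i)` for all `b`; take `(m, 1)`,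
`(m', 1)` (`cone_one`): `z m' 1 ≠ 0` (`p_i ≠ 0`, `mn x m' ≠ 0`), and `z m 1 = C b z m' 1` would give `∏ p_i^(ex m 1 i) = C (b mn x m' / mn x m) ∏ ..` (`RatFunc.algebraMap_injective`). -/

set_option autoImplicit false

namespace Pool.Agent.Lib.MP_1e3e9c_agV

open Polynomial

theorem of_phi_zero {k : Type} [Field k] [IsAlgClosed k] {d r : ℕ}
    {A : Finset (Fin d → ℤ)} {c : (Fin d → ℤ) → k} {v : Fin r → Fin d → ℤ} {a : Fin r → ℕ}
    {h : Fin r → ℤ} (hA : Full A) (hR : Rel0 A v a h) (hM : Mini v a) {x : Fin d → k}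
    (hx : ∀ j, x j ≠ 0) {p : Fin r → k[X]}
    (hp : ∀ i, (p i).natDegree ≤ a i) (hp0 : ∀ i, (p i).coeff 0 = 1)
    (hPhi : Phi A c v h x p = 0) (ht : ¬ Tri a p) : ∃ z, IsCurve A c z := by
  have hinj := RatFunc.algebraMap_injective k
  refine ⟨fun m l => algebraMap k[X] (RatFunc k) (cd v h x p m l), ?_, ?_, ?_, ?_⟩
  · have h1 : cd v h x p 0 0 = 1 := by
      have e1 : mn x (0 : Fin d → ℤ) = 1 := by
        simp [mn]
      have e2 : ∀ i, ex v h 0 0 i = 0 := by
        intro i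
        simp [ex, pr]
      rw [cd, e1]
      simp [e2]
    change algebraMap k[X] (RatFunc k) (cd v h x p 0 0) = 1
    rw [h1, map_one]
  · intro m l m' l' hm hm'
    rw [← map_mul]
    apply congrArg
    have e1 : ∏ i, p i ^ ex v h (m + m') (l + l') i
        = (∏ i, p i ^ ex v h m l i) * ∏ i, p i ^ ex v h m' l' i := by
      rw [← Finset.prod_mul_distrib]
      refine Finset.prod_congr rfl fun i _ => ?_
      rw [ex_add hR hm hm', pow_add]
    rw [cd, cd, cd, mn_add hx, e1, C_mul]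
    ring
  · have h1 : ∑ a ∈ A, RatFunc.C (c a) * algebraMap k[X] (RatFunc k) (cd v h x p a 1)
        = algebraMap k[X] (RatFunc k) (Phi A c v h x p) := by
      rw [Phi, map_sum]
      refine Finset.sum_congr rfl fun a _ => ?_
      rw [map_mul, RatFunc.algebraMap_C]
      rfl
    change ∑ a ∈ A, RatFunc.C (c a) * algebraMap k[X] (RatFunc k) (cd v h x p a 1) = 0
    rw [h1, hPhi, map_zero]
  · by_contra hcon
    apply ht
    apply tri_of_const hA hR hM hp hp0
    intro m hm m' hm'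
    have hp1 : ∀ i, p i ≠ 0 := by
      intro i h0
      have h1 := hp0 i
      rw [h0, coeff_zero] at h1
      exact zero_ne_one h1
    have hcd : cd v h x p m' 1 ≠ 0 := by
      rw [cd]
      exact mul_ne_zero (C_ne_zero.mpr (mn_ne hx m'))
        (Finset.prod_ne_zero_iff.mpr fun i _ => pow_ne_zero _ (hp1 i))
    have hne : algebraMap k[X] (RatFunc k) (cd v h x p m' 1) ≠ 0 := by
      intro h0
      apply hcd
      apply hinj
      rw [h0, map_zero]
    have hb : ∃ b : k, algebraMap k[X] (RatFunc k) (cd v h x p m 1)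
        = RatFunc.C b * algebraMap k[X] (RatFunc k) (cd v h x p m' 1) := by
      by_contra hb
      exact hcon ⟨m, m', 1, cone_one hm, cone_one hm', hne, fun b hb' => hb ⟨b, hb'⟩⟩
    obtain ⟨b, hb⟩ := hb
    rw [← RatFunc.algebraMap_C, ← map_mul] at hb
    have h2 := hinj hb
    rw [cd, cd] at h2
    refine ⟨b * mn x m' / mn x m, ?_⟩
    have h3 : (C (mn x m) : k[X]) ≠ 0 := C_ne_zero.mpr (mn_ne hx m)
    apply mul_left_cancel₀ h3
    rw [h2, ← mul_assoc, ← mul_assoc, ← C_mul, ← C_mul, mul_div_cancel₀ _ (mn_ne hx m)]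

end Pool.Agent.Lib.MP_1e3e9c_agV
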