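import Pool.Agent.Lib.MP_1e3e9c_agV.V12a

/-! LEAF V12b (medium).  Moving a point of the curve to `t = ∞`.

PROOF.  `q_i = ∑_(j ≤ a_i) (p_i)_j (1 + s_0 t)^(a_i - j) (s_1 t)^j` (homogeneous substitution: `(1 + s_0 t)^(a_i) p_i(s_1 t / (1 + s_0 t))`).  `deg q_i ≤ a_i`, `q_i(0) = (p_i)_0 = 1`, the coefficient of `t^(a_i)` is `∑_j (p_i)_j s_0^(a_i - j) s_1^j = hb a p s i` (`coeff_mul_of_natDegree_le`, of `(1 + s_0 t)^b (s_1 t)^j`: `s_0^b s_1^j`).
So `ld v a h x q m = mn x m * ∏ hb^(..)`: `rat` is `hy`.  `dvd` and `phi`: `Phi .. x q = ∑_(l ≤ g) Phi_l (1 + s_0 t)^(g - l) (s_1 t)^l`: the substitution is multiplicative (`S N u = ∑_(j ≤ N) u_j (1 + s_0 t)^(N - j) (s_1 t)^j`, `S (N + M) (u u') = S N u * S M u'` for `deg u ≤ N`, `deg u' ≤ M`; it is the sum `f` of V12a for the polynomial ring over `k[X]`, or its fraction field,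
`s = (1 + s_0 t, s_1 t)`: e.g. apply `form_cd` over the field `RatFunc k`, with the images of `x`, `p`, and use that `algebraMap k[X] (RatFunc k)` is injective) and `∑ a_i ex (m, 1) i = g` (`sum_ex`).  `Phi_l = 0` for `l < N - 1`, so `X^(N-1)` divides the sum.  It is not `0`: let `μ` be the smallest `l` with `Phi_l ≠ 0` (`μ ≤ g`: `natDegree_Phi`): the coefficient of `t^μ` of the sum is
`Phi_μ s_1^μ ≠ 0`. -/

set_option autoImplicit false

namespace Pool.Agent.Lib.MP_1e3e9c_agV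

open Polynomial Pool.Agent.Lib.MP_1e3e9c_agR

/-- the homogeneous substitution `t ↦ s_1 t / (1 + s_0 t)` -/
private noncomputable def V12b_S {k : Type} [Field k] (s : Fin 2 → k) (N : ℕ) (u : k[X]) : k[X] :=
  MvPolynomial.aeval (![C (s 1) * X, 1 + C (s 0) * X] : Fin 2 → k[X]) (homogenize u N)

private theorem V12b_sum {k : Type} [Field k] (s : Fin 2 → k) (N : ℕ) (u : k[X]) :
    V12b_S s N u = ∑ kl ∈ Finset.HasAntidiagonal.antidiagonal N, C (u.coeff kl.1) *
      ((C (s 1) * X) ^ kl.1 * (1 + C (s 0) * X) ^ kl.2) := by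
  unfold V12b_S homogenize
  rw [map_sum]
  refine Finset.sum_congr rfl fun kl _ => ?_
  rw [MvPolynomial.aeval_monomial, Polynomial.algebraMap_eq]
  refine congrArg _ ?_
  rw [Finsupp.prod_fintype _ _ (fun i => pow_zero _), Fin.prod_univ_two]
  simp

private theorem V12b_prod {k : Type} [Field k] (s : Fin 2 → k) {r : ℕ} {p : Fin r → k[X]} {a e : Fin r → ℕ}
    (hp : ∀ i, (p i).natDegree ≤ a i) :
    V12b_S s (∑ i, a i * e i) (∏ i, p i ^ e i) = ∏ i, V12b_S s (a i) (p i) ^ e i := by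
  have h1 : ∀ (i : Fin r) (m : ℕ), homogenize (p i ^ m) (a i * m) = homogenize (p i) (a i) ^ m := by
    intro i m
    induction m with
    | zero => rw [pow_zero, pow_zero, Nat.mul_zero, homogenize_one, pow_zero]
    | succ m ih =>
      rw [pow_succ, pow_succ, Nat.mul_succ, homogenize_mul _ _ _ (hp i), ih]
      refine natDegree_pow_le.trans ?_
      rw [Nat.mul_comm]
      exact Nat.mul_le_mul_right _ (hp i)
  unfold V12b_S
  rw [homogenize_finsetProd, map_prod]
  · refine Finset.prod_congr rfl fun i _ => ?_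
    rw [h1, map_pow]
  · intro i _
    refine natDegree_pow_le.trans ?_
    rw [Nat.mul_comm]
    exact Nat.mul_le_mul_right _ (hp i)

private theorem V12b_C {k : Type} [Field k] (s : Fin 2 → k) (N : ℕ) (c : k) (u : k[X]) :
    V12b_S s N (C c * u) = C c * V12b_S s N u := by
  unfold V12b_S
  rw [homogenize_C_mul, map_mul, MvPolynomial.aeval_C, Polynomial.algebraMap_eq]

private theorem V12b_add {k : Type} [Field k] (s : Fin 2 → k) (N : ℕ) {ι : Type} (t : Finset ι)
    (u : ι → k[X]) : V12b_S s N (∑ i ∈ t, u i) = ∑ i ∈ t, V12b_S s N (u i) := by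
  unfold V12b_S
  rw [homogenize_finsetSum, map_sum]

private theorem V12b_degA {k : Type} [Field k] (s : Fin 2 → k) : (C (s 1) * X : k[X]).natDegree ≤ 1 :=
  (natDegree_C_mul_le _ _).trans natDegree_X_le

private theorem V12b_degB {k : Type} [Field k] (s : Fin 2 → k) : (1 + C (s 0) * X : k[X]).natDegree ≤ 1 := by
  refine (natDegree_add_le _ _).trans (max_le ?_ ((natDegree_C_mul_le _ _).trans natDegree_X_le))
  rw [natDegree_one]
  exact Nat.zero_le _

private theorem V12b_deg {k : Type} [Field k] (s : Fin 2 → k) (N : ℕ) (u : k[X]) :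
    (V12b_S s N u).natDegree ≤ N := by
  rw [V12b_sum]
  refine natDegree_sum_le_of_forall_le _ _ fun kl hkl => ?_
  have h1 := Finset.HasAntidiagonal.mem_antidiagonal.1 hkl
  refine (natDegree_C_mul_le _ _).trans (natDegree_mul_le.trans ?_)
  have h2 := natDegree_pow_le_of_le kl.1 (V12b_degA s)
  have h3 := natDegree_pow_le_of_le kl.2 (V12b_degB s)
  omega

private theorem V12b_zero {k : Type} [Field k] (s : Fin 2 → k) (N : ℕ) (u : k[X]) :
    (V12b_S s N u).coeff 0 = u.coeff 0 := by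
  rw [V12b_sum, coeff_zero_eq_eval_zero, eval_finsetSum, Finset.sum_eq_single (0, N)]
  · simp
  · rintro ⟨i, j⟩ hij hne
    have h1 : i ≠ 0 := by
      rintro rfl
      apply hne
      have h2 := Finset.HasAntidiagonal.mem_antidiagonal.1 hij
      have h3 : j = N := by simpa using h2
      rw [h3]
    simp [h1]
  · intro h
    exact absurd (Finset.HasAntidiagonal.mem_antidiagonal.2 (Nat.zero_add N)) h

private theorem V12b_top {k : Type} [Field k] (s : Fin 2 → k) (N : ℕ) (u : k[X]) :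
    (V12b_S s N u).coeff N = ∑ j ∈ Finset.range (N + 1), u.coeff j * s 0 ^ (N - j) * s 1 ^ j := by
  rw [V12b_sum, finsetSum_coeff, Finset.Nat.sum_antidiagonal_eq_sum_range_succ_mk]
  refine Finset.sum_congr rfl fun j hj => ?_
  have hjN : j ≤ N := Nat.lt_succ_iff.1 (Finset.mem_range.1 hj)
  rw [coeff_C_mul]
  have h1 : (((C (s 1) * X : k[X]) ^ j) * (1 + C (s 0) * X) ^ (N - j)).coeff (j * 1 + (N - j) * 1) =
      ((C (s 1) * X : k[X]) ^ j).coeff (j * 1) * ((1 + C (s 0) * X : k[X]) ^ (N - j)).coeff ((N - j) * 1) :=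
    coeff_mul_add_eq_of_natDegree_le (natDegree_pow_le_of_le j (V12b_degA s))
      (natDegree_pow_le_of_le (N - j) (V12b_degB s))
  rw [coeff_pow_of_natDegree_le (V12b_degA s), coeff_pow_of_natDegree_le (V12b_degB s)] at h1
  have h2 : j * 1 + (N - j) * 1 = N := by omega
  have h3 : (C (s 1) * X : k[X]).coeff 1 = s 1 := by
    rw [coeff_C_mul, coeff_X_one, mul_one]
  have h4 : (1 + C (s 0) * X : k[X]).coeff 1 = s 0 := by
    rw [coeff_add, coeff_C_mul, coeff_X_one, mul_one, coeff_one, if_neg one_ne_zero, zero_add]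
  rw [h2, h3, h4] at h1
  rw [h1]
  ring

private theorem V12b_dvd {k : Type} [Field k] (s : Fin 2 → k) (N M : ℕ) (u : k[X]) (h : X ^ M ∣ u) :
    X ^ M ∣ V12b_S s N u := by
  rw [X_pow_dvd_iff] at h
  rw [V12b_sum]
  refine Finset.dvd_sum fun kl _ => ?_
  by_cases hk : kl.1 < M
  · rw [h kl.1 hk, C_0, zero_mul]
    exact dvd_zero _
  · rw [mul_pow]
    have h1 : (X : k[X]) ^ M ∣ X ^ kl.1 := pow_dvd_pow _ (not_lt.1 hk)
    exact Dvd.dvd.mul_left (Dvd.dvd.mul_right (Dvd.dvd.mul_left h1 _) _) _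

private theorem V12b_ne {k : Type} [Field k] (s : Fin 2 → k) (hs : s 1 ≠ 0) (N : ℕ) (u : k[X]) (hu : u ≠ 0)
    (hN : u.natDegree ≤ N) : V12b_S s N u ≠ 0 := by
  have hμ : u.natTrailingDegree ≤ N := (natTrailingDegree_le_natDegree u).trans hN
  have h1 : (V12b_S s N u).coeff u.natTrailingDegree =
      u.coeff u.natTrailingDegree * s 1 ^ u.natTrailingDegree := by
    rw [V12b_sum, finsetSum_coeff, Finset.sum_eq_single (u.natTrailingDegree, N - u.natTrailingDegree)]
    · show (C (u.coeff u.natTrailingDegree) * ((C (s 1) * X) ^ u.natTrailingDegree *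
        (1 + C (s 0) * X) ^ (N - u.natTrailingDegree))).coeff u.natTrailingDegree = _
      rw [coeff_C_mul, mul_pow, ← C_pow, mul_assoc, coeff_C_mul, coeff_X_pow_mul', if_pos le_rfl, Nat.sub_self,
        coeff_zero_eq_eval_zero]
      simp
    · rintro ⟨i, j⟩ hij hne
      have h2 := Finset.HasAntidiagonal.mem_antidiagonal.1 hij
      simp only at h2
      show (C (u.coeff i) * ((C (s 1) * X) ^ i * (1 + C (s 0) * X) ^ j)).coeff u.natTrailingDegree = 0
      rcases lt_trichotomy i u.natTrailingDegree with h3 | h3 | h3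
      · rw [coeff_eq_zero_of_lt_natTrailingDegree h3, C_0, zero_mul, coeff_zero]
      · exfalso
        apply hne
        rw [← h3]
        have h4 : N - i = j := by omega
        rw [h4]
      · rw [coeff_C_mul, mul_pow, ← C_pow, mul_assoc, coeff_C_mul, coeff_X_pow_mul', if_neg (not_le.2 h3),
          mul_zero, mul_zero]
    · intro h
      exact absurd (Finset.HasAntidiagonal.mem_antidiagonal.2 (by simp only; omega)) h
  intro h0
  rw [h0, coeff_zero] at h1
  have h2 : u.coeff u.natTrailingDegree ≠ 0 := trailingCoeff_nonzero_iff_nonzero.2 hu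
  exact (mul_ne_zero h2 (pow_ne_zero _ hs)) h1.symm

theorem norm_gc {k : Type} [Field k] {d r : ℕ} {A : Finset (Fin d → ℤ)} {c : (Fin d → ℤ) → k}
    {v : Fin r → Fin d → ℤ} {a : Fin r → ℕ} {h : Fin r → ℤ} (hR : Rel0 A v a h) {g : ℕ}
    (hgg : (g : ℤ) = ∑ i, (a i : ℤ) * h i) {x : Fin d → k} (hx : ∀ j, x j ≠ 0)
    {p : Fin r → k[X]} (hp : ∀ i, (p i).natDegree ≤ a i) (hp0 : ∀ i, (p i).coeff 0 = 1)
    (hdvd : X ^ (∑ i, a i - 1) ∣ Phi A c v h x p) (hne : Phi A c v h x p ≠ 0) {s : Fin 2 → k}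
    (hs : s 1 ≠ 0) {y : (Fin d → ℤ) → k}
    (hy : ∀ m ∈ A, ∀ m' ∈ A, (mn x m * ∏ i, hb a p s i ^ ex v h m 1 i) * y m' =
      (mn x m' * ∏ i, hb a p s i ^ ex v h m' 1 i) * y m) :
    ∃ q : Fin r → k[X], GC A c v a h y x q := by
  have hPhi : Phi A c v h x (fun i => V12b_S s (a i) (p i)) = V12b_S s g (Phi A c v h x p) := by
    unfold Phi
    rw [V12b_add]
    refine Finset.sum_congr rfl fun m hm => ?_
    unfold cd
    rw [V12b_C, V12b_C]
    have h1 := sum_ex hR hgg (cone_one hm)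
    rw [one_mul] at h1
    rw [← h1, V12b_prod s hp]
  have htop : ∀ i, (V12b_S s (a i) (p i)).coeff (a i) = hb a p s i := fun i => V12b_top s (a i) (p i)
  have hld : ∀ m, ld v a h x (fun i => V12b_S s (a i) (p i)) m = mn x m * ∏ i, hb a p s i ^ ex v h m 1 i := by
    intro m
    unfold ld
    refine congrArg _ (Finset.prod_congr rfl fun i _ => ?_)
    rw [htop i]
  refine ⟨fun i => V12b_S s (a i) (p i), ⟨hx, fun i => V12b_deg s _ _, fun i => ?_, ?_, ?_, ?_⟩⟩
  · rw [V12b_zero, hp0]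
  · rw [hPhi]
    exact V12b_dvd s _ _ _ hdvd
  · rw [hPhi]
    exact V12b_ne s hs _ _ hne (natDegree_Phi hR hgg c x hp)
  · intro m hm m' hm'
    rw [hld, hld]
    exact hy m hm m' hm'

end Pool.Agent.Lib.MP_1e3e9c_agV
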