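import Pool.Agent.Lib.MP_1e3e9c_agV.V02
import Pool.Agent.Lib.MP_1e3e9c_agV.V03
import Pool.Agent.Lib.MP_1e3e9c_agV.V04
import Pool.Agent.Lib.MP_1e3e9c_agV.V06
import Pool.Agent.Lib.MP_1e3e9c_agV.V12b
import Pool.Agent.Lib.MP_1e3e9c_agR.X0

/-! LEAF V13 (medium+).  Through every point of the torus on the hypersurface, outside a small set, there is a contact curve whose end point is one of finitely many.

PROOF.  `N = ∑ a_i ≥ 2` (`two_le`), `g ≤ N` (`exists_g`; `A` is not empty: `Full`, `r > 0`, `v 0 ≠ 0`), `g > 0` (`g_pos`).  `two_points` (B8 of agR) for `S = SV e w`, `G = GV A c o` (weighted homogeneous of weight `1`: `hg.one`), `g := 1`, `D := g`; `hX`: `rat_of` (V02) and `hno`.  It gives `Y₀`, and `E` is the set of its statement.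
`Y` = the filter `∃ m ∈ A, y m ≠ 0` of `insert (fun _ => 1) (Y₀.image (fun y' m => y' (o m)))`.  Let `x` be given.  `exists_contact` (V04), `M = N - 2`: `p`.  `Phi = 0`: `of_phi_zero` (V06), against `hno`.  `Phi ≠ 0`: `deg Phi ≤ g ≤ N` and `X^(N-1) ∣ Phi`: either `g = N`, `Phi = X^(N-1) (α + β X)`, or `g = N - 1`, `Phi = X^(N-2) (0 + α X)`:
`two_c` (V03) gives `TwoC .. 1 g (mn x (e j)) P`, `P j = cd v h x p (e j) (w j)`.  The point `(mn x (e j))` is not `0` (`mn_ne`) and `GV` vanishes at it.  So it is in `E` or there is `y' ∈ Y₀` with `OnC w P y'`.  BASE POINT: if `hv w g P s = 0` for some `s ≠ 0` then `s 1 ≠ 0` (if `s 1 = 0` then `hv_cd` and `hb a p s i = s_0^(a_i)` (`(p_i)_0 = 1`), not `0`), and `norm_gc` (V12b) with `y = 1`: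
`mn x m ∏ hb^(..)` is the entry `o m` of `hv`, so `0` (`hv_cd`, `hg.one`).  Otherwise `on_curve` (X0 of agR): `hv w g P s j = y' j` for some `s`.  `s 1 ≠ 0`: otherwise `y' j = s_0^(w_j g) mn x (e j)` and `GV(y') = s_0^g GV(..) = 0`, but `GV(y') ≠ 0`.  `norm_gc` with `y m = y' (o m)` (`hv_cd`: `mn x m ∏ hb^(..) = y' (o m)`, so `hy` is `y m * y m' = y m' * y m`);
`y ∈ Y`: `GV(y') = ∑ c_m y'(o m) ≠ 0`, so some `y'(o m) ≠ 0`. -/

set_option autoImplicit false

namespace Pool.Agent.Lib.MP_1e3e9c_agV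

open Polynomial Pool.Agent.Lib.MP_1e3e9c_agR

private theorem V13_hom {k : Type} [Field k] {d n : ℕ} {A : Finset (Fin d → ℤ)}
    {c : (Fin d → ℤ) → k} {e : Fin (n + 1) → Fin d → ℤ} {w : Fin (n + 1) → ℕ}
    {o : (Fin d → ℤ) → Fin (n + 1)} (hg : Gens A e w o) :
    (GV A c o).IsWeightedHomogeneous w 1 := by
  rw [← MvPolynomial.mem_weightedHomogeneousSubmodule]
  unfold GV
  refine Submodule.sum_mem _ fun m hm => ?_
  rw [MvPolynomial.mem_weightedHomogeneousSubmodule]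
  have h1 := (MvPolynomial.isWeightedHomogeneous_C w (c m)).mul
    (MvPolynomial.isWeightedHomogeneous_X k w (o m))
  rw [(hg.one m hm).2, zero_add] at h1
  exact h1

private theorem V13_eval {k : Type} [Field k] {d n : ℕ} {A : Finset (Fin d → ℤ)}
    {c : (Fin d → ℤ) → k} {o : (Fin d → ℤ) → Fin (n + 1)} (y : Fin (n + 1) → k) :
    MvPolynomial.eval y (GV A c o) = ∑ m ∈ A, c m * y (o m) := by
  unfold GV
  rw [map_sum]
  refine Finset.sum_congr rfl fun m _ => ?_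
  rw [map_mul, MvPolynomial.eval_C, MvPolynomial.eval_X]

private theorem V13_hb {k : Type} [Field k] {r : ℕ} {a : Fin r → ℕ} {p : Fin r → k[X]}
    (hp0 : ∀ i, (p i).coeff 0 = 1) {s : Fin 2 → k} (hs : s 1 = 0) (i : Fin r) :
    hb a p s i = s 0 ^ a i := by
  unfold hb
  rw [Finset.sum_eq_single 0]
  · rw [hp0, Nat.sub_zero, pow_zero, mul_one, one_mul]
  · intro j _ hj
    rw [hs, zero_pow hj, mul_zero]
  · intro h
    exact absurd (Finset.mem_range.2 (Nat.succ_pos _)) h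

private theorem V13_form {k : Type} [Field k] {N g : ℕ} (hN : 2 ≤ N) (hgN : g ≤ N) {F : k[X]}
    (hF : F ≠ 0) (hd : X ^ (N - 1) ∣ F) (hdeg : F.natDegree ≤ g) :
    ∃ (i j : ℕ) (α β : k), i + j = g ∧ F = X ^ i * (C α + C β * X) ^ j := by
  obtain ⟨q, rfl⟩ := hd
  have hq : q ≠ 0 := fun h => hF (by rw [h, mul_zero])
  have h1 : (X ^ (N - 1) * q).natDegree = (N - 1) + q.natDegree := by
    rw [natDegree_mul (pow_ne_zero _ X_ne_zero) hq, natDegree_X_pow]
  rw [h1] at hdeg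
  rcases Nat.lt_or_ge g N with h2 | h2
  · have h3 : q.natDegree = 0 := by omega
    obtain ⟨b, hb⟩ := natDegree_eq_zero.1 h3
    refine ⟨N - 2, 1, 0, b, by omega, ?_⟩
    rw [← hb, show N - 1 = (N - 2) + 1 by omega, pow_succ, C_0, zero_add, pow_one]
    ring
  · have h3 : q.natDegree ≤ 1 := by omega
    refine ⟨N - 1, 1, q.coeff 0, q.coeff 1, by omega, ?_⟩
    rw [pow_one]
    congr 1
    have h4 := eq_X_add_C_of_natDegree_le_one h3
    conv_lhs => rw [h4]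
    ring

theorem kpoint {k : Type} [Field k] [IsAlgClosed k] [CharZero k] {d r n : ℕ}
    {A : Finset (Fin d → ℤ)} {c : (Fin d → ℤ) → k} {v : Fin r → Fin d → ℤ} {a : Fin r → ℕ}
    {h : Fin r → ℤ} {e : Fin (n + 1) → Fin d → ℤ} {w : Fin (n + 1) → ℕ}
    {o : (Fin d → ℤ) → Fin (n + 1)} (hA : Full A) (hR : Rel A v a h) (hM : Mini v a) (hr : 0 < r)
    (hg : Gens A e w o) (hno : ¬ ∃ z, IsCurve A c z) :
    ∃ (Y : Finset ((Fin d → ℤ) → k)) (E : Set (Fin (n + 1) → k)),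
      (∀ y ∈ Y, ∃ m ∈ A, y m ≠ 0) ∧ wdm w E ≤ (3 : ℕ) ∧
      ∀ x : Fin d → k, (∀ j, x j ≠ 0) → ∑ m ∈ A, c m * mn x m = 0 →
        (fun j => mn x (e j)) ∈ E ∨ ∃ y ∈ Y, ∃ q : Fin r → k[X], GC A c v a h y x q := by
  classical
  have hR0 : Rel0 A v a h := hR.toRel0
  obtain ⟨m₀, hm₀, -⟩ := hR.two ⟨0, hr⟩
  obtain ⟨g, hgg, hgN⟩ := exists_g hR ⟨m₀, hm₀⟩
  have hg0 : 0 < g := g_pos hR hA hr hgg
  have hN2 : 2 ≤ ∑ i, a i := two_le hR hr
  obtain ⟨Y₀, hY₀, hE⟩ := two_points hg.pos one_pos (S := SV e w) (fun P hP => hP.1)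
    (V13_hom (c := c) hg) (fun hrat => hno (rat_of hg hrat)) g
  refine ⟨(insert (fun _ => (1 : k)) (Y₀.image fun y' m => y' (o m))).filter
    fun y => ∃ m ∈ A, y m ≠ 0, _, fun y hy => (Finset.mem_filter.1 hy).2, hE, fun x hx hF => ?_⟩
  obtain ⟨p, hp, hp0, hdvd, hnt⟩ := exists_contact hR0.pos (v := v) (h := h)
    (M := ∑ i, a i - 2) (by omega) hF
  have hdvd' : X ^ (∑ i, a i - 1) ∣ Phi A c v h x p := by
    have e1 : ∑ i, a i - 2 + 1 = ∑ i, a i - 1 := by omega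
    rwa [e1] at hdvd
  have hne : Phi A c v h x p ≠ 0 := fun h0 => hno (of_phi_zero hA hR0 hM hx hp hp0 h0 hnt)
  obtain ⟨i, j, α, β, hij, hPhi⟩ := V13_form hN2 hgN hne hdvd'
    (natDegree_Phi hR0 hgg c x hp)
  have hC := two_c hR0 hg hgg hx hp hp0 hne hij hPhi
  obtain ⟨P, hPdef⟩ : ∃ P : Fin (n + 1) → k[X], P = fun j => cd v h x p (e j) (w j) := ⟨_, rfl⟩
  rw [← hPdef] at hC
  have hv0 : (fun j => mn x (e j)) ≠ (0 : Fin (n + 1) → k) := fun h0 =>
    mn_ne hx (e (o m₀)) (congrFun h0 (o m₀))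
  have hv1 : MvPolynomial.eval (fun j => mn x (e j)) (GV A c o) = 0 := by
    rw [V13_eval, ← hF]
    refine Finset.sum_congr rfl fun m hm => ?_
    rw [(hg.one m hm).1]
  rw [or_iff_not_imp_left]
  intro hnE
  obtain ⟨y', hy', hon⟩ : ∃ y ∈ Y₀, OnC w P y := by
    by_contra hcon
    push Not at hcon
    exact hnE ⟨hv0, hv1, g, le_rfl, P, hC, hcon⟩
  have hcdm : ∀ (s : Fin 2 → k), ∀ m ∈ A, hv w g P s (o m) =
      mn x m * ∏ i, hb a p s i ^ ex v h m 1 i := by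
    intro s m hm
    rw [hPdef, hv_cd hR0 hg hgg x hp s (o m), (hg.one m hm).1, (hg.one m hm).2]
  by_cases hbase : ∃ s : Fin 2 → k, s ≠ 0 ∧ ∀ i, hv w g P s i = 0
  · obtain ⟨s, hs, hs0⟩ := hbase
    have hs1 : s 1 ≠ 0 := by
      intro h1
      have h2 : s 0 ≠ 0 := by
        intro h0
        apply hs
        funext l
        fin_cases l
        · exact h0
        · exact h1
      have h3 := hcdm s m₀ hm₀
      rw [hs0] at h3
      exact mul_ne_zero (mn_ne hx m₀) (Finset.prod_ne_zero_iff.2 fun i _ =>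
        pow_ne_zero _ (by rw [V13_hb hp0 h1]; exact pow_ne_zero _ h2)) h3.symm
    refine ⟨fun _ => 1, ?_, ?_⟩
    · rw [Finset.mem_filter]
      exact ⟨Finset.mem_insert_self _ _, m₀, hm₀, one_ne_zero⟩
    · refine norm_gc hR0 hgg hx hp hp0 hdvd' hne hs1 fun m hm m' hm' => ?_
      rw [← hcdm s m hm, ← hcdm s m' hm', hs0, hs0]
  · have hfree : ∀ s : Fin 2 → k, s ≠ 0 → ∃ i, hv w g P s i ≠ 0 := by
      intro s hs
      by_contra hcon
      push Not at hcon
      exact hbase ⟨s, hs, hcon⟩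
    obtain ⟨s, hs⟩ := on_curve hg.pos hg0 hC.deg hfree hon
    have hs1 : s 1 ≠ 0 := by
      intro h1
      apply (hY₀ y' hy').2
      rw [V13_eval]
      have h2 : ∀ m ∈ A, c m * y' (o m) = s 0 ^ g * (c m * mn x m) := by
        intro m hm
        rw [← hs, hcdm s m hm]
        have h3 : ∏ i, hb a p s i ^ ex v h m 1 i = s 0 ^ g := by
          have h4 : ∀ i, hb a p s i ^ ex v h m 1 i = s 0 ^ (a i * ex v h m 1 i) := fun i => by
            rw [V13_hb hp0 h1, pow_mul]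
          rw [Finset.prod_congr rfl fun i _ => h4 i, Finset.prod_pow_eq_pow_sum,
            sum_ex hR0 hgg (cone_one hm), one_mul]
        rw [h3]
        ring
      rw [Finset.sum_congr rfl h2, ← Finset.mul_sum, hF, mul_zero]
    refine ⟨fun m => y' (o m), ?_, ?_⟩
    · rw [Finset.mem_filter]
      refine ⟨Finset.mem_insert_of_mem (Finset.mem_image_of_mem (fun y' m => y' (o m)) hy'), ?_⟩
      by_contra hcon
      push Not at hcon
      apply (hY₀ y' hy').2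
      rw [V13_eval]
      refine Finset.sum_eq_zero fun m hm => ?_
      rw [hcon m hm, mul_zero]
    · refine norm_gc hR0 hgg hx hp hp0 hdvd' hne hs1 fun m hm m' hm' => ?_
      rw [← hcdm s m hm, ← hcdm s m' hm', hs, hs]
      exact mul_comm _ _

end Pool.Agent.Lib.MP_1e3e9c_agV
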