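import Pool.Agent.Lib.MP_1e3e9c_agV.V03a

/-! LEAF V14 (easy+).  The equation is a monomial: a curve in the boundary.

PROOF.  (1) There is `i` with `0 < pr m0 (v i) + h i`: otherwise all these numbers are `0` (`hR.ge`), so `∑ a_i h_i = - ∑ a_i pr m0 (v i) = 0` (`hR.rel`), against `g_pos` (`exists_g hR ⟨m0, hm0⟩`).  (2) `hR.two i`: `m ≠ m'` in `A` with `pr m (v i) + h i = 0 = pr m' (v i) + h i`; `u = m - m'`: `pr m u - pr m' u = ∑_j (m_j - m'_j)^2 > 0`.
(3) (classical) `z q l = if InCone A q l ∧ pr q (v i) + l * h i = 0 then RatFunc.X ^ (pr q u) else 0` (`zpow`).  `one`: `InCone A 0 0` (`N = 1`, `b = 0`).  `mul`: `cone_add`; the numbers `pr q (v i) + l h_i` are `≥ 0` (`cone_nonneg`) and additive, so the one of the sum is `0` iff both are; `zpow_add₀`.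
`eq`: all terms with `a ≠ m0` are `0` by `hc`, and `z m0 1 = 0` by (1).  `nonconst`: `m`, `m'`, `1` (`cone_one`): `z m' 1 ≠ 0`; `X^(pr m u) = C b X^(pr m' u)` would give `X^n = C b` in `RatFunc k` for `n = (pr m u - pr m' u).toNat > 0`; compare `RatFunc.intDegree` (`intDegree_C`, `intDegree_X`), or the polynomials `X^n = C b`. -/

set_option autoImplicit false

namespace Pool.Agent.Lib.MP_1e3e9c_agV

private theorem V14_cone0 {d : ℕ} (A : Finset (Fin d → ℤ)) : InCone A 0 0 :=
  ⟨1, 0, one_pos, by simp, by simp⟩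

private theorem V14_pr_add {d : ℕ} (m m' u : Fin d → ℤ) : pr (m + m') u = pr m u + pr m' u := by
  simp [pr, add_mul, Finset.sum_add_distrib]

theorem of_single {k : Type} [Field k] {d r : ℕ} {A : Finset (Fin d → ℤ)} {c : (Fin d → ℤ) → k}
    {v : Fin r → Fin d → ℤ} {a : Fin r → ℕ} {h : Fin r → ℤ} (hA : Full A) (hR : Rel A v a h)
    (hr : 0 < r) {m0 : Fin d → ℤ} (hm0 : m0 ∈ A) (hc : ∀ m ∈ A, m ≠ m0 → c m = 0) :
    ∃ z, IsCurve A c z := by
  classical
  have h1 : ∃ i, 0 < pr m0 (v i) + h i := by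
    by_contra hcon
    push Not at hcon
    obtain ⟨g, hg, -⟩ := exists_g hR ⟨m0, hm0⟩
    have hpos := g_pos hR hA hr hg
    have he : ∀ i, h i = - pr m0 (v i) := fun i => by
      have := hcon i
      have := hR.ge m0 hm0 i
      omega
    have hs : ∑ i, (a i : ℤ) * h i = 0 := by
      have : ∑ i, (a i : ℤ) * h i = - ∑ j, m0 j * ∑ i, (a i : ℤ) * v i j := by
        simp only [he, pr, Finset.mul_sum, mul_neg, Finset.sum_neg_distrib]
        rw [Finset.sum_comm]
        congr 1
        refine Finset.sum_congr rfl fun j _ => Finset.sum_congr rfl fun i _ => by ring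
      rw [this]
      simp [hR.rel]
    omega
  obtain ⟨i, hi⟩ := h1
  obtain ⟨m, hm, m', hm', hne, h0, h0'⟩ := hR.two i
  have hn : 0 < pr (m - m') (m - m') := by
    have hx : ∃ j, (m - m') j ≠ 0 := by
      by_contra hcon
      push Not at hcon
      exact hne (sub_eq_zero.mp (funext hcon))
    obtain ⟨j, hj⟩ := hx
    refine Finset.sum_pos' (fun j _ => mul_self_nonneg _) ⟨j, Finset.mem_univ _, ?_⟩
    exact mul_self_pos.mpr hj
  set u := m - m' with hu
  have hX : (RatFunc.X : RatFunc k) ≠ 0 := RatFunc.X_ne_zero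
  refine ⟨fun q l => if InCone A q l ∧ pr q (v i) + l * h i = 0 then RatFunc.X ^ (pr q u) else 0,
    ⟨?_, ?_, ?_, ?_⟩⟩
  · have : InCone A (0 : Fin d → ℤ) 0 ∧ pr (0 : Fin d → ℤ) (v i) + ((0 : ℕ) : ℤ) * h i = 0 :=
      ⟨V14_cone0 A, by simp [pr]⟩
    simp only [this, and_self, if_true]
    simp [pr]
  · intro q l q' l' hq hq'
    have c1 := cone_nonneg hR.toRel0 hq i
    have c2 := cone_nonneg hR.toRel0 hq' i
    have hadd : pr (q + q') (v i) + ((l + l' : ℕ) : ℤ) * h i =
        (pr q (v i) + l * h i) + (pr q' (v i) + l' * h i) := by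
      rw [V14_pr_add]; push_cast; ring
    by_cases e1 : pr q (v i) + l * h i = 0
    · by_cases e2 : pr q' (v i) + l' * h i = 0
      · rw [if_pos ⟨cone_add hq hq', by rw [hadd, e1, e2, add_zero]⟩, if_pos ⟨hq, e1⟩,
          if_pos ⟨hq', e2⟩, V14_pr_add, zpow_add₀ hX]
      · rw [if_neg (fun hh => e2 (by have := hh.2; omega)), if_neg (c := InCone A q' l' ∧ _)
          (fun hh => e2 hh.2), mul_zero]
    · rw [if_neg (fun hh => e1 (by have := hh.2; omega)), if_neg (c := InCone A q l ∧ _)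
          (fun hh => e1 hh.2), zero_mul]
  · refine Finset.sum_eq_zero fun q hq => ?_
    by_cases hqm : q = m0
    · subst hqm
      have : ¬ (InCone A q 1 ∧ pr q (v i) + ((1 : ℕ) : ℤ) * h i = 0) := fun hh => by
        have := hh.2
        push_cast at this
        omega
      rw [if_neg this, mul_zero]
    · rw [hc q hq hqm]; simp
  · refine ⟨m, m', 1, cone_one hm, cone_one hm', ?_, ?_⟩
    · rw [if_pos ⟨cone_one hm', by push_cast; omega⟩]
      exact zpow_ne_zero _ hX
    · intro b hb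
      rw [if_pos ⟨cone_one hm, by push_cast; omega⟩, if_pos ⟨cone_one hm', by push_cast; omega⟩] at hb
      have hpr : pr m u = pr m' u + pr u u := by
        rw [← V14_pr_add]; congr 1; rw [hu]; abel
      rw [hpr, zpow_add₀ hX, mul_comm] at hb
      have hb2 := mul_right_cancel₀ (zpow_ne_zero _ hX) hb
      obtain ⟨n, hn2⟩ := Int.eq_ofNat_of_zero_le hn.le
      rw [hn2] at hb2 hn
      have hb3 : (RatFunc.X : RatFunc k) ^ n = RatFunc.C b := by
        rw [← hb2]; simp
      have hb4 : algebraMap (Polynomial k) (RatFunc k) (Polynomial.X ^ n) =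
          algebraMap (Polynomial k) (RatFunc k) (Polynomial.C b) := by
        rw [map_pow, RatFunc.algebraMap_X, RatFunc.algebraMap_C]; exact hb3
      have hb5 := RatFunc.algebraMap_injective k hb4
      have hd := congrArg Polynomial.natDegree hb5
      rw [Polynomial.natDegree_X_pow, Polynomial.natDegree_C] at hd
      omega

end Pool.Agent.Lib.MP_1e3e9c_agV
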