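import Pool.Agent.Lib.MP_1e3e9c_agV.VDefs

/-! LEAF V03a (easy+).  The coordinates of the curve: ten small lemmas.

PROOF.  `cone_nonneg`: `N (pr m (v i) + l h_i) = ∑ b_a (pr a (v i) + h_i) ≥ 0`.  `cone_one`: `N = 1`, `b` = `1` at `a`.  `cone_add`: `N N'`, `N' b + N b'`.  `ex_add`: both numbers are `≥ 0` (`Int.toNat_add`).  `mn_add`: `zpow_add₀`.  `sum_ex`: for `m ∈ A`: `∑ a_i (pr m (v i) + h_i) = ∑ a_i h_i` as `∑ a_i pr m (v i) = ∑_j m_j ∑_i a_i v_ij = 0`;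
in general `∑ a_i ex (m, l) = l g`.  `exists_g`: `∑ a_i h_i = ∑ a_i (pr m (v i) + h_i) ≥ 0` for any `m ∈ A`.  `two_le`: otherwise `r = 1`, `a_0 = 1` and `v_0 = 0`.  `g_pos`: if `g = 0` then all `pr m (v i) + h_i = 0` for `m ∈ A` (a sum of numbers `≥ 0`, `a_i > 0`), so `pr m (v i)` is constant on `A`, against `Full` and `v i ≠ 0` (`0 < r`).
`natDegree_cd`: the degree is `≤ ∑ a_i ex (m, l) i = l g`.  `natDegree_Phi`: the sum of such terms with `l = 1`.  `coeff_cd`: the value at `0`.  `aeval_GV`: `e (o m) = m`, `w (o m) = 1` for `m ∈ A`. -/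

set_option autoImplicit false

namespace Pool.Agent.Lib.MP_1e3e9c_agV

open Polynomial

variable {d r n : ℕ} {A : Finset (Fin d → ℤ)} {v : Fin r → Fin d → ℤ} {a : Fin r → ℕ}
  {h : Fin r → ℤ}

private theorem V03a_pr {m : Fin d → ℤ} {N : ℕ} {b : (Fin d → ℤ) → ℕ}
    (hm : ∀ j, ∑ a ∈ A, (b a : ℤ) * a j = N * m j) (u : Fin d → ℤ) :
    (N : ℤ) * pr m u = ∑ a ∈ A, (b a : ℤ) * pr a u := by
  unfold pr
  simp_rw [Finset.mul_sum]
  rw [Finset.sum_comm]
  refine Finset.sum_congr rfl fun j _ => ?_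
  rw [← mul_assoc, ← hm j, Finset.sum_mul]
  exact Finset.sum_congr rfl fun a _ => by ring

private theorem V03a_key {m : Fin d → ℤ} {l N : ℕ} {b : (Fin d → ℤ) → ℕ} (hl : ∑ a ∈ A, b a = N * l)
    (hm : ∀ j, ∑ a ∈ A, (b a : ℤ) * a j = N * m j) (u : Fin d → ℤ) (t : ℤ) :
    (N : ℤ) * (pr m u + l * t) = ∑ a ∈ A, (b a : ℤ) * (pr a u + t) := by
  have h1 := V03a_pr hm u
  have h2 : (N : ℤ) * l = ∑ a ∈ A, (b a : ℤ) := by
    rw [← Nat.cast_mul, ← hl]
    push_cast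
    rfl
  rw [mul_add, h1, ← mul_assoc, h2, Finset.sum_mul, ← Finset.sum_add_distrib]
  exact Finset.sum_congr rfl fun a _ => by ring

private theorem V03a_rel (hR : Rel0 A v a h) (m : Fin d → ℤ) : ∑ i, (a i : ℤ) * pr m (v i) = 0 := by
  unfold pr
  simp_rw [Finset.mul_sum]
  rw [Finset.sum_comm]
  refine Finset.sum_eq_zero fun j _ => ?_
  have h1 : ∑ i, (a i : ℤ) * (m j * v i j) = m j * ∑ i, (a i : ℤ) * v i j := by
    rw [Finset.mul_sum]
    exact Finset.sum_congr rfl fun i _ => by ring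
  rw [h1, hR.rel j, mul_zero]

private theorem V03a_sum (hR : Rel0 A v a h) (m : Fin d → ℤ) (l : ℕ) :
    ∑ i, (a i : ℤ) * (pr m (v i) + l * h i) = l * ∑ i, (a i : ℤ) * h i := by
  have h1 : ∑ i, (a i : ℤ) * (pr m (v i) + l * h i) =
      ∑ i, (a i : ℤ) * pr m (v i) + l * ∑ i, (a i : ℤ) * h i := by
    rw [Finset.mul_sum, ← Finset.sum_add_distrib]
    exact Finset.sum_congr rfl fun i _ => by ring
  rw [h1, V03a_rel hR m, zero_add]

theorem cone_nonneg (hR : Rel0 A v a h) {m : Fin d → ℤ} {l : ℕ} (hm : InCone A m l) (i : Fin r) :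
    0 ≤ pr m (v i) + l * h i := by
  obtain ⟨N, b, hN, hl, hm⟩ := hm
  have h1 := V03a_key hl hm (v i) (h i)
  have h2 : 0 ≤ ∑ a ∈ A, (b a : ℤ) * (pr a (v i) + h i) :=
    Finset.sum_nonneg fun a ha => mul_nonneg (Int.natCast_nonneg _) (hR.ge a ha i)
  rw [← h1] at h2
  have hN' : (0 : ℤ) < N := by exact_mod_cast hN
  exact nonneg_of_mul_nonneg_right h2 hN'

theorem cone_one {m : Fin d → ℤ} (hm : m ∈ A) : InCone A m 1 := by
  classical
  refine ⟨1, fun a => if a = m then 1 else 0, one_pos, ?_, fun j => ?_⟩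
  · simp [hm]
  · simp [hm]

theorem cone_add {m m' : Fin d → ℤ} {l l' : ℕ} (hm : InCone A m l) (hm' : InCone A m' l') :
    InCone A (m + m') (l + l') := by
  obtain ⟨N, b, hN, hl, hj⟩ := hm
  obtain ⟨N', b', hN', hl', hj'⟩ := hm'
  refine ⟨N * N', fun a => N' * b a + N * b' a, Nat.mul_pos hN hN', ?_, fun j => ?_⟩
  · rw [Finset.sum_add_distrib, ← Finset.mul_sum, ← Finset.mul_sum, hl, hl']
    ring
  · have h1 : ∑ a ∈ A, ((N' * b a + N * b' a : ℕ) : ℤ) * a j =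
        N' * ∑ a ∈ A, (b a : ℤ) * a j + N * ∑ a ∈ A, (b' a : ℤ) * a j := by
      rw [Finset.mul_sum, Finset.mul_sum, ← Finset.sum_add_distrib]
      refine Finset.sum_congr rfl fun a _ => ?_
      push_cast
      ring
    rw [h1, hj, hj', Pi.add_apply]
    push_cast
    ring

theorem ex_add (hR : Rel0 A v a h) {m m' : Fin d → ℤ} {l l' : ℕ} (hm : InCone A m l)
    (hm' : InCone A m' l') (i : Fin r) : ex v h (m + m') (l + l') i = ex v h m l i + ex v h m' l' i := by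
  unfold ex
  rw [← Int.toNat_add (cone_nonneg hR hm i) (cone_nonneg hR hm' i)]
  congr 1
  have h1 : pr (m + m') (v i) = pr m (v i) + pr m' (v i) := by
    unfold pr
    rw [← Finset.sum_add_distrib]
    exact Finset.sum_congr rfl fun j _ => by rw [Pi.add_apply]; ring
  rw [h1]
  push_cast
  ring

theorem mn_add {K : Type} [Field K] {x : Fin d → K} (hx : ∀ j, x j ≠ 0) (m m' : Fin d → ℤ) :
    mn x (m + m') = mn x m * mn x m' := by
  unfold mn
  rw [← Finset.prod_mul_distrib]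
  exact Finset.prod_congr rfl fun j _ => by rw [Pi.add_apply, zpow_add₀ (hx j)]

theorem mn_ne {K : Type} [Field K] {x : Fin d → K} (hx : ∀ j, x j ≠ 0) (m : Fin d → ℤ) :
    mn x m ≠ 0 := by
  unfold mn
  exact Finset.prod_ne_zero_iff.mpr fun j _ => zpow_ne_zero _ (hx j)

theorem exists_g (hR : Rel A v a h) (hA : A.Nonempty) :
    ∃ g : ℕ, (g : ℤ) = ∑ i, (a i : ℤ) * h i ∧ g ≤ ∑ i, a i := by
  obtain ⟨m, hm⟩ := hA
  have h1 := V03a_sum hR.toRel0 m 1
  have h2 : 0 ≤ ∑ i, (a i : ℤ) * (pr m (v i) + (1 : ℕ) * h i) := by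
    refine Finset.sum_nonneg fun i _ => mul_nonneg (Int.natCast_nonneg _) ?_
    have := hR.ge m hm i
    simpa using this
  rw [h1] at h2
  have h3 : 0 ≤ ∑ i, (a i : ℤ) * h i := by simpa using h2
  refine ⟨(∑ i, (a i : ℤ) * h i).toNat, Int.toNat_of_nonneg h3, ?_⟩
  have h4 := hR.le
  have h5 : ((∑ i, a i : ℕ) : ℤ) = ∑ i, (a i : ℤ) := by push_cast; rfl
  rw [← h5] at h4
  exact Int.toNat_le.mpr h4

theorem sum_ex (hR : Rel0 A v a h) {g : ℕ} (hg : (g : ℤ) = ∑ i, (a i : ℤ) * h i)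
    {m : Fin d → ℤ} {l : ℕ} (hm : InCone A m l) : ∑ i, a i * ex v h m l i = l * g := by
  have h1 := V03a_sum hR m l
  rw [← hg] at h1
  have h2 : ((∑ i, a i * ex v h m l i : ℕ) : ℤ) = ∑ i, (a i : ℤ) * (pr m (v i) + l * h i) := by
    push_cast
    refine Finset.sum_congr rfl fun i _ => ?_
    unfold ex
    rw [Int.toNat_of_nonneg (cone_nonneg hR hm i)]
  rw [h1] at h2
  exact_mod_cast h2

/-- `∑ a_i ≥ 2`. -/
theorem two_le (hR : Rel A v a h) (hr : 0 < r) : 2 ≤ ∑ i, a i := by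
  by_contra hcon
  have h1 : ∑ i, a i ≤ 1 := by omega
  have h2 : r ≤ 1 := by
    have h3 : ∑ _i : Fin r, 1 ≤ ∑ i, a i := Finset.sum_le_sum fun i _ => hR.pos i
    simp at h3
    omega
  have h4 : r = 1 := by omega
  subst h4
  have h5 : a 0 = 1 := by
    have h6 := hR.pos 0
    rw [Fin.sum_univ_one] at h1
    omega
  apply hR.ne 0
  funext j
  have h7 := hR.rel j
  rw [Fin.sum_univ_one, h5] at h7
  simpa using h7

theorem g_pos (hR : Rel A v a h) (hA : Full A) (hr : 0 < r) {g : ℕ}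
    (hg : (g : ℤ) = ∑ i, (a i : ℤ) * h i) : 0 < g := by
  by_contra hcon
  have hg0 : g = 0 := by omega
  subst hg0
  have key : ∀ m ∈ A, ∀ i, pr m (v i) + h i = 0 := by
    intro m hm i
    have h1 := V03a_sum hR.toRel0 m 1
    rw [← hg] at h1
    have h2 : ∀ i ∈ Finset.univ, 0 ≤ (a i : ℤ) * (pr m (v i) + (1 : ℕ) * h i) := by
      intro i _
      refine mul_nonneg (Int.natCast_nonneg _) ?_
      have := hR.ge m hm i
      simpa using this
    have h3 : ∑ i, (a i : ℤ) * (pr m (v i) + (1 : ℕ) * h i) = 0 := by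
      rw [h1]
      simp
    have h4 := (Finset.sum_eq_zero_iff_of_nonneg h2).mp h3 i (Finset.mem_univ i)
    have h5 : (a i : ℤ) ≠ 0 := by
      have := hR.pos i
      exact_mod_cast this.ne'
    have h6 := (mul_eq_zero.mp h4).resolve_left h5
    simpa using h6
  obtain ⟨m, hm, m', hm', hne⟩ := hA (v ⟨0, hr⟩) (hR.ne ⟨0, hr⟩)
  apply hne
  have h1 := key m hm ⟨0, hr⟩
  have h2 := key m' hm' ⟨0, hr⟩
  linarith

theorem natDegree_cd {K : Type} [Field K] (hR : Rel0 A v a h) {g : ℕ}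
    (hg : (g : ℤ) = ∑ i, (a i : ℤ) * h i) (x : Fin d → K) {p : Fin r → K[X]}
    (hp : ∀ i, (p i).natDegree ≤ a i) {m : Fin d → ℤ} {l : ℕ} (hm : InCone A m l) :
    (cd v h x p m l).natDegree ≤ l * g := by
  unfold cd
  refine (natDegree_C_mul_le _ _).trans ?_
  refine (natDegree_prod_le _ _).trans ?_
  rw [← sum_ex hR hg hm]
  refine Finset.sum_le_sum fun i _ => ?_
  refine natDegree_pow_le.trans ?_
  rw [mul_comm]
  exact Nat.mul_le_mul_right _ (hp i)

theorem natDegree_Phi {k K : Type} [Field k] [Field K] [Algebra k K] (hR : Rel0 A v a h) {g : ℕ}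
    (hg : (g : ℤ) = ∑ i, (a i : ℤ) * h i) (c : (Fin d → ℤ) → k) (x : Fin d → K) {p : Fin r → K[X]}
    (hp : ∀ i, (p i).natDegree ≤ a i) : (Phi A c v h x p).natDegree ≤ g := by
  unfold Phi
  refine natDegree_sum_le_of_forall_le _ _ fun m hm => ?_
  refine (natDegree_C_mul_le _ _).trans ?_
  have h1 := natDegree_cd hR hg x hp (cone_one hm)
  rwa [one_mul] at h1

theorem coeff_cd {K : Type} [Field K] (x : Fin d → K) {p : Fin r → K[X]}
    (hp0 : ∀ i, (p i).coeff 0 = 1) (m : Fin d → ℤ) (l : ℕ) : (cd v h x p m l).coeff 0 = mn x m := by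
  unfold cd
  rw [coeff_zero_eq_eval_zero, eval_mul, eval_C, eval_prod, Finset.prod_eq_one, mul_one]
  intro i _
  rw [eval_pow, ← coeff_zero_eq_eval_zero, hp0 i, one_pow]

theorem aeval_GV {k : Type} [Field k] {e : Fin (n + 1) → Fin d → ℤ} {w : Fin (n + 1) → ℕ}
    {o : (Fin d → ℤ) → Fin (n + 1)} (hg : Gens A e w o) (c : (Fin d → ℤ) → k) (x : Fin d → k)
    (p : Fin r → k[X]) :
    MvPolynomial.aeval (fun j => cd v h x p (e j) (w j)) (GV A c o) = Phi A c v h x p := by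
  unfold GV Phi
  rw [map_sum]
  refine Finset.sum_congr rfl fun m hm => ?_
  rw [map_mul, MvPolynomial.aeval_X, MvPolynomial.aeval_C, (hg.one m hm).1, (hg.one m hm).2]
  rfl

end Pool.Agent.Lib.MP_1e3e9c_agV
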