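import Pool.Agent.Lib.MP_1e3e9c_agV.VDef2
import Pool.Agent.Lib.MP_1e3e9c_agV.V03a

/-! LEAF V15c (easy+).  Values of a polynomial and of the equation at a point of the torus; a curve in the torus.

PROOF.  `aeval_sp`: `MvPolynomial.aeval_def`, `eval₂_eq'`; `Finset.sum_image` (the map `m ↦ (j ↦ (m j : ℤ))` is injective), `cp P (↑m) = P.coeff m`, `mn y ↑m = ∏ y_j^(m_j)` (`zpow_natCast`).  `rel_sp`: `pr ↑m u = wt u m`.  `aeval_FP`: `y_j^((m_j + s_j).toNat) = y_j^(m_j + s_j) = y_j^(m_j) y_j^(s_j)` (`hs`, `y_j ≠ 0`).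
`phi_eq`: in `RatFunc k` write `P_i` for the image of `p_i`, `P_i ≠ 0`; `y_j = C (x_j) ∏_i P_i^(v_ij)`; for `m ∈ A`: `mn y m = C (mn x m) ∏_i P_i^(pr m (v i))`, and `P_i^(ex m 1 i) = P_i^(pr m (v i)) P_i^(h_i)` (`hR.ge`; `algebraMap k k = id`, `RatFunc.algebraMap_C`).
`of_torus`: `z m l = mn y m`; `mn_add`; `cone_one` for `nonconst`, `mn_ne`. -/

set_option autoImplicit false

namespace Pool.Agent.Lib.MP_1e3e9c_agV

open Polynomial

variable {k : Type} [Field k] {d r : ℕ} {A : Finset (Fin d → ℤ)} {c : (Fin d → ℤ) → k}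
  {v : Fin r → Fin d → ℤ} {a : Fin r → ℕ} {h : Fin r → ℤ}

private theorem V15c_pow {K : Type} [Field K] {b : K} (hb : b ≠ 0) {ι : Type} (s : Finset ι)
    (f : ι → ℤ) : ∏ j ∈ s, b ^ f j = b ^ ∑ j ∈ s, f j := by
  classical
  induction s using Finset.induction_on with
  | empty => rw [Finset.prod_empty, Finset.sum_empty, zpow_zero]
  | insert i s hi ih => rw [Finset.prod_insert hi, Finset.sum_insert hi, ih, zpow_add₀ hb]

theorem aeval_sp {K : Type} [Field K] [Algebra k K] (P : MvPolynomial (Fin d) k) (y : Fin d → K) :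
    ∑ m ∈ sp P, algebraMap k K (cp P m) * mn y m = MvPolynomial.aeval y P := by
  classical
  rw [sp, Finset.sum_image, MvPolynomial.aeval_def, MvPolynomial.eval₂_eq']
  · refine Finset.sum_congr rfl fun m _ => ?_
    have h1 : cp P (fun j => (m j : ℤ)) = P.coeff m := by
      rw [cp]
      congr 1
      ext j
      simp
    rw [h1, mn]
    congr 1
    exact Finset.prod_congr rfl fun j _ => zpow_natCast _ _
  · intro m _ m' _ hmm
    ext j
    have h1 := congrFun hmm j
    simp only at h1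
    exact_mod_cast h1

theorem rel_sp (hpos : ∀ i, 0 < a i) (hrel : ∀ j, ∑ i, (a i : ℤ) * v i j = 0)
    {P : MvPolynomial (Fin d) k} {w : Fin r → ℤ} (hw : ∀ i, IsMin P (v i) (w i)) :
    Rel0 (sp P) v a fun i => - w i := by
  classical
  refine ⟨hpos, hrel, ?_⟩
  intro m hm i
  rw [sp, Finset.mem_image] at hm
  obtain ⟨m', hm', rfl⟩ := hm
  have h1 := (hw i).1 m' hm'
  have h2 : pr (fun j => (m' j : ℤ)) (v i) = wt (v i) m' := rfl
  rw [h2]
  linarith

theorem aeval_FP {K : Type} [Field K] [Algebra k K] {s : Fin d → ℤ}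
    (hs : ∀ m ∈ A, ∀ j, 0 ≤ m j + s j) {y : Fin d → K} (hy : ∀ j, y j ≠ 0) :
    MvPolynomial.aeval y (FP A c s) = mn y s * ∑ m ∈ A, algebraMap k K (c m) * mn y m := by
  rw [FP, map_sum, Finset.mul_sum]
  refine Finset.sum_congr rfl fun m hm => ?_
  rw [map_mul, MvPolynomial.aeval_C, map_prod, mn, mn]
  have h1 : ∏ j, MvPolynomial.aeval y ((MvPolynomial.X j : MvPolynomial (Fin d) k) ^ (m j + s j).toNat) =
      (∏ j, y j ^ m j) * ∏ j, y j ^ s j := by
    rw [← Finset.prod_mul_distrib]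
    refine Finset.prod_congr rfl fun j _ => ?_
    rw [map_pow, MvPolynomial.aeval_X, ← zpow_natCast, Int.toNat_of_nonneg (hs m hm j),
      zpow_add₀ (hy j)]
  rw [h1]
  ring

theorem phi_eq (hR : Rel0 A v a h) {x : Fin d → k} (hx : ∀ j, x j ≠ 0) {p : Fin r → k[X]}
    (hp : ∀ i, p i ≠ 0) :
    algebraMap k[X] (RatFunc k) (Phi A c v h x p) =
      (∏ i, algebraMap k[X] (RatFunc k) (p i) ^ h i) *
        ∑ m ∈ A, algebraMap k (RatFunc k) (c m) * mn (fun j => RatFunc.C (x j) *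
          ∏ i, algebraMap k[X] (RatFunc k) (p i) ^ v i j) m := by
  have hP : ∀ i, algebraMap k[X] (RatFunc k) (p i) ≠ 0 := by
    intro i h0
    exact hp i ((map_eq_zero_iff _ (IsFractionRing.injective k[X] (RatFunc k))).1 h0)
  rw [Phi, map_sum, Finset.mul_sum]
  refine Finset.sum_congr rfl fun m hm => ?_
  rw [map_mul, cd, map_mul, map_prod, RatFunc.algebraMap_C, RatFunc.algebraMap_C,
    RatFunc.algebraMap_eq_C, Algebra.algebraMap_self, RingHom.id_apply]
  have h1 : mn (fun j => RatFunc.C (x j) *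
      ∏ i, algebraMap k[X] (RatFunc k) (p i) ^ v i j) m =
      RatFunc.C (mn x m) * ∏ i, algebraMap k[X] (RatFunc k) (p i) ^ pr m (v i) := by
    rw [mn, mn, map_prod]
    simp only [mul_zpow, Finset.prod_mul_distrib]
    congr 1
    · exact Finset.prod_congr rfl fun j _ => (map_zpow₀ _ _ _).symm
    · have h2 : ∀ j, (∏ i, algebraMap k[X] (RatFunc k) (p i) ^ v i j) ^ m j =
          ∏ i, algebraMap k[X] (RatFunc k) (p i) ^ (m j * v i j) := by
        intro j
        rw [← Finset.prod_zpow]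
        refine Finset.prod_congr rfl fun i _ => ?_
        rw [← zpow_mul, mul_comm]
      rw [Finset.prod_congr rfl fun j _ => h2 j, Finset.prod_comm]
      refine Finset.prod_congr rfl fun i _ => ?_
      rw [V15c_pow (hP i), pr]
  have h3 : ∏ i, algebraMap k[X] (RatFunc k) (p i ^ ex v h m 1 i) =
      (∏ i, algebraMap k[X] (RatFunc k) (p i) ^ h i) *
        ∏ i, algebraMap k[X] (RatFunc k) (p i) ^ pr m (v i) := by
    rw [← Finset.prod_mul_distrib]
    refine Finset.prod_congr rfl fun i _ => ?_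
    have h4 : ((ex v h m 1 i : ℕ) : ℤ) = h i + pr m (v i) := by
      have h5 := hR.ge m hm i
      rw [ex]
      push_cast
      omega
    rw [map_pow, ← zpow_natCast, h4, zpow_add₀ (hP i)]
  rw [h1, h3]
  ring

theorem of_torus {y : Fin d → RatFunc k} (hy : ∀ j, y j ≠ 0)
    (hF : ∑ m ∈ A, algebraMap k (RatFunc k) (c m) * mn y m = 0) {m m' : Fin d → ℤ} (hm : m ∈ A)
    (hm' : m' ∈ A) (hne : ∀ b : k, mn y m ≠ RatFunc.C b * mn y m') :
    ∃ z, IsCurve A c z := by
  refine ⟨fun m _ => mn y m, ?_, ?_, ?_, ?_⟩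
  · simp [mn]
  · intro m l m' l' _ _
    exact mn_add hy m m'
  · rw [← hF]
    refine Finset.sum_congr rfl fun m _ => ?_
    rw [RatFunc.algebraMap_eq_C]
  · exact ⟨m, m', 1, cone_one hm, cone_one hm', mn_ne hy m', hne⟩

end Pool.Agent.Lib.MP_1e3e9c_agV
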