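import Pool.Agent.Lib.MP_1e3e9c_agV.V04
import Pool.Agent.Lib.MP_1e3e9c_agV.V06
import Pool.Agent.Lib.MP_1e3e9c_agV.V09
import Pool.Agent.Lib.MP_1e3e9c_agV.V15c

/-! LEAF V15d (easy+).  A factor of small width: a curve.

PROOF.  `exists_pt`: otherwise the set of `dn_torus hH hX` is empty, so `H ∣ 1` (`Dn` for `P = 1`), against `hH.not_unit`.  `of_small`: take the point `x` of `exists_pt`.  `exists_contact` (V04) for `sp H`, `cp H`, the exponents `fun i => - w i` (`hF`: `aeval_sp` for `K = k`; `MvPolynomial.aeval_eq_eval`), `M = G`: `p` with `X^(G+1) ∣ Phi (sp H) (cp H) v (- w) x p`; by `rel_sp` and `natDegree_Phi`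
its degree is `≤ G`, so it is `0` (`Polynomial.eq_zero_of_dvd_of_natDegree_lt`).  `p_i ≠ 0` (`p_i(0) = 1`).  Let `y` be the point of `phi_eq`; `y_j ≠ 0`.  `phi_eq` for `sp H` gives `∑ .. = 0` (the product of powers of the `p_i` is not `0`), so `aeval y H = 0` (`aeval_sp`), so `aeval y (FP A c s) = 0` (`h1`), so the sum over `A` is `0` (`aeval_FP`, `mn_ne`),
so `Phi A c v h x p = 0` (`phi_eq`, `RatFunc.algebraMap_injective`): `of_phi_zero`. -/

set_option autoImplicit false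

namespace Pool.Agent.Lib.MP_1e3e9c_agV

open Polynomial

theorem exists_pt {k : Type} [Field k] [IsAlgClosed k] {d : ℕ} {H : MvPolynomial (Fin d) k}
    (hH : Prime H) (hX : ∀ i, ¬ H ∣ MvPolynomial.X i) :
    ∃ x : Fin d → k, (∀ j, x j ≠ 0) ∧ MvPolynomial.eval x H = 0 := by
  by_contra hc
  have h1 := dn_torus hH hX
  have h2 : H ∣ 1 := h1 1 fun x hx => absurd ⟨x, hx.1, hx.2⟩ hc
  exact hH.not_isUnit (isUnit_of_dvd_one h2)

theorem of_small {k : Type} [Field k] [IsAlgClosed k] [CharZero k] {d r : ℕ}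
    {A : Finset (Fin d → ℤ)} {c : (Fin d → ℤ) → k} {v : Fin r → Fin d → ℤ} {a : Fin r → ℕ}
    {h : Fin r → ℤ} (hA : Full A) (hR : Rel0 A v a h) (hM : Mini v a) {s : Fin d → ℤ}
    (hs : ∀ m ∈ A, ∀ j, 0 ≤ m j + s j) {H : MvPolynomial (Fin d) k} (hH : Prime H)
    (hX : ∀ i, ¬ H ∣ MvPolynomial.X i) (h1 : H ∣ FP A c s) {w : Fin r → ℤ}
    (hw : ∀ i, IsMin H (v i) (w i)) {G : ℕ} (hG : (G : ℤ) = - ∑ i, (a i : ℤ) * w i)
    (hGN : G + 2 ≤ ∑ i, a i) : ∃ z, IsCurve A c z := by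
  obtain ⟨x, hx, hxH⟩ := exists_pt hH hX
  have hF : ∑ m ∈ sp H, cp H m * mn x m = 0 := by
    have h2 := aeval_sp (K := k) H x
    have h3 : MvPolynomial.aeval x H = MvPolynomial.eval x H := rfl
    rw [h3, hxH] at h2
    exact h2
  obtain ⟨p, hp, hp0, hdvd, ht⟩ := exists_contact (A := sp H) (c := cp H) (v := v) (a := a)
    (h := fun i => - w i) hR.pos hGN hF
  have hR' := rel_sp hR.pos hR.rel hw
  have hG' : (G : ℤ) = ∑ i, (a i : ℤ) * (fun i => - w i) i := by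
    rw [hG, ← Finset.sum_neg_distrib]
    exact Finset.sum_congr rfl fun i _ => (mul_neg _ _).symm
  have hdeg := natDegree_Phi hR' hG' (cp H) x hp
  have hz : Phi (sp H) (cp H) v (fun i => - w i) x p = 0 :=
    Polynomial.eq_zero_of_dvd_of_natDegree_lt hdvd (by
      rw [natDegree_X_pow]
      exact Nat.lt_succ_of_le hdeg)
  have hpn : ∀ i, p i ≠ 0 := by
    intro i h0
    have h2 := hp0 i
    rw [h0, coeff_zero] at h2
    exact zero_ne_one h2
  have hPn : ∀ i, algebraMap k[X] (RatFunc k) (p i) ≠ 0 := fun i h0 =>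
    hpn i (RatFunc.algebraMap_injective k (by rw [h0, map_zero]))
  obtain ⟨y, hy⟩ : ∃ y : Fin d → RatFunc k, y = fun j => RatFunc.C (x j) *
      ∏ i, algebraMap k[X] (RatFunc k) (p i) ^ v i j := ⟨_, rfl⟩
  have hyn : ∀ j, y j ≠ 0 := by
    intro j
    rw [hy]
    refine mul_ne_zero ?_ (Finset.prod_ne_zero_iff.2 fun i _ => zpow_ne_zero _ (hPn i))
    intro h0
    exact hx j ((map_eq_zero_iff RatFunc.C (RingHom.injective _)).1 h0)
  have e1 := phi_eq (c := cp H) hR' hx hpn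
  rw [hz, map_zero, ← hy, aeval_sp] at e1
  have e2 : MvPolynomial.aeval y H = 0 :=
    (mul_eq_zero.1 e1.symm).resolve_left
      (Finset.prod_ne_zero_iff.2 fun i _ => zpow_ne_zero _ (hPn i))
  obtain ⟨Q, hQ⟩ := h1
  have e3 := aeval_FP (c := c) hs hyn
  rw [hQ, map_mul, e2, zero_mul] at e3
  have e4 := (mul_eq_zero.1 e3.symm).resolve_left (mn_ne hyn s)
  have e5 := phi_eq (c := c) hR hx hpn
  rw [← hy, e4, mul_zero] at e5
  have e6 : Phi A c v h x p = 0 := RatFunc.algebraMap_injective k (by rw [e5, map_zero])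
  exact of_phi_zero hA hR hM hx hp hp0 e6 ht

end Pool.Agent.Lib.MP_1e3e9c_agV
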