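import Pool.Agent.Lib.MP_1e3e9c_agV.V14a
import Pool.Agent.Lib.MP_1e3e9c_agV.V15c

/-! LEAF V15e (medium).  A factor of width one in a direction: a curve.

PROOF.  Let `δ0` be a vector `≠ 0` with `pr δ0 v = 0` (`hd`: two coordinates `j ≠ j'`; if `v_j = v_j' = 0` the unit vector `e_j`, otherwise `v_j' e_j - v_j e_j'`; or any other).  `exists_sep` for `T` = `{δ0}` ∪ the differences `m - m'`, `m ≠ m'` in `sp H`: a vector `b` with `pr δ0 b ≠ 0` and `pr · b` injective on `sp H`.  Let `x_j = RatFunc.X ^ b_j` (`zpow`): `mn x m = X^(pr m b)`.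
Let `S_0`, `S_1` be the sets of the `m ∈ sp H` with `pr m v = μ`, `= μ + 1` (`hwt`; both are not empty), `h_0 = ∑_(S_0) cp H m X^(pr m b)`, `h_1` the same for `S_1`: both are `≠ 0` in `RatFunc k` (a sum of different powers of `X` with nonzero coefficients; multiply by a power of `X` and look at a coefficient of the polynomial).
`λ = - h_0 / h_1 ≠ 0`, `y_j = x_j λ^(v_j)`: `mn y m = X^(pr m b) λ^(pr m v)`, so `aeval y H = λ^μ (h_0 + λ h_1) = 0` (`aeval_sp`).  Let `u_j = RatFunc.intDegree (y j) = b_j + v_j intDegree λ` (integers; `intDegree_mul`, `intDegree_X`); `intDegree (mn y m) = pr m u` (`zpow`: induction or `map_zpow₀` for a valuation).  `pr δ0 u = pr δ0 b ≠ 0`, so `u ≠ 0`, and `hA u` gives `m, m' ∈ A`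
with `pr m u ≠ pr m' u`: `mn y m = C β mn y m'` is impossible (`β ≠ 0` as `mn y m ≠ 0`; `intDegree_C`). -/

set_option autoImplicit false

namespace Pool.Agent.Lib.MP_1e3e9c_agV

private theorem V15e_zsum {K ι : Type} [Field K] {x : K} (hx : x ≠ 0) (s : Finset ι) (f : ι → ℤ) :
    ∏ j ∈ s, x ^ f j = x ^ ∑ j ∈ s, f j := by
  classical
  induction s using Finset.induction_on with
  | empty => rw [Finset.prod_empty, Finset.sum_empty, zpow_zero]
  | insert a s ha ih => rw [Finset.prod_insert ha, Finset.sum_insert ha, ih, zpow_add₀ hx]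

private theorem V15e_mn {K : Type} [Field K] {d : ℕ} {X lam : K} (hX : X ≠ 0) (hl : lam ≠ 0)
    (b v m : Fin d → ℤ) : mn (fun j => X ^ b j * lam ^ v j) m = X ^ pr m b * lam ^ pr m v := by
  unfold mn pr
  have h1 : ∀ j : Fin d, (X ^ b j * lam ^ v j) ^ m j = X ^ (m j * b j) * lam ^ (m j * v j) := by
    intro j
    rw [mul_zpow, ← zpow_mul, ← zpow_mul, mul_comm (b j), mul_comm (v j)]
  rw [Finset.prod_congr rfl (fun j _ => h1 j), Finset.prod_mul_distrib, V15e_zsum hX, V15e_zsum hl]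

private theorem V15e_ne {k : Type} [Field k] {ι : Type} (S : Finset ι) (hS : S.Nonempty) (c : ι → k) (e : ι → ℤ)
    (hc : ∀ m ∈ S, c m ≠ 0) (he : ∀ m ∈ S, ∀ m' ∈ S, e m = e m' → m = m') :
    ∑ m ∈ S, algebraMap k (RatFunc k) (c m) * (RatFunc.X : RatFunc k) ^ e m ≠ 0 := by
  classical
  intro h0
  obtain ⟨N, hN⟩ : ∃ N : ℕ, ∀ m ∈ S, 0 ≤ e m + N := by
    refine ⟨∑ m ∈ S, (e m).natAbs, fun m hm => ?_⟩
    have h1 : (e m).natAbs ≤ ∑ m ∈ S, (e m).natAbs :=
      Finset.single_le_sum (f := fun m => (e m).natAbs) (fun _ _ => Nat.zero_le _) hm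
    omega
  have h1 : algebraMap (Polynomial k) (RatFunc k)
      (∑ m ∈ S, Polynomial.C (c m) * Polynomial.X ^ (e m + N).toNat) = 0 := by
    rw [map_sum]
    have h2 : ∀ m ∈ S, algebraMap (Polynomial k) (RatFunc k)
        (Polynomial.C (c m) * Polynomial.X ^ (e m + N).toNat) =
        (algebraMap k (RatFunc k) (c m) * (RatFunc.X : RatFunc k) ^ e m) * (RatFunc.X : RatFunc k) ^ N := by
      intro m hm
      rw [map_mul, map_pow, RatFunc.algebraMap_X, RatFunc.algebraMap_C, mul_assoc, ← zpow_natCast, ← zpow_natCast,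
        ← zpow_add₀ RatFunc.X_ne_zero, Int.toNat_of_nonneg (hN m hm)]
      rfl
    rw [Finset.sum_congr rfl h2, ← Finset.sum_mul, h0, zero_mul]
  have h3 : (∑ m ∈ S, Polynomial.C (c m) * Polynomial.X ^ (e m + N).toNat) = 0 :=
    (map_eq_zero_iff _ (RatFunc.algebraMap_injective k)).1 h1
  obtain ⟨m0, hm0⟩ := hS
  have h4 := congrArg (fun P => Polynomial.coeff P (e m0 + N).toNat) h3
  simp only [Polynomial.finsetSum_coeff, Polynomial.coeff_zero] at h4
  rw [Finset.sum_eq_single m0] at h4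
  · rw [Polynomial.coeff_C_mul_X_pow, if_pos rfl] at h4
    exact hc m0 hm0 h4
  · intro m hm hne
    rw [Polynomial.coeff_C_mul_X_pow, if_neg]
    intro h5
    apply hne
    apply he m hm m0 hm0
    have h6 := hN m hm
    have h7 := hN m0 hm0
    omega
  · intro h
    exact absurd hm0 h

private theorem V15e_degz {k : Type} [Field k] {x : RatFunc k} (hx : x ≠ 0) (n : ℤ) :
    (x ^ n).intDegree = n * x.intDegree := by
  have hnat : ∀ m : ℕ, (x ^ m).intDegree = m * x.intDegree := by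
    intro m
    induction m with
    | zero => rw [pow_zero, RatFunc.intDegree_one, Nat.cast_zero, zero_mul]
    | succ m ih =>
      rw [pow_succ, RatFunc.intDegree_mul (pow_ne_zero _ hx) hx, ih]
      push_cast
      ring
  obtain ⟨m, rfl | rfl⟩ := n.eq_nat_or_neg
  · rw [zpow_natCast, hnat]
  · rw [zpow_neg, RatFunc.intDegree_inv, zpow_natCast, hnat]
    ring

private theorem V15e_degp {k : Type} [Field k] {ι : Type} (s : Finset ι) (f : ι → RatFunc k)
    (hf : ∀ i ∈ s, f i ≠ 0) : (∏ i ∈ s, f i).intDegree = ∑ i ∈ s, (f i).intDegree := by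
  classical
  induction s using Finset.induction_on with
  | empty => rw [Finset.prod_empty, Finset.sum_empty, RatFunc.intDegree_one]
  | insert a s ha ih =>
    rw [Finset.prod_insert ha, Finset.sum_insert ha, RatFunc.intDegree_mul (hf a (Finset.mem_insert_self _ _))
      (Finset.prod_ne_zero_iff.2 fun i hi => hf i (Finset.mem_insert_of_mem hi)),
      ih fun i hi => hf i (Finset.mem_insert_of_mem hi)]

private theorem V15e_degmn {k : Type} [Field k] {d : ℕ} {y : Fin d → RatFunc k} (hy : ∀ j, y j ≠ 0)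
    (m : Fin d → ℤ) : (mn y m).intDegree = pr m fun j => (y j).intDegree := by
  unfold mn pr
  rw [V15e_degp _ _ fun i _ => zpow_ne_zero _ (hy i)]
  exact Finset.sum_congr rfl fun j _ => V15e_degz (hy j) (m j)

private theorem V15e_delta {d : ℕ} (hd : 2 ≤ d) (v : Fin d → ℤ) : ∃ δ : Fin d → ℤ, δ ≠ 0 ∧ pr δ v = 0 := by
  have h0 : (⟨0, by omega⟩ : Fin d) ≠ ⟨1, by omega⟩ := by
    intro h
    exact absurd (Fin.mk.inj h) (by norm_num)
  by_cases hv : v ⟨0, by omega⟩ = 0
  · refine ⟨Pi.single ⟨0, by omega⟩ 1, ?_, ?_⟩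
    · intro h
      have h1 := congrFun h ⟨0, by omega⟩
      rw [Pi.single_eq_same] at h1
      exact one_ne_zero h1
    · unfold pr
      rw [Finset.sum_eq_single (⟨0, by omega⟩ : Fin d)]
      · rw [hv, mul_zero]
      · intro j _ hj
        rw [Pi.single_eq_of_ne hj, zero_mul]
      · intro h
        exact absurd (Finset.mem_univ _) h
  · refine ⟨Pi.single ⟨0, by omega⟩ (v ⟨1, by omega⟩) - Pi.single ⟨1, by omega⟩ (v ⟨0, by omega⟩), ?_, ?_⟩
    · intro h
      have h1 := congrFun h ⟨1, by omega⟩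
      rw [Pi.sub_apply, Pi.single_eq_same, Pi.single_eq_of_ne h0.symm, Pi.zero_apply, zero_sub,
        neg_eq_zero] at h1
      exact hv h1
    · unfold pr
      have h2 : ∀ j : Fin d, (Pi.single ⟨0, by omega⟩ (v ⟨1, by omega⟩) -
          Pi.single ⟨1, by omega⟩ (v ⟨0, by omega⟩) : Fin d → ℤ) j * v j =
          (if j = ⟨0, by omega⟩ then v ⟨1, by omega⟩ * v j else 0) -
          (if j = ⟨1, by omega⟩ then v ⟨0, by omega⟩ * v j else 0) := by
        intro j
        rw [Pi.sub_apply, Pi.single_apply, Pi.single_apply]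
        split_ifs <;> ring
      rw [Finset.sum_congr rfl (fun j _ => h2 j), Finset.sum_sub_distrib, Finset.sum_ite_eq',
        Finset.sum_ite_eq', if_pos (Finset.mem_univ _), if_pos (Finset.mem_univ _)]
      ring

private theorem V15e_pr_sub {d : ℕ} (m m' u : Fin d → ℤ) : pr (m - m') u = pr m u - pr m' u := by
  unfold pr
  rw [← Finset.sum_sub_distrib]
  refine Finset.sum_congr rfl fun j _ => ?_
  rw [Pi.sub_apply, sub_mul]

private theorem V15e_sp {k : Type} [Field k] {d : ℕ} {H : MvPolynomial (Fin d) k} {m : Fin d → ℤ}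
    (hm : m ∈ sp H) : ∃ n ∈ H.support, m = (fun j => (n j : ℤ)) ∧ cp H m = H.coeff n ∧
      ∀ v : Fin d → ℤ, pr m v = wt v n := by
  unfold sp at hm
  obtain ⟨n, hn, rfl⟩ := Finset.mem_image.1 hm
  refine ⟨n, hn, rfl, ?_, fun v => rfl⟩
  unfold cp
  refine congrArg (fun q => MvPolynomial.coeff q H) ?_
  ext j
  exact Int.toNat_natCast (n j)

theorem exists_torus_pt {k : Type} [Field k] {d : ℕ} (hd : 2 ≤ d) {A : Finset (Fin d → ℤ)}
    (hA : Full A) {H : MvPolynomial (Fin d) k} {v : Fin d → ℤ} {μ : ℤ}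
    (hwt : ∀ m ∈ H.support, wt v m = μ ∨ wt v m = μ + 1) (h0 : ∃ m ∈ H.support, wt v m = μ)
    (h1 : ∃ m ∈ H.support, wt v m = μ + 1) :
    ∃ y : Fin d → RatFunc k, (∀ j, y j ≠ 0) ∧ MvPolynomial.aeval y H = 0 ∧
      ∃ m ∈ A, ∃ m' ∈ A, ∀ b : k, mn y m ≠ RatFunc.C b * mn y m' := by
  classical
  obtain ⟨δ, hδ0, hδv⟩ := V15e_delta hd v
  obtain ⟨b, hb⟩ := exists_sep (insert δ (((sp H ×ˢ sp H).filter fun p => p.1 ≠ p.2).image fun p => p.1 - p.2)) (by
    intro δ' hδ'
    rcases Finset.mem_insert.1 hδ' with h | h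
    · rw [h]
      exact hδ0
    · obtain ⟨p, hp, rfl⟩ := Finset.mem_image.1 h
      exact sub_ne_zero.2 (Finset.mem_filter.1 hp).2)
  have hbδ : pr δ b ≠ 0 := hb δ (Finset.mem_insert_self _ _)
  have hbi : ∀ m ∈ sp H, ∀ m' ∈ sp H, pr m b = pr m' b → m = m' := by
    intro m hm m' hm' h
    by_contra hne
    refine hb (m - m') (Finset.mem_insert_of_mem (Finset.mem_image.2 ⟨(m, m'), ?_, rfl⟩)) ?_
    · exact Finset.mem_filter.2 ⟨Finset.mem_product.2 ⟨hm, hm'⟩, hne⟩
    · rw [V15e_pr_sub, h, sub_self]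
  have hX : (RatFunc.X : RatFunc k) ≠ 0 := RatFunc.X_ne_zero
  have hcoef : ∀ m ∈ sp H, cp H m ≠ 0 := by
    intro m hm
    obtain ⟨n, hn, _, h2, _⟩ := V15e_sp hm
    rw [h2]
    exact MvPolynomial.mem_support_iff.1 hn
  have hh : ∀ ν : ℤ, (∃ n ∈ H.support, wt v n = ν) →
      ∑ m ∈ (sp H).filter (fun m => pr m v = ν), algebraMap k (RatFunc k) (cp H m) *
        (RatFunc.X : RatFunc k) ^ pr m b ≠ 0 := by
    rintro ν ⟨n, hn, hnν⟩
    refine V15e_ne _ ⟨fun j => (n j : ℤ), ?_⟩ _ _ (fun m hm => hcoef m (Finset.mem_filter.1 hm).1)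
      (fun m hm m' hm' h => hbi m (Finset.mem_filter.1 hm).1 m' (Finset.mem_filter.1 hm').1 h)
    refine Finset.mem_filter.2 ⟨Finset.mem_image.2 ⟨n, hn, rfl⟩, hnν⟩
  have hg0 := hh μ h0
  have hg1 := hh (μ + 1) h1
  obtain ⟨g0, hg0e⟩ : ∃ g0, g0 = ∑ m ∈ (sp H).filter (fun m => pr m v = μ),
    algebraMap k (RatFunc k) (cp H m) * (RatFunc.X : RatFunc k) ^ pr m b := ⟨_, rfl⟩
  obtain ⟨g1, hg1e⟩ : ∃ g1, g1 = ∑ m ∈ (sp H).filter (fun m => pr m v = μ + 1),
    algebraMap k (RatFunc k) (cp H m) * (RatFunc.X : RatFunc k) ^ pr m b := ⟨_, rfl⟩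
  rw [← hg0e] at hg0
  rw [← hg1e] at hg1
  have hl : -g0 / g1 ≠ 0 := div_ne_zero (neg_ne_zero.2 hg0) hg1
  obtain ⟨lam, hlam⟩ : ∃ lam, lam = -g0 / g1 := ⟨_, rfl⟩
  rw [← hlam] at hl
  have hsum : g0 + lam * g1 = 0 := by
    rw [hlam, div_mul_cancel₀ _ hg1, add_neg_cancel]
  have hy : ∀ j : Fin d, (RatFunc.X : RatFunc k) ^ b j * lam ^ v j ≠ 0 := fun j =>
    mul_ne_zero (zpow_ne_zero _ hX) (zpow_ne_zero _ hl)
  refine ⟨fun j => RatFunc.X ^ b j * lam ^ v j, hy, ?_, ?_⟩
  · rw [← aeval_sp]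
    have h2 : ∀ m ∈ sp H, algebraMap k (RatFunc k) (cp H m) *
        mn (fun j => (RatFunc.X : RatFunc k) ^ b j * lam ^ v j) m =
        (if pr m v = μ then algebraMap k (RatFunc k) (cp H m) * (RatFunc.X : RatFunc k) ^ pr m b else 0) *
          lam ^ μ +
        (if pr m v = μ + 1 then algebraMap k (RatFunc k) (cp H m) * (RatFunc.X : RatFunc k) ^ pr m b else 0) *
          (lam * lam ^ μ) := by
      intro m hm
      rw [V15e_mn hX hl]
      obtain ⟨n, hn, _, _, h5⟩ := V15e_sp hm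
      rcases hwt n hn with h3 | h3
      · rw [h5 v, h3, if_pos rfl, if_neg (by omega)]
        ring
      · rw [h5 v, h3, if_neg (by omega), if_pos rfl, zpow_add₀ hl, zpow_one]
        ring
    rw [Finset.sum_congr rfl h2, Finset.sum_add_distrib, ← Finset.sum_mul, ← Finset.sum_mul,
      ← Finset.sum_filter, ← Finset.sum_filter, ← hg0e, ← hg1e]
    calc g0 * lam ^ μ + g1 * (lam * lam ^ μ) = (g0 + lam * g1) * lam ^ μ := by ring
      _ = 0 := by rw [hsum, zero_mul]
  · have hu : (fun j : Fin d => ((RatFunc.X : RatFunc k) ^ b j * lam ^ v j).intDegree) ≠ 0 := by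
      intro h
      apply hbδ
      have h3 : ∀ j : Fin d, b j + v j * lam.intDegree = 0 := by
        intro j
        have h4 := congrFun h j
        simp only [Pi.zero_apply] at h4
        rw [RatFunc.intDegree_mul (zpow_ne_zero _ hX) (zpow_ne_zero _ hl), V15e_degz hX, V15e_degz hl,
          RatFunc.intDegree_X, mul_one] at h4
        exact h4
      have h5 : pr δ b + pr δ v * lam.intDegree = 0 := by
        unfold pr
        rw [Finset.sum_mul, ← Finset.sum_add_distrib]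
        refine Finset.sum_eq_zero fun j _ => ?_
        have h6 := h3 j
        calc δ j * b j + δ j * v j * lam.intDegree = δ j * (b j + v j * lam.intDegree) := by ring
          _ = 0 := by rw [h6, mul_zero]
      rw [hδv, zero_mul, add_zero] at h5
      exact h5
    obtain ⟨m, hm, m', hm', hne⟩ := hA _ hu
    refine ⟨m, hm, m', hm', fun β hβ => hne ?_⟩
    rw [← V15e_degmn hy, ← V15e_degmn hy, hβ]
    have hmn' : mn (fun j => (RatFunc.X : RatFunc k) ^ b j * lam ^ v j) m' ≠ 0 := mn_ne hy m'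
    have hmn : mn (fun j => (RatFunc.X : RatFunc k) ^ b j * lam ^ v j) m ≠ 0 := mn_ne hy m
    have hC : (RatFunc.C β : RatFunc k) ≠ 0 := by
      intro h
      rw [hβ, h, zero_mul] at hmn
      exact hmn rfl
    rw [RatFunc.intDegree_mul hC hmn', RatFunc.intDegree_C, zero_add]

end Pool.Agent.Lib.MP_1e3e9c_agV
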