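import Pool.Agent.Lib.MP_1e3e9c_agV.V15b
import Pool.Agent.Lib.MP_1e3e9c_agV.V15d
import Pool.Agent.Lib.MP_1e3e9c_agV.V15e

/-! LEAF V15 (easy+).  The equation has a double factor: a curve.

PROOF.  `w i` = the least weight of `H` for `v i` (`exists_min`, `hH.ne_zero`), `G = - ∑ a_i w_i ≥ 0` (`sum_min_nonpos`), `2 G ≤ ∑ a_i h_i ≤ N = ∑ a_i` (`half`, `hR.le`).  If `G + 2 ≤ N`: `of_small` (`h1 : H ∣ FP`).  Otherwise `N ≤ 2` (`N ≤ G + 1`, `2 G ≤ N`); `two_le hR hr`: `N = 2`, `G = 1`.  If `r = 1`: `2 v_0 = 0` (`hR.rel`), against `hR.ne`; so `r = 2` (all `a_i ≥ 1`),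
`a_0 = a_1 = 1`, `v_1 = - v_0`.  `v = v_0`, `μ = w_0`: `wt v m ≥ w_0`, `- wt v m = wt (v 1) m ≥ w_1 = - 1 - w_0`, so `wt v m ∈ {μ, μ + 1}` for all `m` in the support of `H`, and both values are attained.  `2 ≤ d`: `v_0 ≠ 0` so `d ≥ 1`; for `d = 1` `hR.two 0` gives `m ≠ m'` with `m_0 v_00 = m'_0 v_00`: impossible.
`exists_torus_pt` gives `y`; `aeval y (FP A c s) = 0` as `H ∣ FP`, so the sum over `A` is `0` (`aeval_FP`, `mn_ne`): `of_torus`. -/

set_option autoImplicit false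

namespace Pool.Agent.Lib.MP_1e3e9c_agV

theorem of_sq {k : Type} [Field k] [IsAlgClosed k] [CharZero k] {d r : ℕ}
    {A : Finset (Fin d → ℤ)} {c : (Fin d → ℤ) → k} {v : Fin r → Fin d → ℤ} {a : Fin r → ℕ}
    {h : Fin r → ℤ} (hA : Full A) (hR : Rel A v a h) (hM : Mini v a) (hr : 0 < r) {s : Fin d → ℤ}
    (hs : ∀ m ∈ A, ∀ j, 0 ≤ m j + s j) {H : MvPolynomial (Fin d) k} (hH : Prime H)
    (hX : ∀ i, ¬ H ∣ MvPolynomial.X i) (h2 : H ^ 2 ∣ FP A c s) (h0 : FP A c s ≠ 0) :
    ∃ z, IsCurve A c z := by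
  classical
  have hH0 : H ≠ 0 := hH.ne_zero
  choose w hw using fun i => exists_min hH0 (v i)
  have hnp := sum_min_nonpos hR.rel hw
  have hhalf := half hR.toRel0 hs h2 h0 hw
  have hle := hR.le
  obtain ⟨G, hG⟩ : ∃ G : ℕ, (G : ℤ) = - ∑ i, (a i : ℤ) * w i :=
    ⟨(- ∑ i, (a i : ℤ) * w i).toNat, Int.toNat_of_nonneg (by linarith)⟩
  have h1 : H ∣ FP A c s := (dvd_pow_self H two_ne_zero).trans h2
  by_cases hGN : G + 2 ≤ ∑ i, a i
  · exact of_small hA hR.toRel0 hM hs hH hX h1 hw hG hGN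
  have h2N : 2 ≤ ∑ i, a i := two_le hR hr
  have hcast : ((∑ i, a i : ℕ) : ℤ) = ∑ i, (a i : ℤ) := by push_cast; rfl
  have hN : ∑ i, a i = 2 := by omega
  have hG1 : G = 1 := by omega
  have hrle : r ≤ 2 := by
    have h3 : ∑ _i : Fin r, 1 ≤ ∑ i, a i := Finset.sum_le_sum fun i _ => hR.pos i
    rw [Finset.sum_const, Finset.card_univ, Fintype.card_fin, smul_eq_mul, mul_one] at h3
    omega
  obtain rfl | rfl : r = 1 ∨ r = 2 := by omega
  · exfalso
    apply hR.ne 0
    funext j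
    have h3 := hR.rel j
    rw [Fin.sum_univ_one] at h3
    have h4 : (a 0 : ℤ) ≠ 0 := by
      have h5 := hR.pos 0
      omega
    exact (mul_eq_zero.1 h3).resolve_left h4
  · rw [Fin.sum_univ_two] at hN hG
    have ha0 : a 0 = 1 := by
      have h3 := hR.pos 0
      have h4 := hR.pos 1
      omega
    have ha1 : a 1 = 1 := by omega
    have hv : ∀ j, v 1 j = - v 0 j := by
      intro j
      have h3 := hR.rel j
      rw [Fin.sum_univ_two, ha0, ha1] at h3
      push_cast at h3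
      linarith
    have hw01 : w 1 = - 1 - w 0 := by
      rw [ha0, ha1, hG1] at hG
      push_cast at hG
      linarith
    have hwt : ∀ m : Fin d →₀ ℕ, wt (v 1) m = - wt (v 0) m := by
      intro m
      unfold wt
      rw [← Finset.sum_neg_distrib]
      refine Finset.sum_congr rfl fun j _ => ?_
      rw [hv j]
      ring
    have hd : 2 ≤ d := by
      by_contra hd
      obtain rfl | rfl : d = 0 ∨ d = 1 := by omega
      · exact hR.ne 0 (Subsingleton.elim _ _)
      · obtain ⟨m, -, m', -, hne, e1, e2⟩ := hR.two 0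
        have h3 : v 0 0 ≠ 0 := by
          intro h4
          apply hR.ne 0
          funext j
          rw [Fin.fin_one_eq_zero j, h4]
          rfl
        apply hne
        funext j
        rw [Fin.fin_one_eq_zero j]
        unfold pr at e1 e2
        rw [Fin.sum_univ_one] at e1 e2
        exact mul_right_cancel₀ h3 (by linarith)
    obtain ⟨y, hy, hyH, m, hm, m', hm', hne⟩ := exists_torus_pt (H := H) (v := v 0) (μ := w 0) hd hA
      (fun m hm => by
        have h3 := (hw 0).1 m hm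
        have h4 := (hw 1).1 m hm
        rw [hwt, hw01] at h4
        omega)
      (hw 0).2
      (by
        obtain ⟨m, hm, e⟩ := (hw 1).2
        refine ⟨m, hm, ?_⟩
        rw [hwt, hw01] at e
        linarith)
    have h3 : MvPolynomial.aeval y (FP A c s) = 0 := by
      obtain ⟨Q, hQ⟩ := h1
      rw [hQ, map_mul, hyH, zero_mul]
    rw [aeval_FP hs hy] at h3
    exact of_torus hy ((mul_eq_zero.1 h3).resolve_left (mn_ne hy s)) hm hm' hne

end Pool.Agent.Lib.MP_1e3e9c_agV
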