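import Pool.Agent.Lib.MP_1e3e9c_agV.VDefs

/-! LEAF V16 (easy+).  A minimal relation exists.

PROOF.  Call `e : Fin r → ℕ` good if `e ≠ 0`, `e ≤ a`, `∑ e_i v_i = 0` and `∑ e_i h_i ≤ ∑ e_i`.  `a` is good (`hR`, `0 < r`).  Let `e` be good with `∑ e_i` minimal (`Nat.find` or `WellFounded.min`).  If `f ≤ e`, `∑ f_i v_i = 0`, `f ≠ 0`, `f ≠ e`, then `f` and `e - f` are both `≠ 0`, with a relation, and `∑ f_i (h_i - 1) + ∑ (e_i - f_i)(h_i - 1) = ∑ e_i (h_i - 1) ≤ 0`, so one of them is good, with a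
smaller sum: contradiction.  Let `I = {i | e_i ≠ 0}` (a nonempty finite set), `φ : Fin r' ≃ I` (`Fintype.equivFin`), `v' = v ∘ φ`, `a' = e ∘ φ`, `h' = h ∘ φ`: `Rel A v' a' h'` (sums over `I` of terms which contain `e_i` are sums over all `i`).  `Mini`: for `f' ≤ a'` with a relation extend `f'` by `0` to `f ≤ e`: `f = 0` or `f = e`. -/

set_option autoImplicit false

namespace Pool.Agent.Lib.MP_1e3e9c_agV

private theorem V16_sum {r : ℕ} (I : Finset (Fin r)) (F : Fin r → ℤ) (hF : ∀ i, i ∉ I → F i = 0) :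
    ∑ l : Fin I.card, F (I.equivFin.symm l) = ∑ i, F i := by
  rw [Equiv.sum_comp I.equivFin.symm (fun x : I => F x), Finset.sum_coe_sort I F]
  exact Finset.sum_subset (Finset.subset_univ I) fun i _ hi => hF i hi

private theorem V16_lt {r : ℕ} {f e : Fin r → ℕ} (h1 : ∀ i, f i ≤ e i) (h2 : f ≠ e) :
    ∑ i, f i < ∑ i, e i := by
  refine Finset.sum_lt_sum (fun i _ => h1 i) ?_
  by_contra h
  push Not at h
  exact h2 (funext fun i => le_antisymm (h1 i) (h i (Finset.mem_univ i)))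

theorem exists_mini {d r : ℕ} {A : Finset (Fin d → ℤ)} {v : Fin r → Fin d → ℤ} {a : Fin r → ℕ}
    {h : Fin r → ℤ} (hR : Rel A v a h) (hr : 0 < r) :
    ∃ (r' : ℕ) (v' : Fin r' → Fin d → ℤ) (a' : Fin r' → ℕ) (h' : Fin r' → ℤ),
      Rel A v' a' h' ∧ Mini v' a' ∧ 0 < r' := by
  classical
  obtain ⟨S, hS⟩ : ∃ S : Set (Fin r → ℕ), S = {e | e ≠ 0 ∧ (∀ j, ∑ i, (e i : ℤ) * v i j = 0) ∧
    ∑ i, (e i : ℤ) * h i ≤ ∑ i, (e i : ℤ)} := ⟨_, rfl⟩
  have ha : a ∈ S := by
    rw [hS]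
    refine ⟨fun h0 => ?_, hR.rel, hR.le⟩
    have h1 := hR.pos ⟨0, hr⟩
    rw [h0] at h1
    exact lt_irrefl _ h1
  obtain ⟨e, heS, hmin⟩ := (measure fun e : Fin r → ℕ => ∑ i, e i).wf.has_min S ⟨a, ha⟩
  have hmin' : ∀ f ∈ S, ∑ i, e i ≤ ∑ i, f i := fun f hf => not_lt.1 (hmin f hf)
  rw [hS] at heS
  obtain ⟨he0, hrel, hle⟩ := heS
  obtain ⟨I, hI⟩ : ∃ I : Finset (Fin r), I = Finset.univ.filter fun i => e i ≠ 0 := ⟨_, rfl⟩
  have hmem : ∀ i, i ∈ I ↔ e i ≠ 0 := fun i => by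
    rw [hI, Finset.mem_filter]
    exact ⟨fun h => h.2, fun h => ⟨Finset.mem_univ i, h⟩⟩
  have hout : ∀ i, i ∉ I → e i = 0 := fun i hi => by
    by_contra h
    exact hi ((hmem i).2 h)
  have hIne : I.Nonempty := by
    by_contra h
    rw [Finset.not_nonempty_iff_eq_empty] at h
    refine he0 (funext fun i => hout i ?_)
    rw [h]
    exact Finset.notMem_empty i
  refine ⟨I.card, fun l => v (I.equivFin.symm l), fun l => e (I.equivFin.symm l), fun l => h (I.equivFin.symm l),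
    ?_, ?_, Finset.card_pos.2 hIne⟩
  · refine ⟨⟨?_, ?_, ?_⟩, ?_, ?_, ?_⟩
    · intro l
      exact Nat.pos_of_ne_zero ((hmem _).1 (I.equivFin.symm l).2)
    · intro j
      rw [V16_sum I (fun i => (e i : ℤ) * v i j) fun i hi => by rw [hout i hi, Nat.cast_zero, zero_mul]]
      exact hrel j
    · intro m hm l
      exact hR.ge m hm _
    · intro l
      exact hR.ne _
    · intro l
      exact hR.two _
    · rw [V16_sum I (fun i => (e i : ℤ) * h i) fun i hi => by rw [hout i hi, Nat.cast_zero, zero_mul],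
        V16_sum I (fun i => (e i : ℤ)) fun i hi => by rw [hout i hi, Nat.cast_zero]]
      exact hle
  · intro f' hf' hf'rel
    obtain ⟨f, hf⟩ : ∃ f : Fin r → ℕ, f = fun i => if hi : i ∈ I then f' (I.equivFin ⟨i, hi⟩) else 0 := ⟨_, rfl⟩
    have hfφ : ∀ l : Fin I.card, f (I.equivFin.symm l) = f' l := by
      intro l
      rw [hf]
      simp
    have hfout : ∀ i, i ∉ I → f i = 0 := fun i hi => by
      rw [hf]
      exact dif_neg hi
    have hφ : ∀ i, i ∈ I → ∃ l : Fin I.card, ((I.equivFin.symm l : I) : Fin r) = i := fun i hi =>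
      ⟨I.equivFin ⟨i, hi⟩, by rw [Equiv.symm_apply_apply]⟩
    have hfe : ∀ i, f i ≤ e i := by
      intro i
      by_cases hi : i ∈ I
      · obtain ⟨l, rfl⟩ := hφ i hi
        rw [hfφ]
        exact hf' l
      · rw [hfout i hi]
        exact Nat.zero_le _
    have hfrel : ∀ j, ∑ i, (f i : ℤ) * v i j = 0 := by
      intro j
      rw [← V16_sum I (fun i => (f i : ℤ) * v i j) fun i hi => by rw [hfout i hi, Nat.cast_zero, zero_mul]]
      refine Eq.trans (Finset.sum_congr rfl fun l _ => ?_) (hf'rel j)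
      show (f (I.equivFin.symm l) : ℤ) * v (I.equivFin.symm l) j = (f' l : ℤ) * v (I.equivFin.symm l) j
      rw [hfφ]
    by_cases h0 : f = 0
    · left
      funext l
      rw [← hfφ l, h0]
      rfl
    by_cases h1 : f = e
    · right
      funext l
      rw [← hfφ l, h1]
    exfalso
    obtain ⟨f2, hf2⟩ : ∃ f2 : Fin r → ℕ, f2 = fun i => e i - f i := ⟨_, rfl⟩
    have hf2c : ∀ i, (f2 i : ℤ) = (e i : ℤ) - (f i : ℤ) := fun i => by
      rw [hf2]
      exact Nat.cast_sub (hfe i)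
    have hf2le : ∀ i, f2 i ≤ e i := fun i => by
      rw [hf2]
      exact Nat.sub_le _ _
    have hf20 : f2 ≠ 0 := fun h2 => h1 (funext fun i => by
      have h3 := congrFun h2 i
      rw [hf2] at h3
      have h4 : e i - f i = 0 := h3
      have h5 := hfe i
      omega)
    have hf2e : f2 ≠ e := fun h2 => h0 (funext fun i => by
      have h3 := congrFun h2 i
      rw [hf2] at h3
      have h4 : e i - f i = e i := h3
      have h5 := hfe i
      show f i = 0
      omega)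
    have hf2rel : ∀ j, ∑ i, (f2 i : ℤ) * v i j = 0 := by
      intro j
      have h2 : ∑ i, (f2 i : ℤ) * v i j = ∑ i, (e i : ℤ) * v i j - ∑ i, (f i : ℤ) * v i j := by
        rw [← Finset.sum_sub_distrib]
        exact Finset.sum_congr rfl fun i _ => by rw [hf2c, sub_mul]
      rw [h2, hrel, hfrel, sub_zero]
    have hs1 : ∑ i, (f2 i : ℤ) * h i = ∑ i, (e i : ℤ) * h i - ∑ i, (f i : ℤ) * h i := by
      rw [← Finset.sum_sub_distrib]
      exact Finset.sum_congr rfl fun i _ => by rw [hf2c, sub_mul]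
    have hs2 : ∑ i, (f2 i : ℤ) = ∑ i, (e i : ℤ) - ∑ i, (f i : ℤ) := by
      rw [← Finset.sum_sub_distrib]
      exact Finset.sum_congr rfl fun i _ => hf2c i
    rcases le_or_gt (∑ i, (f i : ℤ) * h i) (∑ i, (f i : ℤ)) with h3 | h3
    · have h4 : f ∈ S := by
        rw [hS]
        exact ⟨h0, hfrel, h3⟩
      exact absurd (hmin' f h4) (not_le.2 (V16_lt hfe h1))
    · have h4 : f2 ∈ S := by
        rw [hS]
        refine ⟨hf20, hf2rel, ?_⟩
        rw [hs1, hs2]
        linarith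
      exact absurd (hmin' f2 h4) (not_le.2 (V16_lt hf2le hf2e))

end Pool.Agent.Lib.MP_1e3e9c_agV
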