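import Pool.Agent.Lib.MP_1e3e9c_agV.V01
import Pool.Agent.Lib.MP_1e3e9c_agV.V08
import Pool.Agent.Lib.MP_1e3e9c_agV.V09
import Pool.Agent.Lib.MP_1e3e9c_agV.V10
import Pool.Agent.Lib.MP_1e3e9c_agV.V11
import Pool.Agent.Lib.MP_1e3e9c_agV.V13
import Pool.Agent.Lib.MP_1e3e9c_agV.V14
import Pool.Agent.Lib.MP_1e3e9c_agV.V15
import Pool.Agent.Lib.MP_1e3e9c_agV.V16
import Pool.Agent.Lib.MP_1e3e9c_agV.M6

/-! # MP_1e3e9c_ag, project V: the main theorem -/

set_option autoImplicit false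

namespace Pool.Agent.Lib.MP_1e3e9c_agV

open Polynomial Pool.Agent.Lib.MP_1e3e9c_agR

theorem dm_mono' {k : Type} [Field k] {n : ℕ} {B B' : Set (Fin (n + 1) → k)} (hB : B ⊆ B') :
    dm B ≤ dm B' := by
  unfold dm
  refine ringKrullDim_le_of_surjective
    (Ideal.Quotient.factor (MvPolynomial.vanishingIdeal_anti_mono hB)) ?_
  exact Ideal.Quotient.factor_surjective _

theorem wdm_mono' {k : Type} [Field k] {n : ℕ} {w : Fin (n + 1) → ℕ} {B B' : Set (Fin (n + 1) → k)}
    (hB : B ⊆ B') : wdm w B ≤ wdm w B' := by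
  unfold wdm
  refine dm_mono' ?_
  rintro x ⟨a, ha, v, hv, hx⟩
  exact ⟨a, ha, v, hB hv, hx⟩

theorem eval_FP {k : Type} [Field k] {d : ℕ} {A : Finset (Fin d → ℤ)} {c : (Fin d → ℤ) → k}
    {s : Fin d → ℤ} (hs : ∀ m ∈ A, ∀ j, 0 ≤ m j + s j) {x : Fin d → k} (hx : ∀ j, x j ≠ 0) :
    MvPolynomial.eval x (FP A c s) = mn x s * ∑ m ∈ A, c m * mn x m := by
  unfold FP
  rw [map_sum, Finset.mul_sum]
  refine Finset.sum_congr rfl fun m hm => ?_
  rw [map_mul, MvPolynomial.eval_C, map_prod]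
  have h1 : ∏ j, MvPolynomial.eval x (MvPolynomial.X j ^ (m j + s j).toNat) = mn x s * mn x m := by
    unfold mn
    rw [← Finset.prod_mul_distrib]
    refine Finset.prod_congr rfl fun j _ => ?_
    rw [map_pow, MvPolynomial.eval_X, ← zpow_add₀ (hx j), add_comm (s j), ← zpow_natCast,
      Int.toNat_of_nonneg (hs m hm j)]
  rw [h1]
  ring

theorem exists_shift {d : ℕ} (A : Finset (Fin d → ℤ)) :
    ∃ s : Fin d → ℤ, ∀ m ∈ A, ∀ j, 0 ≤ m j + s j := by
  refine ⟨fun j => ∑ m ∈ A, |m j|, fun m hm j => ?_⟩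
  have h1 : |m j| ≤ ∑ m ∈ A, |m j| :=
    Finset.single_le_sum (f := fun m : Fin d → ℤ => |m j|) (fun _ _ => abs_nonneg _) hm
  have h2 := neg_abs_le (m j)
  show 0 ≤ m j + ∑ m ∈ A, |m j|
  linarith

/-- every hypersurface contains a rational curve -/
theorem main {k : Type} [Field k] [IsAlgClosed k] [CharZero k] {d r : ℕ} (hd : 4 ≤ d)
    {A : Finset (Fin d → ℤ)} {v : Fin r → Fin d → ℤ} {a : Fin r → ℕ} {h : Fin r → ℤ} (hA : Full A)
    (hR : Rel A v a h) (hr : 0 < r) (c : (Fin d → ℤ) → k) : ∃ z, IsCurve A c z := by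
  classical
  by_contra hno
  obtain ⟨r, v, a, h, hR, hM, hr⟩ := exists_mini hR hr
  have hAne : A.Nonempty := by
    obtain ⟨m, hm, _⟩ := hR.two ⟨0, hr⟩
    exact ⟨m, hm⟩
  obtain ⟨n, e, w, o, hg⟩ := exists_gens A hAne
  obtain ⟨s, hs⟩ := exists_shift A
  -- a zero in the torus
  obtain ⟨x₀, hx₀, hz₀⟩ : ∃ x : Fin d → k, (∀ j, x j ≠ 0) ∧ ∑ m ∈ A, c m * mn x m = 0 := by
    by_contra hcon
    obtain ⟨m0, hm0, hc⟩ := single_of_no_zero hAne hcon
    exact hno (of_single hA hR hr hm0 hc)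
  -- the polynomial is not zero
  have hF0 : FP A c s ≠ 0 := by
    intro hF
    obtain ⟨Q, hQ⟩ : ∃ Q : (Fin d → ℤ) → MvPolynomial (Fin d) k, Q = fun m =>
      MvPolynomial.C (c m) * ∏ j, MvPolynomial.X j ^ (m j + s j).toNat := ⟨_, rfl⟩
    have hcz : ∀ m ∈ A, c m = 0 := by
      intro m hm
      have h1 : MvPolynomial.coeff (Finsupp.equivFunOnFinite.symm fun j => (m j + s j).toNat)
          (FP A c s) = c m := by
        unfold FP
        rw [MvPolynomial.coeff_sum, Finset.sum_eq_single m]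
        · have h2 : ∏ j, (MvPolynomial.X j : MvPolynomial (Fin d) k) ^ (m j + s j).toNat =
              MvPolynomial.monomial (Finsupp.equivFunOnFinite.symm fun j => (m j + s j).toNat) 1 := by
            rw [MvPolynomial.monomial_eq, MvPolynomial.C_1, one_mul, Finsupp.prod_fintype _ _
              (fun i => pow_zero _)]
            rfl
          rw [h2, MvPolynomial.coeff_C_mul, MvPolynomial.coeff_monomial, if_pos rfl, mul_one]
        · intro m' hm' hne
          have h2 : ∏ j, (MvPolynomial.X j : MvPolynomial (Fin d) k) ^ (m' j + s j).toNat =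
              MvPolynomial.monomial (Finsupp.equivFunOnFinite.symm fun j => (m' j + s j).toNat) 1 := by
            rw [MvPolynomial.monomial_eq, MvPolynomial.C_1, one_mul, Finsupp.prod_fintype _ _
              (fun i => pow_zero _)]
            rfl
          rw [h2, MvPolynomial.coeff_C_mul, MvPolynomial.coeff_monomial, if_neg, mul_zero]
          intro hEq
          apply hne
          funext j
          have h3 := DFunLike.congr_fun hEq j
          have h4 : (m' j + s j).toNat = (m j + s j).toNat := h3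
          have h5 := hs m hm j
          have h6 := hs m' hm' j
          omega
        · intro hm'
          exact absurd hm hm'
      rw [← h1, hF, MvPolynomial.coeff_zero]
    obtain ⟨m, hm⟩ := hAne
    exact hno (of_single hA hR hr hm fun m' hm' _ => hcz m' hm')
  obtain ⟨H, hH, hHF, hX⟩ := exists_prime hF0 hx₀ (by rw [eval_FP hs hx₀, hz₀, mul_zero])
  have hsq : ¬ H ^ 2 ∣ FP A c s := fun h2 => hno (of_sq hA hR hM hr hs hH hX h2 hF0)
  obtain ⟨Y, E, hY, hE, hK⟩ := kpoint hA hR hM hr hg hno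
  -- the zeros in the torus
  obtain ⟨T, hT⟩ : ∃ T : Set (Fin d → k), T = {x | (∀ i, x i ≠ 0) ∧ MvPolynomial.eval x H = 0} :=
    ⟨_, rfl⟩
  have hDT : Dn H T := by rw [hT]; exact dn_torus hH hX
  have hTz : ∀ x ∈ T, ∑ m ∈ A, c m * mn x m = 0 := by
    intro x hx
    rw [hT] at hx
    obtain ⟨Q, hQ⟩ := hHF
    have h1 := eval_FP (c := c) hs hx.1
    rw [hQ, map_mul, hx.2, zero_mul] at h1
    rcases mul_eq_zero.1 h1.symm with h2 | h2
    · exact absurd h2 (mn_ne hx.1 s)
    · exact h2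
  obtain ⟨T1, hT1⟩ : ∃ T1 : Set (Fin d → k), T1 = {x ∈ T | (fun j => mn x (e j)) ∈ E} := ⟨_, rfl⟩
  obtain ⟨T2, hT2⟩ : ∃ T2 : ((Fin d → ℤ) → k) → Set (Fin d → k),
      T2 = fun y => {x ∈ T | ∃ q : Fin r → k[X], GC A c v a h y x q} := ⟨_, rfl⟩
  have hcov : Dn H (T1 ∪ ⋃ y ∈ Y, T2 y) := by
    refine dn_mono ?_ hDT
    intro x hx
    have hx' := hx
    rw [hT] at hx'
    rcases hK x hx'.1 (hTz x hx) with h1 | ⟨y, hy, q, hq⟩
    · left
      rw [hT1]
      exact ⟨hx, h1⟩
    · right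
      refine Set.mem_iUnion₂.2 ⟨y, hy, ?_⟩
      rw [hT2]
      exact ⟨hx, q, hq⟩
  rcases dn_union hH hcov with h1 | h1
  · -- the small set
    have h2 := dim_dense hA hg hH hX (W := T1) (fun x hx => by
      rw [hT1] at hx
      have := hx.1
      rw [hT] at this
      exact this.1) (fun x hx => by
      rw [hT1] at hx
      have := hx.1
      rw [hT] at this
      exact this.2) h1
    have h3 : wdm w ((fun (x : Fin d → k) (j : Fin (n + 1)) => mn x (e j)) '' T1) ≤ wdm w E := by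
      refine wdm_mono' ?_
      rintro _ ⟨x, hx, rfl⟩
      rw [hT1] at hx
      exact hx.2
    have h4 : ((d : ℕ) : WithBot ℕ∞) ≤ ((3 : ℕ) : WithBot ℕ∞) := h2.trans (h3.trans hE)
    have h5 : d ≤ 3 := by exact_mod_cast h4
    omega
  · obtain ⟨y, hy, h2⟩ := dn_biUnion hH Y T2 h1
    obtain ⟨K, hKf, hKa, x, p, hG, hP⟩ := exists_generic (c := c) (v := v) (a := a) (h := h) (A := A)
      (y := y) hH h2 (fun x hx => by
        rw [hT2] at hx
        have := hx.1
        rw [hT] at this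
        exact this.2) (fun x hx => by
        rw [hT2] at hx
        exact hx.2)
    obtain ⟨l, rfl⟩ : ∃ l, d = l + 1 := ⟨d - 1, by omega⟩
    obtain ⟨δ, hδ⟩ := exists_dlog hH hG.ne hP
    exact no_generic (by omega) hA hR hr (hY y hy) hG δ hδ
      (grad_ne hs hH hX hHF hsq hG.ne hP)

end Pool.Agent.Lib.MP_1e3e9c_agV
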