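import Pool.Agent.Lib.MP_1e3e9c_agV.VDefs

/-! LEAF V01 (medium).  The monoid of the cone is finitely generated.

PROOF.  Let `L = A.card ≥ 1` and `T` = the set of the pairs `(m, l)` with `InCone A m l`, `1 ≤ l ≤ L`.  It is finite: if `∑ b a = N l`, `∑ b a * a j = N m j` then `|m j| ≤ l M`, `M` a bound of all `|a j|`, `a ∈ A` (`N |m j| ≤ ∑ b a |a j| ≤ M N l`).  It is
not empty: it contains all `(a, 1)`, `a ∈ A` (`N = 1`, `b = 1` at `a`, `0` elsewhere).  Number its elements: `e`, `w` (for instance `Finite.exists_equiv_fin`, the number of elements is `≥ 1`); `o a` = the number of `(a, 1)`.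
`gen`: let `InCone A m l` with `N`, `b`.  Put `b a = N q a + r a`, `r a < N` (division), `l' = l - ∑ q a`, `m' = m - ∑ q a * a`: `∑ r a = N l'` (so `l' ≥ 0`), `∑ r a * a j = N m' j`.  `N l' < N L + 1`, so `l' ≤ L`.  If `l' = 0` then all `r a = 0`, so
`m' = 0`; otherwise `(m', l') ∈ T`.  So `(m, l) = ∑ q a (a, 1) + (m', l')` is a combination of elements of `T` (the coefficient of `j` is the number of times it occurs: `∑ a ∈ A, if o a = j then q a else 0`, plus `1` for the number of `(m', l')`). -/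

set_option autoImplicit false

namespace Pool.Agent.Lib.MP_1e3e9c_agV

private theorem V01_sum {R α : Type*} [CommSemiring R] {n : ℕ} (A : Finset α) (q : α → ℕ)
    (o : α → Fin n) (F : Fin n → R) :
    ∑ j, ((∑ a ∈ A, if o a = j then q a else 0 : ℕ) : R) * F j = ∑ a ∈ A, (q a : R) * F (o a) := by
  classical
  have h : ∀ j, ((∑ a ∈ A, if o a = j then q a else 0 : ℕ) : R) * F j =
      ∑ a ∈ A, if o a = j then (q a : R) * F j else 0 := by
    intro j
    rw [Nat.cast_sum, Finset.sum_mul]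
    refine Finset.sum_congr rfl fun a _ => ?_
    split_ifs
    · rfl
    · rw [Nat.cast_zero, zero_mul]
  rw [Finset.sum_congr rfl fun j _ => h j, Finset.sum_comm]
  refine Finset.sum_congr rfl fun a _ => ?_
  rw [Finset.sum_ite_eq Finset.univ (o a) fun j => (q a : R) * F j, if_pos (Finset.mem_univ _)]

private theorem V01_fin {d : ℕ} (A : Finset (Fin d → ℤ)) (L : ℕ) :
    {x : (Fin d → ℤ) × ℕ | InCone A x.1 x.2 ∧ 1 ≤ x.2 ∧ x.2 ≤ L}.Finite := by
  obtain ⟨M, hM⟩ : ∃ M : ℤ, M = ∑ a ∈ A, ∑ j, |a j| := ⟨_, rfl⟩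
  have hM0 : 0 ≤ M := by
    rw [hM]
    exact Finset.sum_nonneg fun a _ => Finset.sum_nonneg fun j _ => abs_nonneg _
  have hMa : ∀ a ∈ A, ∀ j, |a j| ≤ M := by
    intro a ha j
    rw [hM]
    refine le_trans ?_ (Finset.single_le_sum (f := fun a : Fin d → ℤ => ∑ j, |a j|)
      (fun a _ => Finset.sum_nonneg fun j _ => abs_nonneg _) ha)
    exact Finset.single_le_sum (f := fun j => |a j|) (fun j _ => abs_nonneg _) (Finset.mem_univ j)
  refine ((Set.finite_Icc (fun _ : Fin d => -((L : ℤ) * M)) (fun _ : Fin d => (L : ℤ) * M)).prod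
    (Set.finite_Icc 0 L)).subset ?_
  rintro ⟨m, l⟩ ⟨⟨N, b, hN, hb, hbm⟩, _, hl⟩
  have hN' : (0 : ℤ) < N := by exact_mod_cast hN
  have hj : ∀ j, |m j| ≤ (L : ℤ) * M := by
    intro j
    have h1 : (N : ℤ) * |m j| ≤ (N : ℤ) * ((l : ℤ) * M) := by
      calc (N : ℤ) * |m j| = |(N : ℤ) * m j| := by rw [abs_mul, abs_of_pos hN']
        _ = |∑ a ∈ A, (b a : ℤ) * a j| := by rw [hbm j]
        _ ≤ ∑ a ∈ A, |(b a : ℤ) * a j| := Finset.abs_sum_le_sum_abs _ _
        _ ≤ ∑ a ∈ A, (b a : ℤ) * M := by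
            refine Finset.sum_le_sum fun a ha => ?_
            rw [abs_mul, abs_of_nonneg (Int.natCast_nonneg (b a))]
            exact mul_le_mul_of_nonneg_left (hMa a ha j) (Int.natCast_nonneg _)
        _ = ((∑ a ∈ A, b a : ℕ) : ℤ) * M := by rw [Nat.cast_sum, Finset.sum_mul]
        _ = (N : ℤ) * ((l : ℤ) * M) := by
            rw [hb, Nat.cast_mul, mul_assoc]
    have h2 : |m j| ≤ (l : ℤ) * M := le_of_mul_le_mul_left h1 hN'
    refine h2.trans (mul_le_mul_of_nonneg_right ?_ hM0)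
    exact_mod_cast hl
  refine ⟨⟨fun j => ?_, fun j => ?_⟩, ⟨Nat.zero_le _, hl⟩⟩
  · exact (abs_le.1 (hj j)).1
  · exact (abs_le.1 (hj j)).2

private theorem V01_one {d : ℕ} (A : Finset (Fin d → ℤ)) {a : Fin d → ℤ} (ha : a ∈ A) :
    InCone A a 1 := by
  classical
  refine ⟨1, fun x => if x = a then 1 else 0, one_pos, ?_, fun j => ?_⟩
  · rw [Finset.sum_ite_eq' A a fun _ => 1, if_pos ha]
  · rw [Finset.sum_eq_single a]
    · show (((if a = a then 1 else 0 : ℕ)) : ℤ) * a j = _
      rw [if_pos rfl]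
    · intro x _ hx
      show (((if x = a then 1 else 0 : ℕ)) : ℤ) * x j = _
      rw [if_neg hx, Nat.cast_zero, zero_mul]
    · intro h
      exact absurd ha h

theorem exists_gens {d : ℕ} (A : Finset (Fin d → ℤ)) (hA : A.Nonempty) :
    ∃ (n : ℕ) (e : Fin (n + 1) → Fin d → ℤ) (w : Fin (n + 1) → ℕ)
      (o : (Fin d → ℤ) → Fin (n + 1)), Gens A e w o := by
  classical
  obtain ⟨T, hT⟩ : ∃ T : Set ((Fin d → ℤ) × ℕ),
      T = {x | InCone A x.1 x.2 ∧ 1 ≤ x.2 ∧ x.2 ≤ A.card} := ⟨_, rfl⟩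
  have hTf : T.Finite := by
    rw [hT]
    exact V01_fin A A.card
  have hL : 1 ≤ A.card := Finset.card_pos.2 hA
  have hTm : ∀ x, x ∈ T ↔ InCone A x.1 x.2 ∧ 1 ≤ x.2 ∧ x.2 ≤ A.card := by
    intro x
    rw [hT]
    rfl
  have hTa : ∀ a ∈ A, ((a, 1) : (Fin d → ℤ) × ℕ) ∈ T := fun a ha =>
    (hTm _).2 ⟨V01_one A ha, le_refl 1, hL⟩
  have hTfin : Finite T := hTf
  obtain ⟨n, ⟨φ⟩⟩ := Finite.exists_equiv_fin T
  obtain ⟨a0, ha0⟩ := hA
  cases n with
  | zero => exact (φ ⟨(a0, 1), hTa a0 ha0⟩).elim0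
  | succ n =>
    obtain ⟨o, ho⟩ : ∃ o : (Fin d → ℤ) → Fin (n + 1),
        ∀ m (hm : m ∈ A), o m = φ ⟨(m, 1), hTa m hm⟩ :=
      ⟨fun m => if hm : m ∈ A then φ ⟨(m, 1), hTa m hm⟩ else 0, fun m hm => dif_pos hm⟩
    have hone : ∀ m ∈ A, (φ.symm (o m)).1.1 = m ∧ (φ.symm (o m)).1.2 = 1 := by
      intro m hm
      rw [ho m hm, φ.symm_apply_apply]
      exact ⟨rfl, rfl⟩
    refine ⟨n, fun j => (φ.symm j).1.1, fun j => (φ.symm j).1.2, o, ?_, ?_, ?_, hone⟩
    · intro j
      exact ((hTm _).1 (φ.symm j).2).1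
    · intro j
      exact ((hTm _).1 (φ.symm j).2).2.1
    · rintro m l ⟨N, b, hN, hb, hbm⟩
      have hN' : (0 : ℤ) < N := by exact_mod_cast hN
      have hdm : ∀ a, b a = N * (b a / N) + b a % N := fun a => (Nat.div_add_mod (b a) N).symm
      have h1 : N * ∑ a ∈ A, b a / N + ∑ a ∈ A, b a % N = N * l := by
        rw [Finset.mul_sum, ← Finset.sum_add_distrib, ← hb]
        exact Finset.sum_congr rfl fun a _ => (hdm a).symm
      have h2 : ∑ a ∈ A, b a / N ≤ l := by
        have h3 : N * ∑ a ∈ A, b a / N ≤ N * l := by omega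
        exact Nat.le_of_mul_le_mul_left h3 hN
      obtain ⟨l', hl'⟩ := Nat.exists_eq_add_of_le h2
      have h4 : ∑ a ∈ A, b a % N = N * l' := by
        rw [hl', Nat.mul_add] at h1
        omega
      obtain ⟨m', hm'⟩ : ∃ m' : Fin d → ℤ, ∀ j, m' j = m j - ∑ a ∈ A, ((b a / N : ℕ) : ℤ) * a j :=
        ⟨_, fun _ => rfl⟩
      have h5 : ∀ j, ∑ a ∈ A, ((b a % N : ℕ) : ℤ) * a j = N * m' j := by
        intro j
        rw [hm', mul_sub, ← hbm j, Finset.mul_sum, ← Finset.sum_sub_distrib]
        refine Finset.sum_congr rfl fun a _ => ?_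
        have h6 : (b a : ℤ) = N * ((b a / N : ℕ) : ℤ) + ((b a % N : ℕ) : ℤ) := by
          exact_mod_cast hdm a
        rw [h6]
        ring
      have h7 : l' ≤ A.card := by
        have h8 : N * l' ≤ N * A.card := by
          rw [← h4, mul_comm, ← smul_eq_mul]
          refine Finset.sum_le_card_nsmul _ _ _ fun a _ => ?_
          exact (Nat.mod_lt _ hN).le
        exact Nat.le_of_mul_le_mul_left h8 hN
      rcases Nat.eq_zero_or_pos l' with h0 | h0
      · have h9 : ∀ j, m' j = 0 := by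
          intro j
          have h10 : ∀ a ∈ A, b a % N = 0 := by
            rw [h0, Nat.mul_zero] at h4
            exact (Finset.sum_eq_zero_iff).1 h4
          have h11 := h5 j
          rw [Finset.sum_eq_zero fun a ha => by rw [h10 a ha, Nat.cast_zero, zero_mul]] at h11
          exact (mul_eq_zero.1 h11.symm).resolve_left hN'.ne'
        refine ⟨fun j => ∑ a ∈ A, if o a = j then b a / N else 0, ?_, fun i => ?_⟩
        · have h10 := V01_sum A (fun a => b a / N) o fun j => (φ.symm j).1.2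
          simp only [Nat.cast_id] at h10
          rw [h10, hl', h0, add_zero]
          exact Finset.sum_congr rfl fun a ha => by rw [(hone a ha).2, Nat.mul_one]
        · have h10 := V01_sum A (fun a => b a / N) o fun j => (φ.symm j).1.1 i
          rw [h10]
          have h11 := hm' i
          rw [h9] at h11
          rw [Finset.sum_congr rfl fun a ha => by rw [(hone a ha).1]]
          linarith
      · have hx : ((m', l') : (Fin d → ℤ) × ℕ) ∈ T :=
          (hTm _).2 ⟨⟨N, fun a => b a % N, hN, h4, h5⟩, h0, h7⟩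
        refine ⟨fun j => (∑ a ∈ A, if o a = j then b a / N else 0) +
          if φ ⟨_, hx⟩ = j then 1 else 0, ?_, fun i => ?_⟩
        · have h10 := V01_sum A (fun a => b a / N) o fun j => (φ.symm j).1.2
          simp only [Nat.cast_id] at h10
          simp only [Nat.add_mul]
          rw [Finset.sum_add_distrib, h10]
          have h12 : ∑ j, (if φ ⟨_, hx⟩ = j then 1 else 0) * (φ.symm j).1.2 = l' := by
            rw [Finset.sum_eq_single (φ ⟨_, hx⟩)]
            · rw [if_pos rfl, φ.symm_apply_apply, Nat.one_mul]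
            · intro j _ hj
              rw [if_neg (Ne.symm hj), Nat.zero_mul]
            · intro hj
              exact absurd (Finset.mem_univ _) hj
          rw [h12, hl']
          congr 1
          exact Finset.sum_congr rfl fun a ha => by rw [(hone a ha).2, Nat.mul_one]
        · have h10 := V01_sum A (fun a => b a / N) o fun j => (φ.symm j).1.1 i
          simp only [Nat.cast_add, add_mul]
          rw [Finset.sum_add_distrib, h10]
          have h12 : ∑ j, (((if φ ⟨_, hx⟩ = j then 1 else 0 : ℕ)) : ℤ) * (φ.symm j).1.1 i = m' i := by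
            rw [Finset.sum_eq_single (φ ⟨_, hx⟩)]
            · rw [if_pos rfl, φ.symm_apply_apply, Nat.cast_one, one_mul]
            · intro j _ hj
              rw [if_neg (Ne.symm hj), Nat.cast_zero, zero_mul]
            · intro hj
              exact absurd (Finset.mem_univ _) hj
          rw [h12, Finset.sum_congr rfl fun a ha => by rw [(hone a ha).1]]
          have h11 := hm' i
          linarith

end Pool.Agent.Lib.MP_1e3e9c_agV
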