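import Pool.Agent.Lib.MP_1e3e9c_agV.V03a
import Pool.Agent.Lib.MP_1e3e9c_agR.B5

/-! LEAF V12a (medium-).  The value of the curve at a point of the projective line.

PROOF.  For a polynomial `q` and `N` let `f N q = ∑ j ∈ range (N+1), q_j s_0^(N-j) s_1^j`.  If `deg q ≤ N`, `deg r ≤ M` then `f (N+M) (q r) = f N q * f M r`, and `f (e N) (q^e) = (f N q)^e` (for `s 0 ≠ 0`: `f N q = s_0^N q(s_1 / s_0)`, `Polynomial.eval_eq_sum_range'`; for `s 0 = 0`: `f N q = q_N s_1^N`, `Polynomial.coeff_mul_of_natDegree_le`).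
So `f (∑ a_i e_i) (∏ p_i^(e_i)) = ∏ (f a_i p_i)^(e_i) = ∏ hb a p s i ^ e_i` for `e_i = ex v h m l i`, and `∑ a_i e_i = l g` (`sum_ex`); `f` is linear in `q` (the constant `mn x m`).  `hv_cd`: the case `m = e j`, `l = w j` (`hg.cone`), `hv` is this sum by definition. -/

set_option autoImplicit false

namespace Pool.Agent.Lib.MP_1e3e9c_agV

open Polynomial Pool.Agent.Lib.MP_1e3e9c_agR

variable {k : Type} [Field k] {d r n : ℕ} {A : Finset (Fin d → ℤ)} {v : Fin r → Fin d → ℤ}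
  {a : Fin r → ℕ} {h : Fin r → ℤ}

private noncomputable def V12a_f (N : ℕ) (q : k[X]) (s : Fin 2 → k) : k :=
  ∑ j ∈ Finset.range (N + 1), q.coeff j * s 0 ^ (N - j) * s 1 ^ j

private theorem V12a_ne {N : ℕ} {q : k[X]} (hq : q.natDegree ≤ N) {s : Fin 2 → k} (hs : s 0 ≠ 0) :
    V12a_f N q s = s 0 ^ N * q.eval (s 1 / s 0) := by
  unfold V12a_f
  rw [Polynomial.eval_eq_sum_range' (Nat.lt_succ_of_le hq), Finset.mul_sum]
  refine Finset.sum_congr rfl fun j hj => ?_
  have hj' : j ≤ N := Nat.lt_succ_iff.1 (Finset.mem_range.1 hj)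
  have h1 : s 0 ^ N = s 0 ^ (N - j) * s 0 ^ j := by
    rw [← pow_add, Nat.sub_add_cancel hj']
  rw [h1, div_pow]
  have h2 : s 0 ^ j ≠ 0 := pow_ne_zero _ hs
  field_simp

private theorem V12a_zero (N : ℕ) (q : k[X]) {s : Fin 2 → k} (hs : s 0 = 0) :
    V12a_f N q s = q.coeff N * s 1 ^ N := by
  unfold V12a_f
  rw [Finset.sum_eq_single N]
  · rw [Nat.sub_self, pow_zero, mul_one]
  · intro j hj hjN
    have hj' : j < N := lt_of_le_of_ne (Nat.lt_succ_iff.1 (Finset.mem_range.1 hj)) hjN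
    rw [hs, zero_pow (by omega), mul_zero, zero_mul]
  · intro h
    exact absurd (Finset.mem_range.2 (Nat.lt_succ_self N)) h

private theorem V12a_mul {N M : ℕ} {q r : k[X]} (hq : q.natDegree ≤ N) (hr : r.natDegree ≤ M)
    (s : Fin 2 → k) : V12a_f (N + M) (q * r) s = V12a_f N q s * V12a_f M r s := by
  by_cases hs : s 0 = 0
  · rw [V12a_zero _ _ hs, V12a_zero _ _ hs, V12a_zero _ _ hs,
      Polynomial.coeff_mul_add_eq_of_natDegree_le hq hr, pow_add]
    ring
  · rw [V12a_ne (Polynomial.natDegree_mul_le_of_le hq hr) hs, V12a_ne hq hs, V12a_ne hr hs,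
      Polynomial.eval_mul, pow_add]
    ring

private theorem V12a_pow {N : ℕ} {q : k[X]} (hq : q.natDegree ≤ N) (e : ℕ) (s : Fin 2 → k) :
    V12a_f (N * e) (q ^ e) s = V12a_f N q s ^ e := by
  induction e with
  | zero =>
    rw [mul_zero, pow_zero, pow_zero]
    unfold V12a_f
    rw [Finset.sum_range_one, Polynomial.coeff_one_zero, Nat.sub_zero, pow_zero, pow_zero, mul_one,
      mul_one]
  | succ e ih =>
    have h1 : (q ^ e).natDegree ≤ N * e := by
      refine Polynomial.natDegree_pow_le.trans ?_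
      rw [mul_comm]
      exact Nat.mul_le_mul_right e hq
    rw [Nat.mul_succ, pow_succ, V12a_mul h1 hq, ih, pow_succ]

private theorem V12a_prod {a e : Fin r → ℕ} {p : Fin r → k[X]} (hp : ∀ i, (p i).natDegree ≤ a i)
    (s : Fin 2 → k) (S : Finset (Fin r)) :
    V12a_f (∑ i ∈ S, a i * e i) (∏ i ∈ S, p i ^ e i) s =
      ∏ i ∈ S, V12a_f (a i) (p i) s ^ e i := by
  classical
  induction S using Finset.induction_on with
  | empty =>
    rw [Finset.sum_empty, Finset.prod_empty, Finset.prod_empty]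
    unfold V12a_f
    rw [Finset.sum_range_one, Polynomial.coeff_one_zero, Nat.sub_zero, pow_zero, pow_zero, mul_one,
      mul_one]
  | insert i S hi ih =>
    have h1 : ∀ i, (p i ^ e i).natDegree ≤ a i * e i := by
      intro i
      refine Polynomial.natDegree_pow_le.trans ?_
      rw [mul_comm]
      exact Nat.mul_le_mul_right _ (hp i)
    have h2 : (∏ i ∈ S, p i ^ e i).natDegree ≤ ∑ i ∈ S, a i * e i :=
      (Polynomial.natDegree_prod_le _ _).trans (Finset.sum_le_sum fun i _ => h1 i)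
    rw [Finset.sum_insert hi, Finset.prod_insert hi, Finset.prod_insert hi, V12a_mul (h1 i) h2, ih,
      V12a_pow (hp i)]

theorem form_cd (hR : Rel0 A v a h) {g : ℕ} (hgg : (g : ℤ) = ∑ i, (a i : ℤ) * h i)
    (x : Fin d → k) {p : Fin r → k[X]} (hp : ∀ i, (p i).natDegree ≤ a i) (s : Fin 2 → k)
    {m : Fin d → ℤ} {l : ℕ} (hm : InCone A m l) :
    ∑ j ∈ Finset.range (l * g + 1), (cd v h x p m l).coeff j * s 0 ^ (l * g - j) * s 1 ^ j =
      mn x m * ∏ i, hb a p s i ^ ex v h m l i := by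
  have h1 : V12a_f (l * g) (cd v h x p m l) s =
      mn x m * V12a_f (l * g) (∏ i, p i ^ ex v h m l i) s := by
    unfold V12a_f cd
    rw [Finset.mul_sum]
    refine Finset.sum_congr rfl fun j _ => ?_
    rw [Polynomial.coeff_C_mul]
    ring
  show V12a_f (l * g) (cd v h x p m l) s = _
  rw [h1, ← sum_ex hR hgg hm, V12a_prod hp s Finset.univ]
  rfl

theorem hv_cd {e : Fin (n + 1) → Fin d → ℤ} {w : Fin (n + 1) → ℕ}
    {o : (Fin d → ℤ) → Fin (n + 1)} (hR : Rel0 A v a h) (hg : Gens A e w o) {g : ℕ}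
    (hgg : (g : ℤ) = ∑ i, (a i : ℤ) * h i) (x : Fin d → k) {p : Fin r → k[X]}
    (hp : ∀ i, (p i).natDegree ≤ a i) (s : Fin 2 → k) (j : Fin (n + 1)) :
    hv w g (fun j => cd v h x p (e j) (w j)) s j =
      mn x (e j) * ∏ i, hb a p s i ^ ex v h (e j) (w j) i := by
  exact form_cd hR hgg x hp s (hg.cone j)

end Pool.Agent.Lib.MP_1e3e9c_agV
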