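import Pool.Agent.Lib.MP_1e3e9c_agV.VDefs

/-! LEAF V14a (easy+).  A vector which separates finitely many vectors; zeros in the torus of a Laurent polynomial with two terms.

PROOF.  `exists_sep`: the polynomial `P = ∏_(δ ∈ T) ∑_j C (δ_j) X^j ∈ ℤ[X]` is not `0` (its factors have a nonzero coefficient), so `P.eval b ≠ 0` for some `b : ℤ` (`Polynomial.funext`); `u_j = b^j`.
`single_of_no_zero`: let `S = {m ∈ A | c m ≠ 0}`.  If `S` is empty then `x = 1` is a zero (or: take any `m₀ ∈ A`).  If `S` has at most one element take it for `m₀`.  Otherwise let `m₁ ≠ m₂` be in `S` and `u` = the vector of `exists_sep` for `T` = the set of the differences `m - m'`, `m ≠ m'` in `A`: the numbers `pr m u`, `m ∈ S`, are different.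
Let `n₀` be the least of them, and `Q = ∑_(m ∈ S) C (c m) X^((pr m u - n₀).toNat) ∈ k[X]`: its coefficient of degree `0` is a `c m ≠ 0`, and its degree is `> 0` (it has the coefficient `c m' ≠ 0` at some positive exponent).  It has a root `t` (`IsAlgClosed.exists_root`), `t ≠ 0`.  `x_j = t^(u_j)`: `mn x m = t^(pr m u)` (`zpow`),
so `∑_A c_m mn x m = t^(n₀) Q(t) = 0`: contradiction. -/

set_option autoImplicit false

namespace Pool.Agent.Lib.MP_1e3e9c_agV

private theorem V14a_coeff {R : Type} [CommRing R] {ι : Type} [DecidableEq ι] (S : Finset ι) (c : ι → R)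
    (f : ι → ℕ) (hf : Set.InjOn f S) {i : ι} (hi : i ∈ S) :
    (∑ j ∈ S, Polynomial.C (c j) * Polynomial.X ^ f j).coeff (f i) = c i := by
  rw [Polynomial.finsetSum_coeff, Finset.sum_eq_single i]
  · rw [Polynomial.coeff_C_mul_X_pow, if_pos rfl]
  · intro j hj hne
    rw [Polynomial.coeff_C_mul_X_pow, if_neg]
    intro h
    exact hne (hf hj hi h.symm)
  · intro h
    exact absurd hi h

theorem exists_sep {d : ℕ} (T : Finset (Fin d → ℤ)) (hT : ∀ δ ∈ T, δ ≠ 0) :
    ∃ u : Fin d → ℤ, ∀ δ ∈ T, pr δ u ≠ 0 := by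
  classical
  obtain ⟨P, hP⟩ : ∃ P : (Fin d → ℤ) → Polynomial ℤ,
      ∀ δ, P δ = ∑ j ∈ (Finset.univ : Finset (Fin d)), Polynomial.C (δ j) * Polynomial.X ^ (j : ℕ) :=
    ⟨_, fun _ => rfl⟩
  have hne : ∏ δ ∈ T, P δ ≠ 0 := by
    rw [Finset.prod_ne_zero_iff]
    intro δ hδ h
    refine hT δ hδ (funext fun i => ?_)
    have h1 := V14a_coeff (Finset.univ : Finset (Fin d)) (fun j => δ j) (fun j => (j : ℕ))
      (fun a _ b _ hab => Fin.ext hab) (Finset.mem_univ i)
    rw [← hP, h, Polynomial.coeff_zero] at h1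
    exact h1.symm
  obtain ⟨b, hb⟩ : ∃ b : ℤ, (∏ δ ∈ T, P δ).eval b ≠ 0 := by
    by_contra hcon
    push Not at hcon
    exact hne (Polynomial.funext fun r => by rw [hcon r, Polynomial.eval_zero])
  refine ⟨fun j => b ^ (j : ℕ), fun δ hδ h => hb ?_⟩
  rw [Polynomial.eval_prod]
  refine Finset.prod_eq_zero hδ ?_
  rw [hP, Polynomial.eval_finsetSum, ← h]
  refine Finset.sum_congr rfl fun j _ => ?_
  rw [Polynomial.eval_mul, Polynomial.eval_C, Polynomial.eval_pow, Polynomial.eval_X]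

private theorem V14a_zpow {k : Type} [Field k] {ι : Type} (s : Finset ι) (t : k) (ht : t ≠ 0) (f : ι → ℤ) :
    ∏ j ∈ s, t ^ f j = t ^ ∑ j ∈ s, f j := by
  classical
  induction s using Finset.induction_on with
  | empty => simp
  | insert a s ha ih => rw [Finset.prod_insert ha, Finset.sum_insert ha, zpow_add₀ ht, ih]

theorem single_of_no_zero {k : Type} [Field k] [IsAlgClosed k] {d : ℕ} {A : Finset (Fin d → ℤ)}
    {c : (Fin d → ℤ) → k} (hA : A.Nonempty)
    (hno : ¬ ∃ x : Fin d → k, (∀ j, x j ≠ 0) ∧ ∑ m ∈ A, c m * mn x m = 0) :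
    ∃ m0 ∈ A, ∀ m ∈ A, m ≠ m0 → c m = 0 := by
  classical
  by_contra hcon
  push Not at hcon
  obtain ⟨m0, hm0⟩ := hA
  obtain ⟨m1, hm1, -, hc1⟩ := hcon m0 hm0
  obtain ⟨m2, hm2, h21, hc2⟩ := hcon m1 hm1
  obtain ⟨S, hS⟩ : ∃ S : Finset (Fin d → ℤ), S = A.filter fun m => c m ≠ 0 := ⟨_, rfl⟩
  have hS1 : m1 ∈ S := by
    rw [hS, Finset.mem_filter]
    exact ⟨hm1, hc1⟩
  have hS2 : m2 ∈ S := by
    rw [hS, Finset.mem_filter]
    exact ⟨hm2, hc2⟩
  obtain ⟨u, hu⟩ := exists_sep (S.offDiag.image fun z => z.1 - z.2) (by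
    intro δ hδ
    rw [Finset.mem_image] at hδ
    obtain ⟨z, hz, rfl⟩ := hδ
    exact sub_ne_zero.2 (Finset.mem_offDiag.1 hz).2.2)
  have hsep : ∀ m ∈ S, ∀ m' ∈ S, m ≠ m' → pr m u ≠ pr m' u := by
    intro m hm m' hm' hne h
    refine hu (m - m') (Finset.mem_image.2 ⟨(m, m'), Finset.mem_offDiag.2 ⟨hm, hm', hne⟩, rfl⟩) ?_
    have h1 : pr (m - m') u = pr m u - pr m' u := by
      unfold pr
      rw [← Finset.sum_sub_distrib]
      refine Finset.sum_congr rfl fun j _ => ?_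
      rw [Pi.sub_apply, sub_mul]
    rw [h1, h, sub_self]
  obtain ⟨a, haS, ha⟩ := Finset.exists_min_image S (fun m => pr m u) ⟨m1, hS1⟩
  have ha' : ∀ m ∈ S, pr a u ≤ pr m u := ha
  obtain ⟨Q, hQ⟩ : ∃ Q : Polynomial k,
      Q = ∑ m ∈ S, Polynomial.C (c m) * Polynomial.X ^ (pr m u - pr a u).toNat := ⟨_, rfl⟩
  have hinj : Set.InjOn (fun m => (pr m u - pr a u).toNat) (S : Set (Fin d → ℤ)) := by
    intro m hm m' hm' h
    by_contra hne
    have h1 := hsep m hm m' hm' hne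
    have h2 := ha' m hm
    have h3 := ha' m' hm'
    have h4 : (pr m u - pr a u).toNat = (pr m' u - pr a u).toNat := h
    omega
  have hco : ∀ m ∈ S, Q.coeff (pr m u - pr a u).toNat = c m := by
    intro m hm
    rw [hQ]
    exact V14a_coeff S c _ hinj hm
  have hcS : ∀ m ∈ S, c m ≠ 0 := by
    intro m hm
    rw [hS] at hm
    exact (Finset.mem_filter.1 hm).2
  have hQ0 : Q.coeff 0 ≠ 0 := by
    have h1 := hco a haS
    rw [sub_self, Int.toNat_zero] at h1
    rw [h1]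
    exact hcS a haS
  obtain ⟨m', hm', hne'⟩ : ∃ m' ∈ S, m' ≠ a := by
    by_cases h : m1 = a
    · exact ⟨m2, hS2, fun h2 => h21 (h2.trans h.symm)⟩
    · exact ⟨m1, hS1, h⟩
  have hdeg : Q.degree ≠ 0 := by
    intro h
    have h1 : Q.natDegree = 0 := Polynomial.natDegree_eq_of_degree_eq_some h
    have h2 := hco m' hm'
    have h3 := hsep m' hm' a haS hne'
    have h4 := ha' m' hm'
    rw [Polynomial.coeff_eq_zero_of_natDegree_lt (by omega)] at h2
    exact hcS m' hm' h2.symm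
  obtain ⟨t, ht⟩ := IsAlgClosed.exists_root Q hdeg
  have ht0 : t ≠ 0 := by
    rintro rfl
    apply hQ0
    rw [Polynomial.coeff_zero_eq_eval_zero]
    exact ht
  refine hno ⟨fun j => t ^ u j, fun j => zpow_ne_zero _ ht0, ?_⟩
  have hmn : ∀ m : Fin d → ℤ, mn (fun j => t ^ u j) m = t ^ pr m u := by
    intro m
    unfold mn pr
    rw [← V14a_zpow _ t ht0]
    refine Finset.prod_congr rfl fun j _ => ?_
    rw [← zpow_mul, mul_comm]
  have h1 : ∑ m ∈ A, c m * mn (fun j => t ^ u j) m = ∑ m ∈ S, c m * mn (fun j => t ^ u j) m := by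
    symm
    rw [hS]
    refine Finset.sum_subset (Finset.filter_subset _ _) fun m hm hm' => ?_
    have h2 : c m = 0 := by
      by_contra h
      exact hm' (Finset.mem_filter.2 ⟨hm, h⟩)
    rw [h2, zero_mul]
  have h2 : ∑ m ∈ S, c m * mn (fun j => t ^ u j) m = t ^ pr a u * Q.eval t := by
    rw [hQ, Polynomial.eval_finsetSum, Finset.mul_sum]
    refine Finset.sum_congr rfl fun m hm => ?_
    rw [hmn, Polynomial.eval_mul, Polynomial.eval_C, Polynomial.eval_pow, Polynomial.eval_X]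
    have h3 : t ^ pr m u = t ^ pr a u * t ^ (pr m u - pr a u).toNat := by
      rw [← zpow_natCast, Int.toNat_of_nonneg (sub_nonneg.2 (ha' m hm)), ← zpow_add₀ ht0]
      congr 1
      ring
    rw [h3]
    ring
  rw [h1, h2]
  have h3 : Q.eval t = 0 := ht
  rw [h3, mul_zero]

end Pool.Agent.Lib.MP_1e3e9c_agV
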