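import Pool.Agent.Lib.MP_1e3e9c_agV.VDef2

/-! LEAF V15a (medium).  The least weight of a product.

PROOF.  `exists_min`: a finite nonempty set has a least element.  `min_mul`: the ring homomorphism `φ : MvPolynomial (Fin d) k → LaurentPolynomial (MvPolynomial (Fin d) k)`, `X_j ↦ C (X_j) * T (u j)`, `C c ↦ C (C c)` (`MvPolynomial.eval₂Hom`) maps the monomial `c X^m` to `C (c X^m) * T (wt u m)`; the coefficient of degree `n` of `φ P` is the sum of the terms of `P` of weight `n`.
So `IsMin P u w` iff the coefficient of degree `w` of `φ P` is not `0` and those of smaller degree are `0`.  For `φ (P Q) = φ P φ Q` the coefficient of degree `n < w + w'` is `0` and that of degree `w + w'` is the product of the coefficients of degree `w`, `w'` (`MvPolynomial` is a domain).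
OTHER WAY: `MvPolynomial.weightedHomogeneousComponent u` (weights in `ℤ`): `P_n` = the sum of the terms of weight `n`; `P Q = ∑ P_n Q_n'`; the component of weight `n` of `P Q` is `∑_(n' + n'' = n) P_n' Q_n''` (`MvPolynomial.IsWeightedHomogeneous.mul`), for `n = w + w'` it is `P_w Q_w' ≠ 0`, for `n < w + w'` it is `0`. -/

set_option autoImplicit false

namespace Pool.Agent.Lib.MP_1e3e9c_agV

variable {k : Type} [Field k] {d : ℕ}

private theorem V15a_wt (u : Fin d → ℤ) (m : Fin d →₀ ℕ) : Finsupp.weight u m = wt u m := by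
  rw [Finsupp.weight_apply, Finsupp.sum_fintype _ _ fun i => by simp]
  unfold wt
  refine Finset.sum_congr rfl fun j _ => ?_
  rw [nsmul_eq_mul]

private theorem V15a_add (u : Fin d → ℤ) (m n : Fin d →₀ ℕ) : wt u (m + n) = wt u m + wt u n := by
  unfold wt
  rw [← Finset.sum_add_distrib]
  refine Finset.sum_congr rfl fun j _ => ?_
  rw [Finsupp.add_apply]
  push_cast
  ring

theorem exists_min {P : MvPolynomial (Fin d) k} (hP : P ≠ 0) (u : Fin d → ℤ) :
    ∃ w, IsMin P u w := by
  obtain ⟨m, hm, hmin⟩ := Finset.exists_min_image P.support (wt u) (MvPolynomial.support_nonempty.2 hP)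
  exact ⟨wt u m, hmin, m, hm, rfl⟩

theorem min_mul {P Q : MvPolynomial (Fin d) k} {u : Fin d → ℤ} {w w' : ℤ} (hP : IsMin P u w)
    (hQ : IsMin Q u w') : IsMin (P * Q) u (w + w') := by
  classical
  have key : ∀ n : Fin d →₀ ℕ, wt u n = w + w' →
      MvPolynomial.coeff n (P * Q) = MvPolynomial.coeff n
        (MvPolynomial.weightedHomogeneousComponent u w P *
          MvPolynomial.weightedHomogeneousComponent u w' Q) := by
    intro n hn
    rw [MvPolynomial.coeff_mul, MvPolynomial.coeff_mul]
    refine Finset.sum_congr rfl fun x hx => ?_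
    have hx' : x.1 + x.2 = n := Finset.HasAntidiagonal.mem_antidiagonal.1 hx
    have hsum : wt u x.1 + wt u x.2 = w + w' := by
      rw [← V15a_add, hx', hn]
    rw [MvPolynomial.coeff_weightedHomogeneousComponent, MvPolynomial.coeff_weightedHomogeneousComponent,
      V15a_wt, V15a_wt]
    by_cases h1 : wt u x.1 = w
    · have h2 : wt u x.2 = w' := by omega
      rw [if_pos h1, if_pos h2]
    · rw [if_neg h1, zero_mul]
      by_contra hne
      have hp : MvPolynomial.coeff x.1 P ≠ 0 := left_ne_zero_of_mul hne
      have hq : MvPolynomial.coeff x.2 Q ≠ 0 := right_ne_zero_of_mul hne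
      have h3 := hP.1 x.1 (MvPolynomial.mem_support_iff.2 hp)
      have h4 := hQ.1 x.2 (MvPolynomial.mem_support_iff.2 hq)
      omega
  have hPw : MvPolynomial.weightedHomogeneousComponent u w P ≠ 0 := by
    obtain ⟨m, hm, hw⟩ := hP.2
    intro h0
    have h1 := congrArg (MvPolynomial.coeff m) h0
    rw [MvPolynomial.coeff_weightedHomogeneousComponent, V15a_wt, if_pos hw, MvPolynomial.coeff_zero] at h1
    exact MvPolynomial.mem_support_iff.1 hm h1
  have hQw : MvPolynomial.weightedHomogeneousComponent u w' Q ≠ 0 := by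
    obtain ⟨m, hm, hw⟩ := hQ.2
    intro h0
    have h1 := congrArg (MvPolynomial.coeff m) h0
    rw [MvPolynomial.coeff_weightedHomogeneousComponent, V15a_wt, if_pos hw, MvPolynomial.coeff_zero] at h1
    exact MvPolynomial.mem_support_iff.1 hm h1
  constructor
  · intro n hn
    have h1 := MvPolynomial.mem_support_iff.1 hn
    rw [MvPolynomial.coeff_mul] at h1
    obtain ⟨x, hx, hne⟩ := Finset.exists_ne_zero_of_sum_ne_zero h1
    have hx' : x.1 + x.2 = n := Finset.HasAntidiagonal.mem_antidiagonal.1 hx
    have h3 := hP.1 x.1 (MvPolynomial.mem_support_iff.2 (left_ne_zero_of_mul hne))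
    have h4 := hQ.1 x.2 (MvPolynomial.mem_support_iff.2 (right_ne_zero_of_mul hne))
    rw [← hx', V15a_add]
    omega
  · obtain ⟨n, hn⟩ := MvPolynomial.support_nonempty.2 (mul_ne_zero hPw hQw)
    have h1 := MvPolynomial.mem_support_iff.1 hn
    have h1' := h1
    rw [MvPolynomial.coeff_mul] at h1
    obtain ⟨x, hx, hne⟩ := Finset.exists_ne_zero_of_sum_ne_zero h1
    have hx' : x.1 + x.2 = n := Finset.HasAntidiagonal.mem_antidiagonal.1 hx
    rw [MvPolynomial.coeff_weightedHomogeneousComponent, MvPolynomial.coeff_weightedHomogeneousComponent,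
      V15a_wt, V15a_wt] at hne
    have h3 : wt u x.1 = w := by
      by_contra h
      rw [if_neg h, zero_mul] at hne
      exact hne rfl
    have h4 : wt u x.2 = w' := by
      by_contra h
      rw [if_neg h, mul_zero] at hne
      exact hne rfl
    have hwt : wt u n = w + w' := by
      rw [← hx', V15a_add, h3, h4]
    refine ⟨n, MvPolynomial.mem_support_iff.2 ?_, hwt⟩
    rw [key n hwt]
    exact h1'

end Pool.Agent.Lib.MP_1e3e9c_agV
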