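import Pool.Agent.Lib.MP_1e3e9c_agV.V15a

/-! LEAF V15b (easy+).  The width of a double factor.

PROOF.  `sum_min_nonpos`: for any `m` in the support of `P ≠ 0` (there is one: `hw` if `0 < r`; if `r = 0` the sum is `0`) `∑ a_i w_i ≤ ∑ a_i wt (v i) m = ∑_j m_j ∑_i a_i v_ij = 0`.  `half`: let `FP = H^2 Q`, `Q ≠ 0`, and let `q_i` be the least weight of `Q` for `v i` (`exists_min`).  By `min_mul` the least weight of `FP` for `v i` is `2 w_i + q_i`; it is attained at a monomial `X^n` of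
`FP`; `n = m + s` for an `m ∈ A` with `m + s ≥ 0` (the support of `FP` is contained in the set of the exponents `(m_j + s_j).toNat`, `m ∈ A`), so `2 w_i + q_i = pr m (v i) + pr s (v i) ≥ - h_i + pr s (v i)` (`hR.ge`).  Multiply by `a_i` and sum: `∑ a_i pr s (v i) = 0`, so `2 ∑ a_i w_i + ∑ a_i q_i ≥ - ∑ a_i h_i`,
and `∑ a_i q_i ≤ 0`. -/

set_option autoImplicit false

namespace Pool.Agent.Lib.MP_1e3e9c_agV

variable {k : Type} [Field k] {d r : ℕ} {A : Finset (Fin d → ℤ)} {c : (Fin d → ℤ) → k}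
  {v : Fin r → Fin d → ℤ} {a : Fin r → ℕ} {h : Fin r → ℤ}

private theorem v15b_term (n : Fin d →₀ ℕ) (x : k) (f : Fin d → ℕ)
    (hn : MvPolynomial.coeff n (MvPolynomial.C x * ∏ j, (MvPolynomial.X j : MvPolynomial (Fin d) k) ^ f j) ≠ 0) :
    ∀ j, n j = f j := by
  classical
  have h1 : MvPolynomial.C x * ∏ j, (MvPolynomial.X j : MvPolynomial (Fin d) k) ^ f j =
      MvPolynomial.monomial (Finsupp.equivFunOnFinite.symm f) x := by
    rw [MvPolynomial.monomial_eq, Finsupp.prod_fintype]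
    · rfl
    · intro j
      exact pow_zero _
  rw [h1, MvPolynomial.coeff_monomial] at hn
  intro j
  by_cases h2 : Finsupp.equivFunOnFinite.symm f = n
  · rw [← h2]
    rfl
  · rw [if_neg h2] at hn
    exact absurd rfl hn

private theorem v15b_rel (hrel : ∀ j, ∑ i, (a i : ℤ) * v i j = 0) (m : Fin d → ℤ) :
    ∑ i, (a i : ℤ) * ∑ j, m j * v i j = 0 := by
  have h1 : ∑ i, (a i : ℤ) * ∑ j, m j * v i j = ∑ j, m j * ∑ i, (a i : ℤ) * v i j := by
    simp only [Finset.mul_sum]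
    rw [Finset.sum_comm]
    refine Finset.sum_congr rfl fun j _ => Finset.sum_congr rfl fun i _ => ?_
    ring
  rw [h1]
  refine Finset.sum_eq_zero fun j _ => ?_
  rw [hrel j, mul_zero]

theorem sum_min_nonpos (hrel : ∀ j, ∑ i, (a i : ℤ) * v i j = 0) {P : MvPolynomial (Fin d) k}
    {w : Fin r → ℤ} (hw : ∀ i, IsMin P (v i) (w i)) : ∑ i, (a i : ℤ) * w i ≤ 0 := by
  rcases Nat.eq_zero_or_pos r with hr | hr
  · subst hr
    rw [Finset.univ_eq_empty, Finset.sum_empty]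
  · obtain ⟨m, hm, _⟩ := (hw ⟨0, hr⟩).2
    have h1 : ∑ i, (a i : ℤ) * w i ≤ ∑ i, (a i : ℤ) * ∑ j, (m j : ℤ) * v i j := by
      refine Finset.sum_le_sum fun i _ => ?_
      exact mul_le_mul_of_nonneg_left ((hw i).1 m hm) (Int.natCast_nonneg _)
    rw [v15b_rel hrel fun j => (m j : ℤ)] at h1
    exact h1

theorem half (hR : Rel0 A v a h) {s : Fin d → ℤ} (hs : ∀ m ∈ A, ∀ j, 0 ≤ m j + s j)
    {H : MvPolynomial (Fin d) k} (h2 : H ^ 2 ∣ FP A c s) (h0 : FP A c s ≠ 0) {w : Fin r → ℤ}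
    (hw : ∀ i, IsMin H (v i) (w i)) : - (2 * ∑ i, (a i : ℤ) * w i) ≤ ∑ i, (a i : ℤ) * h i := by
  classical
  obtain ⟨Q, hQ⟩ := h2
  have hQ0 : Q ≠ 0 := by
    intro h3
    rw [h3, mul_zero] at hQ
    exact h0 hQ
  choose q hq using fun i => exists_min hQ0 (v i)
  have hkey : ∀ i, - h i + pr s (v i) ≤ 2 * w i + q i := by
    intro i
    have h3 := min_mul (min_mul (hw i) (hw i)) (hq i)
    rw [← pow_two, ← hQ] at h3
    obtain ⟨n, hn, hnw⟩ := h3.2
    rw [MvPolynomial.mem_support_iff, FP, MvPolynomial.coeff_sum] at hn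
    obtain ⟨m, hmA, hm⟩ := Finset.exists_ne_zero_of_sum_ne_zero hn
    have h4 := v15b_term n (c m) (fun j => (m j + s j).toNat) hm
    have h5 : wt (v i) n = pr m (v i) + pr s (v i) := by
      unfold wt pr
      rw [← Finset.sum_add_distrib]
      refine Finset.sum_congr rfl fun j _ => ?_
      rw [h4 j, Int.toNat_of_nonneg (hs m hmA j), add_mul]
    have h6 := hR.ge m hmA i
    linarith
  have hps : ∑ i, (a i : ℤ) * pr s (v i) = 0 := v15b_rel hR.rel s
  have hsum : ∑ i, (a i : ℤ) * (- h i + pr s (v i)) ≤ ∑ i, (a i : ℤ) * (2 * w i + q i) :=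
    Finset.sum_le_sum fun i _ => mul_le_mul_of_nonneg_left (hkey i) (Int.natCast_nonneg _)
  have h7 : ∑ i, (a i : ℤ) * (- h i + pr s (v i)) = - ∑ i, (a i : ℤ) * h i + ∑ i, (a i : ℤ) * pr s (v i) := by
    rw [← Finset.sum_neg_distrib, ← Finset.sum_add_distrib]
    refine Finset.sum_congr rfl fun i _ => ?_
    ring
  have h8 : ∑ i, (a i : ℤ) * (2 * w i + q i) = 2 * ∑ i, (a i : ℤ) * w i + ∑ i, (a i : ℤ) * q i := by
    rw [Finset.mul_sum, ← Finset.sum_add_distrib]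
    refine Finset.sum_congr rfl fun i _ => ?_
    ring
  have h9 := sum_min_nonpos hR.rel hq
  rw [h7, h8, hps] at hsum
  linarith

end Pool.Agent.Lib.MP_1e3e9c_agV
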