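import Pool.Agent.Lib.MP_1e3e9c_agV.VDefs

/-! # MP_1e3e9c_ag, project V: weights of the monomials of a polynomial -/

set_option autoImplicit false

namespace Pool.Agent.Lib.MP_1e3e9c_agV

/-- The weight of the monomial `X^m` for the vector `u`. -/
def wt {d : ℕ} (u : Fin d → ℤ) (m : Fin d →₀ ℕ) : ℤ := ∑ j, (m j : ℤ) * u j

/-- `w` is the least weight of the monomials of `P`. -/
def IsMin {k : Type} [Field k] {d : ℕ} (P : MvPolynomial (Fin d) k) (u : Fin d → ℤ) (w : ℤ) :
    Prop :=
  (∀ m ∈ P.support, w ≤ wt u m) ∧ ∃ m ∈ P.support, wt u m = w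

/-- The exponents of `P`, vectors of integers. -/
noncomputable def sp {k : Type} [Field k] {d : ℕ} (P : MvPolynomial (Fin d) k) :
    Finset (Fin d → ℤ) :=
  P.support.image fun m j => (m j : ℤ)

/-- The coefficient of `P` of the exponent `m`. -/
noncomputable def cp {k : Type} [Field k] {d : ℕ} (P : MvPolynomial (Fin d) k) (m : Fin d → ℤ) :
    k :=
  P.coeff (Finsupp.equivFunOnFinite.symm fun j => (m j).toNat)

end Pool.Agent.Lib.MP_1e3e9c_agV
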