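import Pool.Agent.Lib.MP_1e3e9c_agR.B8

/-!
# MP_1e3e9c_ag, project V (rational curves on hypersurfaces of toric varieties): definitions

`A` is a finite set of points of the lattice `ℤ^d`, `Δ` its convex hull. The projective toric variety `V_Δ` is `Proj k[S]`, `S` the
monoid of the points `(m, l)` of `ℤ^d × ℕ` in the cone over `Δ × {1}` (`InCone`). A rational curve in `V_Δ` is a map `z` of monoids from `S` to
the multiplicative monoid of `k(t)`.
-/

set_option autoImplicit false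

namespace Pool.Agent.Lib.MP_1e3e9c_agV

open Polynomial

/-- The pairing of a point of the lattice `ℤ^d` and a vector of the dual lattice. -/
def pr {d : ℕ} (m u : Fin d → ℤ) : ℤ := ∑ j, m j * u j

/-- `(m, l)` is in the cone over `A × {1}`: a positive multiple of it is a sum of elements `(a, 1)`, `a ∈ A`. -/
def InCone {d : ℕ} (A : Finset (Fin d → ℤ)) (m : Fin d → ℤ) (l : ℕ) : Prop :=
  ∃ (N : ℕ) (b : (Fin d → ℤ) → ℕ), 0 < N ∧ ∑ a ∈ A, b a = N * l ∧
    ∀ j, ∑ a ∈ A, (b a : ℤ) * a j = N * m j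

/-- `z` is a nonconstant rational curve on the hypersurface `∑ c_a x^a = 0` of the toric variety of `A`. -/
structure IsCurve {k : Type} [Field k] {d : ℕ} (A : Finset (Fin d → ℤ)) (c : (Fin d → ℤ) → k)
    (z : (Fin d → ℤ) → ℕ → RatFunc k) : Prop where
  one : z 0 0 = 1
  mul : ∀ m l m' l', InCone A m l → InCone A m' l' → z (m + m') (l + l') = z m l * z m' l'
  eq : ∑ a ∈ A, RatFunc.C (c a) * z a 1 = 0
  nonconst : ∃ m m' l, InCone A m l ∧ InCone A m' l ∧ z m' l ≠ 0 ∧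
    ∀ b : k, z m l ≠ RatFunc.C b * z m' l

/-- `A` is not contained in an affine hyperplane. -/
def Full {d : ℕ} (A : Finset (Fin d → ℤ)) : Prop :=
  ∀ u : Fin d → ℤ, u ≠ 0 → ∃ m ∈ A, ∃ m' ∈ A, pr m u ≠ pr m' u

/-- The vectors `v_i` with the relation `∑ a_i v_i = 0`, `a_i ≥ 1`, and numbers `h_i ≥ - min_A ⟨., v_i⟩`. -/
structure Rel0 {d r : ℕ} (A : Finset (Fin d → ℤ)) (v : Fin r → Fin d → ℤ) (a : Fin r → ℕ)
    (h : Fin r → ℤ) : Prop where
  pos : ∀ i, 0 < a i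
  rel : ∀ j, ∑ i, (a i : ℤ) * v i j = 0
  ge : ∀ m ∈ A, ∀ i, 0 ≤ pr m (v i) + h i

/-- Moreover `v_i ≠ 0`, `h_i = - min_A ⟨., v_i⟩`, the minimum is attained at least twice, and `∑ a_i h_i ≤ ∑ a_i`. -/
structure Rel {d r : ℕ} (A : Finset (Fin d → ℤ)) (v : Fin r → Fin d → ℤ) (a : Fin r → ℕ)
    (h : Fin r → ℤ) : Prop extends Rel0 A v a h where
  ne : ∀ i, v i ≠ 0
  two : ∀ i, ∃ m ∈ A, ∃ m' ∈ A, m ≠ m' ∧ pr m (v i) + h i = 0 ∧ pr m' (v i) + h i = 0
  le : ∑ i, (a i : ℤ) * h i ≤ ∑ i, (a i : ℤ)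

/-- The relation `∑ a_i v_i = 0` is minimal. -/
def Mini {d r : ℕ} (v : Fin r → Fin d → ℤ) (a : Fin r → ℕ) : Prop :=
  ∀ e : Fin r → ℕ, (∀ i, e i ≤ a i) → (∀ j, ∑ i, (e i : ℤ) * v i j = 0) → e = 0 ∨ e = a

/-- The monomial `x^m`. -/
noncomputable def mn {K : Type} [Field K] {d : ℕ} (x : Fin d → K) (m : Fin d → ℤ) : K :=
  ∏ j, x j ^ m j

/-- The exponent of `p_i` in the coordinate `(m, l)` of the curve. -/
def ex {d r : ℕ} (v : Fin r → Fin d → ℤ) (h : Fin r → ℤ) (m : Fin d → ℤ) (l : ℕ) (i : Fin r) : ℕ :=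
  (pr m (v i) + l * h i).toNat

/-- The coordinate `(m, l)` of the curve `x ∏ p_i^(v_i)`. -/
noncomputable def cd {K : Type} [Field K] {d r : ℕ} (v : Fin r → Fin d → ℤ) (h : Fin r → ℤ)
    (x : Fin d → K) (p : Fin r → K[X]) (m : Fin d → ℤ) (l : ℕ) : K[X] :=
  C (mn x m) * ∏ i, p i ^ ex v h m l i

/-- The equation `∑ c_a x^a` on the curve. -/
noncomputable def Phi {k K : Type} [Field k] [Field K] [Algebra k K] {d r : ℕ}
    (A : Finset (Fin d → ℤ)) (c : (Fin d → ℤ) → k) (v : Fin r → Fin d → ℤ) (h : Fin r → ℤ)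
    (x : Fin d → K) (p : Fin r → K[X]) : K[X] :=
  ∑ m ∈ A, C (algebraMap k K (c m)) * cd v h x p m 1

/-- The value at `t = ∞` of the coordinate `(m, 1)` of the curve. -/
noncomputable def ld {K : Type} [Field K] {d r : ℕ} (v : Fin r → Fin d → ℤ) (a : Fin r → ℕ)
    (h : Fin r → ℤ) (x : Fin d → K) (p : Fin r → K[X]) (m : Fin d → ℤ) : K :=
  mn x m * ∏ i, (p i).coeff (a i) ^ ex v h m 1 i

/-- A contact curve with base point `x` and end point `y` (at `t = ∞`; or all coordinates vanish at `t = ∞`). -/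
structure GC {k K : Type} [Field k] [Field K] [Algebra k K] {d r : ℕ}
    (A : Finset (Fin d → ℤ)) (c : (Fin d → ℤ) → k) (v : Fin r → Fin d → ℤ) (a : Fin r → ℕ)
    (h : Fin r → ℤ) (y : (Fin d → ℤ) → k) (x : Fin d → K) (p : Fin r → K[X]) : Prop where
  ne : ∀ j, x j ≠ 0
  deg : ∀ i, (p i).natDegree ≤ a i
  zero : ∀ i, (p i).coeff 0 = 1
  dvd : X ^ (∑ i, a i - 1) ∣ Phi A c v h x p
  phi : Phi A c v h x p ≠ 0
  rat : ∀ m ∈ A, ∀ m' ∈ A, ld v a h x p m * algebraMap k K (y m') =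
    ld v a h x p m' * algebraMap k K (y m)

/-- The curve is constant: `p_i = (1 + b t)^(a_i)`. -/
def Tri {K : Type} [Field K] {r : ℕ} (a : Fin r → ℕ) (p : Fin r → K[X]) : Prop :=
  ∃ b : K, ∀ i, p i = (1 + C b * X) ^ a i

/-- The elements `(e_j, w_j)` generate the monoid of the cone; `o m` is the number of the element `(m, 1)`, `m ∈ A`. -/
structure Gens {d n : ℕ} (A : Finset (Fin d → ℤ)) (e : Fin (n + 1) → Fin d → ℤ)
    (w : Fin (n + 1) → ℕ) (o : (Fin d → ℤ) → Fin (n + 1)) : Prop where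
  cone : ∀ j, InCone A (e j) (w j)
  pos : ∀ j, 0 < w j
  gen : ∀ m l, InCone A m l → ∃ b : Fin (n + 1) → ℕ, ∑ j, b j * w j = l ∧
    ∀ i, ∑ j, (b j : ℤ) * e j i = m i
  one : ∀ m ∈ A, e (o m) = m ∧ w (o m) = 1

/-- The equations of the toric variety in the weighted projective space `P(w)`. -/
def SV {k : Type} [Field k] {d n : ℕ} (e : Fin (n + 1) → Fin d → ℤ) (w : Fin (n + 1) → ℕ) :
    Set (MvPolynomial (Fin (n + 1)) k) :=
  {Q | (∃ μ, Q.IsWeightedHomogeneous w μ) ∧ ∀ x : Fin d → k, (∀ i, x i ≠ 0) →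
    MvPolynomial.eval (fun j => mn x (e j)) Q = 0}

/-- The equation of the hypersurface in `P(w)`. -/
noncomputable def GV {k : Type} [Field k] {d n : ℕ} (A : Finset (Fin d → ℤ)) (c : (Fin d → ℤ) → k)
    (o : (Fin d → ℤ) → Fin (n + 1)) : MvPolynomial (Fin (n + 1)) k :=
  ∑ m ∈ A, MvPolynomial.C (c m) * MvPolynomial.X (o m)

/-- The set `T` is dense in the zero set of the prime polynomial `H`. -/
def Dn {k : Type} [Field k] {d : ℕ} (H : MvPolynomial (Fin d) k) (T : Set (Fin d → k)) : Prop :=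
  ∀ P : MvPolynomial (Fin d) k, (∀ x ∈ T, MvPolynomial.eval x P = 0) → H ∣ P

/-- The value at the point `s` of the projective line of the binary form of degree `a_i` of `p_i`. -/
noncomputable def hb {k : Type} [Field k] {r : ℕ} (a : Fin r → ℕ) (p : Fin r → k[X])
    (s : Fin 2 → k) (i : Fin r) : k :=
  ∑ j ∈ Finset.range (a i + 1), (p i).coeff j * s 0 ^ (a i - j) * s 1 ^ j

/-- The polynomial `x^s ∑ c_m x^m`, if `m + s ≥ 0` for all `m ∈ A`. -/
noncomputable def FP {k : Type} [Field k] {d : ℕ} (A : Finset (Fin d → ℤ)) (c : (Fin d → ℤ) → k)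
    (s : Fin d → ℤ) : MvPolynomial (Fin d) k :=
  ∑ m ∈ A, MvPolynomial.C (c m) * ∏ j, MvPolynomial.X j ^ (m j + s j).toNat

end Pool.Agent.Lib.MP_1e3e9c_agV
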